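import Mathlib
import Pool.Agent.Lib.MP_3550b5_nt.Eval

/-!
Zeros of integral `p`-adic power series in the open unit disc, and a uniform bound for the zeros
of the members of a finite-dimensional space.
-/

namespace Pool.Agent.Lib.MP_3550b5_nt

open PowerSeries

variable {p : ℕ} [hp : Fact p.Prime]

/-- Evaluation as a ring homomorphism. -/
noncomputable def evHom (z : ℤ_[p]) (hz : ‖z‖ < 1) : ℤ_[p]⟦X⟧ →+* ℤ_[p] where
  toFun f := ev f z
  map_one' := ev_one z
  map_mul' f g := ev_mul f g hz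
  map_zero' := by simp [ev]
  map_add' f g := ev_add f g hz

@[simp] lemma evHom_apply (z : ℤ_[p]) (hz : ‖z‖ < 1) (f : ℤ_[p]⟦X⟧) : evHom z hz f = ev f z := rfl

lemma ev_C (c z : ℤ_[p]) : ev (C c) z = c := by
  unfold ev
  rw [tsum_eq_single 0]
  · simp
  · intro n hn
    rw [coeff_C, if_neg hn, zero_mul]

lemma shift_summable (F : ℤ_[p]⟦X⟧) {z : ℤ_[p]} (hz : ‖z‖ < 1) (i : ℕ) :
    Summable fun j => coeff (i + j) F * z ^ j := by
  apply Summable.of_norm
  refine Summable.of_nonneg_of_le (fun _ => norm_nonneg _) (fun n => ?_)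
    (summable_geometric_of_lt_one (norm_nonneg z) hz)
  rw [norm_mul, norm_pow]
  exact mul_le_of_le_one_left (pow_nonneg (norm_nonneg _) _) (PadicInt.norm_le_one _)

lemma shift_tsum (F : ℤ_[p]⟦X⟧) {z : ℤ_[p]} (hz : ‖z‖ < 1) (i : ℕ) :
    ∑' j, coeff (i + j) F * z ^ j = coeff i F + z * ∑' j, coeff (i + 1 + j) F * z ^ j := by
  rw [(shift_summable F hz i).tsum_eq_zero_add, add_zero, pow_zero, mul_one,
    ← (shift_summable F hz (i + 1)).tsum_mul_left]
  congr 1
  refine tsum_congr fun j => ?_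
  rw [show i + (j + 1) = i + 1 + j by ring, pow_succ]
  ring

/-- The quotient of `F - F(z)` by `X - z`. -/
noncomputable def quo (F : ℤ_[p]⟦X⟧) (z : ℤ_[p]) : ℤ_[p]⟦X⟧ :=
  PowerSeries.mk fun i => ∑' j, coeff (i + 1 + j) F * z ^ j

lemma eq_quo (F : ℤ_[p]⟦X⟧) {z : ℤ_[p]} (hz : ‖z‖ < 1) :
    F = (X - C z) * quo F z + C (ev F z) := by
  ext i
  rw [map_add, sub_mul, map_sub, coeff_C_mul]
  cases i with
  | zero =>
    have h := shift_tsum F hz 0
    simp only [zero_add] at h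
    have h0 : ev F z = coeff 0 F + z * ∑' j, coeff (1 + j) F * z ^ j := h
    rw [coeff_zero_X_mul, coeff_C, if_pos rfl, quo, coeff_mk, h0]
    simp only [zero_add]
    ring
  | succ i =>
    rw [coeff_succ_X_mul, coeff_C, if_neg (Nat.succ_ne_zero i), quo, coeff_mk, coeff_mk,
      shift_tsum F hz (i + 1)]
    ring

lemma norm_eq_one_of_sub {a b : ℤ_[p]} (ha : ‖a‖ = 1) (hb : ‖b‖ < 1) : ‖a - b‖ = 1 := by
  have h1 : ‖a - b‖ ≤ 1 := PadicInt.norm_le_one _
  by_contra hne
  have h2 : ‖a - b‖ < 1 := lt_of_le_of_ne h1 hne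
  have h3 : ‖(a - b) + b‖ ≤ max ‖a - b‖ ‖b‖ := PadicInt.nonarchimedean _ _
  rw [sub_add_cancel, ha] at h3
  exact absurd (h3.trans_lt (max_lt h2 hb)) (lt_irrefl _)

lemma norm_mul_lt_one {z w : ℤ_[p]} (hz : ‖z‖ < 1) : ‖z * w‖ < 1 := by
  rw [norm_mul]
  calc ‖z‖ * ‖w‖ ≤ ‖z‖ * 1 := by gcongr; exact PadicInt.norm_le_one _
    _ < 1 := by rw [mul_one]; exact hz

/-- A series with a unit coefficient of index `M` has at most `M` zeros in the open disc. -/
theorem zeros_le (M : ℕ) : ∀ F : ℤ_[p]⟦X⟧, ‖coeff M F‖ = 1 → ∀ T : Finset ℤ_[p],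
    (∀ z ∈ T, ‖z‖ < 1 ∧ ev F z = 0) → T.card ≤ M := by
  induction M with
  | zero =>
    intro F hF T hT
    rcases T.eq_empty_or_nonempty with h | ⟨z, hz⟩
    · simp [h]
    · exfalso
      obtain ⟨hz1, hz0⟩ := hT z hz
      have h := shift_tsum F hz1 0
      simp only [zero_add] at h
      have h0 : ev F z = coeff 0 F + z * ∑' j, coeff (1 + j) F * z ^ j := h
      rw [hz0] at h0
      have h2 : coeff 0 F - -(z * ∑' j, coeff (1 + j) F * z ^ j) = 0 := by
        rw [sub_neg_eq_add]; exact h0.symm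
      have h3 := norm_eq_one_of_sub (b := -(z * ∑' j, coeff (1 + j) F * z ^ j)) hF (by
        rw [norm_neg]; exact norm_mul_lt_one hz1)
      rw [h2, norm_zero] at h3
      exact zero_ne_one h3
  | succ M ih =>
    intro F hF T hT
    classical
    rcases T.eq_empty_or_nonempty with h | ⟨z, hz⟩
    · simp [h]
    · obtain ⟨hz1, hz0⟩ := hT z hz
      have e := eq_quo F hz1
      rw [hz0, map_zero, add_zero] at e
      have hc : coeff (M + 1) F = coeff M (quo F z) - z * coeff (M + 1) (quo F z) := by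
        conv_lhs => rw [e]
        rw [sub_mul, map_sub, coeff_C_mul, coeff_succ_X_mul]
      have hG : ‖coeff M (quo F z)‖ = 1 := by
        have : coeff M (quo F z) = coeff (M + 1) F - -(z * coeff (M + 1) (quo F z)) := by
          rw [hc]; ring
        rw [this]
        exact norm_eq_one_of_sub hF (by rw [norm_neg]; exact norm_mul_lt_one hz1)
      have h1 := ih (quo F z) hG (T.erase z) (by
        intro w hw
        obtain ⟨hwz, hwT⟩ := Finset.mem_erase.mp hw
        obtain ⟨hw1, hw0⟩ := hT w hwT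
        refine ⟨hw1, ?_⟩
        have e2 : ev F w = (w - z) * ev (quo F z) w := by
          conv_lhs => rw [e]
          rw [ev_mul _ _ hw1, ev_sub _ _ hw1, ev_X, ev_C]
        rw [hw0] at e2
        rcases mul_eq_zero.mp e2.symm with h | h
        · exact absurd (sub_eq_zero.mp h) hwz
        · exact h)
      rw [Finset.card_erase_of_mem hz] at h1
      omega

/-- Content and a witness. -/
lemma exists_content {f : ℕ → ℤ_[p]} (hf : ∃ n, f n ≠ 0) :
    ∃ e M : ℕ, (∀ n, (p : ℤ_[p]) ^ e ∣ f n) ∧ ¬ (p : ℤ_[p]) ^ (e + 1) ∣ f M := by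
  classical
  have hex : ∃ e, ∃ M, ¬ (p : ℤ_[p]) ^ (e + 1) ∣ f M := by
    obtain ⟨n, hn⟩ := hf
    refine ⟨(f n).valuation, n, ?_⟩
    intro h
    have h2 := (PadicInt.mem_span_pow_iff_le_valuation (f n) hn _).mp
      (Ideal.mem_span_singleton.mpr h)
    omega
  refine ⟨Nat.find hex, (Nat.find_spec hex).choose, ?_, (Nat.find_spec hex).choose_spec⟩
  intro n
  rcases Nat.eq_zero_or_pos (Nat.find hex) with h | h
  · rw [h, pow_zero]; exact one_dvd _
  · have := Nat.find_min hex (m := Nat.find hex - 1) (by omega)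
    push Not at this
    have h2 := this n
    rwa [Nat.sub_add_cancel h] at h2

lemma norm_eq_one_of_not_dvd {x : ℤ_[p]} (h : ¬ (p : ℤ_[p]) ∣ x) : ‖x‖ = 1 := by
  by_contra hne
  exact h ((PadicInt.norm_lt_one_iff_dvd x).mp (lt_of_le_of_ne (PadicInt.norm_le_one x) hne))

lemma p_ne : (p : ℤ_[p]) ≠ 0 := by
  exact_mod_cast hp.out.ne_zero

/-- Zero bound from the content. -/
lemma zeros_le_of_content {F : ℤ_[p]⟦X⟧} {e M : ℕ} (h1 : ∀ n, (p : ℤ_[p]) ^ e ∣ coeff n F)
    (h2 : ¬ (p : ℤ_[p]) ^ (e + 1) ∣ coeff M F) (T : Finset ℤ_[p])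
    (hT : ∀ z ∈ T, ‖z‖ < 1 ∧ ev F z = 0) : T.card ≤ M := by
  choose g hg using h1
  have hF : F = C ((p : ℤ_[p]) ^ e) * PowerSeries.mk g := by
    ext n
    rw [coeff_C_mul, coeff_mk]
    exact hg n
  refine zeros_le M (PowerSeries.mk g) ?_ T fun z hz => ?_
  · rw [coeff_mk]
    apply norm_eq_one_of_not_dvd
    intro h
    apply h2
    rw [hg M, pow_succ]
    exact mul_dvd_mul_left _ h
  · obtain ⟨hz1, hz0⟩ := hT z hz
    refine ⟨hz1, ?_⟩
    rw [hF, ev_mul _ _ hz1, ev_C] at hz0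
    exact (mul_eq_zero.mp hz0).resolve_left (pow_ne_zero _ p_ne)

/-- Linear combinations. -/
noncomputable def comb {ι : Type*} [Fintype ι] (F : ι → ℤ_[p]⟦X⟧) (c : ι → ℤ_[p]) : ℤ_[p]⟦X⟧ :=
  ∑ i, C (c i) * F i

lemma coeff_comb {ι : Type*} [Fintype ι] (F : ι → ℤ_[p]⟦X⟧) (c : ι → ℤ_[p]) (n : ℕ) :
    coeff n (comb F c) = ∑ i, c i * coeff n (F i) := by
  rw [comb, map_sum]
  exact Finset.sum_congr rfl fun i _ => coeff_C_mul _ _ _

/-- Uniform zero bound for the nonzero members of a finite-dimensional space. -/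
theorem comb_zeros {ι : Type*} [Fintype ι] (F : ι → ℤ_[p]⟦X⟧)
    (hF : ∀ c : ι → ℤ_[p], c ≠ 0 → comb F c ≠ 0) :
    ∃ M : ℕ, ∀ c : ι → ℤ_[p], c ≠ 0 → ∀ T : Finset ℤ_[p],
      (∀ z ∈ T, ‖z‖ < 1 ∧ ev (comb F c) z = 0) → T.card ≤ M := by
  classical
  set S : Set (ι → ℤ_[p]) := {c | ∃ i, ‖c i‖ = 1} with hS
  have hSc : IsCompact S := by
    apply IsClosed.isCompact
    have : S = ⋃ i, {c : ι → ℤ_[p] | ‖c i‖ = 1} := by ext c; simp [hS]
    rw [this]
    refine isClosed_iUnion_of_finite fun i => ?_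
    exact isClosed_eq (continuous_norm.comp (continuous_apply i)) continuous_const
  have key : ∃ M : ℕ, ∀ c ∈ S, ∀ T : Finset ℤ_[p],
      (∀ z ∈ T, ‖z‖ < 1 ∧ ev (comb F c) z = 0) → T.card ≤ M := by
    refine hSc.induction_on (p := fun s : Set (ι → ℤ_[p]) => ∃ M : ℕ, ∀ c ∈ s, ∀ T : Finset ℤ_[p],
      (∀ z ∈ T, ‖z‖ < 1 ∧ ev (comb F c) z = 0) → T.card ≤ M) ?_ ?_ ?_ ?_
    · exact ⟨0, fun c hc => absurd hc (Set.notMem_empty c)⟩
    · rintro s t hst ⟨M, hM⟩
      exact ⟨M, fun c hc => hM c (hst hc)⟩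
    · rintro s t ⟨M1, h1⟩ ⟨M2, h2⟩
      refine ⟨max M1 M2, fun c hc T hT => ?_⟩
      rcases hc with hc | hc
      · exact (h1 c hc T hT).trans (le_max_left _ _)
      · exact (h2 c hc T hT).trans (le_max_right _ _)
    · intro c0 hc0
      have hne : c0 ≠ 0 := by
        rintro rfl
        obtain ⟨i, hi⟩ := hc0
        simp at hi
      have hex : ∃ n, coeff n (comb F c0) ≠ 0 := by
        by_contra h
        push Not at h
        exact hF c0 hne (PowerSeries.ext fun n => by rw [h n, map_zero])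
      obtain ⟨e, M, he, hM⟩ := exists_content hex
      refine ⟨{c | ∀ i, ‖c i - c0 i‖ < (p : ℝ) ^ (-(e : ℤ))}, ?_, M, ?_⟩
      · apply mem_nhdsWithin_of_mem_nhds
        have hopen : IsOpen {c : ι → ℤ_[p] | ∀ i, ‖c i - c0 i‖ < (p : ℝ) ^ (-(e : ℤ))} := by
          have : {c : ι → ℤ_[p] | ∀ i, ‖c i - c0 i‖ < (p : ℝ) ^ (-(e : ℤ))} =
              ⋂ i, {c : ι → ℤ_[p] | ‖c i - c0 i‖ < (p : ℝ) ^ (-(e : ℤ))} := by ext c; simp
          rw [this]
          refine isOpen_iInter_of_finite fun i => ?_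
          exact isOpen_lt (continuous_norm.comp ((continuous_apply i).sub continuous_const))
            continuous_const
        refine hopen.mem_nhds fun i => ?_
        rw [sub_self, norm_zero]
        exact zpow_pos (by exact_mod_cast hp.out.pos) _
      · intro c hc T hT
        have hd : ∀ i, (p : ℤ_[p]) ^ (e + 1) ∣ c i - c0 i := by
          intro i
          have h1 := hc i
          have h2 := (PadicInt.norm_le_pow_iff_norm_lt_pow_add_one (c i - c0 i)
            (-((e : ℤ) + 1))).mpr (by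
              rw [show -((e : ℤ) + 1) + 1 = -(e : ℤ) by ring]; exact h1)
          have h3 := (PadicInt.norm_le_pow_iff_mem_span_pow (c i - c0 i) (e + 1)).mp (by
            push_cast; exact h2)
          exact Ideal.mem_span_singleton.mp h3
        have hdn : ∀ n, (p : ℤ_[p]) ^ (e + 1) ∣ coeff n (comb F c) - coeff n (comb F c0) := by
          intro n
          rw [coeff_comb, coeff_comb, ← Finset.sum_sub_distrib]
          refine Finset.dvd_sum fun i _ => ?_
          rw [← sub_mul]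
          exact Dvd.dvd.mul_right (hd i) _
        refine zeros_le_of_content (e := e) (M := M) ?_ ?_ T hT
        · intro n
          have h1 := (pow_dvd_pow (p : ℤ_[p]) (Nat.le_succ e)).trans (hdn n)
          have := dvd_add h1 (he n)
          simpa using this
        · intro h
          apply hM
          have := dvd_sub h (hdn M)
          simpa using this
  obtain ⟨M, hM⟩ := key
  refine ⟨M, fun c hc T hT => ?_⟩
  -- scale to a primitive vector
  have hex : ∃ n : ℕ, ∃ i, ¬ (p : ℤ_[p]) ^ (n + 1) ∣ c i := by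
    obtain ⟨i, hi⟩ : ∃ i, c i ≠ 0 := by
      by_contra h
      push Not at h
      exact hc (funext h)
    obtain ⟨e, m, -, h⟩ := exists_content (f := fun _ => c i) ⟨0, hi⟩
    exact ⟨e, i, h⟩
  obtain ⟨i, hi⟩ := Nat.find_spec hex
  have hall : ∀ j, (p : ℤ_[p]) ^ Nat.find hex ∣ c j := by
    intro j
    rcases Nat.eq_zero_or_pos (Nat.find hex) with h | h
    · rw [h, pow_zero]; exact one_dvd _
    · have := Nat.find_min hex (m := Nat.find hex - 1) (by omega)
      push Not at this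
      have h2 := this j
      rwa [Nat.sub_add_cancel h] at h2
  choose c1 hc1 using hall
  have hmem : c1 ∈ S := by
    refine ⟨i, norm_eq_one_of_not_dvd fun h => hi ?_⟩
    rw [hc1 i, pow_succ]
    exact mul_dvd_mul_left _ h
  refine hM c1 hmem T fun z hz => ?_
  obtain ⟨hz1, hz0⟩ := hT z hz
  refine ⟨hz1, ?_⟩
  have e1 : comb F c = C ((p : ℤ_[p]) ^ Nat.find hex) * comb F c1 := by
    rw [comb, comb, Finset.mul_sum]
    refine Finset.sum_congr rfl fun j _ => ?_
    rw [← mul_assoc, ← map_mul, ← hc1 j]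
  rw [e1, ev_mul _ _ hz1, ev_C] at hz0
  exact (mul_eq_zero.mp hz0).resolve_left (pow_ne_zero _ p_ne)

end Pool.Agent.Lib.MP_3550b5_nt
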