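import Mathlib
import Pool.Agent.Lib.MP_3550b5_nt.Defs
import Pool.Agent.Lib.MP_3550b5_nt.Eval
import Pool.Agent.Lib.MP_3550b5_nt.SHt

/-!
TWIST POINTS (leader helper67). Definitions and interfaces.
-/

namespace Pool.Agent.Lib.MP_3550b5_nt

open PowerSeries

/-- `x` is the abscissa of a rational point of infinite order and `p`-adic height `v` on the
quadratic twist `D y^2 = x^3 + a x + b` of `y^2 = x^3 + a x + b` by a squarefree integer `D` prime
to `p`. The twist is written as `curve (a D^2) (b D^3)`, where the point has abscissa `D x`. -/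
def HeightAt (p : ℕ) [Fact p.Prime] (a b : ℤ) (x : ℚ) (v : ℚ_[p]) : Prop :=
  ∃ D : ℤ, Squarefree D ∧ ¬ (p : ℤ) ∣ D ∧
    ∃ (P : (curve (a * D ^ 2) (b * D ^ 3)).Point) (y : ℚ)
      (h : (curve (a * D ^ 2) (b * D ^ 3)).Nonsingular (D * x) y),
      P = .some _ _ h ∧ ¬ IsOfFinAddOrder P ∧
      ∃ B : (curve (a * D ^ 2) (b * D ^ 3)).Point → (curve (a * D ^ 2) (b * D ^ 3)).Point → ℚ_[p],
        IsCanonicalHeight p (a * D ^ 2) (b * D ^ 3) B ∧ B P P = v

/-- The form of degree `e` attached to a polynomial of degree at most `e`. -/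
def hform {R : Type*} [CommRing R] (e : ℕ) (f : Polynomial R) (m n : R) : R :=
  ∑ i ∈ Finset.range (e + 1), f.coeff i * m ^ i * n ^ (e - i)

/-- The differential equation, with respect to `r = 1 / x`, of `U = σ^2 / r` (`F = 1+ar^2+br^3`):
`2 r F (U'' U - U'^2) + (1 + 3 a r^2 + 4 b r^3) U' U + (c + a r + 2 b r^2) U^2 = 0`. -/
def IsSigmaU {R : Type*} [CommRing R] (a b c : R) (U : R⟦X⟧) : Prop :=
  constantCoeff U = 1 ∧
  2 * X * (1 + C a * X ^ 2 + C b * X ^ 3) *
      (derivative R (derivative R U) * U - derivative R U ^ 2) +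
    (1 + 3 * C a * X ^ 2 + 4 * C b * X ^ 3) * derivative R U * U +
    (C c + C a * X + 2 * C b * X ^ 2) * U ^ 2 = 0

/-- `U` satisfies no algebraic equation over the polynomials. -/
def TransU {R : Type*} [CommRing R] (U : R⟦X⟧) : Prop :=
  ∀ Q : Polynomial (Polynomial R), Q ≠ 0 → Q.eval₂ (Polynomial.coeToPowerSeries.ringHom) U ≠ 0

end Pool.Agent.Lib.MP_3550b5_nt
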