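import Mathlib
import Pool.Agent.Lib.MP_3550b5_nt.Core
import Pool.Agent.Lib.MP_3550b5_nt.TP.Defs

/-! L1, part 1: the sigma data in the variable `X ^ 2`, and its twists. -/

namespace Pool.Agent.Lib.MP_3550b5_nt

open PowerSeries

variable {p : ℕ} [hp : Fact p.Prime]

/-- The sigma data in the variable `X ^ 2` (with `Z` divided by `X`). -/
structure EvData (p : ℕ) [Fact p.Prime] (a b c : ℤ_[p]) (W V Om S Z : ℤ_[p]⟦X⟧) : Prop where
  hW : W = 1 + C a * X ^ 2 * W ^ 2 + C b * X ^ 3 * W ^ 3
  hV : W * V = 1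
  hOm : W * Om = W + X * derivative ℤ_[p] W
  S0 : constantCoeff S = 1
  E1 : X * Om * S * Z = S - Om * S + 2 * X * derivative ℤ_[p] S
  E2 : X * W * (Z + 2 * X * derivative ℤ_[p] Z) = W - Om - C c * X * W * Om

lemma l1_expand_inj {R : Type*} [CommRing R] {f g : R⟦X⟧}
    (h : expand 2 two_ne_zero f = expand 2 two_ne_zero g) : f = g := by
  ext n
  have := congrArg (coeff (2 * n)) h
  rwa [coeff_expand_mul, coeff_expand_mul] at this

lemma l1_exists_expand {R : Type*} [CommRing R] {f : R⟦X⟧} (h : ∀ n, Odd n → coeff n f = 0) :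
    ∃ g, f = expand 2 two_ne_zero g := by
  refine ⟨PowerSeries.mk fun n => coeff (2 * n) f, ?_⟩
  ext n
  rw [coeff_expand]
  split_ifs with hn
  · obtain ⟨m, rfl⟩ := hn
    rw [coeff_mk, Nat.mul_div_cancel_left _ two_pos]
  · exact h n (Nat.not_even_iff_odd.mp fun he => hn he.two_dvd)

lemma l1_derivative_expand {R : Type*} [CommRing R] (f : R⟦X⟧) :
    derivative R (expand 2 two_ne_zero f) = 2 * X * expand 2 two_ne_zero (derivative R f) := by
  rw [expand_apply, expand_apply, derivative_subst (HasSubst.X_pow two_ne_zero), derivative_pow,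
    derivative_X]
  push_cast
  ring

lemma l1_even_of_rescale {f : ℤ_[p]⟦X⟧} (h : f = rescale (-1) f) : ∀ n, Odd n → coeff n f = 0 := by
  intro n hn
  have h1 := congrArg (coeff n) h
  rw [coeff_rescale, hn.neg_one_pow] at h1
  have h2 : (2 : ℤ_[p]) * coeff n f = 0 := by linear_combination h1
  exact (mul_eq_zero.mp h2).resolve_left two_ne_zero

lemma l1_rescale_of_even {f : ℤ_[p]⟦X⟧} (h : ∀ n, Odd n → coeff n f = 0) : rescale (-1) f = f := by
  ext n
  rw [coeff_rescale]
  rcases Nat.even_or_odd n with hn | hn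
  · rw [hn.neg_one_pow, one_mul]
  · rw [h n hn, mul_zero]

variable {a b c : ℤ_[p]} {W V Om S Z : ℤ_[p]⟦X⟧}

lemma l1_ne_zero {f : ℤ_[p]⟦X⟧} (h : constantCoeff f = 1) : f ≠ 0 := by
  rintro rfl
  rw [map_zero] at h
  exact zero_ne_one h

lemma SigmaData.W0 (h : SigmaData p a b c W V Om S Z) : constantCoeff W = 1 := by
  have := congrArg constantCoeff h.hW
  simpa using this

lemma SigmaData.Om0 (h : SigmaData p a b c W V Om S Z) : constantCoeff Om = 1 := by
  have := congrArg constantCoeff h.hOm
  simp only [map_mul, map_add, h.W0, constantCoeff_X, zero_mul, add_zero, mul_one,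
    map_ofNat] at this
  apply mul_left_cancel₀ (two_ne_zero (α := ℤ_[p]))
  rw [this, mul_one]

theorem exists_evData (h : SigmaData p a b c W V Om S Z) :
    ∃ W₁ V₁ Om₁ S₁ Z₁ : ℤ_[p]⟦X⟧, S = expand 2 two_ne_zero S₁ ∧ EvData p a b c W₁ V₁ Om₁ S₁ Z₁ := by
  have hr := h.rescale (-1)
  have e4 : ((-1 : ℤ_[p]) ^ 4 * a) = a := by ring
  have e6 : ((-1 : ℤ_[p]) ^ 6 * b) = b := by ring
  have e2 : ((-1 : ℤ_[p]) ^ 2 * c) = c := by ring
  rw [e4, e6, e2] at hr
  have hWW : W = rescale (-1) W := W_unique h.hW hr.hW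
  have hVV : V = rescale (-1) V := by
    have e1 := h.hV
    have e2 := hr.hV
    rw [← hWW] at e2
    linear_combination (rescale (-1) V) * e1 - V * e2
  have hW0 : W ≠ 0 := l1_ne_zero h.W0
  have h2 : (2 : ℤ_[p]⟦X⟧) ≠ 0 := by
    rw [show (2 : ℤ_[p]⟦X⟧) = C 2 from (map_ofNat C 2).symm]
    exact (map_ne_zero_iff _ C_injective).mpr two_ne_zero
  have hOO : Om = rescale (-1) Om := by
    have e1 := h.hOm
    have e2 := hr.hOm
    rw [← hWW] at e2
    exact mul_left_cancel₀ (mul_ne_zero h2 hW0) (e1.trans e2.symm)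
  have hSS : rescale (-1) S = S := l1_rescale_of_even h.Seven
  have hZZ : Z = C (-1) * rescale (-1) Z := by
    have e1 := h.E1
    have e2 := hr.E1
    rw [← hOO, hSS] at e2
    exact mul_left_cancel₀ (mul_ne_zero (mul_ne_zero X_ne_zero (l1_ne_zero h.Om0))
      (l1_ne_zero h.S0)) (e1.trans e2.symm)
  have hZ0 : constantCoeff Z = 0 := by
    have e1 := congrArg (coeff 0) hZZ
    rw [coeff_C_mul, coeff_rescale, pow_zero, one_mul, coeff_zero_eq_constantCoeff_apply] at e1
    have e2 : (2 : ℤ_[p]) * constantCoeff Z = 0 := by linear_combination e1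
    exact (mul_eq_zero.mp e2).resolve_left two_ne_zero
  obtain ⟨Zx, hZx⟩ : X ∣ Z := X_dvd_iff.mpr hZ0
  have hZxe : ∀ n, Odd n → coeff n Zx = 0 := by
    intro n hn
    have e1 := congrArg (coeff (n + 1)) hZZ
    rw [coeff_C_mul, coeff_rescale, hZx, coeff_succ_X_mul, (hn.add_one).neg_one_pow] at e1
    have e2 : (2 : ℤ_[p]) * coeff n Zx = 0 := by linear_combination e1
    exact (mul_eq_zero.mp e2).resolve_left two_ne_zero
  obtain ⟨W₁, hW₁⟩ := l1_exists_expand (l1_even_of_rescale hWW)
  obtain ⟨V₁, hV₁⟩ := l1_exists_expand (l1_even_of_rescale hVV)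
  obtain ⟨Om₁, hOm₁⟩ := l1_exists_expand (l1_even_of_rescale hOO)
  obtain ⟨S₁, hS₁⟩ := l1_exists_expand h.Seven
  obtain ⟨Z₁, hZ₁⟩ := l1_exists_expand hZxe
  have hZ : Z = X * expand 2 two_ne_zero Z₁ := by rw [hZx, hZ₁]
  have hdZ : derivative ℤ_[p] Z = expand 2 two_ne_zero Z₁ +
      2 * X ^ 2 * expand 2 two_ne_zero (derivative ℤ_[p] Z₁) := by
    rw [hZ, Derivation.leibniz, derivative_X, smul_eq_mul, smul_eq_mul, l1_derivative_expand]
    ring
  refine ⟨W₁, V₁, Om₁, S₁, Z₁, hS₁, ?_, ?_, ?_, ?_, ?_, ?_⟩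
  · apply l1_expand_inj
    have e := h.hW
    rw [hW₁] at e
    simp only [map_add, map_mul, map_pow, map_one, expand_X, expand_C]
    linear_combination e
  · apply l1_expand_inj
    rw [map_mul, map_one, ← hW₁, ← hV₁, h.hV]
  · apply l1_expand_inj
    have e := h.hOm
    rw [hW₁, hOm₁, l1_derivative_expand] at e
    simp only [map_add, map_mul, expand_X]
    apply mul_left_cancel₀ h2
    linear_combination e
  · have e := h.S0
    rwa [hS₁, constantCoeff_expand] at e
  · apply l1_expand_inj
    have e := h.E1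
    rw [hZ, hOm₁, hS₁, l1_derivative_expand] at e
    simp only [map_add, map_sub, map_mul, map_ofNat, expand_X]
    linear_combination e
  · apply l1_expand_inj
    have e := h.E2
    rw [hdZ, hW₁, hOm₁] at e
    simp only [map_add, map_sub, map_mul, map_ofNat, expand_X, expand_C]
    linear_combination e

/-- The twist of the sigma data. -/
theorem EvData.twist (h : EvData p a b c W V Om S Z) (u : ℤ_[p]) :
    EvData p (u ^ 2 * a) (u ^ 3 * b) (u * c) (rescale u W) (rescale u V) (rescale u Om)
      (rescale u S) (C u * rescale u Z) := by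
  refine ⟨?_, ?_, ?_, ?_, ?_, ?_⟩
  · have := congrArg (rescale u) h.hW
    simp only [map_add, map_mul, map_pow, map_one, rescale_X', rescale_C'] at this
    simp only [map_mul, map_pow]
    linear_combination this
  · rw [← map_mul, h.hV, map_one]
  · have := congrArg (rescale u) h.hOm
    simp only [map_add, map_mul, rescale_X'] at this
    rw [this, derivative_rescale]
    ring
  · rw [← coeff_zero_eq_constantCoeff_apply, coeff_rescale, pow_zero, one_mul,
      coeff_zero_eq_constantCoeff_apply, h.S0]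
  · have := congrArg (rescale u) h.E1
    simp only [map_add, map_sub, map_mul, map_ofNat, rescale_X'] at this
    rw [derivative_rescale]
    linear_combination this
  · have := congrArg (rescale u) h.E2
    simp only [map_add, map_sub, map_mul, map_ofNat, rescale_X', rescale_C'] at this
    rw [Derivation.leibniz, derivative_C, smul_zero, add_zero, smul_eq_mul, derivative_rescale]
    simp only [map_mul]
    linear_combination this

/-- From the variable `X ^ 2` back to `X`. -/
theorem EvData.toSigma (h : EvData p a b c W V Om S Z) :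
    SigmaData p a b c (expand 2 two_ne_zero W) (expand 2 two_ne_zero V)
      (expand 2 two_ne_zero Om) (expand 2 two_ne_zero S) (X * expand 2 two_ne_zero Z) := by
  refine ⟨?_, ?_, ?_, ?_, ?_, ?_, ?_, ?_⟩
  · have := congrArg (expand 2 two_ne_zero) h.hW
    simp only [map_add, map_mul, map_pow, map_one, expand_X, expand_C] at this
    linear_combination this
  · rw [← map_mul, h.hV, map_one]
  · have := congrArg (expand 2 two_ne_zero) h.hOm
    simp only [map_add, map_mul, expand_X] at this
    rw [l1_derivative_expand]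
    linear_combination 2 * this
  · rw [constantCoeff_expand, h.S0]
  · rw [coeff_expand, if_neg (by decide)]
  · intro n hn
    rw [coeff_expand, if_neg fun hd => (Nat.not_even_iff_odd.mpr hn) (even_iff_two_dvd.mpr hd)]
  · have := congrArg (expand 2 two_ne_zero) h.E1
    simp only [map_add, map_sub, map_mul, map_ofNat, expand_X] at this
    rw [l1_derivative_expand]
    linear_combination this
  · have := congrArg (expand 2 two_ne_zero) h.E2
    simp only [map_add, map_sub, map_mul, map_ofNat, expand_X, expand_C] at this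
    rw [Derivation.leibniz, derivative_X, smul_eq_mul, smul_eq_mul, l1_derivative_expand]
    linear_combination this

end Pool.Agent.Lib.MP_3550b5_nt
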