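import Mathlib
import Pool.Agent.Lib.MP_3550b5_nt.TP.L1Even

/-! L1, part 2: the differential equation in the variable `r`. -/

namespace Pool.Agent.Lib.MP_3550b5_nt

open PowerSeries

variable {p : ℕ} [hp : Fact p.Prime]

/-- `F = 1 + a r^2 + b r^3`. -/
noncomputable def l1F (a b : ℤ_[p]) : ℤ_[p]⟦X⟧ := 1 + C a * X ^ 2 + C b * X ^ 3

lemma l1F_const (a b : ℤ_[p]) : constantCoeff (l1F a b) = 1 := by
  simp [l1F]

lemma l1F_deriv (a b : ℤ_[p]) : derivative ℤ_[p] (l1F a b) = 2 * C a * X + 3 * C b * X ^ 2 := by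
  unfold l1F
  rw [map_add, map_add, derivative_one, Derivation.leibniz, Derivation.leibniz, derivative_C,
    derivative_C, derivative_pow, derivative_pow, derivative_X]
  simp only [smul_eq_mul]
  push_cast
  ring

variable {a b c D Di : ℤ_[p]} {W V Om S Z Fi : ℤ_[p]⟦X⟧}

lemma l1_hasSubst (g : ℤ_[p]⟦X⟧) : HasSubst (C Di * X * g) := by
  apply HasSubst.of_constantCoeff_zero'
  simp

lemma l1_const_subst {G S : ℤ_[p]⟦X⟧} (hG : constantCoeff G = 0) (hS : constantCoeff S = 1) :
    constantCoeff (subst G S : ℤ_[p]⟦X⟧) = 1 := by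
  obtain ⟨T, hT⟩ : X ∣ S - 1 := X_dvd_iff.mpr (by rw [map_sub, hS, map_one, sub_self])
  have hS' : S = X * T + 1 := by rw [← hT]; ring
  have hs := HasSubst.of_constantCoeff_zero' hG
  have e : (subst G S : ℤ_[p]⟦X⟧) = G * subst G T + 1 := by
    rw [hS', subst_add hs, subst_mul hs, subst_X hs,
      show subst G (1 : ℤ_[p]⟦X⟧) = 1 by rw [← coe_substAlgHom hs, map_one]]
  rw [e]
  have h2 := map_mul (constantCoeff (R := ℤ_[p])) G (subst G T : ℤ_[p]⟦X⟧)
  rw [hG, zero_mul] at h2
  rw [map_add, map_one]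
  rw [h2, zero_add]

theorem isSigmaU_of_evData (hD : D * Di = 1) (hF : l1F a b * Fi = 1)
    (h : EvData p (a * D ^ 2) (b * D ^ 3) c W V Om S Z) :
    IsSigmaU a b (c * Di) ((subst (C Di * X * Fi) S) ^ 2 * Fi) := by
  set F := l1F a b with hFdef
  set G := C Di * X * Fi with hG
  have hs : HasSubst G := l1_hasSubst Fi
  have hCD : (C D : ℤ_[p]⟦X⟧) * C Di = 1 := by rw [← map_mul, hD, map_one]
  have hF0 : F ≠ 0 := l1_ne_zero (l1F_const a b)
  have hGF : G * F = C Di * X := by rw [hG]; linear_combination (C Di * X) * hF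
  have hXGF : X = C D * G * F := by linear_combination (-(C D)) * hGF - X * hCD
  have hFX : F = 1 + C a * X ^ 2 + C b * X ^ 3 := rfl
  have hdF : derivative ℤ_[p] F = 2 * C a * X + 3 * C b * X ^ 2 := l1F_deriv a b
  set F' := derivative ℤ_[p] F with hF'
  set G' := derivative ℤ_[p] G with hG'
  -- derivative of `G * F`
  have hGF' : G' * F + G * F' = C Di := by
    have e := congrArg (derivative ℤ_[p]) hGF
    rw [Derivation.leibniz, ← hG', ← hF'] at e
    have e' : derivative ℤ_[p] (C Di * X : ℤ_[p]⟦X⟧) = C Di := by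
      rw [Derivation.leibniz, derivative_C, derivative_X, smul_zero, add_zero, smul_eq_mul, mul_one]
    rw [e', smul_eq_mul, smul_eq_mul] at e
    linear_combination e
  set H := F - X * F' with hH
  have hH0 : H ≠ 0 := by
    apply l1_ne_zero
    rw [hH, map_sub, map_mul, constantCoeff_X, zero_mul, sub_zero]
    exact l1F_const a b
  -- `F^2 G' = Di H`
  have hG2 : F ^ 2 * G' = C Di * H := by
    rw [hH]; linear_combination F * hGF' - F' * hGF
  have hsub : ∀ f g : ℤ_[p]⟦X⟧, f = g → subst G f = subst G g := fun f g e => by rw [e]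
  -- `W(G) = F`
  have hWF : subst G W = F := by
    have e := hsub _ _ h.hW
    rw [subst_add hs, subst_add hs, subst_mul hs, subst_mul hs, subst_mul hs, subst_mul hs,
      subst_pow hs, subst_pow hs, subst_pow hs, subst_pow hs, subst_X hs] at e
    rw [show subst G (1 : ℤ_[p]⟦X⟧) = 1 by rw [← coe_substAlgHom hs, map_one],
      show subst G (C (a * D ^ 2)) = C (a * D ^ 2) from subst_C _,
      show subst G (C (b * D ^ 3)) = C (b * D ^ 3) from subst_C _] at e
    have hu : IsUnit (1 - G * (C (a * D ^ 2) * G * (subst G W + F) +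
        C (b * D ^ 3) * G ^ 2 * ((subst G W) ^ 2 + subst G W * F + F ^ 2))) := by
      rw [PowerSeries.isUnit_iff_constantCoeff]
      have : constantCoeff G = 0 := by rw [hG]; simp
      rw [map_sub, map_mul, this, zero_mul, map_one, sub_zero]
      exact isUnit_one
    have h3 : (subst G W - F) * (1 - G * (C (a * D ^ 2) * G * (subst G W + F) +
        C (b * D ^ 3) * G ^ 2 * ((subst G W) ^ 2 + subst G W * F + F ^ 2))) = 0 := by
      have e1 : F = 1 + C (a * D ^ 2) * G ^ 2 * F ^ 2 + C (b * D ^ 3) * G ^ 3 * F ^ 3 := by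
        conv_lhs => rw [hFX, hXGF]
        simp only [map_mul, map_pow]
        ring
      linear_combination e - e1
    exact sub_eq_zero.mp ((hu.mul_left_eq_zero).mp h3)
  set Om₂ := subst G Om with hOm₂
  set S₂ := subst G S with hS₂
  set Z₂ := subst G Z with hZ₂
  set w' := subst G (derivative ℤ_[p] W) with hw'
  set s' := subst G (derivative ℤ_[p] S) with hs'
  set z' := subst G (derivative ℤ_[p] Z) with hz'
  have dW : F' = w' * G' := by rw [hF', ← hWF, derivative_subst hs]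
  have dS : derivative ℤ_[p] S₂ = s' * G' := derivative_subst hs
  have dZ : derivative ℤ_[p] Z₂ = z' * G' := derivative_subst hs
  have two : subst G (2 : ℤ_[p]⟦X⟧) = 2 := by rw [← coe_substAlgHom hs, map_ofNat]
  have eOm : F * Om₂ = F + G * w' := by
    have e := hsub _ _ h.hOm
    rw [subst_add hs, subst_mul hs, subst_mul hs, subst_X hs, hWF] at e
    exact e
  have hDi0 : (C Di : ℤ_[p]⟦X⟧) ≠ 0 := by
    intro h0
    rw [h0, mul_zero] at hCD
    exact zero_ne_one hCD
  -- `Om(G) H = F`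
  have hOmH : Om₂ * H = F := by
    have e1 : C Di * F * (Om₂ * H - F) = 0 := by
      linear_combination (-(F * Om₂ - F)) * hG2 + (F ^ 2 * G') * eOm - (G * F ^ 2) * dW +
        (F * F') * hGF + (C Di * F) * hH
    rcases mul_eq_zero.mp e1 with h1 | h1
    · exact absurd h1 (mul_ne_zero hDi0 hF0)
    · exact sub_eq_zero.mp h1
  have e1 : G * Om₂ * S₂ * Z₂ = S₂ - Om₂ * S₂ + 2 * G * s' := by
    have e := hsub _ _ h.E1
    rw [subst_add hs, subst_sub hs, subst_mul hs, subst_mul hs, subst_mul hs, subst_mul hs,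
      subst_mul hs, subst_mul hs, subst_X hs, two] at e
    exact e
  have e2 : G * F * (Z₂ + 2 * G * z') = F - Om₂ - C c * G * F * Om₂ := by
    have e := hsub _ _ h.E2
    rw [subst_sub hs, subst_sub hs, subst_mul hs, subst_mul hs, subst_mul hs, subst_mul hs,
      subst_mul hs, subst_add hs, subst_mul hs, subst_mul hs, subst_X hs, two, hWF,
      show subst G (C c) = C c from subst_C _] at e
    exact e
  have hX0 : (X : ℤ_[p]⟦X⟧) ≠ 0 := X_ne_zero
  set S₁ := derivative ℤ_[p] S₂ with hS₁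
  set Z₁ := derivative ℤ_[p] Z₂ with hZ₁
  -- `2 F S₂' = S₂ (F' + Di Z₂)`
  have A1 : 2 * F * S₁ = S₂ * (F' + C Di * Z₂) := by
    have e3 : C Di * X * (2 * F * S₁ - S₂ * (F' + C Di * Z₂)) = 0 := by
      linear_combination (-(2 * F * S₁) + C Di * S₂ * Z₂) * hGF + (2 * G * F ^ 2) * dS -
        (F ^ 2 * G') * e1 + (G * Om₂ * S₂ * Z₂ - S₂ + Om₂ * S₂) * hG2 +
        C Di * (G * S₂ * Z₂ + S₂) * hOmH - (C Di * S₂) * hH
    rcases mul_eq_zero.mp e3 with h1 | h1
    · exact absurd h1 (mul_ne_zero hDi0 hX0)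
    · exact sub_eq_zero.mp h1
  have A3 : H * Z₂ + 2 * X * F * Z₁ =
      -(C D * F * (C a * X + 2 * C b * X ^ 2 + C c * C Di)) := by
    have e3 : C Di ^ 2 * X * H * (H * Z₂ + 2 * X * F * Z₁ +
        C D * F * (C a * X + 2 * C b * X ^ 2 + C c * C Di)) = 0 := by
      linear_combination (H * Z₂ * (-(F ^ 2 * G')) - 2 * H * F * Z₁ * (G * F + C Di * X) -
          C Di * H * C c * F) * hGF +
        (-(H * Z₂ * C Di * X) + (H * F - F - C c * G * F ^ 2)) * hG2 +
        (2 * H * G ^ 2 * F ^ 3) * dZ + (H * F ^ 2 * G') * e2 -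
        (F ^ 2 * G' * (1 + C c * G * F)) * hOmH +
        (C Di * X * H * F * (C a * X + 2 * C b * X ^ 2 + C c * C Di)) * hCD +
        (C Di * H * F) * (hH + hFX - X * hdF)
    rcases mul_eq_zero.mp e3 with h1 | h1
    · exact absurd h1 (mul_ne_zero (mul_ne_zero (pow_ne_zero 2 hDi0) hX0) hH0)
    · linear_combination h1
  set U := S₂ ^ 2 * Fi with hU
  set U1 := derivative ℤ_[p] U with hU1
  set U2 := derivative ℤ_[p] U1 with hU2
  have A2 : F * U1 = C Di * Z₂ * U := by
    have e3 := congrArg (derivative ℤ_[p]) hF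
    rw [Derivation.leibniz, derivative_one, smul_eq_mul, smul_eq_mul, ← hF'] at e3
    rw [hU1, hU, Derivation.leibniz, derivative_pow, smul_eq_mul, smul_eq_mul, ← hS₁]
    push_cast
    linear_combination (S₂ ^ 2) * e3 + (S₂ * Fi) * A1
  have A2' : F' * U1 + F * U2 = C Di * Z₁ * U + C Di * Z₂ * U1 := by
    have e3 := congrArg (derivative ℤ_[p]) A2
    simp only [Derivation.leibniz, derivative_C, smul_eq_mul, mul_zero, add_zero] at e3
    rw [← hF', ← hU1, ← hU2, ← hZ₁] at e3
    linear_combination e3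
  refine ⟨?_, ?_⟩
  · rw [hU, map_mul, map_pow]
    have h1 : constantCoeff S₂ = 1 := l1_const_subst (by rw [hG]; simp) h.S0
    have h2 : constantCoeff Fi = 1 := by
      have e := congrArg constantCoeff hF
      rwa [map_mul, l1F_const, one_mul, map_one] at e
    rw [h1, h2]; ring
  · have hF2 : F ^ 2 ≠ 0 := pow_ne_zero 2 hF0
    have e3 : F ^ 2 * (2 * X * (1 + C a * X ^ 2 + C b * X ^ 3) * (U2 * U - U1 ^ 2) +
        (1 + 3 * C a * X ^ 2 + 4 * C b * X ^ 3) * U1 * U +
        (C c * C Di + C a * X + 2 * C b * X ^ 2) * U ^ 2) = 0 := by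
      linear_combination 2 * X * F * (-(F' * U + F * U1)) * A2 + 2 * X * F * (F * U) * A2' +
        (2 * F - H) * F * U * A2 + C Di * F * U ^ 2 * A3 - 2 * C Di * F * U ^ 2 * Z₂ * hH -
        F ^ 2 * U ^ 2 * (C a * X + 2 * C b * X ^ 2 + C c * C Di) * hCD +
        F ^ 2 * U1 * U * (-hFX - X * hdF + hH) -
        2 * X * F ^ 2 * (U2 * U - U1 ^ 2) * hFX
    have e4 := (mul_eq_zero.mp e3).resolve_left hF2
    rw [show (C (c * Di) : ℤ_[p]⟦X⟧) = C c * C Di from map_mul C c Di]
    exact e4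

end Pool.Agent.Lib.MP_3550b5_nt
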