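import Pool.Agent.Lib.MP_3550b5_nt.TP.Defs

/-! L2: `U` is transcendental over the rational functions of `r` (formal power series only).
Transcendence of the solutions of `psi' = kappa v psi`, where `v` solves the linear equation
`2 G v' + G' v = -L` with `G` squarefree and `L` of small degree. -/

namespace Pool.Agent.Lib.MP_3550b5_nt.Tw

open Polynomial

section abs

variable {K : Type*} [Field K]

/-- Coefficientwise derivative of a polynomial over `K[X]`. -/
noncomputable def dc (q : K[X][X]) : K[X][X] :=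
  ∑ i ∈ q.support, monomial i (derivative (q.coeff i))

lemma coeff_dc (q : K[X][X]) (i : ℕ) : (dc q).coeff i = derivative (q.coeff i) := by
  classical
  unfold dc
  rw [finsetSum_coeff]
  simp only [coeff_monomial]
  rw [Finset.sum_ite_eq' q.support i]
  split_ifs with h
  · rfl
  · rw [notMem_support_iff.mp h, derivative_zero]

lemma dc_add (q r : K[X][X]) : dc (q + r) = dc q + dc r := by
  ext1 i
  rw [coeff_add, coeff_dc, coeff_dc, coeff_dc, coeff_add, derivative_add]

lemma dc_monomial (n : ℕ) (c : K[X]) : dc (monomial n c) = monomial n (derivative c) := by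
  ext1 i
  rw [coeff_dc, coeff_monomial, coeff_monomial]
  split_ifs
  · rfl
  · exact derivative_zero

lemma natDegree_dc_le (q : K[X][X]) : (dc q).natDegree ≤ q.natDegree := by
  rw [natDegree_le_iff_coeff_eq_zero]
  intro i hi
  rw [coeff_dc, coeff_eq_zero_of_natDegree_lt hi, derivative_zero]

variable {S : Type*} [CommRing S] [Algebra K S] (φ : K[X] →+* S) (D : Derivation K S S)

lemma D_eval₂ (hD : ∀ P : K[X], D (φ P) = φ (derivative P)) (v : S) (q : K[X][X]) :
    D (eval₂ φ v q) = eval₂ φ v (dc q) + eval₂ φ v (derivative q) * D v := by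
  induction q using Polynomial.induction_on' with
  | add q r hq hr =>
    rw [eval₂_add, map_add, hq, hr, dc_add, eval₂_add, derivative_add, eval₂_add]
    ring
  | monomial n c =>
    rw [eval₂_monomial, Derivation.leibniz, Derivation.leibniz_pow, hD, dc_monomial,
      eval₂_monomial, derivative_monomial, eval₂_monomial, map_mul, map_natCast]
    simp only [smul_eq_mul, nsmul_eq_mul]
    ring

end abs

section noSol

variable {K : Type*} [Field K] [CharZero K]

lemma irreducible_not_dvd_derivative {π : K[X]} (hπ : Irreducible π) : ¬ π ∣ derivative π := by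
  intro h
  have h1 := hπ.separable
  have h2 : IsCoprime π π := by
    obtain ⟨c, hc⟩ := h
    have h3 : IsCoprime π (derivative π) := h1
    rw [hc] at h3
    exact h3.of_mul_right_left
  exact hπ.not_isUnit (isCoprime_self.mp h2)

/-- The equation `2 G w' + G' w = -L` has no rational solution. -/
theorem no_rational {G L : K[X]} (hG : Squarefree G) (hL : L ≠ 0)
    (hdeg : L.natDegree + 1 < G.natDegree) {P Q : K[X]} (hQ : Q ≠ 0)
    (h : 2 * G * (derivative P * Q - P * derivative Q) + derivative G * P * Q = -L * Q ^ 2) :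
    False := by
  obtain ⟨Q₀, P₀, g, hrel, hgQ, hgP⟩ := UniqueFactorizationMonoid.exists_reduced_factors Q hQ P
  have hg : g ≠ 0 := by
    rintro rfl
    apply hQ
    rw [← hgQ, zero_mul]
  have hQ0 : Q₀ ≠ 0 := by
    rintro rfl
    apply hQ
    rw [← hgQ, mul_zero]
  have h0 : 2 * G * (derivative P₀ * Q₀ - P₀ * derivative Q₀) + derivative G * P₀ * Q₀ =
      -L * Q₀ ^ 2 := by
    apply mul_left_cancel₀ (pow_ne_zero 2 hg)
    rw [← hgQ, ← hgP, derivative_mul, derivative_mul] at h
    linear_combination h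
  have h4 : ∀ n : ℕ, n ≠ 0 → IsUnit (n : K[X]) := by
    intro n hn
    have : (n : K[X]) = C (n : K) := by simp
    rw [this]
    exact isUnit_C.mpr (isUnit_iff_ne_zero.mpr (Nat.cast_ne_zero.mpr hn))
  -- `Q₀` is a unit
  have hunit : IsUnit Q₀ := by
    by_contra hnu
    obtain ⟨π, hπ, hπQ⟩ := WfDvdMonoid.exists_irreducible_factor hnu hQ0
    have hprime : Prime π := hπ.prime
    have hπP : ¬ π ∣ P₀ := fun h' => hπ.not_isUnit (hrel hπQ h')
    obtain ⟨Q₁, hQeq, hQ1⟩ :=
      (FiniteMultiplicity.of_prime_left hprime hQ0).exists_eq_pow_mul_and_not_dvd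
    have hj : multiplicity π Q₀ ≠ 0 := by
      intro h'
      rw [h', pow_zero, one_mul] at hQeq
      exact hQ1 (hQeq ▸ hπQ)
    obtain ⟨i, hi⟩ := Nat.exists_eq_succ_of_ne_zero hj
    rw [hi, Nat.succ_eq_add_one] at hQeq
    have hd : ¬ π ∣ derivative π := irreducible_not_dvd_derivative hπ
    have hder : derivative Q₀ = π ^ i * (((i : K[X]) + 1) * derivative π * Q₁ +
        π * derivative Q₁) := by
      rw [hQeq, derivative_mul, derivative_pow]
      simp only [Nat.add_sub_cancel, Nat.cast_add, Nat.cast_one, map_add,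
        map_one, map_natCast]
      ring
    have h1 : 2 * G * (derivative P₀ * (π * Q₁) - P₀ * (((i : K[X]) + 1) * derivative π * Q₁ +
        π * derivative Q₁)) + derivative G * P₀ * (π * Q₁) =
        -L * π ^ (i + 2) * Q₁ ^ 2 := by
      apply mul_left_cancel₀ (pow_ne_zero i hπ.ne_zero)
      rw [hder, hQeq] at h0
      linear_combination h0
    have hi1 : IsUnit (((i + 1 : ℕ) : K[X])) := h4 _ (Nat.succ_ne_zero i)
    have h44 : IsUnit ((2 : ℕ) : K[X]) := h4 2 (by norm_num)
    have hπf : π ∣ G := by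
      have h2 : π ∣ ((2 : ℕ) : K[X]) * ((i + 1 : ℕ) : K[X]) * (G * P₀ * derivative π * Q₁) := by
        refine ⟨2 * G * (derivative P₀ * Q₁ - P₀ * derivative Q₁) + derivative G * P₀ * Q₁
          + L * π ^ (i + 1) * Q₁ ^ 2, ?_⟩
        push_cast
        linear_combination -h1
      rcases hprime.dvd_or_dvd h2 with h3 | h3
      · rcases hprime.dvd_or_dvd h3 with h3 | h3
        · exact absurd (isUnit_of_dvd_unit h3 h44) hπ.not_isUnit
        · exact absurd (isUnit_of_dvd_unit h3 hi1) hπ.not_isUnit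
      · rcases hprime.dvd_or_dvd h3 with h3 | h3
        · rcases hprime.dvd_or_dvd h3 with h3 | h3
          · rcases hprime.dvd_or_dvd h3 with h3 | h3
            · exact h3
            · exact absurd h3 hπP
          · exact absurd h3 hd
        · exact absurd h3 hQ1
    obtain ⟨f₁, hf₁⟩ := hπf
    have hdf : derivative G = derivative π * f₁ + π * derivative f₁ := by
      rw [hf₁, derivative_mul]
    have hf1 : ¬ π ∣ f₁ := by
      rintro ⟨f₂, hf₂⟩
      apply hπ.not_isUnit
      apply hG π
      refine ⟨f₂, ?_⟩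
      rw [hf₁, hf₂]
      ring
    have h5 : π ∣ ((2 * i + 1 : ℕ) : K[X]) * (derivative π * f₁ * P₀ * Q₁) := by
      refine ⟨2 * f₁ * (derivative P₀ * Q₁ - P₀ * derivative Q₁) +
        derivative f₁ * P₀ * Q₁ + L * π ^ i * Q₁ ^ 2, ?_⟩
      apply mul_left_cancel₀ hπ.ne_zero
      rw [hdf, hf₁] at h1
      push_cast
      linear_combination -h1
    have h6 : IsUnit ((2 * i + 1 : ℕ) : K[X]) := h4 _ (by omega)
    rcases hprime.dvd_or_dvd h5 with h3 | h3
    · exact hπ.not_isUnit (isUnit_of_dvd_unit h3 h6)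
    · rcases hprime.dvd_or_dvd h3 with h3 | h3
      · rcases hprime.dvd_or_dvd h3 with h3 | h3
        · rcases hprime.dvd_or_dvd h3 with h3 | h3
          · exact hd h3
          · exact hf1 h3
        · exact hπP h3
      · exact hQ1 h3
  obtain ⟨c0, hc0, hc0'⟩ := Polynomial.isUnit_iff.mp hunit
  have hc0n : c0 ≠ 0 := hc0.ne_zero
  have h7 : 2 * G * derivative P₀ + derivative G * P₀ = -L * C c0 := by
    apply mul_left_cancel₀ (C_ne_zero.mpr hc0n)
    rw [← hc0', derivative_C] at h0
    linear_combination h0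
  have hP0 : P₀ ≠ 0 := by
    rintro rfl
    rw [derivative_zero, mul_zero, mul_zero, add_zero] at h7
    have h8 : -L * C c0 ≠ 0 := mul_ne_zero (neg_ne_zero.mpr hL) (C_ne_zero.mpr hc0n)
    exact h8 h7.symm
  obtain ⟨e, he⟩ : ∃ e, G.natDegree = e + 1 := ⟨G.natDegree - 1, by omega⟩
  have hGl : G.coeff (e + 1) ≠ 0 := by
    rw [← he, coeff_natDegree, leadingCoeff_ne_zero]
    exact hG.ne_zero
  set d := P₀.natDegree with hd
  have hlead : P₀.coeff d ≠ 0 := by
    rw [hd, coeff_natDegree]
    exact leadingCoeff_ne_zero.mpr hP0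
  have h9 := congrArg (fun q : K[X] => q.coeff (e + d)) h7
  change (2 * G * derivative P₀ + derivative G * P₀).coeff (e + d) =
    (-L * C c0 : K[X]).coeff (e + d) at h9
  have hR : (-L * C c0 : K[X]).coeff (e + d) = 0 := by
    rw [coeff_mul_C, coeff_neg, coeff_eq_zero_of_natDegree_lt (by omega), neg_zero, zero_mul]
  have e1 : (derivative G * P₀).coeff (e + d) = G.coeff (e + 1) * (e + 1) * P₀.coeff d := by
    rw [coeff_mul_add_eq_of_natDegree_le ((natDegree_derivative_le G).trans (by omega)) hd.ge,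
      coeff_derivative]
  have e2 : (2 * G * derivative P₀).coeff (e + d) = 2 * G.coeff (e + 1) * (P₀.coeff d * d) := by
    have h2 : (2 * G * derivative P₀) = C 2 * (G * derivative P₀) := by
      rw [show (C 2 : K[X]) = 2 from map_ofNat C 2]
      ring
    rw [h2, coeff_C_mul]
    rcases Nat.eq_zero_or_pos d with h0' | h0'
    · have h3 : derivative P₀ = 0 := derivative_of_natDegree_zero (by omega)
      rw [h3, mul_zero, coeff_zero, h0']
      simp
    · obtain ⟨d', hd'⟩ := Nat.exists_eq_succ_of_ne_zero h0'.ne'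
      rw [hd', show e + Nat.succ d' = (e + 1) + d' by omega,
        coeff_mul_add_eq_of_natDegree_le he.le ((natDegree_derivative_le P₀).trans (by omega)),
        coeff_derivative]
      push_cast
      ring
  rw [coeff_add, e1, e2, hR] at h9
  have h10 : G.coeff (e + 1) * P₀.coeff d * ((2 * d + e + 1 : ℕ) : K) = 0 := by
    push_cast
    linear_combination h9
  rcases mul_eq_zero.mp h10 with h11 | h11
  · exact mul_ne_zero hGl hlead h11
  · have : (2 * d + e + 1 : ℕ) ≠ 0 := by omega
    exact this (by exact_mod_cast h11)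

end noSol

section transc

variable {K : Type*} [Field K] [CharZero K] {S : Type*} [CommRing S] [IsDomain S] [Algebra K S]
  (φ : K[X] →+* S) (D : Derivation K S S)

lemma natDegree_lt_of_coeff_eq_zero {R : Type*} [Semiring R] {r : R[X]} {n : ℕ}
    (h1 : r.natDegree ≤ n) (h2 : r.coeff n = 0) (h3 : r ≠ 0) : r.natDegree < n := by
  refine lt_of_le_of_ne h1 fun h4 => ?_
  rw [← h4, coeff_natDegree, leadingCoeff_eq_zero] at h2
  exact h3 h2

lemma coeff_derivative_mul_X {R : Type*} [CommSemiring R] (q : R[X]) (n : ℕ) :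
    (derivative q * X).coeff n = n * q.coeff n := by
  cases n with
  | zero => simp
  | succ m =>
    rw [coeff_mul_X, coeff_derivative]
    push_cast
    ring

omit [IsDomain S] in
/-- A solution `v` of `2 G v' + G' v = -L` satisfies no polynomial equation over `K[t]`. -/
theorem eval₂_zeta_ne_zero (hφ : Function.Injective φ)
    (hD : ∀ P : K[X], D (φ P) = φ (derivative P)) {G L : K[X]} (hG : Squarefree G) (hL : L ≠ 0)
    (hdeg : L.natDegree + 1 < G.natDegree) (v : S)
    (hv : φ (2 * G) * D v + φ (derivative G) * v = -φ L) :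
    ∀ q : K[X][X], q ≠ 0 → eval₂ φ v q ≠ 0 := by
  have main : ∀ n : ℕ, ∀ q : K[X][X], q.natDegree = n → q ≠ 0 → eval₂ φ v q ≠ 0 := by
    intro n
    induction n using Nat.strong_induction_on with
    | _ n ih =>
    intro q hqn hq0 hqv
    have hlead : q.coeff n ≠ 0 := by
      rw [← hqn, coeff_natDegree]
      exact leadingCoeff_ne_zero.mpr hq0
    obtain _ | n := n
    · rw [eq_C_of_natDegree_eq_zero hqn, eval₂_C] at hqv
      rw [map_eq_zero_iff φ hφ] at hqv
      exact hlead hqv
    set R : K[X][X] := C (2 * G) * dc q +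
      (C (-derivative G) * (derivative q * X) + C (-L) * derivative q) with hR
    have hRv : eval₂ φ v R = 0 := by
      have h1 := D_eval₂ φ D hD v q
      rw [hqv, map_zero] at h1
      rw [hR]
      simp only [eval₂_add, eval₂_mul, eval₂_C, eval₂_X, map_neg, eval₂_neg]
      linear_combination -φ (2 * G) * h1 - eval₂ φ v (derivative q) * hv
    have hRdeg : R.natDegree ≤ n + 1 := by
      rw [hR]
      refine natDegree_add_le_of_degree_le ?_ (natDegree_add_le_of_degree_le ?_ ?_)
      · exact (natDegree_C_mul_le _ _).trans ((natDegree_dc_le q).trans hqn.le)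
      · refine (natDegree_C_mul_le _ _).trans (natDegree_mul_le.trans ?_)
        have := natDegree_derivative_le q
        have h3 := natDegree_X_le (R := K[X])
        omega
      · refine (natDegree_C_mul_le _ _).trans ?_
        have := natDegree_derivative_le q
        omega
    set r : K[X][X] := C (q.coeff (n + 1)) * R - C (R.coeff (n + 1)) * q with hr
    have hrv : eval₂ φ v r = 0 := by
      rw [hr, eval₂_sub, eval₂_mul, eval₂_mul, hRv, hqv, mul_zero, mul_zero, sub_zero]
    have hrdeg : r.natDegree ≤ n + 1 := by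
      rw [hr]
      refine (natDegree_sub_le _ _).trans (max_le ?_ ?_)
      · exact (natDegree_C_mul_le _ _).trans hRdeg
      · exact (natDegree_C_mul_le _ _).trans hqn.le
    have hrc : r.coeff (n + 1) = 0 := by
      rw [hr, coeff_sub, coeff_C_mul, coeff_C_mul]
      ring
    have hr0 : r = 0 := by
      by_contra h
      exact ih r.natDegree (natDegree_lt_of_coeff_eq_zero hrdeg hrc h) r rfl h hrv
    have hrn : r.coeff n = 0 := by rw [hr0, coeff_zero]
    rw [hr, coeff_sub, coeff_C_mul, coeff_C_mul] at hrn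
    have hq2 : q.coeff (n + 1 + 1) = 0 := coeff_eq_zero_of_natDegree_lt (by omega)
    have hR1 : R.coeff (n + 1) = 2 * G * derivative (q.coeff (n + 1)) -
        derivative G * (((n : K[X]) + 1) * q.coeff (n + 1)) := by
      rw [hR, coeff_add, coeff_add, coeff_C_mul, coeff_C_mul, coeff_C_mul, coeff_dc,
        coeff_derivative_mul_X, coeff_derivative, hq2]
      push_cast
      ring
    have hR2 : R.coeff n = 2 * G * derivative (q.coeff n) -
        derivative G * ((n : K[X]) * q.coeff n) -
        L * (q.coeff (n + 1) * ((n : K[X]) + 1)) := by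
      rw [hR, coeff_add, coeff_add, coeff_C_mul, coeff_C_mul, coeff_C_mul, coeff_dc,
        coeff_derivative_mul_X, coeff_derivative]
      ring
    rw [hR1, hR2] at hrn
    have hn0 : ((n : K[X]) + 1) ≠ 0 := by exact_mod_cast Nat.succ_ne_zero n
    have hd : derivative ((n : K[X]) + 1) = 0 := by
      rw [derivative_add, derivative_natCast, derivative_one, add_zero]
    refine no_rational hG hL hdeg (P := -q.coeff n) (Q := ((n : K[X]) + 1) * q.coeff (n + 1))
      (mul_ne_zero hn0 hlead) ?_
    rw [derivative_neg, derivative_mul, hd]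
    linear_combination -((n : K[X]) + 1) * hrn
  intro q hq
  exact main q.natDegree q rfl hq

/-- A nonzero solution of `psi' = kappa v psi` satisfies no polynomial equation over `K[t]`. -/
theorem eval₂_sigma_ne_zero (hφ : Function.Injective φ)
    (hD : ∀ P : K[X], D (φ P) = φ (derivative P)) {G L : K[X]} (hG : Squarefree G) (hL : L ≠ 0)
    (hdeg : L.natDegree + 1 < G.natDegree) (v : S)
    (hv : φ (2 * G) * D v + φ (derivative G) * v = -φ L)
    {κ : K} (hκ : κ ≠ 0) {ψ : S} (hψ : ψ ≠ 0) (hψ' : D ψ = φ (C κ) * v * ψ) :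
    ∀ q : K[X][X], q ≠ 0 → eval₂ φ ψ q ≠ 0 := by
  let _ : Algebra K[X] S := φ.toAlgebra
  have hv1 := eval₂_zeta_ne_zero φ D hφ hD hG hL hdeg v hv
  have htr : ¬ IsAlgebraic K[X] v := by
    rintro ⟨q, hq, h0⟩
    exact hv1 q hq h0
  have main : ∀ n : ℕ, ∀ q : K[X][X], q.natDegree = n → q ≠ 0 → eval₂ φ ψ q ≠ 0 := by
    intro n
    induction n using Nat.strong_induction_on with
    | _ n ih =>
    intro q hqn hq0 hqv
    have hlead : q.coeff n ≠ 0 := by
      rw [← hqn, coeff_natDegree]
      exact leadingCoeff_ne_zero.mpr hq0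
    obtain _ | n := n
    · rw [eq_C_of_natDegree_eq_zero hqn, eval₂_C] at hqv
      rw [map_eq_zero_iff φ hφ] at hqv
      exact hlead hqv
    have hder0 : derivative q ≠ 0 := by
      intro h
      have h1 := congrArg (fun r : K[X][X] => r.coeff n) h
      change (derivative q).coeff n = (0 : K[X][X]).coeff n at h1
      rw [coeff_derivative, coeff_zero] at h1
      have hn0 : ((n : K[X]) + 1) ≠ 0 := by exact_mod_cast Nat.succ_ne_zero n
      exact mul_ne_zero hlead hn0 h1
    have hderlt : (derivative q).natDegree < n + 1 := by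
      have := natDegree_derivative_le q
      omega
    have hB : eval₂ φ ψ (derivative q) ≠ 0 := ih _ hderlt _ rfl hder0
    have halg : IsAlgebraic K[X] ψ := ⟨q, hq0, hqv⟩
    have hmem : ∀ r : K[X][X], IsAlgebraic K[X] (eval₂ φ ψ r) := by
      intro r
      have h3 : eval₂ φ ψ r ∈ Algebra.adjoin K[X] {ψ} := aeval_mem_adjoin_singleton K[X] ψ
      exact Algebra.isAlgebraic_adjoin_singleton_iff.mpr halg _ h3
    have h1 := D_eval₂ φ D hD ψ q
    rw [hqv, map_zero, hψ'] at h1
    have hκ' : φ (C κ) ≠ 0 := by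
      rw [Ne, map_eq_zero_iff φ hφ, C_eq_zero]
      exact hκ
    apply htr
    refine IsAlgebraic.of_mul (y := φ (C κ) * (eval₂ φ ψ (derivative q) * ψ)) ?_ ?_ ?_
    · exact mem_nonZeroDivisors_of_ne_zero (mul_ne_zero hκ' (mul_ne_zero hB hψ))
    · exact (isAlgebraic_algebraMap (R := K[X]) (A := S) (C κ)).mul ((hmem _).mul halg)
    · have h4 : φ (C κ) * (eval₂ φ ψ (derivative q) * ψ) * v = eval₂ φ ψ (-(dc q)) := by
        rw [eval₂_neg]
        linear_combination -h1
      rw [h4]
      exact hmem _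
  intro q hq
  exact main q.natDegree q rfl hq

end transc

end Pool.Agent.Lib.MP_3550b5_nt.Tw

namespace Pool.Agent.Lib.MP_3550b5_nt

section final

variable {K : Type*} [Field K] [CharZero K]

open Polynomial in
lemma squarefree_rF {a b : K} (hΔ : 4 * a ^ 3 + 27 * b ^ 2 ≠ 0) :
    Squarefree (X * (1 + C a * X ^ 2 + C b * X ^ 3) : K[X]) := by
  set F : K[X] := 1 + C a * X ^ 2 + C b * X ^ 3 with hF
  have hF' : derivative F = 2 * C a * X + 3 * C b * X ^ 2 := by
    rw [hF]
    simp only [derivative_add, derivative_one, derivative_mul, derivative_C, derivative_pow,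
      derivative_X, map_ofNat, Nat.cast_ofNat]
    ring
  have h3 : (3 : K) * (4 * a ^ 3 + 27 * b ^ 2) ≠ 0 := mul_ne_zero (by norm_num) hΔ
  have hsep : F.Separable := by
    have h1 : F * (3 * (C (4 * a ^ 3 + 27 * b ^ 2) - 9 * C a * C b ^ 2 * X ^ 2)) +
        derivative F * (-X * (C (4 * a ^ 3 + 27 * b ^ 2) - 9 * C a * C b ^ 2 * X ^ 2) -
          C a ^ 2 * X * (2 * C a - 3 * C b * X)) = C (3 * (4 * a ^ 3 + 27 * b ^ 2)) := by
      rw [hF', hF]
      simp only [map_add, map_mul, map_pow, map_ofNat]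
      ring
    have h2 : IsCoprime F (derivative F) := by
      refine ⟨C (3 * (4 * a ^ 3 + 27 * b ^ 2))⁻¹ *
          (3 * (C (4 * a ^ 3 + 27 * b ^ 2) - 9 * C a * C b ^ 2 * X ^ 2)),
        C (3 * (4 * a ^ 3 + 27 * b ^ 2))⁻¹ *
          (-X * (C (4 * a ^ 3 + 27 * b ^ 2) - 9 * C a * C b ^ 2 * X ^ 2) -
          C a ^ 2 * X * (2 * C a - 3 * C b * X)), ?_⟩
      have h5 : C (3 * (4 * a ^ 3 + 27 * b ^ 2))⁻¹ * C (3 * (4 * a ^ 3 + 27 * b ^ 2)) =
          (1 : K[X]) := by
        rw [← C_mul, inv_mul_cancel₀ h3, C_1]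
      linear_combination C (3 * (4 * a ^ 3 + 27 * b ^ 2))⁻¹ * h1 + h5
    exact h2
  have hcop : IsCoprime (X : K[X]) F := by
    refine ⟨-(C a * X + C b * X ^ 2), 1, ?_⟩
    rw [hF]
    ring
  exact (separable_X.mul hsep hcop).squarefree

omit [CharZero K] in
open Polynomial in
lemma natDegree_lt_aux {a b c : K} (hΔ : 4 * a ^ 3 + 27 * b ^ 2 ≠ 0) :
    (C c + C a * X + 2 * C b * X ^ 2 : K[X]).natDegree + 1 <
      (X * (1 + C a * X ^ 2 + C b * X ^ 3) : K[X]).natDegree := by
  have e1 : (X * (1 + C a * X ^ 2 + C b * X ^ 3) : K[X]) =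
      C b * X ^ 4 + C a * X ^ 3 + X := by ring
  have e2 : (C c + C a * X + 2 * C b * X ^ 2 : K[X]) = C (2 * b) * X ^ 2 + C a * X + C c := by
    rw [C_mul, show (C 2 : K[X]) = 2 from map_ofNat C 2]
    ring
  rw [e1, e2]
  by_cases hb : b = 0
  · subst hb
    have ha : a ≠ 0 := by
      rintro rfl
      apply hΔ
      ring
    have h1 : (C (0 : K) * X ^ 4 + C a * X ^ 3 + X : K[X]).natDegree = 3 := by
      rw [C_0, zero_mul, zero_add]
      compute_degree!
    have h2 : (C (2 * (0 : K)) * X ^ 2 + C a * X + C c : K[X]).natDegree ≤ 1 := by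
      rw [mul_zero, C_0, zero_mul, zero_add]
      compute_degree
    omega
  · have h1 : (C b * X ^ 4 + C a * X ^ 3 + X : K[X]).natDegree = 4 := by
      compute_degree!
    have h2 : (C (2 * b) * X ^ 2 + C a * X + C c : K[X]).natDegree ≤ 2 := by
      compute_degree
    omega

open Polynomial in
lemma poly_ne_zero_aux {a b c : K} (hΔ : 4 * a ^ 3 + 27 * b ^ 2 ≠ 0) :
    (C c + C a * X + 2 * C b * X ^ 2 : K[X]) ≠ 0 := by
  intro h
  have e2 : (C c + C a * X + 2 * C b * X ^ 2 : K[X]) = C (2 * b) * X ^ 2 + C a * X + C c := by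
    rw [C_mul, show (C 2 : K[X]) = 2 from map_ofNat C 2]
    ring
  rw [e2] at h
  have h1 : (C (2 * b) * X ^ 2 + C a * X + C c : K[X]).coeff 1 = 0 := by rw [h, coeff_zero]
  have h2 : (C (2 * b) * X ^ 2 + C a * X + C c : K[X]).coeff 2 = 0 := by rw [h, coeff_zero]
  rw [coeff_add, coeff_add, coeff_C_mul, coeff_C_mul, coeff_X_pow, coeff_X, coeff_C] at h1 h2
  norm_num at h1 h2
  apply hΔ
  rw [h1, h2]
  ring

open PowerSeries

theorem transU_of_isSigmaU {a b c : K}
    (hΔ : 4 * a ^ 3 + 27 * b ^ 2 ≠ 0) {U : K⟦X⟧} (hU : IsSigmaU a b c U) : TransU U := by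
  obtain ⟨hU0, hode⟩ := hU
  have hUne : U ≠ 0 := by
    rintro rfl
    rw [map_zero] at hU0
    exact zero_ne_one hU0
  have hinv : U * U⁻¹ = 1 := PowerSeries.mul_inv_cancel U (by rw [hU0]; exact one_ne_zero)
  set D : Derivation K K⟦X⟧ K⟦X⟧ := PowerSeries.derivative K with hD
  have hDapp : ∀ f : K⟦X⟧, D f = PowerSeries.derivative K f := fun f => rfl
  set v : K⟦X⟧ := PowerSeries.derivative K U * U⁻¹ with hvdef
  have hvU : v * U = PowerSeries.derivative K U := by
    rw [hvdef, mul_assoc, mul_comm U⁻¹ U, hinv, mul_one]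
  have hDU : D U = v * U := by rw [hDapp, hvU]
  have hDv : D (D U) = D v * U + v * (v * U) := by
    have h1 : D (v * U) = v • D U + U • D v := Derivation.leibniz D v U
    rw [hDU, h1, smul_eq_mul, smul_eq_mul, hDU]
    ring
  set φ : Polynomial K →+* K⟦X⟧ := Polynomial.coeToPowerSeries.ringHom with hφ
  have hφX : φ Polynomial.X = X := by simp [hφ]
  have hφC : ∀ r : K, φ (Polynomial.C r) = C r := fun r => by simp [hφ]
  have hinj : Function.Injective φ := by
    intro P Q hPQ
    exact Polynomial.coe_injective K hPQ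
  have hDφ : ∀ P : Polynomial K, D (φ P) = φ (Polynomial.derivative P) := fun P =>
    PowerSeries.derivative_coe P
  have hder : Polynomial.derivative
      (Polynomial.X * (1 + Polynomial.C a * Polynomial.X ^ 2 + Polynomial.C b *
        Polynomial.X ^ 3) : Polynomial K) =
      1 + 3 * Polynomial.C a * Polynomial.X ^ 2 + 4 * Polynomial.C b * Polynomial.X ^ 3 := by
    simp only [Polynomial.derivative_add, Polynomial.derivative_one, Polynomial.derivative_mul,
      Polynomial.derivative_C, Polynomial.derivative_pow, Polynomial.derivative_X, map_ofNat,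
      Nat.cast_ofNat]
    ring
  refine Tw.eval₂_sigma_ne_zero φ D hinj hDφ (squarefree_rF hΔ) (poly_ne_zero_aux (c := c) hΔ)
    (natDegree_lt_aux hΔ) v ?_ (κ := 1) one_ne_zero hUne ?_
  · rw [hder]
    apply mul_right_cancel₀ (pow_ne_zero 2 hUne)
    simp only [map_mul, map_add, map_one, map_pow, map_ofNat, hφX, hφC]
    rw [hDv, hDU] at hode
    linear_combination hode
  · rw [Polynomial.C_1, map_one, one_mul, hDU]

end final

end Pool.Agent.Lib.MP_3550b5_nt
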