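import Pool.Agent.Lib.MP_3550b5_nt.TP.NearCover

/-! Points whose value lies in a ball: the trivial count in residue classes. -/

namespace Pool.Agent.Lib.MP_3550b5_nt

open PowerSeries

variable {p : ℕ} [hp : Fact p.Prime]

/-- Roots of `X^K = w` among the units modulo `p^l`. -/
lemma card_roots_le (hp2 : p ≠ 2) {K l : ℕ} (hK : 1 ≤ K) (s : Finset (ZMod (p ^ l)))
    (hu : ∀ u ∈ s, IsUnit u) (hs : ∀ u ∈ s, ∀ u' ∈ s, u ^ K = u' ^ K) : s.card ≤ K := by
  classical
  have hcyc := ZMod.isCyclic_units_of_prime_pow p hp.out hp2 l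
  have hne : NeZero (p ^ l) := ⟨(pow_pos hp.out.pos _).ne'⟩
  rcases s.eq_empty_or_nonempty with h | ⟨u0, hu0⟩
  · simp [h]
  obtain ⟨v0, hv0⟩ := hu u0 hu0
  have hsub : s ⊆ (Finset.univ.filter fun a : (ZMod (p ^ l))ˣ => a ^ K = 1).image
      (fun a : (ZMod (p ^ l))ˣ => (a : ZMod (p ^ l)) * u0) := by
    intro u hus
    obtain ⟨v, hv⟩ := hu u hus
    rw [Finset.mem_image]
    refine ⟨v * v0⁻¹, ?_, ?_⟩
    · rw [Finset.mem_filter]
      refine ⟨Finset.mem_univ _, ?_⟩
      have h1 : v ^ K = v0 ^ K := by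
        apply Units.ext
        rw [Units.val_pow_eq_pow_val, Units.val_pow_eq_pow_val, hv, hv0]
        exact hs u hus u0 hu0
      rw [mul_pow, h1, inv_pow, mul_inv_cancel]
    · rw [← hv0, ← hv, Units.val_mul, mul_assoc, Units.inv_mul, mul_one]
  exact (Finset.card_le_card hsub).trans (Finset.card_image_le.trans
    (IsCyclic.card_pow_eq_one_le hK))

lemma div_eq_of_modEq {q x y : ℤ} (h : q ∣ x - y) (h2 : x / q = y / q) : x = y := by
  have h1 : x % q = y % q := Int.emod_eq_emod_iff_emod_sub_eq_zero.mpr (Int.emod_eq_zero_of_dvd h)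
  rw [← Int.emod_add_mul_ediv x q, ← Int.emod_add_mul_ediv y q, h1, h2]

/-- Rational numbers of bounded height whose numerators and denominators lie in fixed classes. -/
lemma class_card (N q : ℕ) (hq : 1 ≤ q) (T : Finset ℚ) (hT : ∀ x ∈ T, |x.num| ≤ N ∧ x.den ≤ N)
    (hcl : ∀ x ∈ T, ∀ x' ∈ T, (q : ℤ) ∣ x.num - x'.num ∧ (q : ℤ) ∣ (x.den : ℤ) - x'.den) :
    T.card ≤ (2 * N / q + 1) ^ 2 := by
  classical
  have hq0 : (0 : ℤ) < q := by exact_mod_cast hq
  have h1 : T.card ≤ ((Finset.Icc (0 : ℤ) ((2 * N / q : ℕ) : ℤ)) ×ˢ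
      (Finset.Icc (0 : ℤ) ((2 * N / q : ℕ) : ℤ))).card := by
    refine Finset.card_le_card_of_injOn (fun x : ℚ => ((x.num + N) / (q : ℤ), (x.den : ℤ) / q))
      ?_ ?_
    · intro x hx
      obtain ⟨h1, h2⟩ := hT x (Finset.mem_coe.mp hx)
      have h1' := abs_le.mp h1
      rw [Finset.mem_coe, Finset.mem_product, Finset.mem_Icc, Finset.mem_Icc]
      push_cast
      refine ⟨⟨Int.ediv_nonneg (by linarith) hq0.le, Int.ediv_le_ediv hq0 (by linarith)⟩,
        ⟨Int.ediv_nonneg (by positivity) hq0.le, Int.ediv_le_ediv hq0 ?_⟩⟩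
      have : (x.den : ℤ) ≤ N := by exact_mod_cast h2
      linarith [Nat.zero_le N]
    · intro x hx x' hx' h
      obtain ⟨h1, h2⟩ := hcl x (Finset.mem_coe.mp hx) x' (Finset.mem_coe.mp hx')
      simp only [Prod.mk.injEq] at h
      have e1 : x.num + N = x'.num + N := div_eq_of_modEq (by simpa using h1) h.1
      have e2 : (x.den : ℤ) = x'.den := div_eq_of_modEq h2 h.2
      exact Rat.ext (by linarith) (by exact_mod_cast e2)
  refine h1.trans ?_
  rw [Finset.card_product, Int.card_Icc]
  have : ((((2 * N / q : ℕ) : ℤ) + 1 - 0).toNat) = 2 * N / q + 1 := by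
    rw [sub_zero, ← Nat.cast_succ, Int.toNat_natCast]
  rw [this, sq]

/-- Every ball of radius `p^(-l) ≥ 1/N` contains the values of at most `C N² p^(-l)` rational
numbers of height at most `N`. -/
theorem NearCover.ball {V : Type*} {S : V → ℕ → Set ℚ} (H : NearCover p S) (hp2 : p ≠ 2) :
    ∃ C : ℕ, ∀ (v : V) (N l : ℕ) (T : Finset ℚ), p ^ l ≤ N →
      (∀ x ∈ T, |x.num| ≤ N ∧ x.den ≤ N ∧ x ∈ S v l) → T.card * p ^ l ≤ C * N ^ 2 := by
  classical
  have hfin := H.inst
  refine ⟨18 * H.K * Fintype.card H.J, fun v N l T hlN hT => ?_⟩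
  obtain ⟨c, hc, hcov⟩ := H.cover v l
  choose j z hz hR hnum hden using fun x : T => hcov x (hT x x.2).2.2
  have hne : NeZero (p ^ l) := ⟨(pow_pos hp.out.pos _).ne'⟩
  set q := p ^ l with hq
  have hq1 : 1 ≤ q := pow_pos hp.out.pos _
  set R0 := 2 * N / q + 1 with hR0
  -- the fibres of the first map
  have hfib : ∀ g ∈ (Finset.univ : Finset T).image
      (fun x => (j x, PadicInt.toZModPow l (z x), decide ((p : ℤ) ∣ (x : ℚ).den))),
      ((Finset.univ : Finset T).filter fun x =>
        (j x, PadicInt.toZModPow l (z x), decide ((p : ℤ) ∣ (x : ℚ).den)) = g).card ≤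
      R0 ^ 2 * H.K := by
    intro g _
    set F := (Finset.univ : Finset T).filter fun x =>
        (j x, PadicInt.toZModPow l (z x), decide ((p : ℤ) ∣ (x : ℚ).den)) = g with hF
    have hFx : ∀ x ∈ F, ∀ x' ∈ F, j x = j x' ∧
        PadicInt.toZModPow l (z x) = PadicInt.toZModPow l (z x') ∧
        ((p : ℤ) ∣ (x : ℚ).den ↔ (p : ℤ) ∣ (x' : ℚ).den) := by
      intro x hx x' hx'
      have h1 := (Finset.mem_filter.mp hx).2
      have h2 := (Finset.mem_filter.mp hx').2
      have h3 := h1.trans h2.symm
      simp only [Prod.mk.injEq, decide_eq_decide] at h3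
      exact h3
    -- consequences of the congruences
    have hpow : ∀ x ∈ F, ∀ x' ∈ F,
        (((x : ℚ).num : ℤ) : ZMod q) ^ H.K = (((x' : ℚ).num : ℤ) : ZMod q) ^ H.K ∧
        ((((x : ℚ).den : ℤ)) : ZMod q) ^ H.K = ((((x' : ℚ).den : ℤ)) : ZMod q) ^ H.K ∧
        (((x : ℚ).num : ℤ) : ZMod q) * ((((x' : ℚ).den : ℤ)) : ZMod q) =
          (((x' : ℚ).num : ℤ) : ZMod q) * ((((x : ℚ).den : ℤ)) : ZMod q) := by
      intro x hx x' hx'
      obtain ⟨e1, e2, -⟩ := hFx x hx x' hx'
      have hzz : (p : ℤ_[p]) ^ l ∣ z x - z x' := dvd_iff_zmod.mpr e2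
      have hev : ∀ f : ℤ_[p]⟦X⟧, PadicInt.toZModPow l (ev f (z x)) =
          PadicInt.toZModPow l (ev f (z x')) := by
        intro f
        rw [← dvd_iff_zmod, ← Ideal.mem_span_singleton, ← PadicInt.norm_le_pow_iff_mem_span_pow]
        refine (norm_ev_sub_le f (hz x) (hz x')).trans ?_
        rw [PadicInt.norm_le_pow_iff_mem_span_pow, Ideal.mem_span_singleton]
        exact hzz
      refine ⟨?_, ?_, ?_⟩
      · have h1 := dvd_iff_zmod.mp (hnum x)
        have h2 := dvd_iff_zmod.mp (hnum x')
        rw [e1] at h1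
        rw [map_mul, hev, ← map_mul, ← h2, map_pow, map_pow, map_intCast, map_intCast] at h1
        exact h1
      · have h1 := dvd_iff_zmod.mp (hden x)
        have h2 := dvd_iff_zmod.mp (hden x')
        rw [e1] at h1
        rw [map_mul, hev, ← map_mul, ← h2, map_pow, map_pow, map_intCast, map_intCast] at h1
        exact h1
      · have h1 := hR x
        have h2 := hR x'
        rw [e1] at h1
        have h3 := hzz.trans (H.hR _ _ _ _ _ h1 h2)
        have h4 : (p : ℤ_[p]) ^ l ∣ (((x : ℚ).num * (x' : ℚ).den : ℤ) : ℤ_[p]) -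
            (((x' : ℚ).num * (x : ℚ).den : ℤ) : ℤ_[p]) := by
          rw [← Int.cast_sub]; exact h3
        have h5 := dvd_iff_zmod.mp h4
        rw [map_intCast, map_intCast] at h5
        push_cast at h5
        push_cast
        exact h5
    -- the classes in a fibre
    have hcls : (F.image fun x : T => (((x : ℚ).num : ZMod q), (((x : ℚ).den : ℤ) : ZMod q))).card
        ≤ H.K := by
      have hcop : ∀ x : T, IsCoprime (x : ℚ).num ((x : ℚ).den : ℤ) := by
        intro x
        rw [Int.isCoprime_iff_nat_coprime]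
        simpa using (x : ℚ).reduced
      have hunit : ∀ n : ℤ, ¬ (p : ℤ) ∣ n → IsUnit ((n : ℤ) : ZMod q) := by
        intro n hn
        have h1 := (isUnit_intCast hn).map (PadicInt.toZModPow (p := p) l)
        rwa [map_intCast] at h1
      rcases F.eq_empty_or_nonempty with hemp | ⟨x0, hx0⟩
      · simp [hemp]
      by_cases hpx : (p : ℤ) ∣ (x0 : ℚ).den
      · -- the numerators are units
        have hun : ∀ x ∈ F, IsUnit (((x : ℚ).num : ℤ) : ZMod q) := by
          intro x hx
          apply hunit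
          intro h1
          have h2 := ((hFx x hx x0 hx0).2.2).mpr hpx
          have h3 := (hcop x).isUnit_of_dvd' h1 h2
          exact (Nat.prime_iff_prime_int.mp hp.out).not_isUnit h3
        have h1 : (F.image fun x : T => (((x : ℚ).num : ZMod q),
            (((x : ℚ).den : ℤ) : ZMod q))).card ≤
            (F.image fun x : T => ((x : ℚ).num : ZMod q)).card := by
          rw [← Finset.card_image_of_injOn (f := Prod.fst)
            (s := F.image fun x : T => (((x : ℚ).num : ZMod q), (((x : ℚ).den : ℤ) : ZMod q))),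
            Finset.image_image]
          · exact le_rfl
          · intro y hy y' hy' h
            obtain ⟨x, hx, rfl⟩ := Finset.mem_image.mp (Finset.mem_coe.mp hy)
            obtain ⟨x', hx', rfl⟩ := Finset.mem_image.mp (Finset.mem_coe.mp hy')
            simp only at h
            obtain ⟨-, -, h3⟩ := hpow x hx x' hx'
            rw [h] at h3
            have h4 := (hun x' hx').mul_left_cancel h3
            simp only [Prod.mk.injEq]
            exact ⟨h, h4.symm⟩
        refine h1.trans (card_roots_le hp2 H.hK _ ?_ ?_)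
        · intro u hu
          obtain ⟨x, hx, rfl⟩ := Finset.mem_image.mp hu
          exact hun x hx
        · intro u hu u' hu'
          obtain ⟨x, hx, rfl⟩ := Finset.mem_image.mp hu
          obtain ⟨x', hx', rfl⟩ := Finset.mem_image.mp hu'
          exact (hpow x hx x' hx').1
      · -- the denominators are units
        have hun : ∀ x ∈ F, IsUnit ((((x : ℚ).den : ℤ)) : ZMod q) := by
          intro x hx
          apply hunit
          intro h1
          exact hpx (((hFx x hx x0 hx0).2.2).mp h1)
        have h1 : (F.image fun x : T => (((x : ℚ).num : ZMod q),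
            (((x : ℚ).den : ℤ) : ZMod q))).card ≤
            (F.image fun x : T => (((x : ℚ).den : ℤ) : ZMod q)).card := by
          rw [← Finset.card_image_of_injOn (f := Prod.snd)
            (s := F.image fun x : T => (((x : ℚ).num : ZMod q), (((x : ℚ).den : ℤ) : ZMod q))),
            Finset.image_image]
          · exact le_rfl
          · intro y hy y' hy' h
            obtain ⟨x, hx, rfl⟩ := Finset.mem_image.mp (Finset.mem_coe.mp hy)
            obtain ⟨x', hx', rfl⟩ := Finset.mem_image.mp (Finset.mem_coe.mp hy')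
            simp only at h
            obtain ⟨-, -, h3⟩ := hpow x hx x' hx'
            rw [← h] at h3
            have h4 := (hun x hx).mul_right_cancel h3
            simp only [Prod.mk.injEq]
            exact ⟨h4, h⟩
        refine h1.trans (card_roots_le hp2 H.hK _ ?_ ?_)
        · intro u hu
          obtain ⟨x, hx, rfl⟩ := Finset.mem_image.mp hu
          exact hun x hx
        · intro u hu u' hu'
          obtain ⟨x, hx, rfl⟩ := Finset.mem_image.mp hu
          obtain ⟨x', hx', rfl⟩ := Finset.mem_image.mp hu'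
          exact (hpow x hx x' hx').2.1
    have h2 := Finset.card_le_mul_card_image
      (f := fun x : T => (((x : ℚ).num : ZMod q), (((x : ℚ).den : ℤ) : ZMod q))) F (R0 ^ 2) (by
      intro g' _
      set F' := F.filter fun x : T =>
        (((x : ℚ).num : ZMod q), (((x : ℚ).den : ℤ) : ZMod q)) = g' with hF'
      have e1 : F'.card = (F'.image fun x : T => (x : ℚ)).card :=
        (Finset.card_image_of_injective _ Subtype.coe_injective).symm
      rw [e1]
      refine class_card N q hq1 _ ?_ ?_
      · intro x hx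
        obtain ⟨y, hy, rfl⟩ := Finset.mem_image.mp hx
        exact ⟨(hT y y.2).1, (hT y y.2).2.1⟩
      · intro x hx x' hx'
        obtain ⟨y, hy, rfl⟩ := Finset.mem_image.mp hx
        obtain ⟨y', hy', rfl⟩ := Finset.mem_image.mp hx'
        have h1 := (Finset.mem_filter.mp hy).2
        have h2 := (Finset.mem_filter.mp hy').2
        have h3 := h1.trans h2.symm
        simp only [Prod.mk.injEq] at h3
        refine ⟨?_, ?_⟩
        · rw [← ZMod.intCast_zmod_eq_zero_iff_dvd, Int.cast_sub, h3.1, sub_self]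
        · rw [← ZMod.intCast_zmod_eq_zero_iff_dvd, Int.cast_sub, h3.2, sub_self])
    exact h2.trans (Nat.mul_le_mul_left _ hcls)
  have h1 := Finset.card_le_mul_card_image (f := fun x : T =>
    (j x, PadicInt.toZModPow l (z x), decide ((p : ℤ) ∣ (x : ℚ).den))) Finset.univ _ hfib
  have h2 : (Finset.univ : Finset T).card = T.card := by simp
  rw [h2] at h1
  have h3 : ((Finset.univ : Finset T).image fun x : T =>
      (j x, PadicInt.toZModPow l (z x), decide ((p : ℤ) ∣ (x : ℚ).den))).card ≤
      Fintype.card H.J * (q * 2) := by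
    calc _ ≤ Fintype.card (H.J × ZMod q × Bool) := Finset.card_le_univ _
      _ = Fintype.card H.J * (q * 2) := by
        rw [Fintype.card_prod, Fintype.card_prod, ZMod.card, Fintype.card_bool]
  have h4 : q * R0 ≤ 3 * N := by
    have := Nat.mul_div_le (2 * N) q
    rw [hR0, mul_add, mul_one]
    omega
  calc T.card * q ≤ (R0 ^ 2 * H.K * (Fintype.card H.J * (q * 2))) * q :=
        Nat.mul_le_mul_right _ (h1.trans (Nat.mul_le_mul_left _ h3))
    _ = 2 * H.K * Fintype.card H.J * (q * R0) ^ 2 := by ring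
    _ ≤ 2 * H.K * Fintype.card H.J * (3 * N) ^ 2 := by gcongr
    _ = _ := by ring

end Pool.Agent.Lib.MP_3550b5_nt
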