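import Pool.Agent.Lib.MP_3550b5_nt.TP.Defs
import Pool.Agent.Lib.MP_3550b5_nt.HeightVal

/-! The height of a point of a twist in terms of the series `U`. -/

namespace Pool.Agent.Lib.MP_3550b5_nt

open PowerSeries

variable {p : ℕ} [hp : Fact p.Prime]

/-- Equal logarithms. -/
lemma pow_eq_of_ulog_eq (hp3 : 3 ≤ p) {u v : ℤ_[p]} (hu : IsUnit u) (hv : IsUnit v)
    (h : ulog u = ulog v) : u ^ (p - 1) = v ^ (p - 1) := by
  obtain ⟨w, hw⟩ : ∃ w, v * w = 1 := by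
    obtain ⟨v', rfl⟩ := hv
    exact ⟨_, v'.mul_inv⟩
  have hwu : IsUnit w := IsUnit.of_mul_eq_one _ (by rw [mul_comm]; exact hw)
  have h1 : ulog (u * w) = 0 := by
    have h2 := ulog_mul hv hwu
    rw [hw, ulog_one] at h2
    rw [ulog_mul hu hwu, h]; exact h2.symm
  have h3 := norm_ulog hp3 (hu.mul hwu)
  rw [h1, norm_zero] at h3
  have h4 : (u * w) ^ (p - 1) = 1 := by
    have := norm_eq_zero.mp h3.symm
    linear_combination this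
  calc u ^ (p - 1) = (u * w) ^ (p - 1) * v ^ (p - 1) := by
        rw [← mul_pow]; congr 1; linear_combination (-u) * hw
    _ = _ := by rw [h4, one_mul]

theorem tp_height {a b : ℤ} {U : ℤ_[p]⟦X⟧} (hU0 : constantCoeff U = 1)
    {D : ℤ} (hD : ¬ (p : ℤ) ∣ D)
    (hsig : ∀ σ : ℤ_[p]⟦X⟧,
      IsMazurTateSigma p ((a * D ^ 2 : ℤ) : ℤ_[p]) ((b * D ^ 3 : ℤ) : ℤ_[p]) σ →
        ∀ (x y : ℚ_[p]), y ^ 2 = x ^ 3 + (a * D ^ 2 : ℤ) * x + (b * D ^ 3 : ℤ) → 1 < ‖x‖ →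
          ∀ r : ℤ_[p], (r : ℚ_[p]) = D / x →
            (D : ℚ_[p]) * seriesVal σ (-(x / y)) ^ 2 = r * (ev U r : ℤ_[p]))
    {k : ℕ} {P : (curve (a * D ^ 2) (b * D ^ 3)).Point} {A B' D₁ : ℤ}
    (hrep : IsRep (a * D ^ 2) (b * D ^ 3) A B' D₁ (k • P)) (hpD₁ : (p : ℤ) ∣ D₁)
    (hA : ¬ (p : ℤ) ∣ A)
    (hns : IsCoprime (2 * B') (3 * A ^ 2 + a * D ^ 2 * D₁ ^ 4))
    {B : (curve (a * D ^ 2) (b * D ^ 3)).Point → (curve (a * D ^ 2) (b * D ^ 3)).Point → ℚ_[p]}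
    (hB : IsCanonicalHeight p (a * D ^ 2) (b * D ^ 3) B) {r Ai : ℤ_[p]}
    (hAi : (A : ℤ_[p]) * Ai = 1) (hr : r = D * D₁ ^ 2 * Ai) :
    IsUnit (ev U r * Ai) ∧ 2 * (k : ℚ_[p]) ^ 2 * B P P = ulog (ev U r * Ai) := by
  have heq := hrep.eqn
  obtain ⟨hD₁, hh, hkP⟩ := hrep
  have hpZ : Prime (p : ℤ) := Nat.prime_iff_prime_int.mp hp.out
  have hBn : ¬ (p : ℤ) ∣ B' := by
    intro hd
    apply hA
    have h1 : (p : ℤ) ∣ A ^ 3 := by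
      have e : A ^ 3 = B' * B' - D₁ * (a * D ^ 2 * A * D₁ ^ 3 + b * D ^ 3 * D₁ ^ 5) := by
        have : B' * B' = B' ^ 2 := by ring
        rw [this, heq]; ring
      rw [e]
      exact dvd_sub (Dvd.dvd.mul_right hd _) (Dvd.dvd.mul_right hpD₁ _)
    exact hpZ.dvd_of_dvd_pow h1
  obtain ⟨σ, hσ, hform⟩ := hB.formula
  have hf := hform A B' D₁ hh hD₁ hpD₁ hns
  rw [← hkP, hB.nsmul, hB.symm, hB.nsmul] at hf
  -- p-adic facts
  have hA0 : (A : ℚ_[p]) ≠ 0 := by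
    have : A ≠ 0 := fun h0 => hA (h0 ▸ dvd_zero _)
    exact_mod_cast this
  have hB0 : (B' : ℚ_[p]) ≠ 0 := by
    have : B' ≠ 0 := fun h0 => hBn (h0 ▸ dvd_zero _)
    exact_mod_cast this
  have hD0 : (D : ℚ_[p]) ≠ 0 := by
    have : D ≠ 0 := fun h0 => hD (h0 ▸ dvd_zero _)
    exact_mod_cast this
  have hD10 : (D₁ : ℚ_[p]) ≠ 0 := by exact_mod_cast hD₁
  have hAi' : (A : ℚ_[p]) * (Ai : ℚ_[p]) = 1 := by
    have := congrArg (fun z : ℤ_[p] => (z : ℚ_[p])) hAi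
    simpa using this
  have hr' : (r : ℚ_[p]) = D * D₁ ^ 2 * (Ai : ℚ_[p]) := by rw [hr]; push_cast; ring
  have heq' : (B' : ℚ_[p]) ^ 2 = (A : ℚ_[p]) ^ 3 + a * D ^ 2 * A * D₁ ^ 4 + b * D ^ 3 * D₁ ^ 6 := by
    exact_mod_cast heq
  have hnA : ‖(A : ℚ_[p])‖ = 1 := by
    have h1 := PadicInt.isUnit_iff.mp (isUnit_intCast hA)
    rw [← PadicInt.padic_norm_e_of_padicInt] at h1
    simpa using h1
  have hnD : ‖(D₁ : ℚ_[p])‖ < 1 := by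
    have h1 : ‖(D₁ : ℤ_[p])‖ < 1 := (PadicInt.norm_int_lt_one_iff_dvd D₁).mpr hpD₁
    rw [← PadicInt.padic_norm_e_of_padicInt] at h1
    simpa using h1
  have hx : 1 < ‖(A : ℚ_[p]) / (D₁ : ℚ_[p]) ^ 2‖ := by
    rw [norm_div, hnA, norm_pow, one_div]
    have h0 : 0 < ‖(D₁ : ℚ_[p])‖ := norm_pos_iff.mpr hD10
    exact (one_lt_inv₀ (by positivity)).mpr (pow_lt_one₀ h0.le hnD (by norm_num))
  have hs := hsig σ hσ ((A : ℚ_[p]) / (D₁ : ℚ_[p]) ^ 2) ((B' : ℚ_[p]) / (D₁ : ℚ_[p]) ^ 3)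
    (by
      push_cast
      field_simp
      linear_combination heq') hx r (by
      rw [hr']
      field_simp
      linear_combination hAi')
  have harg : -((A : ℚ_[p]) / (D₁ : ℚ_[p]) ^ 2 / ((B' : ℚ_[p]) / (D₁ : ℚ_[p]) ^ 3)) =
      -((A : ℚ_[p]) * (D₁ : ℚ_[p])) / (B' : ℚ_[p]) := by
    field_simp
  rw [harg] at hs
  set w : ℚ_[p] := seriesVal σ (-((A : ℚ_[p]) * (D₁ : ℚ_[p])) / (B' : ℚ_[p])) / (D₁ : ℚ_[p])
    with hw
  have hw2 : w ^ 2 = ((ev U r * Ai : ℤ_[p]) : ℚ_[p]) := by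
    rw [hw, div_pow, div_eq_iff (pow_ne_zero 2 hD10)]
    rw [hr'] at hs
    apply mul_left_cancel₀ hD0
    rw [hs]
    push_cast
    ring
  have hrn : ‖r‖ < 1 := by
    rw [hr]
    have h1 : ‖(D₁ : ℤ_[p])‖ < 1 := (PadicInt.norm_int_lt_one_iff_dvd D₁).mpr hpD₁
    have : ‖(D₁ : ℤ_[p]) * ((D : ℤ_[p]) * D₁ * Ai)‖ < 1 := by
      rw [norm_mul]
      calc _ ≤ ‖(D₁ : ℤ_[p])‖ * 1 := by gcongr; exact PadicInt.norm_le_one _
        _ < 1 := by rw [mul_one]; exact h1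
    rwa [show (D : ℤ_[p]) * D₁ ^ 2 * Ai = (D₁ : ℤ_[p]) * ((D : ℤ_[p]) * D₁ * Ai) from by ring]
  have hunit : IsUnit (ev U r * Ai) :=
    (ev_isUnit hU0 hrn).mul (IsUnit.of_mul_eq_one _ (by rw [mul_comm]; exact hAi))
  refine ⟨hunit, ?_⟩
  have hn : ‖w‖ = 1 := by
    have h1 : ‖w‖ ^ 2 = 1 := by
      rw [← norm_pow, hw2, PadicInt.padic_norm_e_of_padicInt]
      exact PadicInt.isUnit_iff.mp hunit
    exact (pow_eq_one_iff_of_nonneg (norm_nonneg _) (by norm_num)).mp h1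
  set W : ℤ_[p] := ⟨w, hn.le⟩ with hW
  have hWw : (W : ℚ_[p]) = w := rfl
  have hWu : IsUnit W := by
    rw [PadicInt.isUnit_iff, ← PadicInt.padic_norm_e_of_padicInt, hWw, hn]
  have hW2 : W ^ 2 = ev U r * Ai := by
    apply Subtype.coe_injective
    have : ((W ^ 2 : ℤ_[p]) : ℚ_[p]) = w ^ 2 := by push_cast; rfl
    exact this.trans hw2
  rw [← hW2, ulog_pow hWu, ← iwasawaLog_coe hWu, hWw]
  push_cast
  linear_combination 2 * hf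

end Pool.Agent.Lib.MP_3550b5_nt
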