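import Mathlib
import Pool.Agent.Lib.MP_3550b5_nt.TP.Zero

/-! L1, part 3: values of substituted series. -/

namespace Pool.Agent.Lib.MP_3550b5_nt

open PowerSeries

variable {p : ℕ} [hp : Fact p.Prime]

lemma l1_norm_ev_lt {g : ℤ_[p]⟦X⟧} (hg : constantCoeff g = 0) {z : ℤ_[p]} (hz : ‖z‖ < 1) :
    ‖ev g z‖ < 1 := by
  obtain ⟨h, rfl⟩ := X_dvd_iff.mpr hg
  rw [ev_mul _ _ hz, ev_X, norm_mul]
  calc ‖z‖ * ‖ev h z‖ ≤ ‖z‖ * 1 :=
        mul_le_mul_of_nonneg_left (PadicInt.norm_le_one _) (norm_nonneg _)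
    _ < 1 := by rw [mul_one]; exact hz

lemma l1_ev_aeval (P : Polynomial ℤ_[p]) (g : ℤ_[p]⟦X⟧) {z : ℤ_[p]} (hz : ‖z‖ < 1) :
    ev (Polynomial.aeval g P) z = P.eval (ev g z) := by
  have h := Polynomial.hom_eval₂ P (algebraMap ℤ_[p] ℤ_[p]⟦X⟧) (evHom z hz) g
  rw [← Polynomial.aeval_def, evHom_apply] at h
  rw [h, evHom_apply]
  have : (evHom z hz).comp (algebraMap ℤ_[p] ℤ_[p]⟦X⟧) = RingHom.id _ := by
    ext c
    simp only [RingHom.comp_apply, evHom_apply, RingHom.id_apply]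
    exact ev_C c z
  rw [this, Polynomial.eval₂_id]

lemma l1_ev_coe (P : Polynomial ℤ_[p]) {z : ℤ_[p]} (hz : ‖z‖ < 1) :
    ev (P : ℤ_[p]⟦X⟧) z = P.eval z := by
  have h := l1_ev_aeval P X hz
  rw [ev_X] at h
  rw [← h]
  congr 1
  have h2 := subst_coe (R := ℤ_[p]) (S := ℤ_[p]) (HasSubst.X' (R := ℤ_[p])) P
  rw [← h2]
  exact (X_subst _).symm

/-- The value of a substituted series. -/
theorem l1_ev_subst (f g : ℤ_[p]⟦X⟧) (hg : constantCoeff g = 0) {z : ℤ_[p]} (hz : ‖z‖ < 1) :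
    ev (subst g f) z = ev f (ev g z) := by
  have hs : HasSubst g := HasSubst.of_constantCoeff_zero' hg
  have hgz := l1_norm_ev_lt hg hz
  have key : ∀ N : ℕ, ‖ev (subst g f) z - ev f (ev g z)‖ ≤ ‖ev g z‖ ^ N := by
    intro N
    set h : ℤ_[p]⟦X⟧ := PowerSeries.mk fun i => coeff (i + N) f with hh
    have e : f = X ^ N * h + (trunc N f : ℤ_[p]⟦X⟧) := eq_X_pow_mul_shift_add_trunc N f
    have e1 : ev (subst g f) z = ev g z ^ N * ev (subst g h) z + (trunc N f).eval (ev g z) := by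
      conv_lhs => rw [e]
      rw [subst_add hs, subst_mul hs, subst_pow hs, subst_X hs, subst_coe hs, ev_add _ _ hz,
        ev_mul _ _ hz, l1_ev_aeval _ _ hz]
      congr 2
      exact map_pow (evHom z hz) g N
    have e2 : ev f (ev g z) = ev g z ^ N * ev h (ev g z) + (trunc N f).eval (ev g z) := by
      conv_lhs => rw [e]
      rw [ev_add _ _ hgz, ev_mul _ _ hgz, l1_ev_coe _ hgz]
      congr 2
      have := map_pow (evHom (ev g z) hgz) X N
      rw [evHom_apply, evHom_apply, ev_X] at this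
      exact this
    have e3 : ev (subst g f) z - ev f (ev g z) =
        ev g z ^ N * (ev (subst g h) z - ev h (ev g z)) := by rw [e1, e2]; ring
    rw [e3, norm_mul, norm_pow]
    exact mul_le_of_le_one_right (pow_nonneg (norm_nonneg _) _) (PadicInt.norm_le_one _)
  have h0 : ‖ev (subst g f) z - ev f (ev g z)‖ ≤ 0 :=
    ge_of_tendsto' (tendsto_pow_atTop_nhds_zero_of_lt_one (norm_nonneg _) hgz) key
  exact sub_eq_zero.mp (norm_le_zero_iff.mp h0)

lemma l1_ev_expand (f : ℤ_[p]⟦X⟧) {z : ℤ_[p]} (hz : ‖z‖ < 1) :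
    ev (expand 2 two_ne_zero f) z = ev f (z ^ 2) := by
  rw [expand_apply, l1_ev_subst _ _ (by simp) hz]
  congr 1
  have := map_pow (evHom z hz) X 2
  rw [evHom_apply, evHom_apply, ev_X] at this
  exact this

end Pool.Agent.Lib.MP_3550b5_nt
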