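import Pool.Agent.Lib.MP_3550b5_nt.TP.Defs
import Pool.Agent.Lib.MP_3550b5_nt.TP.L1Form
import Pool.Agent.Lib.MP_3550b5_nt.TP.L1Subst
import Pool.Agent.Lib.MP_3550b5_nt.HeightVal

/-! L1: the sigma functions of the twists, in the variable `r = 1 / x`. -/

namespace Pool.Agent.Lib.MP_3550b5_nt

open PowerSeries

lemma l1_hasseRev_twist {R : Type*} [CommRing R] (a b u : R) (q : ℕ) :
    (hasseRev (a * u ^ 2) (b * u ^ 3) q).coeff q = u ^ q * (hasseRev a b q).coeff q := by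
  have h : hasseRev (a * u ^ 2) (b * u ^ 3) q =
      (hasseRev a b q).comp (Polynomial.C u * Polynomial.X) := by
    unfold hasseRev
    simp only [Polynomial.pow_comp, Polynomial.add_comp, Polynomial.one_comp,
      Polynomial.mul_comp, Polynomial.C_comp, Polynomial.X_comp, map_mul, map_pow]
    congr 1
    ring
  rw [h, Polynomial.comp_C_mul_X_coeff]
  ring

/-- One power series `U` gives the squares of the sigma functions of all twists: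
`D σ_D(-x/y)^2 = r U(r)` with `r = D / x`, for the points `(x, y)` of the twist reducing to the
origin. -/
theorem sigma_twists {p : ℕ} [Fact p.Prime] (hp : 5 ≤ p) {a b : ℤ} (hord : GoodOrdinary p a b)
    (hex : ∃ (D : ℤ) (σ : ℤ_[p]⟦X⟧), ¬ (p : ℤ) ∣ D ∧
      IsMazurTateSigma p ((a * D ^ 2 : ℤ) : ℤ_[p]) ((b * D ^ 3 : ℤ) : ℤ_[p]) σ) :
    ∃ (c : ℤ_[p]) (U : ℤ_[p]⟦X⟧), IsSigmaU (a : ℤ_[p]) (b : ℤ_[p]) c U ∧
      ∀ (D : ℤ) (σ : ℤ_[p]⟦X⟧), ¬ (p : ℤ) ∣ D →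
        IsMazurTateSigma p ((a * D ^ 2 : ℤ) : ℤ_[p]) ((b * D ^ 3 : ℤ) : ℤ_[p]) σ →
        ∀ (x y : ℚ_[p]), y ^ 2 = x ^ 3 + (a * D ^ 2 : ℤ) * x + (b * D ^ 3 : ℤ) → 1 < ‖x‖ →
          ∀ r : ℤ_[p], (r : ℚ_[p]) = D / x →
            (D : ℚ_[p]) * seriesVal σ (-(x / y)) ^ 2 = r * (ev U r : ℤ_[p]) := by
  obtain ⟨q, hpq⟩ : ∃ q, p = 2 * q + 1 := by
    have h2 : p ≠ 2 := by omega
    have := (Fact.out : p.Prime).eq_two_or_odd'.resolve_left h2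
    exact this
  have hq : 1 ≤ q := by omega
  have hA := hasse_of_goodOrdinary hpq hq hord
  obtain ⟨D₀, σ₀, hD₀, hσ₀⟩ := hex
  obtain ⟨Di, hDi⟩ : ∃ Di : ℤ_[p], (D₀ : ℤ_[p]) * Di = 1 := by
    obtain ⟨u, hu⟩ := isUnit_intCast hD₀
    exact ⟨↑u⁻¹, by rw [← hu]; exact u.mul_inv⟩
  obtain ⟨c, W', V', Om', S', Z', -, hS'⟩ := sigmaData_of_sigma hσ₀
  obtain ⟨W, V, Om, S, Z, -, hE⟩ := exists_evData hS'
  have hE' : EvData p ((a : ℤ_[p]) * (D₀ : ℤ_[p]) ^ 2) ((b : ℤ_[p]) * (D₀ : ℤ_[p]) ^ 3)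
      c W V Om S Z := by
    push_cast at hE
    exact hE
  obtain ⟨Fi, hFi⟩ := exists_inv_of_constantCoeff (l1F_const (a : ℤ_[p]) (b : ℤ_[p]))
  refine ⟨c * Di, (subst (C Di * X * Fi) S) ^ 2 * Fi, isSigmaU_of_evData hDi hFi hE', ?_⟩
  intro D σ hD hσ x y hxy hx r hr
  -- the parameter
  have hx0 : x ≠ 0 := by
    rintro rfl
    rw [norm_zero] at hx
    exact absurd hx (by norm_num)
  have hr1 : ‖r‖ < 1 := by
    rw [PadicInt.norm_def, hr, norm_div, div_lt_one (by linarith)]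
    exact lt_of_le_of_lt (Padic.norm_int_le_one D) hx
  set F := l1F (a : ℤ_[p]) (b : ℤ_[p]) with hF
  have hevF : ev F r = 1 + a * r ^ 2 + b * r ^ 3 := by
    have e := congrArg (evHom r hr1) (show F = 1 + C (a : ℤ_[p]) * X ^ 2 + C (b : ℤ_[p]) * X ^ 3
      from rfl)
    simp only [map_add, map_mul, map_pow, map_one, evHom_apply, ev_X, ev_C] at e
    exact e
  have hFFi : ev F r * ev Fi r = 1 := by rw [← ev_mul _ _ hr1, hFi, ev_one]
  have hFq : ((ev F r : ℤ_[p]) : ℚ_[p]) = y ^ 2 / x ^ 3 := by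
    rw [hevF, hxy]
    push_cast
    rw [hr]
    field_simp
  have hF0 : ((ev F r : ℤ_[p]) : ℚ_[p]) ≠ 0 := by
    intro h0
    have h1 : ev F r = 0 := Subtype.coe_injective (h0.trans PadicInt.coe_zero.symm)
    rw [h1, zero_mul] at hFFi
    exact zero_ne_one hFFi
  have hy0 : y ≠ 0 := by
    rintro rfl
    rw [hFq] at hF0
    apply hF0
    simp
  have hD0 : (D : ℚ_[p]) ≠ 0 := by
    intro h0
    apply hD
    have : D = 0 := by exact_mod_cast h0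
    rw [this]; exact dvd_zero _
  have hτn : ‖-(x / y)‖ < 1 := by
    have e1 : (-(x / y)) ^ 2 * ((ev F r : ℤ_[p]) : ℚ_[p]) = 1 / x := by
      rw [hFq]; field_simp
    have e2 : ‖((ev F r : ℤ_[p]) : ℚ_[p])‖ = 1 := by
      rw [PadicInt.padic_norm_e_of_padicInt]
      exact PadicInt.isUnit_iff.mp (IsUnit.of_mul_eq_one _ hFFi)
    have e3 := congrArg norm e1
    rw [norm_mul, e2, mul_one, norm_pow, norm_div, norm_one] at e3
    have e4 : ‖-(x / y)‖ ^ 2 < 1 := by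
      rw [e3, div_lt_one (by linarith)]
      exact hx
    nlinarith [norm_nonneg (-(x / y))]
  obtain ⟨τ, hτ⟩ : ∃ τ : ℤ_[p], (τ : ℚ_[p]) = -(x / y) := ⟨⟨_, hτn.le⟩, rfl⟩
  have hτ1 : ‖τ‖ < 1 := by rw [PadicInt.norm_def, hτ]; exact hτn
  have hDτ : (D : ℤ_[p]) * τ ^ 2 * ev F r = r := by
    apply Subtype.coe_injective
    push_cast
    rw [hτ, hFq, hr]
    field_simp
  -- the sigma data of the twist
  obtain ⟨c₁, W₁, V₁, Om₁, S₁, Z₁, hσS₁, hS₁⟩ := sigmaData_of_sigma hσ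
  set u : ℤ_[p] := D * Di with hu
  have hT := (hE'.twist u).toSigma
  have ea : u ^ 2 * ((a : ℤ_[p]) * (D₀ : ℤ_[p]) ^ 2) = ((a * D ^ 2 : ℤ) : ℤ_[p]) := by
    push_cast
    rw [hu]
    linear_combination ((a : ℤ_[p]) * D ^ 2 * ((D₀ : ℤ_[p]) * Di + 1)) * hDi
  have eb : u ^ 3 * ((b : ℤ_[p]) * (D₀ : ℤ_[p]) ^ 3) = ((b * D ^ 3 : ℤ) : ℤ_[p]) := by
    push_cast
    rw [hu]
    linear_combination ((b : ℤ_[p]) * D ^ 3 * ((D₀ : ℤ_[p]) ^ 2 * Di ^ 2 + (D₀ : ℤ_[p]) * Di + 1)) *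
      hDi
  rw [ea, eb] at hT
  have hA' : (hasseRev (PadicInt.toZMod (p := p) ((a * D ^ 2 : ℤ) : ℤ_[p]))
      (PadicInt.toZMod (p := p) ((b * D ^ 3 : ℤ) : ℤ_[p])) q).coeff q ≠ 0 := by
    simp only [map_intCast] at hA ⊢
    push_cast
    rw [l1_hasseRev_twist]
    refine mul_ne_zero (pow_ne_zero _ ?_) hA
    rwa [Ne, ZMod.intCast_zmod_eq_zero_iff_dvd]
  have hval : ev S₁ τ = ev (expand 2 two_ne_zero (rescale u S)) τ := by
    have key : ∀ k : ℕ, ‖ev S₁ τ - ev (expand 2 two_ne_zero (rescale u S)) τ‖ ≤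
        ((p : ℝ)⁻¹) ^ k := by
      intro k
      have := ev_S_close hpq hq k hT hS₁ rfl rfl hA' hτ1
      rwa [zpow_neg, zpow_natCast, ← inv_pow] at this
    have hp1 : ((p : ℝ)⁻¹) < 1 := by
      apply inv_lt_one_of_one_lt₀
      exact_mod_cast (Fact.out : p.Prime).one_lt
    have h0 := ge_of_tendsto' (tendsto_pow_atTop_nhds_zero_of_lt_one (by positivity) hp1) key
    exact sub_eq_zero.mp (norm_le_zero_iff.mp h0)
  have hG0 : constantCoeff (C Di * X * Fi : ℤ_[p]⟦X⟧) = 0 := by simp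
  have hG : ev (C Di * X * Fi : ℤ_[p]⟦X⟧) r = u * τ ^ 2 := by
    rw [ev_mul _ _ hr1, ev_mul _ _ hr1, ev_C, ev_X, hu]
    linear_combination (-(Di * ev Fi r)) * hDτ + (D * Di * τ ^ 2) * hFFi
  rw [← hτ, seriesVal_coe σ hτ1, hσS₁, ev_mul _ _ hτ1, ev_X, hval, l1_ev_expand _ hτ1, ev_rescale,
    ← hG, ← l1_ev_subst _ _ hG0 hr1, ev_mul _ _ hr1]
  have hpow : ev (subst (C Di * X * Fi) S ^ 2) r = ev (subst (C Di * X * Fi) S) r ^ 2 :=
    map_pow (evHom r hr1) _ 2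
  rw [hpow]
  have hfin : (D : ℤ_[p]) * (τ * ev (subst (C Di * X * Fi) S) r) ^ 2 =
      r * (ev (subst (C Di * X * Fi) S) r ^ 2 * ev Fi r) := by
    linear_combination (ev (subst (C Di * X * Fi) S) r ^ 2 * ev Fi r) * hDτ -
      (D * τ ^ 2 * ev (subst (C Di * X * Fi) S) r ^ 2) * hFFi
  have := congrArg (fun z : ℤ_[p] => (z : ℚ_[p])) hfin
  push_cast at this ⊢
  exact this

end Pool.Agent.Lib.MP_3550b5_nt
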