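import Pool.Agent.Lib.MP_3550b5_nt.TP.Defs
import Pool.Agent.Lib.MP_3550b5_nt.Scale

/-!
L3, second part: the sequences `Wseq`, `Aseq` and the division polynomials of Mathlib.
-/

namespace Pool.Agent.Lib.MP_3550b5_nt

open Polynomial

/-- The curve `y^2 = x^3 + a x + b` over any ring. -/
def wc {R : Type*} [CommRing R] (a b : R) : WeierstrassCurve R := ⟨0, 0, 0, a, b⟩

lemma wc_map {R S : Type*} [CommRing R] [CommRing S] (f : R →+* S) (a b : R) :
    (wc a b).map f = wc (f a) (f b) := by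
  simp [wc, WeierstrassCurve.map]

section eval

variable {R : Type*} [CommRing R] {a b x y : R}

lemma eval_psi2 (a b x : R) : (wc a b).Ψ₂Sq.eval x = 4 * (x ^ 3 + a * x + b) := by
  simp [WeierstrassCurve.Ψ₂Sq, wc, WeierstrassCurve.b₂, WeierstrassCurve.b₄, WeierstrassCurve.b₆]
  ring

lemma eval_psi3 (h : y ^ 2 = x ^ 3 + a * x + b) : (wc a b).Ψ₃.eval x = c3 a x y := by
  simp [WeierstrassCurve.Ψ₃, wc, WeierstrassCurve.b₂, WeierstrassCurve.b₄, WeierstrassCurve.b₆,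
    WeierstrassCurve.b₈, c3, h]
  ring

lemma eval_prePsi4 (h : y ^ 2 = x ^ 3 + a * x + b) : (wc a b).preΨ₄.eval x = d4 a x y := by
  have e : y ^ 4 = (x ^ 3 + a * x + b) ^ 2 := by rw [← h]; ring
  simp only [d4, c3, h, e]
  simp [WeierstrassCurve.preΨ₄, wc, WeierstrassCurve.b₂, WeierstrassCurve.b₄, WeierstrassCurve.b₆,
    WeierstrassCurve.b₈]
  ring

lemma eval_prePsi (h : y ^ 2 = x ^ 3 + a * x + b) (n : ℕ) :
    ((wc a b).preΨ' n).eval x = preNormEDS' ((2 * y) ^ 4) (c3 a x y) (d4 a x y) n := by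
  have h1 : ((wc a b).preΨ' n).eval x = evalRingHom x ((wc a b).preΨ' n) := rfl
  rw [h1, WeierstrassCurve.preΨ', map_preNormEDS', map_pow, coe_evalRingHom, eval_psi2,
    eval_psi3 h, eval_prePsi4 h, ← h]
  congr 1
  ring

lemma Wseq_eq_eval (h : y ^ 2 = x ^ 3 + a * x + b) (n : ℕ) :
    Wseq a x y n = ((wc a b).preΨ' n).eval x * (if Even n then 2 * y else 1) := by
  rw [Wseq, normEDS_ofNat, eval_prePsi h]

lemma Wseq_sq (h : y ^ 2 = x ^ 3 + a * x + b) (n : ℕ) :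
    Wseq a x y n ^ 2 = ((wc a b).ΨSq n).eval x := by
  rw [Wseq_eq_eval h, WeierstrassCurve.ΨSq_ofNat]
  split_ifs
  · simp only [eval_mul, eval_pow, eval_psi2, ← h]; ring
  · simp only [eval_mul, eval_pow, eval_one]; ring

lemma Aseq_eq_eval (h : y ^ 2 = x ^ 3 + a * x + b) (n : ℕ) (hn : 1 ≤ n) :
    Aseq a x y n = ((wc a b).Φ n).eval x := by
  obtain ⟨m, rfl⟩ : ∃ m, n = m + 1 := ⟨n - 1, by omega⟩
  rw [Aseq, show m + 1 - 1 = m by omega, show m + 1 + 1 = m + 2 by ring, Wseq_eq_eval h,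
    Wseq_eq_eval h, Wseq_eq_eval h]
  have e := WeierstrassCurve.Φ_ofNat (wc a b) m
  rw [show (((m + 1 : ℕ) : ℤ)) = (m : ℤ) + 1 by push_cast; ring, e]
  by_cases hm : Even m
  · have h1 : ¬ Even (m + 1) := by rw [Nat.even_add_one]; exact fun h => h hm
    have h2 : Even (m + 2) := by
      rw [Nat.even_add]; exact ⟨fun _ => even_two, fun _ => hm⟩
    simp only [if_pos hm, if_neg h1, if_pos h2, eval_sub, eval_mul, eval_pow, eval_X, eval_one,
      eval_psi2, ← h]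
    ring
  · have h1 : Even (m + 1) := by rw [Nat.even_add_one]; exact hm
    have h2 : ¬ Even (m + 2) := by
      rw [Nat.even_add]; intro h; exact hm (h.mpr even_two)
    simp only [if_neg hm, if_pos h1, if_neg h2, eval_sub, eval_mul, eval_pow, eval_X, eval_one,
      eval_psi2, ← h]
    ring

end eval

/-- The sequences of a point on a quadratic twist, in terms of the division polynomials of the
curve. -/
lemma twist_seq {a b s A B : ℤ} {x : ℚ} (hs : s ≠ 0) (hA : (A : ℚ) = s * x)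
    (hB : (B : ℚ) ^ 2 = s ^ 3 * (x ^ 3 + a * x + b)) (hB0 : B ≠ 0) (n : ℕ) (hn : 1 ≤ n) :
    ((Aseq (a * s ^ 2) A B n : ℤ) : ℚ) = (s : ℚ) ^ (n ^ 2) * ((wc (a : ℚ) b).Φ n).eval x ∧
    (s : ℚ) * ((Wseq (a * s ^ 2) A B n : ℤ) : ℚ) ^ 2 =
      (s : ℚ) ^ (n ^ 2) * ((wc (a : ℚ) b).ΨSq n).eval x := by
  obtain ⟨u, hu⟩ : ∃ u : ℂ, u ^ 2 = (s : ℂ) := IsAlgClosed.exists_pow_nat_eq _ two_pos
  have hsC : (s : ℂ) ≠ 0 := by exact_mod_cast hs
  have hu0 : u ≠ 0 := by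
    rintro rfl
    rw [zero_pow two_ne_zero] at hu
    exact hsC hu.symm
  have hBC : (B : ℂ) ≠ 0 := by exact_mod_cast hB0
  set y : ℂ := (B : ℂ) / u ^ 3 with hy
  have hBy : (B : ℂ) = u ^ 3 * y := by rw [hy]; field_simp
  have hy0 : 2 * y ≠ 0 := by
    intro h0
    have : y = 0 := by
      rcases mul_eq_zero.mp h0 with h | h
      · norm_num at h
      · exact h
    rw [this, mul_zero] at hBy
    exact hBC hBy
  have hAC : (A : ℂ) = u ^ 2 * (x : ℂ) := by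
    rw [hu]; exact_mod_cast congrArg (fun z : ℚ => (z : ℂ)) hA
  have hB2 : (B : ℂ) ^ 2 = (s : ℂ) ^ 3 * ((x : ℂ) ^ 3 + a * x + b) := by
    exact_mod_cast congrArg (fun z : ℚ => (z : ℂ)) hB
  have hyy : y ^ 2 = (x : ℂ) ^ 3 + (a : ℂ) * x + b := by
    have h1 : (u ^ 3 * y) ^ 2 = (u ^ 2) ^ 3 * ((x : ℂ) ^ 3 + (a : ℂ) * x + b) := by
      rw [← hBy, hB2, hu]
    have h2 : (u ^ 2) ^ 3 * y ^ 2 = (u ^ 2) ^ 3 * ((x : ℂ) ^ 3 + (a : ℂ) * x + b) := by
      rw [← h1]; ring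
    exact mul_left_cancel₀ (pow_ne_zero _ (pow_ne_zero _ hu0)) h2
  have ha : ((a * s ^ 2 : ℤ) : ℂ) = u ^ 4 * (a : ℂ) := by
    push_cast; rw [← hu]; ring
  have hmapΦ : ((((wc (a : ℚ) b).Φ n).eval x : ℚ) : ℂ) = ((wc (a : ℂ) b).Φ n).eval (x : ℂ) := by
    have h1 : wc (a : ℂ) (b : ℂ) = (wc (a : ℚ) (b : ℚ)).map (algebraMap ℚ ℂ) := by
      rw [wc_map]; simp
    rw [h1, WeierstrassCurve.map_Φ, eval_map_algebraMap]
    have h2 : (x : ℂ) = algebraMap ℚ ℂ x := rfl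
    rw [h2, aeval_algebraMap_apply]
    simp
  have hmapΨ : ((((wc (a : ℚ) b).ΨSq n).eval x : ℚ) : ℂ) = ((wc (a : ℂ) b).ΨSq n).eval (x : ℂ) := by
    have h1 : wc (a : ℂ) (b : ℂ) = (wc (a : ℚ) (b : ℚ)).map (algebraMap ℚ ℂ) := by
      rw [wc_map]; simp
    rw [h1, WeierstrassCurve.map_ΨSq, eval_map_algebraMap]
    have h2 : (x : ℂ) = algebraMap ℚ ℂ x := rfl
    rw [h2, aeval_algebraMap_apply]
    simp
  have hcastA : ((Aseq (a * s ^ 2) A B n : ℤ) : ℂ) = Aseq (u ^ 4 * (a : ℂ)) (u ^ 2 * x) (u ^ 3 * y) n := by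
    have hW : ∀ j, ((Wseq (a * s ^ 2) A B j : ℤ) : ℂ) =
        Wseq (u ^ 4 * (a : ℂ)) (u ^ 2 * x) (u ^ 3 * y) j := by
      intro j
      have := Wseq_map (Int.castRingHom ℂ) (a * s ^ 2) A B j
      simp only [eq_intCast] at this
      rw [this, ha, hAC, hBy]
    rw [Aseq, Aseq]
    push_cast
    rw [hW, hW, hW, hAC]
  have hcastW : ((Wseq (a * s ^ 2) A B n : ℤ) : ℂ) =
      Wseq (u ^ 4 * (a : ℂ)) (u ^ 2 * x) (u ^ 3 * y) n := by
    have := Wseq_map (Int.castRingHom ℂ) (a * s ^ 2) A B n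
    simp only [eq_intCast] at this
    rw [this, ha, hAC, hBy]
  constructor
  · have h1 : ((Aseq (a * s ^ 2) A B n : ℤ) : ℂ) =
        (s : ℂ) ^ (n ^ 2) * (((wc (a : ℚ) b).Φ n).eval x : ℚ) := by
      rw [hcastA, Aseq_scale u (a : ℂ) x y hu0 hy0 n hn, Aseq_eq_eval hyy n hn, hmapΦ, pow_mul, hu]
    exact_mod_cast h1
  · have h2 : (s : ℂ) * ((Wseq (a * s ^ 2) A B n : ℤ) : ℂ) ^ 2 =
        (s : ℂ) ^ (n ^ 2) * (((wc (a : ℚ) b).ΨSq n).eval x : ℚ) := by
      rw [hcastW, ← hu, hmapΨ, ← Wseq_sq hyy]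
      have h3 := Wseq_scale u (a : ℂ) x y hu0 hy0 n
      calc u ^ 2 * Wseq (u ^ 4 * (a : ℂ)) (u ^ 2 * x) (u ^ 3 * y) n ^ 2
          = (u * Wseq (u ^ 4 * (a : ℂ)) (u ^ 2 * x) (u ^ 3 * y) n) ^ 2 := by ring
        _ = _ := by rw [h3]; ring
    exact_mod_cast h2

section hform

lemma hform_map {R S : Type*} [CommRing R] [CommRing S] (φ : R →+* S) (e : ℕ) (f : R[X])
    (m n : R) : φ (hform e f m n) = hform e (f.map φ) (φ m) (φ n) := by
  simp [hform]

lemma hform_eval {F : Type*} [Field F] {e : ℕ} {f : F[X]} (hf : f.natDegree ≤ e) (m : F) {n : F}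
    (hn : n ≠ 0) : hform e f m n = n ^ e * f.eval (m / n) := by
  rw [hform, eval_eq_sum_range' (Nat.lt_succ_of_le hf), Finset.mul_sum]
  refine Finset.sum_congr rfl fun i hi => ?_
  have hi' : i ≤ e := Nat.lt_succ_iff.mp (Finset.mem_range.mp hi)
  have h1 : n ^ e = n ^ i * n ^ (e - i) := by rw [← pow_add]; congr 1; omega
  rw [h1, div_pow]
  field_simp

lemma hform_int_eval {e : ℕ} {f : ℤ[X]} (hf : f.natDegree ≤ e) (x : ℚ) :
    ((hform e f x.num x.den : ℤ) : ℚ) =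
      (x.den : ℚ) ^ e * (f.map (Int.castRingHom ℚ)).eval x := by
  have h1 := hform_map (Int.castRingHom ℚ) e f x.num (x.den : ℤ)
  simp only [eq_intCast, Int.cast_natCast] at h1
  rw [h1, hform_eval ((natDegree_map_le).trans hf) _ (by exact_mod_cast x.den_ne_zero),
    Rat.num_div_den]

/-- Modulo the denominator a monic form is the power of the numerator. -/
lemma hform_monic_dvd {f : ℤ[X]} (hf : f.Monic) {e : ℕ} (he : f.natDegree = e) {l : ℤ}
    (hl : Prime l) {m n : ℤ} (hn : l ∣ n) (h : l ∣ hform e f m n) : l ∣ m := by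
  have h1 : l ∣ m ^ e := by
    have e1 : hform e f m n = (∑ i ∈ Finset.range e, f.coeff i * m ^ i * n ^ (e - i)) + m ^ e := by
      rw [hform, Finset.sum_range_succ, Nat.sub_self, pow_zero, mul_one]
      have : f.coeff e = 1 := by rw [← he]; exact hf
      rw [this, one_mul]
    rw [e1] at h
    refine (dvd_add_right ?_).mp h
    refine Finset.dvd_sum fun i hi => ?_
    have hi' : e - i ≠ 0 := by have := Finset.mem_range.mp hi; omega
    exact Dvd.dvd.mul_left (dvd_pow hn hi') _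
  exact hl.dvd_of_dvd_pow h1

end hform

/-- Odd terms of a sequence with vanishing second term. -/
lemma preNormEDS_zero_odd {F : Type*} [Field F] {c d : F} (hc : c ≠ 0) :
    ∀ n : ℕ, Odd n → preNormEDS' 0 c d n ≠ 0 := by
  intro n
  induction n using Nat.strong_induction_on with
  | _ n ih =>
    intro hn
    obtain ⟨m, rfl⟩ := hn
    match m, ih with
    | 0, _ => simp
    | 1, _ => simpa using hc
    | (j + 2), ih =>
      rw [preNormEDS'_odd]
      by_cases hj : Even j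
      · have h1 : Odd (j + 1) := hj.add_one
        have h3 : Odd (j + 3) := by
          obtain ⟨i, rfl⟩ := hj
          exact ⟨i + 1, by ring⟩
        simp only [if_pos hj, mul_zero, mul_one, zero_sub]
        exact neg_ne_zero.mpr (mul_ne_zero (ih _ (by omega) h1) (pow_ne_zero _ (ih _ (by omega) h3)))
      · rw [Nat.not_even_iff_odd] at hj
        have h1 : Odd (j + 2) := by
          obtain ⟨i, rfl⟩ := hj
          exact ⟨i + 1, by ring⟩
        have h3 : Odd (j + 4) := by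
          obtain ⟨i, rfl⟩ := hj
          exact ⟨i + 2, by ring⟩
        have hj' : ¬ Even j := Nat.not_even_iff_odd.mpr hj
        simp only [if_neg hj', mul_zero, mul_one, sub_zero]
        exact mul_ne_zero (ih _ (by omega) h3) (pow_ne_zero _ (ih _ (by omega) h1))

/-- For even `k` the polynomial `Φ k` does not vanish at a root of the cubic. -/
lemma eval_Phi_ne {F : Type*} [Field F] {a b x : F} (hx : x ^ 3 + a * x + b = 0)
    (hd : 3 * x ^ 2 + a ≠ 0) {k : ℕ} (hk1 : 1 ≤ k) (hk : Even k) :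
    ((wc a b).Φ k).eval x ≠ 0 := by
  have h : (0 : F) ^ 2 = x ^ 3 + a * x + b := by rw [hx]; ring
  rw [← Aseq_eq_eval h k hk1]
  obtain ⟨m, rfl⟩ : ∃ m, k = m + 1 := ⟨k - 1, by omega⟩
  have hm : ¬ Even m := by rwa [Nat.even_add_one] at hk
  have hm' : Odd m := Nat.not_even_iff_odd.mp hm
  have hm2 : Odd (m + 2) := by
    obtain ⟨i, rfl⟩ := hm'
    exact ⟨i + 1, by ring⟩
  have hm2' : ¬ Even (m + 2) := Nat.not_even_iff_odd.mpr hm2
  have hc : c3 a x 0 ≠ 0 := by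
    rw [c3]
    have e : 12 * x * (0 : F) ^ 2 - (3 * x ^ 2 + a) ^ 2 = -(3 * x ^ 2 + a) ^ 2 := by ring
    rw [e]
    exact neg_ne_zero.mpr (pow_ne_zero _ hd)
  rw [Aseq, show m + 1 - 1 = m by omega, show m + 1 + 1 = m + 2 by ring, Wseq, Wseq, Wseq,
    normEDS_ofNat, normEDS_ofNat, normEDS_ofNat, if_pos hk, if_neg hm, if_neg hm2']
  have e0 : (2 * (0 : F)) ^ 4 = 0 := by ring
  rw [e0]
  simp only [mul_zero, mul_one, ne_eq]
  have h1 := preNormEDS_zero_odd (d := d4 a x 0) hc m hm'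
  have h2 := preNormEDS_zero_odd (d := d4 a x 0) hc (m + 2) hm2
  have e1 : x * (0 : F) ^ 2 - preNormEDS' 0 (c3 a x 0) (d4 a x 0) (m + 2) *
      preNormEDS' 0 (c3 a x 0) (d4 a x 0) m =
      -(preNormEDS' 0 (c3 a x 0) (d4 a x 0) (m + 2) * preNormEDS' 0 (c3 a x 0) (d4 a x 0) m) := by
    ring
  rw [e1]
  exact neg_ne_zero.mpr (mul_ne_zero h2 h1)

end Pool.Agent.Lib.MP_3550b5_nt
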