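import Pool.Agent.Lib.MP_3550b5_nt.TP.Idx
import Pool.Agent.Lib.MP_3550b5_nt.TP.Div

/-! L3: arithmetic of the multiple `k P` (uniform `k`, division polynomials `φ`, `ψ`, and the
finite set of values of `g`). Here `ψ` is the square of the `k`-th division polynomial. -/

namespace Pool.Agent.Lib.MP_3550b5_nt

open WeierstrassCurve.Affine Polynomial

/-- Multiples of a point in the kernel of reduction. -/
lemma ker_of_dvd {l : ℕ} [hl : Fact l.Prime] {a b : ℤ} {P : (curve a b).Point}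
    (htor : ¬ IsOfFinAddOrder P) {n k : ℕ} (hk : 1 ≤ k) (hn : 1 ≤ n) (hnk : n ∣ k)
    (h : 1 < ‖((ptX (n • P) : ℚ) : ℚ_[l])‖) : 1 < ‖((ptX (k • P) : ℚ) : ℚ_[l])‖ := by
  obtain ⟨m, rfl⟩ := hnk
  have hm : 1 ≤ m := by
    rcases Nat.eq_zero_or_pos m with h0 | h0
    · rw [h0, mul_zero] at hk; omega
    · exact h0
  have htor' : ¬ IsOfFinAddOrder (n • P) := by
    rw [isOfFinAddOrder_nsmul]; push Not; exact ⟨htor, by omega⟩
  have := ker_mult h (N := m + 1) (fun j hj _ => nsmul_ne_of_not_tor htor' j (by omega)) m hm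
    (Nat.lt_succ_self _)
  rw [mul_comm, mul_smul]
  exact this.1

/-- A prime divisor of `D` outside `6 Δ` does not divide the form of `Φ k`. -/
lemma not_dvd_phi {l : ℕ} [hl : Fact l.Prime] {a b D : ℤ}
    (h6 : ¬ (l : ℤ) ∣ 6 * (4 * a ^ 3 + 27 * b ^ 2)) (hlD : (l : ℤ) ∣ D) (hD : Squarefree D)
    {B₀ D₀ : ℤ} {x : ℚ} (hB0 : B₀ ≠ 0) (hD0 : D₀ ≠ 0)
    (hB : (B₀ : ℚ) ^ 2 = ((D * D₀ ^ 2 : ℤ) : ℚ) ^ 3 * (x ^ 3 + a * x + b))
    {k : ℕ} (hk1 : 1 ≤ k) (hk : Even k) :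
    ¬ (l : ℤ) ∣ hform (k ^ 2) ((wc a b).Φ k) x.num x.den := by
  have hlZ : Prime (l : ℤ) := Nat.prime_iff_prime_int.mp hl.out
  have hmonic : ((wc a b).Φ (k : ℤ)).Monic := WeierstrassCurve.leadingCoeff_Φ _ _
  have hdeg : ((wc a b).Φ (k : ℤ)).natDegree = k ^ 2 := by
    rw [WeierstrassCurve.natDegree_Φ, Int.natAbs_natCast]
  set m : ℤ := x.num with hm
  set n : ℤ := (x.den : ℤ) with hn
  have hn0 : n ≠ 0 := by rw [hn]; exact_mod_cast x.den_ne_zero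
  have hcop : IsCoprime m n := Int.isCoprime_iff_gcd_eq_one.mpr x.reduced
  intro hdvd
  by_cases hln : (l : ℤ) ∣ n
  · have h1 := hform_monic_dvd hmonic hdeg hlZ hln hdvd
    exact hlZ.not_isUnit (hcop.isUnit_of_dvd' h1 hln)
  -- `l` divides the value of the cubic
  set F : ℤ := m ^ 3 + a * m * n ^ 2 + b * n ^ 3 with hF
  have hxF : (n : ℚ) ^ 3 * (x ^ 3 + a * x + b) = (F : ℚ) := by
    have hnq : (n : ℚ) ≠ 0 := by exact_mod_cast hn0
    have hx : x = (m : ℚ) / (n : ℚ) := by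
      rw [hm, hn, Int.cast_natCast, Rat.num_div_den]
    rw [hF, hx]
    push_cast
    field_simp
  have hBF : n ^ 3 * B₀ ^ 2 = (D * D₀ ^ 2) ^ 3 * F := by
    have : ((n ^ 3 * B₀ ^ 2 : ℤ) : ℚ) = (((D * D₀ ^ 2) ^ 3 * F : ℤ) : ℚ) := by
      push_cast
      rw [← hxF, hB]
      push_cast
      ring
    exact_mod_cast this
  have hD00 : D ≠ 0 := hD.ne_zero
  have hF0 : F ≠ 0 := by
    intro h0
    rw [h0, mul_zero] at hBF
    exact (mul_ne_zero (pow_ne_zero _ hn0) (pow_ne_zero _ hB0)) hBF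
  have hvD : padicValInt l D = 1 := by
    obtain ⟨E, rfl⟩ := hlD
    have hE : ¬ (l : ℤ) ∣ E := by
      rintro ⟨G, rfl⟩
      exact hlZ.not_isUnit (hD (l : ℤ) ⟨G, by ring⟩)
    have hE0 : E ≠ 0 := right_ne_zero_of_mul hD00
    rw [padicValInt.mul hlZ.ne_zero hE0, padicValInt.eq_zero_of_not_dvd hE]
    simp
  have hlF : (l : ℤ) ∣ F := by
    by_contra hlF
    have h1 := congrArg (padicValInt l) hBF
    have hvn : padicValInt l n = 0 := padicValInt.eq_zero_of_not_dvd hln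
    have hvF : padicValInt l F = 0 := padicValInt.eq_zero_of_not_dvd hlF
    rw [padicValInt.mul (pow_ne_zero _ hn0) (pow_ne_zero _ hB0),
      padicValInt.mul (pow_ne_zero _ (mul_ne_zero hD00 (pow_ne_zero _ hD0))) hF0,
      show n ^ 3 = n * (n * n) by ring, show B₀ ^ 2 = B₀ * B₀ by ring,
      show (D * D₀ ^ 2) ^ 3 = (D * (D₀ * D₀)) * ((D * (D₀ * D₀)) * (D * (D₀ * D₀))) by ring] at h1
    have hDD : D * (D₀ * D₀) ≠ 0 := mul_ne_zero hD00 (mul_ne_zero hD0 hD0)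
    rw [padicValInt.mul hn0 (mul_ne_zero hn0 hn0), padicValInt.mul hn0 hn0,
      padicValInt.mul hB0 hB0, padicValInt.mul hDD (mul_ne_zero hDD hDD),
      padicValInt.mul hDD hDD, padicValInt.mul hD00 (mul_ne_zero hD0 hD0),
      padicValInt.mul hD0 hD0, hvn, hvF, hvD] at h1
    omega
  -- reduce modulo `l`
  have hnl : ((n : ℤ) : ZMod l) ≠ 0 := by
    intro h0
    exact hln ((ZMod.intCast_zmod_eq_zero_iff_dvd _ _).mp h0)
  set t : ZMod l := ((m : ℤ) : ZMod l) / ((n : ℤ) : ZMod l) with ht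
  have hFz : (F : ZMod l) = 0 := (ZMod.intCast_zmod_eq_zero_iff_dvd _ _).mpr hlF
  have hroot : t ^ 3 + (a : ZMod l) * t + (b : ZMod l) = 0 := by
    have h1 : ((n : ℤ) : ZMod l) ^ 3 * (t ^ 3 + (a : ZMod l) * t + (b : ZMod l)) = 0 := by
      have h2 : ((n : ℤ) : ZMod l) ^ 3 * (t ^ 3 + (a : ZMod l) * t + (b : ZMod l)) =
          (F : ZMod l) := by
        rw [hF, ht]; push_cast; field_simp
      rw [h2, hFz]
    rcases mul_eq_zero.mp h1 with h | h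
    · exact absurd h (pow_ne_zero _ hnl)
    · exact h
  have hder : 3 * t ^ 2 + (a : ZMod l) ≠ 0 := by
    intro h0
    have h1 : ((4 * (4 * a ^ 3 + 27 * b ^ 2) : ℤ) : ZMod l) =
        -((18 * a * t - 27 * b) * (4 * (t ^ 3 + a * t + b))) +
          4 * (6 * a * t ^ 2 - 9 * b * t + 4 * a ^ 2) * (3 * t ^ 2 + a) := by
      push_cast; ring
    rw [hroot, h0] at h1
    have h2 : ((4 * (4 * a ^ 3 + 27 * b ^ 2) : ℤ) : ZMod l) = 0 := by
      rw [h1]; ring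
    have h3 := (ZMod.intCast_zmod_eq_zero_iff_dvd _ _).mp h2
    rcases hlZ.dvd_or_dvd h3 with h4 | h4
    · have h5 : (l : ℤ) ∣ 2 := hlZ.dvd_of_dvd_pow (n := 2) (by norm_num; exact h4)
      exact h6 (Dvd.dvd.mul_right (h5.trans (by norm_num)) _)
    · exact h6 (Dvd.dvd.mul_left h4 _)
  have hne := eval_Phi_ne hroot hder hk1 hk
  have h7 : ((hform (k ^ 2) ((wc a b).Φ k) m n : ℤ) : ZMod l) = 0 :=
    (ZMod.intCast_zmod_eq_zero_iff_dvd _ _).mpr hdvd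
  have h8 := hform_map (Int.castRingHom (ZMod l)) (k ^ 2) ((wc a b).Φ k) m n
  simp only [eq_intCast] at h8
  rw [h7, ← WeierstrassCurve.map_Φ, wc_map, hform_eval _ _ hnl] at h8
  · simp only [eq_intCast] at h8
    rcases mul_eq_zero.mp h8.symm with h9 | h9
    · exact pow_ne_zero _ hnl h9
    · exact hne h9
  · refine (WeierstrassCurve.natDegree_Φ_le _ _).trans ?_
    rw [Int.natAbs_natCast]

theorem twist_multiples {p : ℕ} [Fact p.Prime] (hp : 5 ≤ p) {a b : ℤ}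
    (hord : GoodOrdinary p a b) :
    ∃ (k : ℕ) (φ ψ : Polynomial ℤ) (G : Finset ℤ), 1 ≤ k ∧ φ.Monic ∧ φ.natDegree = k ^ 2 ∧
      ψ ≠ 0 ∧ ψ.natDegree < k ^ 2 ∧ (0 : ℤ) ∉ G ∧
      ∀ (D : ℤ), Squarefree D → ¬ (p : ℤ) ∣ D →
      ∀ (P : (curve (a * D ^ 2) (b * D ^ 3)).Point) (x y : ℚ)
        (h : (curve (a * D ^ 2) (b * D ^ 3)).Nonsingular (D * x) y),
        P = .some _ _ h → ¬ IsOfFinAddOrder P →
        ∃ (A B D₁ g : ℤ), IsRep (a * D ^ 2) (b * D ^ 3) A B D₁ (k • P) ∧ (p : ℤ) ∣ D₁ ∧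
          IsCoprime A D₁ ∧ IsCoprime B D₁ ∧
          IsCoprime (2 * B) (3 * A ^ 2 + a * D ^ 2 * D₁ ^ 4) ∧ g ∈ G ∧
          A * g = hform (k ^ 2) φ x.num x.den ∧
          D * D₁ ^ 2 * g = hform (k ^ 2) ψ x.num x.den ∧
          ¬ (p : ℤ) ∣ hform (k ^ 2) φ x.num x.den := by
  have hpp : p.Prime := Fact.out
  have hpZ : Prime (p : ℤ) := Nat.prime_iff_prime_int.mp hpp
  have hgood := hord.1
  have hΔ : 4 * a ^ 3 + 27 * b ^ 2 ≠ 0 := fun h => hgood (by rw [h]; exact dvd_zero _)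
  obtain ⟨K, hK⟩ := exists_K hΔ
  obtain ⟨k, hk1, hkE, hidx⟩ := exists_index hp hgood hK
  set Δ : ℤ := 6 * (4 * a ^ 3 + 27 * b ^ 2) with hΔd
  have hΔ0 : Δ ≠ 0 := mul_ne_zero (by norm_num) hΔ
  set E : ℕ := 2 * ((0 + K) * k ^ 2 + 1) with hE
  set R : ℤ := Δ ^ E with hR
  have hR0 : R ≠ 0 := pow_ne_zero _ hΔ0
  have hkZ : ((k : ℤ) : ℤ) ≠ 0 := by exact_mod_cast (by omega : k ≠ 0)
  refine ⟨k, (wc a b).Φ k, (wc a b).ΨSq k, (Finset.Icc (-|R|) |R|).erase 0, hk1,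
    WeierstrassCurve.leadingCoeff_Φ _ _, by rw [WeierstrassCurve.natDegree_Φ, Int.natAbs_natCast],
    WeierstrassCurve.ΨSq_ne_zero _ (by simpa using hkZ), ?_, by simp, ?_⟩
  · have h1 := WeierstrassCurve.natDegree_ΨSq_le (wc a b) k
    rw [Int.natAbs_natCast] at h1
    have h2 : 1 ≤ k ^ 2 := Nat.one_le_pow _ _ hk1
    omega
  intro D hD hpD P x y hh hPe htor
  have hD00 : D ≠ 0 := hD.ne_zero
  obtain ⟨hidx1, hidx2⟩ := hidx D hD hpD P htor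
  have hP0 : P ≠ 0 := by rw [hPe]; exact Point.some_ne_zero _
  obtain ⟨A₀, B₀, D₀, hrep, hD₀, hcop0⟩ := exists_rep hP0
  have hD₀0 : D₀ ≠ 0 := hD₀.ne'
  have hDq : (D : ℚ) ≠ 0 := by exact_mod_cast hD00
  have hD₀q : (D₀ : ℚ) ≠ 0 := by exact_mod_cast hD₀0
  have hB₀ : B₀ ≠ 0 := by
    have := hrep.B_ne htor
    intro h0; exact this (by rw [h0]; ring)
  -- the abscissa
  have hxA : (A₀ : ℚ) / (D₀ : ℚ) ^ 2 = D * x := by
    rw [← hrep.ptX_eq, hPe, ptX_some]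
  set s : ℤ := D * D₀ ^ 2 with hs
  have hs0 : s ≠ 0 := mul_ne_zero hD00 (pow_ne_zero _ hD₀0)
  have hA : (A₀ : ℚ) = s * x := by
    rw [div_eq_iff (pow_ne_zero _ hD₀q)] at hxA
    rw [hxA, hs]; push_cast; ring
  have hB : (B₀ : ℚ) ^ 2 = (s : ℚ) ^ 3 * (x ^ 3 + a * x + b) := by
    have h1 := congrArg (fun z : ℤ => (z : ℚ)) hrep.eqn
    push_cast at h1
    rw [h1, hA, hs]; push_cast; ring
  -- the index `n` divides `s`
  set m : ℤ := x.num with hm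
  set n : ℤ := (x.den : ℤ) with hn
  have hn0 : n ≠ 0 := by rw [hn]; exact_mod_cast x.den_ne_zero
  have hnq : (n : ℚ) ≠ 0 := by exact_mod_cast hn0
  have hx : x = (m : ℚ) / (n : ℚ) := by rw [hm, hn, Int.cast_natCast, Rat.num_div_den]
  have hcop : IsCoprime m n := Int.isCoprime_iff_gcd_eq_one.mpr x.reduced
  have hAn : A₀ * n = s * m := by
    have : (A₀ : ℚ) * n = s * m := by rw [hA, hx]; field_simp
    exact_mod_cast this
  obtain ⟨T, hT⟩ : n ∣ s := hcop.symm.dvd_of_dvd_mul_right ⟨A₀, by rw [← hAn]; ring⟩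
  have hT0 : T ≠ 0 := by
    rintro rfl
    rw [mul_zero] at hT; exact hs0 hT
  set φv : ℤ := hform (k ^ 2) ((wc a b).Φ k) m n with hφv
  set ψv : ℤ := hform (k ^ 2) ((wc a b).ΨSq k) m n with hψv
  have hcurve : wc (a : ℚ) (b : ℚ) = (wc a b).map (Int.castRingHom ℚ) := by
    rw [wc_map]; simp
  obtain ⟨hq1, hq2⟩ := twist_seq hs0 hA hB hB₀ k hk1
  have hφq : (φv : ℚ) = (n : ℚ) ^ (k ^ 2) * ((wc (a : ℚ) b).Φ k).eval x := by
    have h1 := hform_int_eval (e := k ^ 2) (f := (wc a b).Φ k) (by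
      refine (WeierstrassCurve.natDegree_Φ_le _ _).trans ?_
      rw [Int.natAbs_natCast]) x
    rw [hφv, h1, hcurve, WeierstrassCurve.map_Φ, hn]; simp
  have hψq : (ψv : ℚ) = (n : ℚ) ^ (k ^ 2) * ((wc (a : ℚ) b).ΨSq k).eval x := by
    have h1 := hform_int_eval (e := k ^ 2) (f := (wc a b).ΨSq k) (by
      refine (WeierstrassCurve.natDegree_ΨSq_le _ _).trans ?_
      rw [Int.natAbs_natCast]; omega) x
    rw [hψv, h1, hcurve, WeierstrassCurve.map_ΨSq, hn]; simp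
  have hAnv : An (a * D ^ 2) A₀ B₀ D₀ k = T ^ (k ^ 2) * φv := by
    have h1 : ((An (a * D ^ 2) A₀ B₀ D₀ k : ℤ) : ℚ) = ((T ^ (k ^ 2) * φv : ℤ) : ℚ) := by
      have e1 : a * D ^ 2 * D₀ ^ 4 = a * s ^ 2 := by rw [hs]; ring
      rw [An, e1, hq1, hT]
      push_cast
      rw [hφq, mul_pow]; ring
    exact_mod_cast h1
  have hDnv : D * Dn (a * D ^ 2) A₀ B₀ D₀ k ^ 2 = T ^ (k ^ 2) * ψv := by
    have h1 : ((D * Dn (a * D ^ 2) A₀ B₀ D₀ k ^ 2 : ℤ) : ℚ) = ((T ^ (k ^ 2) * ψv : ℤ) : ℚ) := by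
      have e1 : a * D ^ 2 * D₀ ^ 4 = a * s ^ 2 := by rw [hs]; ring
      have e2 : (D : ℚ) * (D₀ : ℚ) ^ 2 = (s : ℚ) := by rw [hs]; push_cast; ring
      rw [Dn, e1]
      push_cast
      rw [mul_pow, ← mul_assoc, e2, hq2, hψq, hT]
      push_cast
      rw [mul_pow]; ring
    exact_mod_cast h1
  -- the good multiple
  obtain ⟨G, A₁, B₁, D₁, hG, hrep1, hgcd, hDG, hGl⟩ := exists_good_multiple_c hrep htor hk1
    (fun l hl _ _ => hidx1 l hl)
  obtain ⟨β, hrepk, -⟩ := hrep.mult htor k hk1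
  have hD₁0 : D₁ ≠ 0 := hrep1.1
  have hG0 : G ≠ 0 := hG.ne'
  have hnodvd : ∀ l : ℤ, Prime l → ¬ (l ∣ 2 * B₁ ∧ l ∣ 3 * A₁ ^ 2 + a * D ^ 2 * D₁ ^ 4) := by
    rintro l hl ⟨h1, h2⟩
    exact hl.not_isUnit (hgcd.isUnit_of_dvd' h1 h2)
  have heq1 := hrep1.eqn
  have hAG : An (a * D ^ 2) A₀ B₀ D₀ k = G ^ 2 * A₁ := by
    have h1 := hrep1.ptX_eq
    rw [hrepk.ptX_eq, hDG] at h1
    have hGq : (G : ℚ) ≠ 0 := by exact_mod_cast hG0
    have hD₁q : (D₁ : ℚ) ≠ 0 := by exact_mod_cast hD₁0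
    push_cast at h1
    rw [div_eq_div_iff (pow_ne_zero _ (mul_ne_zero hGq hD₁q)) (pow_ne_zero _ hD₁q)] at h1
    have h2 : ((An (a * D ^ 2) A₀ B₀ D₀ k : ℤ) : ℚ) = ((G ^ 2 * A₁ : ℤ) : ℚ) := by
      push_cast
      apply mul_right_cancel₀ (pow_ne_zero 2 hD₁q)
      rw [h1]; ring
    exact_mod_cast h2
  -- `p ∣ D₁`
  have hpD₁ : (p : ℤ) ∣ D₁ := by
    obtain ⟨j, hj1, hj2, hj3⟩ := hidx2
    have h1 := ker_of_dvd htor hk1 hj1 hj2 hj3
    by_contra hnd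
    rw [hrep1.ptX_eq] at h1
    push_cast at h1
    rw [norm_div, norm_pow, norm_int_eq_one hnd, one_pow, div_one] at h1
    have := Padic.norm_int_le_one (p := p) A₁
    linarith
  -- coprimality
  have hcAD : IsCoprime A₁ D₁ := by
    apply isCoprime_of_prime_dvd
    · rintro ⟨-, h0⟩; exact hD₁0 h0
    · intro l hl h1 h2
      apply hnodvd l hl
      have h3 : l ∣ B₁ ^ 2 := by
        rw [heq1]
        exact dvd_add (dvd_add (dvd_pow h1 (by norm_num))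
          (Dvd.dvd.mul_left (dvd_pow h2 (by norm_num)) _))
          (Dvd.dvd.mul_left (dvd_pow h2 (by norm_num)) _)
      exact ⟨Dvd.dvd.mul_left (hl.dvd_of_dvd_pow h3) _,
        dvd_add (Dvd.dvd.mul_left (dvd_pow h1 (by norm_num)) _)
          (Dvd.dvd.mul_left (dvd_pow h2 (by norm_num)) _)⟩
  have hcBD : IsCoprime B₁ D₁ := by
    apply isCoprime_of_prime_dvd
    · rintro ⟨-, h0⟩; exact hD₁0 h0
    · intro l hl h1 h2
      have h3 : l ∣ A₁ ^ 3 := by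
        have e : A₁ ^ 3 = B₁ * B₁ - D₁ * (a * D ^ 2 * A₁ * D₁ ^ 3 + b * D ^ 3 * D₁ ^ 5) := by
          linear_combination -heq1
        rw [e]
        exact dvd_sub (Dvd.dvd.mul_right h1 _) (Dvd.dvd.mul_right h2 _)
      exact hl.not_isUnit (hcAD.isUnit_of_dvd' (hl.dvd_of_dvd_pow h3) h2)
  have hcA : IsCoprime A₁ D := by
    apply isCoprime_of_prime_dvd
    · rintro ⟨-, h0⟩; exact hD00 h0
    · intro l hl h1 h2
      apply hnodvd l hl
      have h3 : l ∣ B₁ ^ 2 := by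
        rw [heq1]
        refine dvd_add (dvd_add (dvd_pow h1 (by norm_num)) ?_) ?_
        · exact Dvd.dvd.mul_right (Dvd.dvd.mul_right (Dvd.dvd.mul_left
            (dvd_pow h2 (by norm_num)) _) _) _
        · exact Dvd.dvd.mul_right (Dvd.dvd.mul_left (dvd_pow h2 (by norm_num)) _) _
      exact ⟨Dvd.dvd.mul_left (hl.dvd_of_dvd_pow h3) _,
        dvd_add (Dvd.dvd.mul_left (dvd_pow h1 (by norm_num)) _)
          (Dvd.dvd.mul_right (Dvd.dvd.mul_left (dvd_pow h2 (by norm_num)) _) _)⟩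
  have hA₁0 : A₁ ≠ 0 := by
    rintro rfl
    exact hpZ.not_isUnit (hcAD.isUnit_of_dvd' (dvd_zero _) hpD₁)
  -- the proportion
  have hprop : φv * (D * D₁ ^ 2) = ψv * A₁ := by
    have h1 : T ^ (k ^ 2) * (φv * (D * D₁ ^ 2)) = T ^ (k ^ 2) * (ψv * A₁) := by
      calc T ^ (k ^ 2) * (φv * (D * D₁ ^ 2)) = (T ^ (k ^ 2) * φv) * (D * D₁ ^ 2) := by ring
        _ = (G ^ 2 * A₁) * (D * D₁ ^ 2) := by rw [← hAnv, hAG]
        _ = (D * (G * D₁) ^ 2) * A₁ := by ring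
        _ = (T ^ (k ^ 2) * ψv) * A₁ := by rw [← hDG, hDnv]
        _ = _ := by ring
    exact mul_left_cancel₀ (pow_ne_zero _ hT0) h1
  have hcc : IsCoprime A₁ (D * D₁ ^ 2) := hcA.mul_right hcAD.pow_right
  obtain ⟨g, hg⟩ : A₁ ∣ φv := hcc.dvd_of_dvd_mul_right ⟨ψv, by rw [hprop]; ring⟩
  have hgψ : D * D₁ ^ 2 * g = ψv := by
    apply mul_right_cancel₀ hA₁0
    rw [← hprop, hg]; ring
  have hTg : T ^ (k ^ 2) * g = G ^ 2 := by
    apply mul_right_cancel₀ hA₁0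
    rw [← hAG, hAnv, hg]; ring
  have hg0 : g ≠ 0 := by
    rintro rfl
    rw [mul_zero] at hTg
    exact pow_ne_zero 2 hG0 hTg.symm
  -- prime divisors of `G`
  have hGdisc : ∀ l : ℕ, l.Prime → (l : ℤ) ∣ G → (l : ℤ) ∣ Δ ∨ (l : ℤ) ∣ D := by
    intro l hl hlG
    have hlZ : Prime (l : ℤ) := Nat.prime_iff_prime_int.mp hl
    have hlf : Fact l.Prime := ⟨hl⟩
    obtain ⟨h1, h2⟩ := hGl l hl hlG
    have hs1 : SingAt l P := by
      apply rep_of_sing hrep _ h1 h2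
      rintro ⟨h3, h4⟩
      exact hlZ.not_isUnit (hcop0.isUnit_of_dvd' h3 h4)
    have h3 := disc_of_sing hP0 hs1
    have e : 4 * (4 * (a * D ^ 2) ^ 3 + 27 * (b * D ^ 3) ^ 2) =
      4 * (4 * a ^ 3 + 27 * b ^ 2) * D ^ 6 := by ring
    rw [e] at h3
    rcases hlZ.dvd_or_dvd h3 with h4 | h4
    · left
      rcases hlZ.dvd_or_dvd h4 with h5 | h5
      · have h6 : (l : ℤ) ∣ 2 := hlZ.dvd_of_dvd_pow (n := 2) (by norm_num; exact h5)
        exact Dvd.dvd.mul_right (h6.trans (by norm_num)) _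
      · exact Dvd.dvd.mul_left h5 _
    · exact Or.inr (hlZ.dvd_of_dvd_pow h4)
  have hgG : ∀ l : ℤ, Prime l → l ∣ g → l ∣ G := by
    intro l hl h1
    exact hl.dvd_of_dvd_pow (n := 2) (by rw [← hTg]; exact Dvd.dvd.mul_left h1 _)
  have hgΔ : ∀ l : ℕ, l.Prime → (l : ℤ) ∣ g → (l : ℤ) ∣ Δ := by
    intro l hl h1
    have hlZ : Prime (l : ℤ) := Nat.prime_iff_prime_int.mp hl
    have hlf : Fact l.Prime := ⟨hl⟩
    by_contra h2
    have h3 := (hGdisc l hl (hgG _ hlZ h1)).resolve_left h2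
    refine not_dvd_phi h2 h3 hD hB₀ hD₀0 hB hk1 hkE ?_
    rw [← hm, ← hn, ← hφv, hg]
    exact Dvd.dvd.mul_left h1 _
  -- `g ∣ R`
  have hgR : g ∣ R := by
    rw [← Int.natAbs_dvd_natAbs, Nat.dvd_iff_prime_pow_dvd_dvd]
    intro l j hl hlj
    have hlZ : Prime (l : ℤ) := Nat.prime_iff_prime_int.mp hl
    have hlf : Fact l.Prime := ⟨hl⟩
    rcases Nat.eq_zero_or_pos j with rfl | hj
    · simp
    have hljg : (l : ℤ) ^ j ∣ g := by
      rw [← Int.natAbs_dvd_natAbs, Int.natAbs_pow, Int.natAbs_natCast]; exact hlj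
    have hlg : (l : ℤ) ∣ g := (dvd_pow_self _ (by omega)).trans hljg
    have hlΔ := hgΔ l hl hlg
    have hjE : j ≤ E := by
      by_contra hjE
      push Not at hjE
      have h1 : (l : ℤ) ^ E ∣ G ^ 2 := by
        rw [← hTg]
        exact Dvd.dvd.mul_left ((pow_dvd_pow _ hjE.le).trans hljg) _
      rw [hE, mul_comm 2, pow_mul] at h1
      have h2 : (l : ℤ) ^ ((0 + K) * k ^ 2 + 1) ∣ G := (Int.pow_dvd_pow_iff two_ne_zero).mp h1
      refine not_pow_dvd_G (l := l) (s := 0) (k := K) hrep htor (hK l hl D hD) hk1 hrep1 ?_ hDG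
        (g := 1) (A₀ := A₀) (D₀ := D₀) (by ring) (by ring) ?_ (by simp) h2
      · rintro ⟨h3, h4⟩
        exact hlZ.not_isUnit (hcAD.isUnit_of_dvd' h3 h4)
      · rintro ⟨h3, h4⟩
        exact hlZ.not_isUnit (hcop0.isUnit_of_dvd' h3 h4)
    have h3 : (l : ℤ) ^ j ∣ R := (pow_dvd_pow_of_dvd hlΔ j).trans (pow_dvd_pow _ hjE)
    have h4 := Int.natAbs_dvd_natAbs.mpr h3
    rwa [Int.natAbs_pow, Int.natAbs_natCast] at h4
  refine ⟨A₁, B₁, D₁, g, hrep1, hpD₁, hcAD, hcBD, hgcd, ?_, hg.symm, hgψ, ?_⟩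
  · rw [Finset.mem_erase, Finset.mem_Icc]
    refine ⟨hg0, abs_le.mp ?_⟩
    exact Int.le_of_dvd (abs_pos.mpr hR0) (by rwa [abs_dvd, dvd_abs])
  · intro hd
    have h1 : (p : ℤ) ∣ G ^ 2 * A₁ := by
      rw [← hAG, hAnv]; exact Dvd.dvd.mul_left hd _
    rcases hpZ.dvd_or_dvd h1 with h2 | h2
    · have h3 := hpZ.dvd_of_dvd_pow h2
      rcases hGdisc p hpp h3 with h4 | h4
      · rcases hpZ.dvd_or_dvd h4 with h5 | h5
        · have h6 := Int.le_of_dvd (by norm_num) h5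
          have h7 : p = 5 ∨ p = 6 := by omega
          rcases h7 with h7 | h7
          · rw [h7] at h5; norm_num at h5
          · rw [h7] at hpp; norm_num at hpp
        · exact hgood h5
      · exact hpD h4
    · exact hpZ.not_isUnit (hcAD.isUnit_of_dvd' h2 hpD₁)

end Pool.Agent.Lib.MP_3550b5_nt
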