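import Pool.Agent.Lib.MP_3550b5_nt.TP.NearCount

/-! From an approximate cover by arcs to the counting theorems. -/

namespace Pool.Agent.Lib.MP_3550b5_nt

open PowerSeries

variable {p : ℕ} [hp : Fact p.Prime]

/-- The rational numbers in `S v l` (value `v` to precision `p ^ l`) are covered by finitely many
arcs, to precision `p ^ l`. -/
structure NearCover (p : ℕ) [Fact p.Prime] {V : Type*} (S : V → ℕ → Set ℚ) where
  K : ℕ
  hK : 1 ≤ K
  J : Type
  inst : Fintype J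
  A : J → ℤ_[p]⟦X⟧
  B : J → ℤ_[p]⟦X⟧
  hAB : ∀ j, AlgIndep (A j) (B j)
  κ : ℕ
  R : J → ℤ_[p] → ℚ → Prop
  hR : ∀ j z z' x x', R j z x → R j z' x' →
    z - z' ∣ ((x.num * x'.den - x'.num * x.den : ℤ) : ℤ_[p])
  cover : ∀ v l, ∃ c : J → ℤ_[p], (∀ j, c j ∣ (p : ℤ_[p]) ^ κ) ∧ ∀ x ∈ S v l, ∃ j z,
    ‖z‖ < 1 ∧ R j z x ∧ (p : ℤ_[p]) ^ l ∣ (x.num : ℤ_[p]) ^ K - c j * ev (A j) z ∧
      (p : ℤ_[p]) ^ l ∣ ((x.den : ℤ) : ℤ_[p]) ^ K - c j * ev (B j) z

lemma NearCover.inj {V : Type*} {S : V → ℕ → Set ℚ} (H : NearCover p S) :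
    ∀ j z x x', H.R j z x → H.R j z x' → x = x' := by
  intro j z x x' h h'
  have h1 := H.hR j z z x x' h h'
  rw [sub_self, zero_dvd_iff] at h1
  have h2 : x.num * x'.den - x'.num * x.den = 0 := by exact_mod_cast h1
  rw [Rat.eq_iff_mul_eq_mul]
  linarith

lemma NearCover.sep {V : Type*} {S : V → ℕ → Set ℚ} (H : NearCover p S) {j : H.J}
    {z z' : ℤ_[p]} {x x' : ℚ} (h : H.R j z x) (h' : H.R j z' x') (hne : x ≠ x') {N : ℕ}
    (hx : |x.num| ≤ N ∧ x.den ≤ N) (hx' : |x'.num| ≤ N ∧ x'.den ≤ N) :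
    ∃ t : ℤ, t ≠ 0 ∧ |t| ≤ 2 * (N : ℤ) ^ 2 ∧ z - z' ∣ (t : ℤ_[p]) := by
  refine ⟨x.num * x'.den - x'.num * x.den, ?_, ?_, H.hR j z z' x x' h h'⟩
  · intro h0
    apply hne
    rw [Rat.eq_iff_mul_eq_mul]
    linarith
  · have h1 : |x.num * x'.den| ≤ (N : ℤ) * N := by
      rw [abs_mul, Nat.abs_cast]
      exact mul_le_mul hx.1 (by exact_mod_cast hx'.2) (by positivity) (by positivity)
    have h2 : |x'.num * x.den| ≤ (N : ℤ) * N := by
      rw [abs_mul, Nat.abs_cast]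
      exact mul_le_mul hx'.1 (by exact_mod_cast hx.2) (by positivity) (by positivity)
    have h3 := abs_sub (x.num * x'.den) (x'.num * x.den)
    nlinarith

/-- At most `C N^ε` rational numbers of height at most `N`. -/
theorem NearCover.count {V : Type*} {S : V → ℕ → Set ℚ} (H : NearCover p S) {ε : ℝ}
    (hε : 0 < ε) :
    ∃ (C : ℝ) (C1 a1 : ℕ), ∀ (v : V) (N l : ℕ) (T : Finset ℚ), 1 ≤ N → C1 * N ^ a1 ≤ p ^ l →
      (∀ x ∈ T, |x.num| ≤ N ∧ x.den ≤ N ∧ x ∈ S v l) → (T.card : ℝ) ≤ C * (N : ℝ) ^ ε := by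
  classical
  have := H.inst
  choose C C1 a1 hC using fun j => near_arc_count (H.hAB j) H.K H.κ hε
  refine ⟨∑ j, C j, ∑ j, C1 j, ∑ j, a1 j, fun v N l T hN hl hT => ?_⟩
  obtain ⟨c, hc, hcov⟩ := H.cover v l
  choose j z hz hR hnum hden using fun x : T => hcov x (hT x x.2).2.2
  rw [Finset.sum_mul]
  refine card_le_of_cover H.inj T j z hR _ fun i T' hT' => ?_
  have hli : C1 i * N ^ a1 i ≤ p ^ l := by
    refine le_trans ?_ hl
    have h1 : C1 i ≤ ∑ j, C1 j := Finset.single_le_sum (fun _ _ => Nat.zero_le _)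
      (Finset.mem_univ i)
    have h2 : a1 i ≤ ∑ j, a1 j := Finset.single_le_sum (fun _ _ => Nat.zero_le _)
      (Finset.mem_univ i)
    exact Nat.mul_le_mul h1 (Nat.pow_le_pow_right hN h2)
  refine hC i (c i) N l (hc i) hN hli T' (fun w hw => ?_) (fun w hw w' hw' hne => ?_)
  · obtain ⟨x, rfl, rfl⟩ := hT' w hw
    refine ⟨hz x, (x : ℚ).num, ((x : ℚ).den : ℤ), (hT x x.2).1, ?_, hnum x, hden x⟩
    rw [Nat.abs_cast]
    exact_mod_cast (hT x x.2).2.1
  · obtain ⟨x, hx, rfl⟩ := hT' w hw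
    obtain ⟨x', hx', rfl⟩ := hT' w' hw'
    have h1 := hR x
    have h2 := hR x'
    rw [hx] at h1
    rw [hx'] at h2
    refine H.sep h1 h2 ?_ ⟨(hT x x.2).1, (hT x x.2).2.1⟩ ⟨(hT x' x'.2).1, (hT x' x'.2).2.1⟩
    intro h3
    apply hne
    rw [Subtype.ext h3]

/-- At most `M` rational numbers on a plane curve of degree at most `d`. -/
theorem NearCover.curve {V : Type*} {S : V → ℕ → Set ℚ} (H : NearCover p S) (d : ℕ) :
    ∃ M C1 a1 : ℕ, ∀ (v : V) (N l : ℕ) (Q : MvPolynomial (Fin 2) ℚ_[p]) (T : Finset ℚ),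
      1 ≤ N → C1 * N ^ a1 ≤ p ^ l → Q ≠ 0 → Q.totalDegree ≤ d →
      (∀ x ∈ T, |x.num| ≤ N ∧ x.den ≤ N ∧ x ∈ S v l ∧
        MvPolynomial.eval ![(x.num : ℚ_[p]), (x.den : ℚ_[p])] Q = 0) → T.card ≤ M := by
  classical
  have := H.inst
  set D := 2 * d * H.K with hD
  choose M e0 hM using fun j => comb_near (monF (H.A j) (H.B j) D) (comb_mon_ne (H.hAB j) D)
  have hp1 : 1 < p := hp.out.one_lt
  have hp0 : 0 < p := hp.out.pos
  -- the constants of one arc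
  refine ⟨∑ j, M j, ∑ j, p ^ (2 * D * H.κ + e0 j + 1) * (2 * p) ^ (M j), ∑ j, 2 * M j,
    fun v N l Q T hN hl hQ hQd hT => ?_⟩
  obtain ⟨c, hc, hcov⟩ := H.cover v l
  obtain ⟨n, Q', hQ'⟩ := exists_int_poly Q
  have hpn : (p : ℚ_[p]) ^ n ≠ 0 := pow_ne_zero _ (by exact_mod_cast hp.out.ne_zero)
  have hinj : Function.Injective (algebraMap ℤ_[p] ℚ_[p]) := Subtype.coe_injective
  have hQ'0 : Q' ≠ 0 := by
    rintro rfl
    rw [map_zero] at hQ'
    rcases mul_eq_zero.mp hQ'.symm with h | h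
    · exact hpn ((MvPolynomial.C_eq_zero).mp h)
    · exact hQ h
  have hQ'd : Q'.totalDegree ≤ d := by
    have h1 : (MvPolynomial.map (algebraMap ℤ_[p] ℚ_[p]) Q').totalDegree = Q'.totalDegree := by
      rw [MvPolynomial.totalDegree, MvPolynomial.totalDegree,
        MvPolynomial.support_map_of_injective _ hinj]
    rw [← h1, hQ']
    refine (MvPolynomial.totalDegree_mul _ _).trans ?_
    rw [MvPolynomial.totalDegree_C, zero_add]
    exact hQd
  obtain ⟨r0, hr0, hr00⟩ := exists_norm H.hK hQ'0 hQ'd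
  obtain ⟨κ0, hκ0⟩ : ∃ κ0, ∃ i, ¬ (p : ℤ_[p]) ^ (κ0 + 1) ∣ r0 i := by
    obtain ⟨i, hi⟩ : ∃ i, r0 i ≠ 0 := by
      by_contra h
      push Not at h
      exact hr0 (funext h)
    obtain ⟨e, _, -, h⟩ := exists_content (f := fun _ => r0 i) ⟨0, hi⟩
    exact ⟨e, i, h⟩
  obtain ⟨k, r, -, hr, hre⟩ := exists_primitive hκ0
  have hrel : ∀ x y : ℤ_[p], MvPolynomial.eval ![x, y] Q' = 0 →
      ∑ μ : Mon D, r μ * ((x ^ H.K) ^ (μ.1 : ℕ) * (y ^ H.K) ^ (μ.2 : ℕ)) = 0 := by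
    intro x y hxy
    have h1 := hr00 x y hxy
    have h2 : (p : ℤ_[p]) ^ k *
        ∑ μ : Mon D, r μ * ((x ^ H.K) ^ (μ.1 : ℕ) * (y ^ H.K) ^ (μ.2 : ℕ)) = 0 := by
      rw [Finset.mul_sum, ← h1]
      refine Finset.sum_congr rfl fun μ _ => ?_
      rw [hre μ]; ring
    exact (mul_eq_zero.mp h2).resolve_left (pow_ne_zero _ p_ne)
  choose j z hz hR hnum hden using fun x : T => hcov x (hT x x.2).2.2.1
  obtain ⟨ρ, hρ0, hρ1, hρm⟩ := exists_pow_gt (p := p) (2 * N ^ 2) (by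
    have h1 : 0 < N := hN
    have h2 : 0 < N ^ 2 := by positivity
    omega) le_rfl
  rw [mul_one] at hρ1 hρm
  have key : (T.card : ℝ) ≤ ∑ i, (M i : ℝ) := by
    refine card_le_of_cover H.inj T j z hR _ fun i T' hT' => ?_
    have hl2 : 2 * D * H.κ + e0 i + ρ * M i < l := by
      have h1 : p ^ (2 * D * H.κ + e0 i + ρ * M i + 1) ≤ p ^ l := by
        calc p ^ (2 * D * H.κ + e0 i + ρ * M i + 1) =
              p ^ (2 * D * H.κ + e0 i + 1) * (p ^ ρ) ^ M i := by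
              rw [← pow_mul, ← pow_add]; congr 1; ring
          _ ≤ p ^ (2 * D * H.κ + e0 i + 1) * (2 * p * N ^ 2) ^ M i := by
              gcongr
              calc p ^ ρ = p * p ^ (ρ - 1) := by rw [← pow_succ', Nat.sub_add_cancel hρ0]
                _ ≤ p * (2 * N ^ 2) := Nat.mul_le_mul_left _ hρm
                _ = 2 * p * N ^ 2 := by ring
          _ = p ^ (2 * D * H.κ + e0 i + 1) * (2 * p) ^ M i * N ^ (2 * M i) := by
              rw [mul_pow, pow_mul]; ring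
          _ ≤ (∑ j, p ^ (2 * D * H.κ + e0 j + 1) * (2 * p) ^ (M j)) * N ^ (∑ j, 2 * M j) := by
              have h1 : p ^ (2 * D * H.κ + e0 i + 1) * (2 * p) ^ M i ≤
                  ∑ j, p ^ (2 * D * H.κ + e0 j + 1) * (2 * p) ^ (M j) :=
                Finset.single_le_sum
                  (f := fun j => p ^ (2 * D * H.κ + e0 j + 1) * (2 * p) ^ (M j))
                  (fun _ _ => Nat.zero_le _) (Finset.mem_univ i)
              have h2 : 2 * M i ≤ ∑ j, 2 * M j :=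
                Finset.single_le_sum (f := fun j => 2 * M j) (fun _ _ => Nat.zero_le _)
                  (Finset.mem_univ i)
              exact Nat.mul_le_mul h1 (Nat.pow_le_pow_right hN h2)
          _ ≤ p ^ l := hl
      exact (Nat.pow_le_pow_iff_right hp1).mp h1
    have h := hM i (fun μ => r μ * (c i) ^ ((μ.1 : ℕ) + (μ.2 : ℕ))) (2 * D * H.κ) ρ l
      (coeff_not_dvd (hc i) hr) hl2 T' ?_ ?_
    · exact_mod_cast h
    · intro w hw
      obtain ⟨x, rfl, rfl⟩ := hT' w hw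
      refine ⟨hz x, comb_approx (hz x) (hnum x) (hden x) (hrel _ _ ?_)⟩
      have h1 := (hT x x.2).2.2.2
      apply hinj
      rw [map_zero, MvPolynomial.map_eval, hQ', map_mul]
      have e : (algebraMap ℤ_[p] ℚ_[p]) ∘ ![((x : ℚ).num : ℤ_[p]), (((x : ℚ).den : ℤ) : ℤ_[p])] =
          ![((x : ℚ).num : ℚ_[p]), ((x : ℚ).den : ℚ_[p])] := by
        funext i
        fin_cases i <;> simp
      rw [e, h1, mul_zero]
    · intro w hw w' hw' hne
      obtain ⟨x, hx, rfl⟩ := hT' w hw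
      obtain ⟨x', hx', rfl⟩ := hT' w' hw'
      have h1 := hR x
      have h2 := hR x'
      rw [hx] at h1
      rw [hx'] at h2
      obtain ⟨t, ht0, ht, hdvd⟩ := H.sep h1 h2 (by
        intro h3
        apply hne
        rw [Subtype.ext h3]) ⟨(hT x x.2).1, (hT x x.2).2.1⟩ ⟨(hT x' x'.2).1, (hT x' x'.2).2.1⟩
      refine hdvd.trans (int_dvd_pow ht0 (lt_of_le_of_lt ht ?_))
      exact_mod_cast hρ1
  have h2 : (T.card : ℝ) ≤ ((∑ i, M i : ℕ) : ℝ) := by push_cast; exact key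
  exact_mod_cast h2

end Pool.Agent.Lib.MP_3550b5_nt
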