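import Pool.Agent.Lib.MP_3550b5_nt.TP.Chart
import Pool.Agent.Lib.MP_3550b5_nt.TP.NearCover

/-! The charts, approximate version. -/

namespace Pool.Agent.Lib.MP_3550b5_nt

open PowerSeries

/-- The approximate relation in a chart. -/
lemma Chart.near {p : ℕ} [Fact p.Prime] {U : ℤ_[p]⟦X⟧} {φ ψ : Polynomial ℤ_[p]} {e l : ℕ}
    {s : ℤ_[p]} (H : Chart p U φ ψ (e * (p - 1)) s) (hφ : φ.natDegree ≤ e) (hψ : ψ.natDegree ≤ e)
    {m n z g Φi E Ei : ℤ_[p]} (hz : ‖z‖ < 1) (hm : m = (s + z) * n)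
    (hΦ : hform e φ m n * Φi = 1)
    (hu : IsUnit (ev U (hform e ψ m n * Φi) * (g * Φi)))
    (hE : (p : ℤ_[p]) ^ l ∣ (ev U (hform e ψ m n * Φi) * (g * Φi)) ^ (p - 1) - E)
    (hEi : E * Ei = 1) :
    (p : ℤ_[p]) ^ l ∣ n ^ (e * (p - 1)) - g ^ (p - 1) * Ei * ev H.B z ∧
      (p : ℤ_[p]) ^ l ∣ m ^ (e * (p - 1)) -
        g ^ (p - 1) * Ei * ev ((C s + X) ^ (e * (p - 1)) * H.B) z := by
  set Ex := (ev U (hform e ψ m n * Φi) * (g * Φi)) ^ (p - 1) with hEx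
  obtain ⟨Exi, hExi⟩ : ∃ Exi, Ex * Exi = 1 := by
    obtain ⟨u, hu'⟩ := hu.pow (p - 1)
    exact ⟨_, by rw [hEx, ← hu']; exact u.mul_inv⟩
  obtain ⟨h1, h2⟩ := H.rel hφ hψ hz hm hΦ hEx.symm hExi
  have h3 : Exi - Ei = -(Ex - E) * (Exi * Ei) := by
    linear_combination Ei * hExi - Exi * hEi
  constructor
  · rw [h1]
    have : g ^ (p - 1) * Exi * ev H.B z - g ^ (p - 1) * Ei * ev H.B z =
        (Ex - E) * (-(Exi * Ei) * g ^ (p - 1) * ev H.B z) := by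
      linear_combination (g ^ (p - 1) * ev H.B z) * h3
    rw [this]
    exact Dvd.dvd.mul_right hE _
  · rw [h2]
    set F := ev ((C s + X) ^ (e * (p - 1)) * H.B) z
    have : g ^ (p - 1) * Exi * F - g ^ (p - 1) * Ei * F =
        (Ex - E) * (-(Exi * Ei) * g ^ (p - 1) * F) := by
      linear_combination (g ^ (p - 1) * F) * h3
    rw [this]
    exact Dvd.dvd.mul_right hE _

theorem nearCover_of_data {p : ℕ} [hpf : Fact p.Prime] (hp : 2 ≤ p) {U : ℤ_[p]⟦X⟧}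
    (hU0 : constantCoeff U = 1)
    (hU : TransU (PowerSeries.map (algebraMap ℤ_[p] ℚ_[p]) U))
    {e : ℕ} (he : 1 ≤ e) {φ ψ : Polynomial ℤ} (hφ : φ.Monic) (hφd : φ.natDegree = e)
    (hψ : ψ ≠ 0) (hψd : ψ.natDegree < e) (G : Finset ℤ) (hG : (0 : ℤ) ∉ G)
    {V : Type*} (S : V → ℕ → Set ℚ)
    (h : ∀ v l, ∃ E : ℤ_[p], IsUnit E ∧ ∀ x ∈ S v l, ∃ g ∈ G,
      ¬ (p : ℤ) ∣ hform e φ x.num x.den ∧ (p : ℤ) ∣ hform e ψ x.num x.den ∧
      ∀ Φi : ℤ_[p], ((hform e φ x.num x.den : ℤ) : ℤ_[p]) * Φi = 1 →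
        IsUnit (ev U (((hform e ψ x.num x.den : ℤ) : ℤ_[p]) * Φi) * ((g : ℤ_[p]) * Φi)) ∧
        (p : ℤ_[p]) ^ l ∣ (ev U (((hform e ψ x.num x.den : ℤ) : ℤ_[p]) * Φi) *
          ((g : ℤ_[p]) * Φi)) ^ (p - 1) - E) :
    Nonempty (NearCover p S) := by
  classical
  set φp := φ.map (Int.castRingHom ℤ_[p]) with hφp
  set ψp := ψ.map (Int.castRingHom ℤ_[p]) with hψp
  have hφpd : φp.natDegree ≤ e := Polynomial.natDegree_map_le.trans hφd.le
  have hψpd : ψp.natDegree < e := lt_of_le_of_lt Polynomial.natDegree_map_le hψd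
  have hφc : φp.coeff e = 1 := by
    rw [hφp, Polynomial.coeff_map, ← hφd]
    have : φ.coeff φ.natDegree = 1 := hφ
    rw [this]; simp
  have hψc : ψp.coeff e = 0 := Polynomial.coeff_eq_zero_of_natDegree_lt hψpd
  have hψ0 : ψp ≠ 0 := by
    rw [hψp]
    exact (Polynomial.map_ne_zero_iff (RingHom.injective_int _)).mpr hψ
  have hK : 1 ≤ e * (p - 1) := Nat.mul_pos he (by omega)
  have hr1 : (φp.reflect e).coeff 0 = 1 := by
    rw [Polynomial.coeff_reflect, Polynomial.revAt_le (Nat.zero_le _), Nat.sub_zero, hφc]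
  have hr2 : (ψp.reflect e).coeff 0 = 0 := by
    rw [Polynomial.coeff_reflect, Polynomial.revAt_le (Nat.zero_le _), Nat.sub_zero, hψc]
  have hr0 : ψp.reflect e ≠ 0 := by
    rw [Ne, Polynomial.reflect_eq_zero_iff]; exact hψ0
  -- the size of the elements of `G`
  obtain ⟨κ, hκ⟩ : ∃ κ : ℕ, ∀ g ∈ G, (g : ℤ_[p]) ^ (p - 1) ∣ (p : ℤ_[p]) ^ κ := by
    set κ0 := ∑ g ∈ G, g.natAbs with hκ0
    refine ⟨κ0 * (p - 1), fun g hg => ?_⟩
    rw [pow_mul]
    apply pow_dvd_pow_of_dvd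
    refine int_dvd_pow (fun h0 => hG (h0 ▸ hg)) ?_
    have h1 : g.natAbs ≤ κ0 := Finset.single_le_sum (f := fun g : ℤ => g.natAbs)
      (fun _ _ => Nat.zero_le _) hg
    have h2 : g.natAbs < p ^ κ0 := by
      calc g.natAbs ≤ κ0 := h1
        _ < 2 ^ κ0 := Nat.lt_two_pow_self
        _ ≤ p ^ κ0 := Nat.pow_le_pow_left hp _
    rw [Int.abs_eq_natAbs]
    exact_mod_cast h2
  -- the charts
  have ch : ∀ i : {i : Fin p // IsUnit (φp.eval (((i : ℕ) : ℤ_[p]))) ∧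
      ‖ψp.eval (((i : ℕ) : ℤ_[p]))‖ < 1},
      Nonempty (Chart p U φp ψp (e * (p - 1)) (((i : Fin p) : ℕ) : ℤ_[p])) := fun i =>
    exists_chart hU0 hU φp ψp (lin_comb_ne e hφc hψc hψ0) _ i.2.1 i.2.2 _ hK
  obtain ⟨ch0⟩ : Nonempty (Chart p U (φp.reflect e) (ψp.reflect e) (e * (p - 1)) 0) := by
    refine exists_chart hU0 hU _ _ (lin_comb_ne 0 hr1 hr2 hr0) 0 ?_ ?_ _ hK
    · rw [← Polynomial.coeff_zero_eq_eval_zero, hr1]; exact isUnit_one
    · rw [← Polynomial.coeff_zero_eq_eval_zero, hr2]; simp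
  have ch' := fun i => Classical.choice (ch i)
  refine ⟨{
    K := e * (p - 1)
    hK := hK
    J := Option {i : Fin p // IsUnit (φp.eval (((i : ℕ) : ℤ_[p]))) ∧
      ‖ψp.eval (((i : ℕ) : ℤ_[p]))‖ < 1} × {g : ℤ // g ∈ G}
    inst := Fintype.ofFinite _
    A := fun j => j.1.elim ch0.B
      (fun i => (C (((i : Fin p) : ℕ) : ℤ_[p]) + X) ^ (e * (p - 1)) * (ch' i).B)
    B := fun j => j.1.elim ((C 0 + X) ^ (e * (p - 1)) * ch0.B) (fun i => (ch' i).B)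
    hAB := ?_
    κ := κ
    R := fun j z x => j.1.elim (((x.den : ℤ) : ℤ_[p]) = (0 + z) * (x.num : ℤ_[p]))
      (fun i => (x.num : ℤ_[p]) = ((((i : Fin p) : ℕ) : ℤ_[p]) + z) * ((x.den : ℤ) : ℤ_[p]))
    hR := ?_
    cover := ?_ }⟩
  · rintro ⟨_ | i, g⟩
    · exact ch0.ind.swap
    · exact (ch' i).ind
  · rintro ⟨_ | i, g⟩ z z' x x' h1 h2
    · simp only [Option.elim] at h1 h2
      refine ⟨-((x.num : ℤ_[p]) * (x'.num : ℤ_[p])), ?_⟩
      rw [Int.cast_sub, Int.cast_mul, Int.cast_mul, h1, h2]; ring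
    · simp only [Option.elim] at h1 h2
      refine ⟨((x.den : ℤ) : ℤ_[p]) * ((x'.den : ℤ) : ℤ_[p]), ?_⟩
      rw [Int.cast_sub, Int.cast_mul, Int.cast_mul, h1, h2]; ring
  · intro v l
    obtain ⟨E, hE, hx⟩ := h v l
    obtain ⟨Ei, hEi⟩ : ∃ Ei, E * Ei = 1 := by
      obtain ⟨u, rfl⟩ := hE
      exact ⟨_, u.mul_inv⟩
    have hEiu : IsUnit Ei := IsUnit.of_mul_eq_one _ (by rw [mul_comm]; exact hEi)
    refine ⟨fun j => ((j.2 : ℤ) : ℤ_[p]) ^ (p - 1) * Ei, ?_, ?_⟩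
    · rintro ⟨i, g, hg⟩
      exact hEiu.mul_right_dvd.mpr (hκ g hg)
    · intro x hxS
      obtain ⟨g, hg, h1, h2, h3⟩ := hx x hxS
      have hΦu := isUnit_intCast h1
      obtain ⟨Φi, hΦi⟩ : ∃ Φi : ℤ_[p], ((hform e φ x.num x.den : ℤ) : ℤ_[p]) * Φi = 1 := by
        obtain ⟨u, hu⟩ := hΦu
        exact ⟨_, by rw [← hu]; exact u.mul_inv⟩
      obtain ⟨hu4, h4⟩ := h3 Φi hΦi
      have h2' : ‖((hform e ψ x.num x.den : ℤ) : ℤ_[p])‖ < 1 :=
        (PadicInt.norm_int_lt_one_iff_dvd _).mpr h2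
      have h1' := PadicInt.isUnit_iff.mp hΦu
      have hcop : IsCoprime x.num (x.den : ℤ) := by
        rw [Int.isCoprime_iff_nat_coprime]
        simpa using x.reduced
      by_cases hpn : (p : ℤ) ∣ x.den
      · -- the chart at infinity
        have hm : ¬ (p : ℤ) ∣ x.num := fun hm => by
          have := hcop.isUnit_of_dvd' hm hpn
          exact (Nat.prime_iff_prime_int.mp (Fact.out : p.Prime)).not_isUnit this
        obtain ⟨mi, hmi⟩ : ∃ mi : ℤ_[p], (x.num : ℤ_[p]) * mi = 1 := by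
          obtain ⟨u, hu⟩ := isUnit_intCast hm
          exact ⟨_, by rw [← hu]; exact u.mul_inv⟩
        have hz : ‖((x.den : ℤ) : ℤ_[p]) * mi‖ < 1 :=
          norm_mul_lt_one ((PadicInt.norm_int_lt_one_iff_dvd _).mpr hpn)
        have hR : ((x.den : ℤ) : ℤ_[p]) =
            (0 + ((x.den : ℤ) : ℤ_[p]) * mi) * (x.num : ℤ_[p]) := by
          linear_combination (-((x.den : ℤ) : ℤ_[p])) * hmi
        rw [hform_cast, hform_swap, ← hφp] at hΦi
        rw [hform_cast, hform_swap, ← hψp] at h4 hu4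
        have h5 := ch0.near (natDegree_reflect_le' hφpd) (natDegree_reflect_le' hψpd.le) hz hR
          hΦi hu4 h4 hEi
        exact ⟨⟨none, g, hg⟩, _, hz, hR, h5.1, h5.2⟩
      · obtain ⟨ni, hni⟩ : ∃ ni : ℤ_[p], ((x.den : ℤ) : ℤ_[p]) * ni = 1 := by
          obtain ⟨u, hu⟩ := isUnit_intCast hpn
          exact ⟨_, by rw [← hu]; exact u.mul_inv⟩
        set t : ℤ_[p] := (x.num : ℤ_[p]) * ni with ht
        set s : ℤ_[p] := (t.zmodRepr : ℤ_[p]) with hs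
        have hz : ‖t - s‖ < 1 := PadicInt.norm_sub_zmodRepr_lt_one t
        have hR : (x.num : ℤ_[p]) = (s + (t - s)) * ((x.den : ℤ) : ℤ_[p]) := by
          rw [ht]; linear_combination (-(x.num : ℤ_[p])) * hni
        have hnu : ‖((x.den : ℤ) : ℤ_[p])‖ = 1 := PadicInt.isUnit_iff.mp (isUnit_intCast hpn)
        have e1 : ((hform e φ x.num x.den : ℤ) : ℤ_[p]) =
            ((x.den : ℤ) : ℤ_[p]) ^ e * φp.eval t := by
          rw [hform_cast, ← hφp, hR, hform_mul_right hφpd, add_sub_cancel]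
        have e2 : ((hform e ψ x.num x.den : ℤ) : ℤ_[p]) =
            ((x.den : ℤ) : ℤ_[p]) ^ e * ψp.eval t := by
          rw [hform_cast, ← hψp, hR, hform_mul_right hψpd.le, add_sub_cancel]
        have g1 : IsUnit (φp.eval s) := by
          rw [PadicInt.isUnit_iff]
          refine unit_of_close ?_ (norm_eval_sub_lt φp hz)
          rw [e1, norm_mul, norm_pow, hnu, one_pow, one_mul] at h1'
          exact h1'
        have g2 : ‖ψp.eval s‖ < 1 := by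
          refine nonunit_of_close ?_ (norm_eval_sub_lt ψp hz)
          rw [e2, norm_mul, norm_pow, hnu, one_pow, one_mul] at h2'
          exact h2'
        rw [hform_cast, ← hφp] at hΦi
        rw [hform_cast, ← hψp] at h4 hu4
        have h5 := (ch' ⟨⟨t.zmodRepr, PadicInt.zmodRepr_lt_p t⟩, g1, g2⟩).near hφpd hψpd.le hz hR
          hΦi hu4 h4 hEi
        exact ⟨⟨some ⟨⟨t.zmodRepr, PadicInt.zmodRepr_lt_p t⟩, g1, g2⟩, g, hg⟩, _, hz, hR,
          h5.2, h5.1⟩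

end Pool.Agent.Lib.MP_3550b5_nt
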