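import Pool.Agent.Lib.MP_3550b5_nt.Lip
import Pool.Agent.Lib.MP_3550b5_nt.TP.L1
import Pool.Agent.Lib.MP_3550b5_nt.TP.L2
import Pool.Agent.Lib.MP_3550b5_nt.TP.L3
import Pool.Agent.Lib.MP_3550b5_nt.TP.NearChart
import Pool.Agent.Lib.MP_3550b5_nt.TP.Ball
import Pool.Agent.Lib.MP_3550b5_nt.TP.HtK

/-! L6: assembly. -/

namespace Pool.Agent.Lib.MP_3550b5_nt

open PowerSeries

lemma IsSigmaU.map {R S : Type*} [CommRing R] [CommRing S] (f : R →+* S) {a b c : R} {U : R⟦X⟧}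
    (h : IsSigmaU a b c U) : IsSigmaU (f a) (f b) (f c) (PowerSeries.map f U) := by
  refine ⟨?_, ?_⟩
  · have h1 := congrArg f h.1
    rw [map_one] at h1
    rw [← coeff_zero_eq_constantCoeff_apply, coeff_map, coeff_zero_eq_constantCoeff_apply, h1]
  · have h2 := congrArg (PowerSeries.map f) h.2
    simp only [map_add, map_mul, map_sub, map_pow, map_one, map_zero, PowerSeries.map_C,
      PowerSeries.map_X, map_derivative', map_ofNat] at h2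
    exact h2

lemma isSigmaU_trans {p : ℕ} [Fact p.Prime] {a b : ℤ} (hord : GoodOrdinary p a b) {c : ℤ_[p]}
    {U : ℤ_[p]⟦X⟧} (hU : IsSigmaU (a : ℤ_[p]) (b : ℤ_[p]) c U) :
    TransU (PowerSeries.map (algebraMap ℤ_[p] ℚ_[p]) U) := by
  refine transU_of_isSigmaU ?_ (hU.map (algebraMap ℤ_[p] ℚ_[p]))
  rw [map_intCast, map_intCast]
  have h : 4 * a ^ 3 + 27 * b ^ 2 ≠ 0 := fun h0 => hord.1 (h0 ▸ dvd_zero _)
  exact_mod_cast h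

/-- The height of `x` through the multiple `k P`. -/
lemma heightAt_data {p : ℕ} [Fact p.Prime] {a b : ℤ} {U : ℤ_[p]⟦X⟧}
    (hU0 : constantCoeff U = 1)
    (hsig : ∀ (D : ℤ) (σ : ℤ_[p]⟦X⟧), ¬ (p : ℤ) ∣ D →
        IsMazurTateSigma p ((a * D ^ 2 : ℤ) : ℤ_[p]) ((b * D ^ 3 : ℤ) : ℤ_[p]) σ →
        ∀ (x y : ℚ_[p]), y ^ 2 = x ^ 3 + (a * D ^ 2 : ℤ) * x + (b * D ^ 3 : ℤ) → 1 < ‖x‖ →
          ∀ r : ℤ_[p], (r : ℚ_[p]) = D / x →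
            (D : ℚ_[p]) * seriesVal σ (-(x / y)) ^ 2 = r * (ev U r : ℤ_[p]))
    {k : ℕ} {φ ψ : Polynomial ℤ} {G : Finset ℤ}
    (hmul : ∀ (D : ℤ), Squarefree D → ¬ (p : ℤ) ∣ D →
      ∀ (P : (curve (a * D ^ 2) (b * D ^ 3)).Point) (x y : ℚ)
        (h : (curve (a * D ^ 2) (b * D ^ 3)).Nonsingular (D * x) y),
        P = .some _ _ h → ¬ IsOfFinAddOrder P →
        ∃ (A B D₁ g : ℤ), IsRep (a * D ^ 2) (b * D ^ 3) A B D₁ (k • P) ∧ (p : ℤ) ∣ D₁ ∧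
          IsCoprime A D₁ ∧ IsCoprime B D₁ ∧
          IsCoprime (2 * B) (3 * A ^ 2 + a * D ^ 2 * D₁ ^ 4) ∧ g ∈ G ∧
          A * g = hform (k ^ 2) φ x.num x.den ∧
          D * D₁ ^ 2 * g = hform (k ^ 2) ψ x.num x.den ∧
          ¬ (p : ℤ) ∣ hform (k ^ 2) φ x.num x.den)
    {x : ℚ} {v : ℚ_[p]} (hx : HeightAt p a b x v) :
    ∃ g ∈ G, ¬ (p : ℤ) ∣ hform (k ^ 2) φ x.num x.den ∧ (p : ℤ) ∣ hform (k ^ 2) ψ x.num x.den ∧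
      ∀ Φi : ℤ_[p], ((hform (k ^ 2) φ x.num x.den : ℤ) : ℤ_[p]) * Φi = 1 →
        IsUnit (ev U (((hform (k ^ 2) ψ x.num x.den : ℤ) : ℤ_[p]) * Φi) * ((g : ℤ_[p]) * Φi)) ∧
        2 * (k : ℚ_[p]) ^ 2 * v =
          ulog (ev U (((hform (k ^ 2) ψ x.num x.den : ℤ) : ℤ_[p]) * Φi) * ((g : ℤ_[p]) * Φi)) := by
  obtain ⟨D, hsf, hD, P, y, h, hP, htor, B, hB, hv⟩ := hx
  obtain ⟨A, B', D₁, g, hrep, hpD, -, -, hns, hg, hA, hψ, hφ⟩ := hmul D hsf hD P x y h hP htor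
  refine ⟨g, hg, hφ, ?_, fun Φi hΦi => ?_⟩
  · rw [← hψ]
    exact Dvd.dvd.mul_right (Dvd.dvd.mul_left (dvd_pow hpD (by norm_num)) _) _
  · have hAn : ¬ (p : ℤ) ∣ A := fun hd => hφ (by rw [← hA]; exact Dvd.dvd.mul_right hd _)
    rw [← hv]
    refine tp_height hU0 hD (fun σ hσ => hsig D σ hD hσ) hrep hpD hAn hns hB ?_ ?_
    · rw [← hΦi, ← hA]; push_cast; ring
    · rw [← hψ]; push_cast; ring

theorem exists_arcCover {p : ℕ} [Fact p.Prime] (hp : 5 ≤ p) {a b : ℤ}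
    (hord : GoodOrdinary p a b) :
    Nonempty (ArcCover p (fun v : ℚ_[p] => {x : ℚ | HeightAt p a b x v})) := by
  classical
  by_cases hex : ∃ (D : ℤ) (σ : ℤ_[p]⟦X⟧), ¬ (p : ℤ) ∣ D ∧
      IsMazurTateSigma p ((a * D ^ 2 : ℤ) : ℤ_[p]) ((b * D ^ 3 : ℤ) : ℤ_[p]) σ
  swap
  · refine ⟨{
      K := 1
      hK := le_rfl
      J := Empty
      inst := inferInstance
      A := fun j => j.elim
      B := fun j => j.elim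
      hAB := fun j => j.elim
      R := fun j => j.elim
      hR := fun j => j.elim
      cover := fun v => ⟨fun j => j.elim, fun j => j.elim, fun x hx => ?_⟩ }⟩
    obtain ⟨D, -, hD, P, y, h, -, -, B, hB, -⟩ := hx
    obtain ⟨σ, hσ, -⟩ := hB.formula
    exact absurd ⟨D, σ, hD, hσ⟩ hex
  obtain ⟨c, U, hU, hsig⟩ := sigma_twists hp hord hex
  obtain ⟨k, φ, ψ, G, hk, hφ, hφd, hψ, hψd, hG, hmul⟩ := twist_multiples hp hord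
  refine arcCover_of_data (by omega) hU.1 (isSigmaU_trans hord hU) (e := k ^ 2)
    (Nat.one_le_pow _ _ hk) hφ hφd hψ hψd G hG _ fun v => ?_
  by_cases hne : ∃ x, HeightAt p a b x v
  swap
  · exact ⟨1, isUnit_one, fun x hx => absurd ⟨x, hx⟩ hne⟩
  obtain ⟨x₀, hx₀⟩ := hne
  obtain ⟨g₀, hg₀, hφ₀, hψ₀, h₀⟩ := heightAt_data hU.1 hsig hmul hx₀
  obtain ⟨Φ₀, hΦ₀⟩ : ∃ Φi : ℤ_[p],
      ((hform (k ^ 2) φ x₀.num x₀.den : ℤ) : ℤ_[p]) * Φi = 1 := by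
    obtain ⟨u, hu⟩ := isUnit_intCast hφ₀
    exact ⟨_, by rw [← hu]; exact u.mul_inv⟩
  obtain ⟨hu₀, hv₀⟩ := h₀ Φ₀ hΦ₀
  refine ⟨_, hu₀.pow (p - 1), fun x hx => ?_⟩
  obtain ⟨g, hg, h1, h2, h3⟩ := heightAt_data hU.1 hsig hmul hx
  refine ⟨g, hg, h1, h2, fun Φi hΦi => ?_⟩
  obtain ⟨hu, hv⟩ := h3 Φi hΦi
  exact pow_eq_of_ulog_eq (by omega) hu hu₀ (by rw [← hv, ← hv₀])

/-- TWIST POINTS. -/
theorem twist_points {p : ℕ} [Fact p.Prime] (hp : 5 ≤ p) {a b : ℤ} (hord : GoodOrdinary p a b) :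
    (∃ C : ℕ, ∀ (v : ℚ_[p]) (n : ℕ) (T : Finset ℚ),
      (∀ x ∈ T, x.den = n ∧ HeightAt p a b x v) → T.card ≤ C) ∧
    (∀ ε : ℝ, 0 < ε → ∃ C : ℝ, ∀ (v : ℚ_[p]) (N : ℕ) (T : Finset ℚ), 1 ≤ N →
      (∀ x ∈ T, |x.num| ≤ N ∧ x.den ≤ N ∧ HeightAt p a b x v) →
      (T.card : ℝ) ≤ C * (N : ℝ) ^ ε) := by
  obtain ⟨H⟩ := exists_arcCover hp hord
  exact ⟨H.den_bound, fun ε hε => H.count hε⟩

lemma pow_dvd_iff_norm {p : ℕ} [Fact p.Prime] {l : ℕ} {x : ℤ_[p]} :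
    (p : ℤ_[p]) ^ l ∣ x ↔ ‖x‖ ≤ (p : ℝ) ^ (-(l : ℤ)) := by
  rw [PadicInt.norm_le_pow_iff_mem_span_pow, Ideal.mem_span_singleton]

/-- Close logarithms. -/
lemma pow_dvd_of_ulog {p : ℕ} [Fact p.Prime] (hp3 : 3 ≤ p) {u v : ℤ_[p]} (hu : IsUnit u)
    (hv : IsUnit v) {l : ℕ} (h : ‖ulog u - ulog v‖ ≤ (p : ℝ) ^ (-(l : ℤ))) :
    (p : ℤ_[p]) ^ l ∣ u ^ (p - 1) - v ^ (p - 1) := by
  obtain ⟨w, hw⟩ : ∃ w, v * w = 1 := by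
    obtain ⟨v', rfl⟩ := hv
    exact ⟨_, v'.mul_inv⟩
  have hwu : IsUnit w := IsUnit.of_mul_eq_one _ (by rw [mul_comm]; exact hw)
  have h1 : ulog (u * w) = ulog u - ulog v := by
    have h2 := ulog_mul hv hwu
    rw [hw, ulog_one] at h2
    rw [ulog_mul hu hwu]; linear_combination -h2
  have h3 := norm_ulog hp3 (hu.mul hwu)
  rw [h1] at h3
  rw [h3] at h
  have h4 := pow_dvd_iff_norm.mpr h
  have h5 : u ^ (p - 1) - v ^ (p - 1) = ((u * w) ^ (p - 1) - 1) * v ^ (p - 1) := by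
    have h6 : (u * w) ^ (p - 1) * v ^ (p - 1) = u ^ (p - 1) := by
      rw [← mul_pow]; congr 1; linear_combination u * hw
    rw [sub_mul, h6, one_mul]
  rw [h5]
  exact Dvd.dvd.mul_right h4 _

theorem exists_nearCover {p : ℕ} [Fact p.Prime] (hp : 5 ≤ p) {a b : ℤ}
    (hord : GoodOrdinary p a b) :
    Nonempty (NearCover p (fun (v : ℚ_[p]) (l : ℕ) =>
      {x : ℚ | ∃ v', HeightAt p a b x v' ∧ ‖v' - v‖ ≤ (p : ℝ) ^ (-(l : ℤ))})) := by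
  classical
  by_cases hex : ∃ (D : ℤ) (σ : ℤ_[p]⟦X⟧), ¬ (p : ℤ) ∣ D ∧
      IsMazurTateSigma p ((a * D ^ 2 : ℤ) : ℤ_[p]) ((b * D ^ 3 : ℤ) : ℤ_[p]) σ
  swap
  · refine ⟨{
      K := 1
      hK := le_rfl
      J := Empty
      inst := inferInstance
      A := fun j => j.elim
      B := fun j => j.elim
      hAB := fun j => j.elim
      κ := 0
      R := fun j => j.elim
      hR := fun j => j.elim
      cover := fun v l => ⟨fun j => j.elim, fun j => j.elim, fun x hx => ?_⟩ }⟩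
    obtain ⟨v', ⟨D, -, hD, P, y, h, -, -, B, hB, -⟩, -⟩ := hx
    obtain ⟨σ, hσ, -⟩ := hB.formula
    exact absurd ⟨D, σ, hD, hσ⟩ hex
  obtain ⟨c, U, hU, hsig⟩ := sigma_twists hp hord hex
  obtain ⟨k, φ, ψ, G, hk, hφ, hφd, hψ, hψd, hG, hmul⟩ := twist_multiples hp hord
  refine nearCover_of_data (by omega) hU.1 (isSigmaU_trans hord hU) (e := k ^ 2)
    (Nat.one_le_pow _ _ hk) hφ hφd hψ hψd G hG _ fun v l => ?_
  by_cases hne : ∃ x v', HeightAt p a b x v' ∧ ‖v' - v‖ ≤ (p : ℝ) ^ (-(l : ℤ))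
  swap
  · refine ⟨1, isUnit_one, fun x hx => ?_⟩
    obtain ⟨v', hx⟩ := hx
    exact absurd ⟨x, v', hx⟩ hne
  obtain ⟨x₀, v₀, hx₀, hvv₀⟩ := hne
  obtain ⟨g₀, hg₀, hφ₀, hψ₀, h₀⟩ := heightAt_data hU.1 hsig hmul hx₀
  obtain ⟨Φ₀, hΦ₀⟩ : ∃ Φi : ℤ_[p],
      ((hform (k ^ 2) φ x₀.num x₀.den : ℤ) : ℤ_[p]) * Φi = 1 := by
    obtain ⟨u, hu⟩ := isUnit_intCast hφ₀
    exact ⟨_, by rw [← hu]; exact u.mul_inv⟩
  obtain ⟨hu₀, hv₀⟩ := h₀ Φ₀ hΦ₀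
  refine ⟨_, hu₀.pow (p - 1), fun x hx => ?_⟩
  obtain ⟨v', hx, hvv'⟩ := hx
  obtain ⟨g, hg, h1, h2, h3⟩ := heightAt_data hU.1 hsig hmul hx
  refine ⟨g, hg, h1, h2, fun Φi hΦi => ?_⟩
  obtain ⟨hu, hv⟩ := h3 Φi hΦi
  refine ⟨hu, pow_dvd_of_ulog (by omega) hu hu₀ ?_⟩
  rw [← hv, ← hv₀, ← mul_sub, norm_mul]
  have e1 : ‖(2 * (k : ℚ_[p]) ^ 2)‖ ≤ 1 := by
    have := Padic.norm_int_le_one (p := p) (2 * (k : ℤ) ^ 2)
    simpa using this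
  have e2 : ‖v' - v₀‖ ≤ (p : ℝ) ^ (-(l : ℤ)) := by
    have h4 : v' - v₀ = (v' - v) + -(v₀ - v) := by ring
    rw [h4]
    refine (Padic.nonarchimedean _ _).trans (max_le hvv' ?_)
    rw [norm_neg]; exact hvv₀
  calc ‖(2 * (k : ℚ_[p]) ^ 2)‖ * ‖v' - v₀‖ ≤ 1 * ‖v' - v₀‖ := by gcongr
    _ ≤ _ := by rw [one_mul]; exact e2

/-- Choice of the precision. -/
lemma exists_precision {p : ℕ} [Fact p.Prime] (C1 a1 N : ℕ) (hN : 1 ≤ N) :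
    ∃ l : ℕ, C1 * N ^ a1 ≤ p ^ l ∧ ∀ (v v' : ℚ_[p]) (C : ℕ), p * (C1 + 1) ≤ C →
      ‖v' - v‖ * ((C : ℝ) * (N : ℝ) ^ a1) ≤ 1 → ‖v' - v‖ ≤ (p : ℝ) ^ (-(l : ℤ)) := by
  obtain ⟨l, hl0, hl1, hl2⟩ := exists_pow_gt (p := p) (C1 * N ^ a1 + 1) (by omega) le_rfl
  rw [mul_one] at hl1 hl2
  have hp0 : (0 : ℝ) < p := by exact_mod_cast (Fact.out : p.Prime).pos
  have hNp : 1 ≤ N ^ a1 := Nat.one_le_pow _ _ hN
  refine ⟨l, by omega, fun v v' C hC h => ?_⟩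
  have h1 : p ^ l ≤ C * N ^ a1 := by
    calc p ^ l = p * p ^ (l - 1) := by rw [← pow_succ', Nat.sub_add_cancel hl0]
      _ ≤ p * (C1 * N ^ a1 + 1) := Nat.mul_le_mul_left _ hl2
      _ ≤ p * ((C1 + 1) * N ^ a1) := by
          apply Nat.mul_le_mul_left
          rw [add_mul, one_mul]
          omega
      _ = p * (C1 + 1) * N ^ a1 := by ring
      _ ≤ C * N ^ a1 := Nat.mul_le_mul_right _ hC
  have h2 : (p : ℝ) ^ l ≤ (C : ℝ) * (N : ℝ) ^ a1 := by exact_mod_cast h1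
  have h3 : ‖v' - v‖ * (p : ℝ) ^ l ≤ 1 := by
    refine le_trans ?_ h
    exact mul_le_mul_of_nonneg_left h2 (norm_nonneg _)
  rw [zpow_neg, zpow_natCast, ← one_div, le_div_iff₀ (by positivity)]
  exact h3

/-- TWIST POINTS, approximate version. -/
theorem twist_points_near {p : ℕ} [Fact p.Prime] (hp : 5 ≤ p) {a b : ℤ}
    (hord : GoodOrdinary p a b) :
    (∀ d : ℕ, ∃ C A : ℕ, ∀ (v : ℚ_[p]) (N : ℕ) (Q : MvPolynomial (Fin 2) ℚ_[p])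
      (T : Finset ℚ), 1 ≤ N → Q ≠ 0 → Q.totalDegree ≤ d →
      (∀ x ∈ T, |x.num| ≤ N ∧ x.den ≤ N ∧
        MvPolynomial.eval ![(x.num : ℚ_[p]), (x.den : ℚ_[p])] Q = 0 ∧
        ∃ v', HeightAt p a b x v' ∧ ‖v' - v‖ * ((C : ℝ) * (N : ℝ) ^ A) ≤ 1) → T.card ≤ C) ∧
    (∀ ε : ℝ, 0 < ε → ∃ C A : ℕ, ∀ (v : ℚ_[p]) (N : ℕ) (T : Finset ℚ), 1 ≤ N →
      (∀ x ∈ T, |x.num| ≤ N ∧ x.den ≤ N ∧
        ∃ v', HeightAt p a b x v' ∧ ‖v' - v‖ * ((C : ℝ) * (N : ℝ) ^ A) ≤ 1) →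
      (T.card : ℝ) ≤ C * (N : ℝ) ^ ε) ∧
    (∃ C : ℕ, ∀ (v : ℚ_[p]) (N l : ℕ) (T : Finset ℚ), p ^ l ≤ N →
      (∀ x ∈ T, |x.num| ≤ N ∧ x.den ≤ N ∧
        ∃ v', HeightAt p a b x v' ∧ ‖v' - v‖ ≤ (p : ℝ) ^ (-(l : ℤ))) →
      T.card * p ^ l ≤ C * N ^ 2) := by
  obtain ⟨H⟩ := exists_nearCover hp hord
  refine ⟨?_, ?_, H.ball (by omega)⟩
  · intro d
    obtain ⟨M, C1, a1, h⟩ := H.curve d
    refine ⟨M + p * (C1 + 1), a1, fun v N Q T hN hQ hd hT => ?_⟩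
    obtain ⟨l, hl1, hl2⟩ := exists_precision (p := p) C1 a1 N hN
    refine (h v N l Q T hN hl1 hQ hd fun x hx => ?_).trans (Nat.le_add_right _ _)
    obtain ⟨h1, h2, h3, v', h4, h5⟩ := hT x hx
    exact ⟨h1, h2, ⟨v', h4, hl2 v v' _ (Nat.le_add_left _ _) h5⟩, h3⟩
  · intro ε hε
    obtain ⟨C, C1, a1, h⟩ := H.count hε
    refine ⟨⌈C⌉₊ + p * (C1 + 1), a1, fun v N T hN hT => ?_⟩
    obtain ⟨l, hl1, hl2⟩ := exists_precision (p := p) C1 a1 N hN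
    have h6 := h v N l T hN hl1 fun x hx => by
      obtain ⟨h1, h2, v', h4, h5⟩ := hT x hx
      exact ⟨h1, h2, ⟨v', h4, hl2 v v' _ (Nat.le_add_left _ _) h5⟩⟩
    refine h6.trans ?_
    have h7 : C ≤ ((⌈C⌉₊ + p * (C1 + 1) : ℕ) : ℝ) := by
      refine (Nat.le_ceil C).trans ?_
      exact_mod_cast Nat.le_add_right _ _
    exact mul_le_mul_of_nonneg_right h7 (by positivity)

/-- TWIST POINTS, one statement about the exceptional set. -/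
theorem twist_points_one {p : ℕ} [Fact p.Prime] (hp : 5 ≤ p) {a b : ℤ}
    (hord : GoodOrdinary p a b) (d : ℕ) (ε : ℝ) (hε : 0 < ε) :
    ∃ C A : ℕ, ∀ (v : ℚ_[p]) (N : ℕ) (T : Finset ℚ), 1 ≤ N →
      (∀ x ∈ T, |x.num| ≤ N ∧ x.den ≤ N ∧
        ∃ v', HeightAt p a b x v' ∧ ‖v' - v‖ * ((C : ℝ) * (N : ℝ) ^ A) ≤ 1) →
      (T.card : ℝ) ≤ C * (N : ℝ) ^ ε ∧
      ∀ Q : MvPolynomial (Fin 2) ℚ_[p], Q ≠ 0 → Q.totalDegree ≤ d →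
        ∀ S ⊆ T, (∀ x ∈ S, MvPolynomial.eval ![(x.num : ℚ_[p]), (x.den : ℚ_[p])] Q = 0) →
          S.card ≤ C := by
  obtain ⟨h1, h2, -⟩ := twist_points_near hp hord
  obtain ⟨C1, A1, h1⟩ := h1 d
  obtain ⟨C2, A2, h2⟩ := h2 ε hε
  refine ⟨max C1 C2, max A1 A2, fun v N T hN hT => ?_⟩
  have hN' : (1 : ℝ) ≤ N := by exact_mod_cast hN
  have key : ∀ {C A : ℕ}, C ≤ max C1 C2 → A ≤ max A1 A2 → ∀ x ∈ T,
      |x.num| ≤ N ∧ x.den ≤ N ∧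
        ∃ v', HeightAt p a b x v' ∧ ‖v' - v‖ * ((C : ℝ) * (N : ℝ) ^ A) ≤ 1 := by
    intro C A hC hA x hx
    obtain ⟨h3, h4, v', h5, h6⟩ := hT x hx
    refine ⟨h3, h4, v', h5, le_trans ?_ h6⟩
    refine mul_le_mul_of_nonneg_left ?_ (norm_nonneg _)
    exact mul_le_mul (by exact_mod_cast hC) (pow_le_pow_right₀ hN' hA) (by positivity)
      (by positivity)
  refine ⟨?_, fun Q hQ hd S hS hS0 => ?_⟩
  · refine (h2 v N T hN (key (le_max_right _ _) (le_max_right _ _))).trans ?_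
    exact mul_le_mul_of_nonneg_right (by exact_mod_cast le_max_right _ _) (by positivity)
  · refine (h1 v N Q S hN hQ hd fun x hx => ?_).trans (le_max_left _ _)
    obtain ⟨h3, h4, h5⟩ := key (le_max_left C1 C2) (le_max_left A1 A2) x (hS hx)
    exact ⟨h3, h4, hS0 x hx, h5⟩

end Pool.Agent.Lib.MP_3550b5_nt
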