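import Pool.Agent.Lib.MP_3550b5_nt.TP.Cover

/-! The charts: from the arithmetic data of the multiple `k P` to a cover by arcs. -/

namespace Pool.Agent.Lib.MP_3550b5_nt

open PowerSeries

lemma hform_mul_right {R : Type*} [CommRing R] {e : ℕ} {f : Polynomial R} (hf : f.natDegree ≤ e)
    (t n : R) : hform e f (t * n) n = n ^ e * f.eval t := by
  rw [hform, Polynomial.eval_eq_sum_range' (Nat.lt_succ_of_le hf), Finset.mul_sum]
  refine Finset.sum_congr rfl fun i hi => ?_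
  have hi' : i ≤ e := Nat.lt_succ_iff.mp (Finset.mem_range.mp hi)
  have h : n ^ e = n ^ i * n ^ (e - i) := by rw [← pow_add, Nat.add_sub_cancel' hi']
  rw [h, mul_pow]; ring

lemma hform_swap {R : Type*} [CommRing R] (e : ℕ) (f : Polynomial R) (m n : R) :
    hform e f m n = hform e (f.reflect e) n m := by
  rw [hform, hform, ← Finset.sum_range_reflect]
  refine Finset.sum_congr rfl fun i hi => ?_
  have hi' : i ≤ e := Nat.lt_succ_iff.mp (Finset.mem_range.mp hi)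
  rw [Polynomial.coeff_reflect, Polynomial.revAt_le hi', show e + 1 - 1 - i = e - i from by omega,
    show e - (e - i) = i from by omega]
  ring

lemma hform_cast {R : Type*} [CommRing R] (e : ℕ) (f : Polynomial ℤ) (m n : ℤ) :
    ((hform e f m n : ℤ) : R) = hform e (f.map (Int.castRingHom R)) (m : R) (n : R) := by
  simp [hform]

lemma natDegree_reflect_le' {R : Type*} [CommRing R] {e : ℕ} {f : Polynomial R}
    (hf : f.natDegree ≤ e) : (f.reflect e).natDegree ≤ e := by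
  rw [Polynomial.natDegree_le_iff_coeff_eq_zero]
  intro n hn
  rw [Polynomial.coeff_reflect, Polynomial.revAt_eq_self_of_lt hn]
  exact Polynomial.coeff_eq_zero_of_natDegree_lt (lt_of_le_of_lt hf hn)

lemma AlgIndep.swap {p : ℕ} [Fact p.Prime] {A B : ℤ_[p]⟦X⟧} (h : AlgIndep A B) :
    AlgIndep B A := by
  intro Q hQ h0
  refine h (MvPolynomial.rename (Equiv.swap 0 1) Q) ?_ ?_
  · intro h1
    apply hQ
    exact (MvPolynomial.rename_injective _ (Equiv.injective _)) (by rw [h1, map_zero])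
  · rw [MvPolynomial.aeval_rename, ← h0]
    congr 2
    funext i
    fin_cases i <;> simp

/-- A chart: one arc, from the value of `U` at `ψ / φ`. -/
structure Chart (p : ℕ) [Fact p.Prime] (U : ℤ_[p]⟦X⟧) (φ ψ : Polynomial ℤ_[p]) (K : ℕ)
    (s : ℤ_[p]) where
  B : ℤ_[p]⟦X⟧
  evB : ∀ z : ℤ_[p], ‖z‖ < 1 → ∀ u r : ℤ_[p],
    u * φ.eval (s + z) = 1 → r = ψ.eval (s + z) * u → ev B z = (ev U r * u) ^ (p - 1)
  ind : AlgIndep ((C s + X) ^ K * B) B

lemma exists_chart {p : ℕ} [Fact p.Prime] {U : ℤ_[p]⟦X⟧}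
    (hU0 : constantCoeff U = 1)
    (hU : TransU (PowerSeries.map (algebraMap ℤ_[p] ℚ_[p]) U))
    (φ ψ : Polynomial ℤ_[p]) (hne : ∀ c d : ℤ_[p], (c ≠ 0 ∨ d ≠ 0) →
      Polynomial.C c * φ + Polynomial.C d * ψ ≠ 0)
    (s : ℤ_[p]) (hφ : IsUnit (φ.eval s)) (hψ : ‖ψ.eval s‖ < 1) (K : ℕ) (hK : 1 ≤ K) :
    Nonempty (Chart p U φ ψ K s) := by
  obtain ⟨B, h1, h2⟩ := exists_arc hU0 hU φ ψ hne s hφ hψ K hK
  exact ⟨⟨B, h1, h2⟩⟩

/-- The relation in a chart. -/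
lemma Chart.rel {p : ℕ} [Fact p.Prime] {U : ℤ_[p]⟦X⟧} {φ ψ : Polynomial ℤ_[p]} {e : ℕ}
    {s : ℤ_[p]} (H : Chart p U φ ψ (e * (p - 1)) s) (hφ : φ.natDegree ≤ e) (hψ : ψ.natDegree ≤ e)
    {m n z g Φi E Ei : ℤ_[p]} (hz : ‖z‖ < 1) (hm : m = (s + z) * n)
    (hΦ : hform e φ m n * Φi = 1) (hE : (ev U (hform e ψ m n * Φi) * (g * Φi)) ^ (p - 1) = E)
    (hEi : E * Ei = 1) :
    n ^ (e * (p - 1)) = g ^ (p - 1) * Ei * ev H.B z ∧
      m ^ (e * (p - 1)) = g ^ (p - 1) * Ei *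
        ev ((C s + X) ^ (e * (p - 1)) * H.B) z := by
  have h1 : hform e φ m n = n ^ e * φ.eval (s + z) := by rw [hm, hform_mul_right hφ]
  have h2 : hform e ψ m n = n ^ e * ψ.eval (s + z) := by rw [hm, hform_mul_right hψ]
  have h3 := H.evB z hz (n ^ e * Φi) (hform e ψ m n * Φi)
    (by rw [← hΦ, h1]; ring) (by rw [h2]; ring)
  have h4 : n ^ (e * (p - 1)) = g ^ (p - 1) * Ei * ev H.B z := by
    rw [h3]
    have h5 : (ev U (hform e ψ m n * Φi) * (n ^ e * Φi)) ^ (p - 1) * g ^ (p - 1) =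
        n ^ (e * (p - 1)) * E := by
      rw [← hE, pow_mul, ← mul_pow, ← mul_pow]
      congr 1
      ring
    linear_combination (-n ^ (e * (p - 1))) * hEi - Ei * h5
  refine ⟨h4, ?_⟩
  have h6 : ev ((C s + X) ^ (e * (p - 1)) * H.B) z = (s + z) ^ (e * (p - 1)) * ev H.B z := by
    have := map_mul (evHom z hz) ((C s + X) ^ (e * (p - 1))) H.B
    rw [map_pow, map_add] at this
    have hs : evHom z hz (C s) = s := ev_C s z
    have hX : evHom z hz X = z := ev_X z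
    rw [hs, hX] at this
    exact this
  rw [h6, hm, mul_pow, h4]
  ring

lemma lin_comb_ne {R : Type*} [CommRing R] [IsDomain R] {f g : Polynomial R} (i : ℕ)
    (hf : f.coeff i = 1) (hg : g.coeff i = 0) (hg0 : g ≠ 0) (c d : R) (h : c ≠ 0 ∨ d ≠ 0) :
    Polynomial.C c * f + Polynomial.C d * g ≠ 0 := by
  intro h0
  have h1 := congrArg (fun q => Polynomial.coeff q i) h0
  simp only [Polynomial.coeff_add, Polynomial.coeff_C_mul, hf, hg, mul_one, mul_zero, add_zero,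
    Polynomial.coeff_zero] at h1
  rw [h1, map_zero, zero_mul, zero_add] at h0
  rcases mul_eq_zero.mp h0 with h2 | h2
  · rcases h with h | h
    · exact h h1
    · exact h (Polynomial.C_eq_zero.mp h2)
  · exact hg0 h2

lemma unit_of_close {p : ℕ} [Fact p.Prime] {a b : ℤ_[p]} (ha : ‖a‖ = 1) (h : ‖a - b‖ < 1) :
    ‖b‖ = 1 := by
  have := norm_eq_one_of_sub ha h
  rwa [sub_sub_cancel] at this

lemma nonunit_of_close {p : ℕ} [Fact p.Prime] {a b : ℤ_[p]} (ha : ‖a‖ < 1) (h : ‖a - b‖ < 1) :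
    ‖b‖ < 1 := by
  have h1 : ‖a + -(a - b)‖ ≤ max ‖a‖ ‖-(a - b)‖ := PadicInt.nonarchimedean _ _
  rw [norm_neg] at h1
  have h2 : a + -(a - b) = b := by ring
  rw [h2] at h1
  exact lt_of_le_of_lt h1 (max_lt ha h)

lemma norm_eval_sub_lt {p : ℕ} [Fact p.Prime] (f : Polynomial ℤ_[p]) {s t : ℤ_[p]}
    (h : ‖t - s‖ < 1) : ‖f.eval t - f.eval s‖ < 1 := by
  obtain ⟨c, hc⟩ := Polynomial.sub_dvd_eval_sub t s f
  rw [hc]
  exact norm_mul_lt_one h

theorem arcCover_of_data {p : ℕ} [Fact p.Prime] (hp : 2 ≤ p) {U : ℤ_[p]⟦X⟧}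
    (hU0 : constantCoeff U = 1)
    (hU : TransU (PowerSeries.map (algebraMap ℤ_[p] ℚ_[p]) U))
    {e : ℕ} (he : 1 ≤ e) {φ ψ : Polynomial ℤ} (hφ : φ.Monic) (hφd : φ.natDegree = e)
    (hψ : ψ ≠ 0) (hψd : ψ.natDegree < e) (G : Finset ℤ) (hG : (0 : ℤ) ∉ G)
    {V : Type*} (S : V → Set ℚ)
    (h : ∀ v, ∃ E : ℤ_[p], IsUnit E ∧ ∀ x ∈ S v, ∃ g ∈ G,
      ¬ (p : ℤ) ∣ hform e φ x.num x.den ∧ (p : ℤ) ∣ hform e ψ x.num x.den ∧
      ∀ Φi : ℤ_[p], ((hform e φ x.num x.den : ℤ) : ℤ_[p]) * Φi = 1 →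
        (ev U (((hform e ψ x.num x.den : ℤ) : ℤ_[p]) * Φi) * (g * Φi)) ^ (p - 1) = E) :
    Nonempty (ArcCover p S) := by
  classical
  set φp := φ.map (Int.castRingHom ℤ_[p]) with hφp
  set ψp := ψ.map (Int.castRingHom ℤ_[p]) with hψp
  have hφpd : φp.natDegree ≤ e := Polynomial.natDegree_map_le.trans hφd.le
  have hψpd : ψp.natDegree < e := lt_of_le_of_lt Polynomial.natDegree_map_le hψd
  have hφc : φp.coeff e = 1 := by
    rw [hφp, Polynomial.coeff_map, ← hφd]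
    have : φ.coeff φ.natDegree = 1 := hφ
    rw [this]; simp
  have hψc : ψp.coeff e = 0 := Polynomial.coeff_eq_zero_of_natDegree_lt hψpd
  have hψ0 : ψp ≠ 0 := by
    rw [hψp]
    exact (Polynomial.map_ne_zero_iff (RingHom.injective_int _)).mpr hψ
  have hK : 1 ≤ e * (p - 1) := Nat.mul_pos he (by omega)
  have hr1 : (φp.reflect e).coeff 0 = 1 := by
    rw [Polynomial.coeff_reflect, Polynomial.revAt_le (Nat.zero_le _), Nat.sub_zero, hφc]
  have hr2 : (ψp.reflect e).coeff 0 = 0 := by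
    rw [Polynomial.coeff_reflect, Polynomial.revAt_le (Nat.zero_le _), Nat.sub_zero, hψc]
  have hr0 : ψp.reflect e ≠ 0 := by
    rw [Ne, Polynomial.reflect_eq_zero_iff]; exact hψ0
  -- the charts
  have ch : ∀ i : {i : Fin p // IsUnit (φp.eval (((i : ℕ) : ℤ_[p]))) ∧
      ‖ψp.eval (((i : ℕ) : ℤ_[p]))‖ < 1},
      Nonempty (Chart p U φp ψp (e * (p - 1)) (((i : Fin p) : ℕ) : ℤ_[p])) := fun i =>
    exists_chart hU0 hU φp ψp (lin_comb_ne e hφc hψc hψ0) _ i.2.1 i.2.2 _ hK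
  obtain ⟨ch0⟩ : Nonempty (Chart p U (φp.reflect e) (ψp.reflect e) (e * (p - 1)) 0) := by
    refine exists_chart hU0 hU _ _ (lin_comb_ne 0 hr1 hr2 hr0) 0 ?_ ?_ _ hK
    · rw [← Polynomial.coeff_zero_eq_eval_zero, hr1]; exact isUnit_one
    · rw [← Polynomial.coeff_zero_eq_eval_zero, hr2]; simp
  have ch' := fun i => Classical.choice (ch i)
  refine ⟨{
    K := e * (p - 1)
    hK := hK
    J := Option {i : Fin p // IsUnit (φp.eval (((i : ℕ) : ℤ_[p]))) ∧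
      ‖ψp.eval (((i : ℕ) : ℤ_[p]))‖ < 1} × {g : ℤ // g ∈ G}
    inst := Fintype.ofFinite _
    A := fun j => j.1.elim ch0.B
      (fun i => (C (((i : Fin p) : ℕ) : ℤ_[p]) + X) ^ (e * (p - 1)) * (ch' i).B)
    B := fun j => j.1.elim ((C 0 + X) ^ (e * (p - 1)) * ch0.B) (fun i => (ch' i).B)
    hAB := ?_
    R := fun j z x => j.1.elim (((x.den : ℤ) : ℤ_[p]) = (0 + z) * (x.num : ℤ_[p]))
      (fun i => (x.num : ℤ_[p]) = ((((i : Fin p) : ℕ) : ℤ_[p]) + z) * ((x.den : ℤ) : ℤ_[p]))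
    hR := ?_
    cover := ?_ }⟩
  · rintro ⟨_ | i, g⟩
    · exact ch0.ind.swap
    · exact (ch' i).ind
  · rintro ⟨_ | i, g⟩ z x x' h1 h2
    · simp only [Option.elim] at h1 h2
      rw [Rat.eq_iff_mul_eq_mul]
      have h3 : ((x.num * x'.den : ℤ) : ℤ_[p]) = ((x'.num * x.den : ℤ) : ℤ_[p]) := by
        rw [Int.cast_mul, Int.cast_mul, h1, h2]; ring
      exact_mod_cast h3
    · simp only [Option.elim] at h1 h2
      rw [Rat.eq_iff_mul_eq_mul]
      have h3 : ((x.num * x'.den : ℤ) : ℤ_[p]) = ((x'.num * x.den : ℤ) : ℤ_[p]) := by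
        rw [Int.cast_mul, Int.cast_mul, h1, h2]; ring
      exact_mod_cast h3
  · intro v
    obtain ⟨E, hE, hx⟩ := h v
    obtain ⟨Ei, hEi⟩ : ∃ Ei, E * Ei = 1 := by
      obtain ⟨u, rfl⟩ := hE
      exact ⟨_, u.mul_inv⟩
    refine ⟨fun j => ((j.2 : ℤ) : ℤ_[p]) ^ (p - 1) * Ei, ?_, ?_⟩
    · rintro ⟨i, g, hg⟩
      refine mul_ne_zero (pow_ne_zero _ ?_) ?_
      · have hg0 : g ≠ 0 := fun h0 => hG (h0 ▸ hg)
        exact_mod_cast hg0
      · rintro rfl
        rw [mul_zero] at hEi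
        exact zero_ne_one hEi
    · intro x hxS
      obtain ⟨g, hg, h1, h2, h3⟩ := hx x hxS
      have hΦu := isUnit_intCast h1
      obtain ⟨Φi, hΦi⟩ : ∃ Φi : ℤ_[p], ((hform e φ x.num x.den : ℤ) : ℤ_[p]) * Φi = 1 := by
        obtain ⟨u, hu⟩ := hΦu
        exact ⟨_, by rw [← hu]; exact u.mul_inv⟩
      have h4 := h3 Φi hΦi
      have h2' : ‖((hform e ψ x.num x.den : ℤ) : ℤ_[p])‖ < 1 :=
        (PadicInt.norm_int_lt_one_iff_dvd _).mpr h2
      have h1' := PadicInt.isUnit_iff.mp hΦu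
      have hcop : IsCoprime x.num (x.den : ℤ) := by
        rw [Int.isCoprime_iff_nat_coprime]
        simpa using x.reduced
      by_cases hpn : (p : ℤ) ∣ x.den
      · -- the chart at infinity
        have hm : ¬ (p : ℤ) ∣ x.num := fun hm => by
          have := hcop.isUnit_of_dvd' hm hpn
          exact (Nat.prime_iff_prime_int.mp (Fact.out : p.Prime)).not_isUnit this
        obtain ⟨mi, hmi⟩ : ∃ mi : ℤ_[p], (x.num : ℤ_[p]) * mi = 1 := by
          obtain ⟨u, hu⟩ := isUnit_intCast hm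
          exact ⟨_, by rw [← hu]; exact u.mul_inv⟩
        have hz : ‖((x.den : ℤ) : ℤ_[p]) * mi‖ < 1 :=
          norm_mul_lt_one ((PadicInt.norm_int_lt_one_iff_dvd _).mpr hpn)
        have hR : ((x.den : ℤ) : ℤ_[p]) =
            (0 + ((x.den : ℤ) : ℤ_[p]) * mi) * (x.num : ℤ_[p]) := by
          linear_combination (-((x.den : ℤ) : ℤ_[p])) * hmi
        rw [hform_cast, hform_swap, ← hφp] at hΦi
        rw [hform_cast, hform_swap, ← hψp] at h4
        have h5 := ch0.rel (natDegree_reflect_le' hφpd) (natDegree_reflect_le' hψpd.le) hz hR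
          hΦi h4 hEi
        exact ⟨⟨none, g, hg⟩, _, hz, hR, h5.1, h5.2⟩
      · obtain ⟨ni, hni⟩ : ∃ ni : ℤ_[p], ((x.den : ℤ) : ℤ_[p]) * ni = 1 := by
          obtain ⟨u, hu⟩ := isUnit_intCast hpn
          exact ⟨_, by rw [← hu]; exact u.mul_inv⟩
        set t : ℤ_[p] := (x.num : ℤ_[p]) * ni with ht
        set s : ℤ_[p] := (t.zmodRepr : ℤ_[p]) with hs
        have hz : ‖t - s‖ < 1 := PadicInt.norm_sub_zmodRepr_lt_one t
        have hR : (x.num : ℤ_[p]) = (s + (t - s)) * ((x.den : ℤ) : ℤ_[p]) := by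
          rw [ht]; linear_combination (-(x.num : ℤ_[p])) * hni
        have hnu : ‖((x.den : ℤ) : ℤ_[p])‖ = 1 := PadicInt.isUnit_iff.mp (isUnit_intCast hpn)
        have e1 : ((hform e φ x.num x.den : ℤ) : ℤ_[p]) =
            ((x.den : ℤ) : ℤ_[p]) ^ e * φp.eval t := by
          rw [hform_cast, ← hφp, hR, hform_mul_right hφpd, add_sub_cancel]
        have e2 : ((hform e ψ x.num x.den : ℤ) : ℤ_[p]) =
            ((x.den : ℤ) : ℤ_[p]) ^ e * ψp.eval t := by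
          rw [hform_cast, ← hψp, hR, hform_mul_right hψpd.le, add_sub_cancel]
        have g1 : IsUnit (φp.eval s) := by
          rw [PadicInt.isUnit_iff]
          refine unit_of_close ?_ (norm_eval_sub_lt φp hz)
          rw [e1, norm_mul, norm_pow, hnu, one_pow, one_mul] at h1'
          exact h1'
        have g2 : ‖ψp.eval s‖ < 1 := by
          refine nonunit_of_close ?_ (norm_eval_sub_lt ψp hz)
          rw [e2, norm_mul, norm_pow, hnu, one_pow, one_mul] at h2'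
          exact h2'
        rw [hform_cast, ← hφp] at hΦi
        rw [hform_cast, ← hψp] at h4
        have h5 := (ch' ⟨⟨t.zmodRepr, PadicInt.zmodRepr_lt_p t⟩, g1, g2⟩).rel hφpd hψpd.le hz hR
          hΦi h4 hEi
        exact ⟨⟨some ⟨⟨t.zmodRepr, PadicInt.zmodRepr_lt_p t⟩, g1, g2⟩, g, hg⟩, _, hz, hR,
          h5.2, h5.1⟩

end Pool.Agent.Lib.MP_3550b5_nt
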