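import Mathlib
import Pool.Agent.Lib.MP_3550b5_nt.Eval

/-! Zeros and composition of power series over the `p`-adic integers. -/

namespace Pool.Agent.Lib.MP_3550b5_nt.Arc

open PowerSeries

section

variable {p : ℕ} [hp : Fact p.Prime]

/-- evaluation as a ring homomorphism -/
noncomputable def evHom (z : ℤ_[p]) (hz : ‖z‖ < 1) : ℤ_[p]⟦X⟧ →+* ℤ_[p] where
  toFun f := ev f z
  map_one' := ev_one z
  map_mul' f g := ev_mul f g hz
  map_zero' := by
    have h := ev_sub (0 : ℤ_[p]⟦X⟧) 0 hz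
    rw [sub_self, sub_self] at h
    exact h
  map_add' f g := ev_add f g hz

theorem evHom_apply (z : ℤ_[p]) (hz : ‖z‖ < 1) (f : ℤ_[p]⟦X⟧) : evHom z hz f = ev f z := rfl

theorem ev_C (a z : ℤ_[p]) : ev (C a : ℤ_[p]⟦X⟧) z = a := by
  unfold ev
  rw [tsum_eq_single 0]
  · simp
  · intro n hn
    rw [coeff_C, if_neg hn, zero_mul]

theorem ev_zero_right (f : ℤ_[p]⟦X⟧) : ev f 0 = constantCoeff f := by
  unfold ev
  rw [tsum_eq_single 0]
  · simp
  · intro n hn
    rw [zero_pow hn, mul_zero]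

theorem norm_ev_lt {R : ℤ_[p]⟦X⟧} (hR : ‖constantCoeff R‖ < 1) {z : ℤ_[p]} (hz : ‖z‖ < 1) :
    ‖ev R z‖ < 1 := by
  have h1 := norm_ev_sub_le R hz (t' := 0) (by simp)
  rw [ev_zero_right, sub_zero] at h1
  have h2 : ev R z = (ev R z - constantCoeff R) + constantCoeff R := by ring
  rw [h2]
  exact lt_of_le_of_lt (PadicInt.nonarchimedean _ _) (max_lt (lt_of_le_of_lt h1 hz) hR)

theorem evHom_comp_aeval (z : ℤ_[p]) (hz : ‖z‖ < 1) (R : ℤ_[p]⟦X⟧) :
    (evHom z hz).comp (Polynomial.aeval R : Polynomial ℤ_[p] →ₐ[ℤ_[p]] ℤ_[p]⟦X⟧).toRingHom =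
      Polynomial.evalRingHom (ev R z) := by
  apply Polynomial.ringHom_ext
  · intro a
    simp only [AlgHom.toRingHom_eq_coe, RingHom.coe_comp, RingHom.coe_coe, Function.comp_apply,
      Polynomial.aeval_C, Polynomial.coe_evalRingHom, Polynomial.eval_C]
    exact ev_C a z
  · simp only [AlgHom.toRingHom_eq_coe, RingHom.coe_comp, RingHom.coe_coe, Function.comp_apply,
      Polynomial.aeval_X, Polynomial.coe_evalRingHom, Polynomial.eval_X]
    rfl

theorem ev_aeval (z : ℤ_[p]) (hz : ‖z‖ < 1) (R : ℤ_[p]⟦X⟧) (q : Polynomial ℤ_[p]) :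
    ev (Polynomial.aeval R q) z = q.eval (ev R z) := by
  have := congrArg (fun f => f q) (evHom_comp_aeval z hz R)
  exact this

theorem evHom_comp_coe (z : ℤ_[p]) (hz : ‖z‖ < 1) :
    (evHom z hz).comp Polynomial.coeToPowerSeries.ringHom = Polynomial.evalRingHom z := by
  apply Polynomial.ringHom_ext
  · intro a
    simp only [RingHom.coe_comp, Function.comp_apply,
      Polynomial.coeToPowerSeries.ringHom_apply, Polynomial.coe_C, Polynomial.coe_evalRingHom,
      Polynomial.eval_C]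
    exact ev_C a z
  · simp only [RingHom.coe_comp, Function.comp_apply,
      Polynomial.coeToPowerSeries.ringHom_apply, Polynomial.coe_X, Polynomial.coe_evalRingHom,
      Polynomial.eval_X]
    exact ev_X z

theorem ev_coe (z : ℤ_[p]) (hz : ‖z‖ < 1) (q : Polynomial ℤ_[p]) :
    ev (q : ℤ_[p]⟦X⟧) z = q.eval z := by
  have := congrArg (fun f => f q) (evHom_comp_coe z hz)
  exact this

/-- a nonzero power series is a power of `p` times a series which is nonzero modulo `p` -/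
theorem exists_pow_mul {F : ℤ_[p]⟦X⟧} (hF : F ≠ 0) : ∃ (m : ℕ) (F₁ : ℤ_[p]⟦X⟧),
    F = C ((p : ℤ_[p]) ^ m) * F₁ ∧ F₁.map (IsLocalRing.residue ℤ_[p]) ≠ 0 := by
  classical
  have h1 : ∃ k : ℕ, ¬ ∀ n, (p : ℤ_[p]) ^ k ∣ coeff n F := by
    obtain ⟨n, hn⟩ : ∃ n, coeff n F ≠ 0 := by
      by_contra h
      push Not at h
      exact hF (PowerSeries.ext fun n => by rw [h n, map_zero])
    refine ⟨(coeff n F).valuation + 1, fun h => ?_⟩
    have h2 := h n
    rw [← Ideal.mem_span_singleton, PadicInt.mem_span_pow_iff_le_valuation _ hn] at h2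
    omega
  obtain ⟨k, hk⟩ : ∃ k, k = Nat.find h1 := ⟨_, rfl⟩
  have h2 := Nat.find_spec h1
  rw [← hk] at h2
  have hk0 : k ≠ 0 := by
    rintro rfl
    exact h2 fun n => by simp
  obtain ⟨m, rfl⟩ : ∃ m, k = m + 1 := ⟨k - 1, by omega⟩
  have h3 : ∀ n, (p : ℤ_[p]) ^ m ∣ coeff n F := by
    have := Nat.find_min h1 (m := m) (by omega)
    push Not at this
    exact this
  choose c hc using h3
  refine ⟨m, PowerSeries.mk c, ?_, ?_⟩
  · ext n
    rw [coeff_C_mul, coeff_mk, hc]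
  · intro h4
    apply h2
    intro n
    have h5 := congrArg (coeff n) h4
    rw [coeff_map, coeff_mk, map_zero, IsLocalRing.residue_eq_zero_iff,
      PadicInt.maximalIdeal_eq_span_p, Ideal.mem_span_singleton] at h5
    rw [hc, pow_succ]
    exact mul_dvd_mul_left _ h5

/-- **finitely many zeros** -/
theorem finite_zeros {F : ℤ_[p]⟦X⟧} (hF : F ≠ 0) : {z : ℤ_[p] | ‖z‖ < 1 ∧ ev F z = 0}.Finite := by
  obtain ⟨m, F₁, rfl, h1⟩ := exists_pow_mul hF
  obtain ⟨f, h, hfac⟩ := PowerSeries.exists_isWeierstrassFactorization h1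
  have hf0 : f ≠ 0 := hfac.isDistinguishedAt.monic.ne_zero
  refine (Polynomial.finite_setOfPred_isRoot hf0).subset ?_
  rintro z ⟨hz, hz0⟩
  have hp0 : (p : ℤ_[p]) ^ m ≠ 0 := pow_ne_zero _ (by exact_mod_cast hp.out.ne_zero)
  rw [ev_mul _ _ hz, ev_C] at hz0
  have h2 := (mul_eq_zero.1 hz0).resolve_left hp0
  rw [hfac.eq_mul, ev_mul _ _ hz, ev_coe z hz] at h2
  have h3 : ev h z ≠ 0 := by
    obtain ⟨u, hu⟩ := hfac.isUnit
    have h4 : ev (h * ((u⁻¹ : (ℤ_[p]⟦X⟧)ˣ) : ℤ_[p]⟦X⟧)) z = 1 := by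
      rw [← hu, Units.mul_inv, ev_one]
    rw [ev_mul _ _ hz] at h4
    intro h5
    rw [h5, zero_mul] at h4
    exact zero_ne_one h4
  exact (mul_eq_zero.1 h2).resolve_right h3

/-- the coefficients of the powers of a series whose constant coefficient is divisible by `p` -/
theorem pow_dvd_coeff_pow (R : ℤ_[p]⟦X⟧) : ∀ n m : ℕ,
    constantCoeff R ^ (n - m) ∣ coeff m (R ^ n)
  | 0, m => by simp
  | n + 1, m => by
      rw [pow_succ, coeff_mul]
      refine Finset.dvd_sum fun x hx => ?_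
      have hx' := Finset.HasAntidiagonal.mem_antidiagonal.1 hx
      rcases Nat.eq_zero_or_pos x.2 with h0 | h0
      · rw [h0, coeff_zero_eq_constantCoeff_apply]
        have h1 := pow_dvd_coeff_pow R n x.1
        rcases Nat.lt_or_ge n m with h2 | h2
        · rw [show n + 1 - m = 0 by omega, pow_zero]
          exact one_dvd _
        · rw [show n + 1 - m = (n - x.1) + 1 by omega, pow_succ]
          exact mul_dvd_mul h1 dvd_rfl
      · refine Dvd.dvd.mul_right ?_ _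
        refine (pow_dvd_pow _ ?_).trans (pow_dvd_coeff_pow R n x.1)
        omega

theorem norm_term_le {U R : ℤ_[p]⟦X⟧} {θ : ℝ} (h0 : 0 ≤ θ) (hR : ‖constantCoeff R‖ ≤ θ ^ 2)
    (hθ : θ ≤ 1) {z : ℤ_[p]} (hz : ‖z‖ ≤ θ ^ 2) (n m : ℕ) :
    ‖coeff n U * coeff m (R ^ n) * z ^ m‖ ≤ θ ^ n * θ ^ m := by
  obtain ⟨c, hc⟩ := pow_dvd_coeff_pow R n m
  rw [hc, norm_mul, norm_mul, norm_mul, norm_pow, norm_pow]
  calc ‖coeff n U‖ * (‖constantCoeff R‖ ^ (n - m) * ‖c‖) * ‖z‖ ^ m
      ≤ 1 * ((θ ^ 2) ^ (n - m) * 1) * (θ ^ 2) ^ m := by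
        gcongr
        · exact PadicInt.norm_le_one _
        · exact PadicInt.norm_le_one _
    _ = θ ^ (2 * (n - m) + 2 * m) := by
        rw [one_mul, mul_one, ← pow_mul, ← pow_mul, ← pow_add]
    _ ≤ θ ^ (n + m) := pow_le_pow_of_le_one h0 hθ (by omega)
    _ = θ ^ n * θ ^ m := pow_add _ _ _

set_option maxHeartbeats 2000000 in
/-- **composition of power series** -/
theorem exists_comp (U R : ℤ_[p]⟦X⟧) (hR : ‖constantCoeff R‖ < 1) :
    ∃ G : ℤ_[p]⟦X⟧, ∀ z : ℤ_[p], ‖z‖ < 1 → ev G z = ev U (ev R z) := by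
  refine ⟨PowerSeries.mk fun m => ∑' n, coeff n U * coeff m (R ^ n), fun z hz => ?_⟩
  set θ : ℝ := Real.sqrt (max ‖constantCoeff R‖ ‖z‖) with hθ
  have hmax : 0 ≤ max ‖constantCoeff R‖ ‖z‖ := le_max_of_le_left (norm_nonneg _)
  have h0 : 0 ≤ θ := Real.sqrt_nonneg _
  have hsq : θ ^ 2 = max ‖constantCoeff R‖ ‖z‖ := Real.sq_sqrt hmax
  have h1 : θ < 1 := by
    rw [hθ, Real.sqrt_lt' one_pos, one_pow]
    exact max_lt hR hz
  have hRθ : ‖constantCoeff R‖ ≤ θ ^ 2 := by rw [hsq]; exact le_max_left _ _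
  have hzθ : ‖z‖ ≤ θ ^ 2 := by rw [hsq]; exact le_max_right _ _
  have hgeo := summable_geometric_of_lt_one h0 h1
  have hsum : Summable fun x : ℕ × ℕ => coeff x.1 U * coeff x.2 (R ^ x.1) * z ^ x.2 := by
    refine Summable.of_norm_bounded (g := fun x : ℕ × ℕ => θ ^ x.1 * θ ^ x.2) ?_ ?_
    · exact hgeo.mul_of_nonneg hgeo (fun n => pow_nonneg h0 n) (fun n => pow_nonneg h0 n)
    · intro x
      exact norm_term_le h0 hRθ h1.le hzθ x.1 x.2
  have hrow : ∀ m, Summable fun n => coeff n U * coeff m (R ^ n) := by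
    intro m
    refine Summable.of_norm_bounded_eventually_nat (g := fun n => ‖constantCoeff R‖ ^ (n - m)) ?_ ?_
    · have h2 : Summable fun n : ℕ => ‖constantCoeff R‖ ^ (n + m - m) := by
        simpa using summable_geometric_of_lt_one (norm_nonneg _) hR
      exact (summable_nat_add_iff m).1 h2
    · refine Filter.Eventually.of_forall fun n => ?_
      obtain ⟨c, hc⟩ := pow_dvd_coeff_pow R n m
      rw [hc, norm_mul, norm_mul, norm_pow]
      calc ‖coeff n U‖ * (‖constantCoeff R‖ ^ (n - m) * ‖c‖)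
          ≤ 1 * (‖constantCoeff R‖ ^ (n - m) * 1) := by
            gcongr
            · exact PadicInt.norm_le_one _
            · exact PadicInt.norm_le_one _
        _ = _ := by ring
  have hpow : ∀ n : ℕ, ev (R ^ n) z = ev R z ^ n := fun n => map_pow (evHom z hz) R n
  have e1 : ev (PowerSeries.mk fun m => ∑' n, coeff n U * coeff m (R ^ n)) z =
      ∑' m, ∑' n, coeff n U * coeff m (R ^ n) * z ^ m := by
    unfold ev
    refine tsum_congr fun m => ?_
    rw [coeff_mk, ← (hrow m).tsum_mul_right]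
  have e2 : ev U (ev R z) = ∑' n, ∑' m, coeff n U * coeff m (R ^ n) * z ^ m := by
    conv_lhs => unfold ev
    refine tsum_congr fun n => ?_
    have : (∑' m, coeff m R * z ^ m) ^ n = ev (R ^ n) z := (hpow n).symm
    rw [this]
    unfold ev
    rw [← (ev_summable (R ^ n) hz).tsum_mul_left]
    exact tsum_congr fun m => by ring
  rw [e1, e2]
  exact (hsum.tsum_comm' (fun n => hsum.prod_factor n) (fun m => by
    have h3 := (hrow m).mul_right (z ^ m)
    exact h3))

end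

end Pool.Agent.Lib.MP_3550b5_nt.Arc
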