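import Pool.Agent.Lib.MP_3550b5_nt.TP.L5

/-! From a cover by arcs to the counting theorems. -/

namespace Pool.Agent.Lib.MP_3550b5_nt

open PowerSeries

/-- The rational numbers in `S` with value `v` are covered by finitely many arcs. -/
structure ArcCover (p : ℕ) [Fact p.Prime] {V : Type*} (S : V → Set ℚ) where
  K : ℕ
  hK : 1 ≤ K
  J : Type
  inst : Fintype J
  A : J → ℤ_[p]⟦X⟧
  B : J → ℤ_[p]⟦X⟧
  hAB : ∀ j, AlgIndep (A j) (B j)
  R : J → ℤ_[p] → ℚ → Prop
  hR : ∀ j z x x', R j z x → R j z x' → x = x'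
  cover : ∀ v, ∃ c : J → ℤ_[p], (∀ j, c j ≠ 0) ∧ ∀ x ∈ S v, ∃ j z, ‖z‖ < 1 ∧ R j z x ∧
    (x.num : ℤ_[p]) ^ K = c j * ev (A j) z ∧ ((x.den : ℤ) : ℤ_[p]) ^ K = c j * ev (B j) z

/-- Splitting a finite set along a cover. -/
lemma card_le_of_cover {p : ℕ} [Fact p.Prime] {J : Type} [Fintype J] {R : J → ℤ_[p] → ℚ → Prop}
    (hR : ∀ j z x x', R j z x → R j z x' → x = x') (T : Finset ℚ) (j : T → J) (z : T → ℤ_[p])
    (hjz : ∀ x : T, R (j x) (z x) x) (C : J → ℝ)
    (hC : ∀ i : J, ∀ T' : Finset ℤ_[p], (∀ w ∈ T', ∃ x : T, j x = i ∧ z x = w) →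
      (T'.card : ℝ) ≤ C i) :
    (T.card : ℝ) ≤ ∑ i, C i := by
  classical
  have h1 : T.card = ∑ i : J, ((Finset.univ : Finset T).filter fun x => j x = i).card := by
    rw [← Finset.card_eq_sum_card_fiberwise (fun x _ => Finset.mem_coe.mpr (Finset.mem_univ (j x)))]
    simp
  rw [h1]
  push_cast
  refine Finset.sum_le_sum fun i _ => ?_
  have h2 : ((Finset.univ : Finset T).filter fun x => j x = i).card =
      (((Finset.univ : Finset T).filter fun x => j x = i).image z).card := by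
    rw [Finset.card_image_of_injOn]
    intro x hx x' hx' hxx
    have e1 := (Finset.mem_filter.mp (Finset.mem_coe.mp hx)).2
    have e2 := (Finset.mem_filter.mp (Finset.mem_coe.mp hx')).2
    have r1 := hjz x
    have r2 := hjz x'
    rw [e1] at r1
    rw [e2, ← (show z x = z x' from hxx)] at r2
    exact Subtype.ext (hR _ _ _ _ r1 r2)
  rw [h2]
  refine hC i _ fun w hw => ?_
  obtain ⟨x, hx, rfl⟩ := Finset.mem_image.mp hw
  exact ⟨x, (Finset.mem_filter.mp hx).2, rfl⟩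

theorem ArcCover.den_bound {p : ℕ} [Fact p.Prime] {V : Type*} {S : V → Set ℚ}
    (H : ArcCover p S) :
    ∃ C : ℕ, ∀ (v : V) (n : ℕ) (T : Finset ℚ), (∀ x ∈ T, x.den = n ∧ x ∈ S v) → T.card ≤ C := by
  classical
  have := H.inst
  choose M hM using fun j => arc_zeros (H.hAB j) 1
  refine ⟨∑ j, M j, fun v n T hT => ?_⟩
  obtain ⟨c, hc, hcov⟩ := H.cover v
  choose j z hz hR hnum hden using fun x : T => hcov x (hT x x.2).2
  have key : (T.card : ℝ) ≤ ∑ i, (M i : ℝ) := by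
    refine card_le_of_cover H.hR T j z hR _ fun i T' hT' => ?_
    have h := hM i (MvPolynomial.C (c i) * MvPolynomial.X 1 -
      MvPolynomial.C (((n : ℤ) : ℤ_[p]) ^ H.K)) ?_ ?_ T' ?_
    · exact_mod_cast h
    · intro h0
      have h1 := congrArg (MvPolynomial.coeff (Finsupp.single 1 1)) h0
      have h2 : ¬ ((0 : Fin 2 →₀ ℕ) = Finsupp.single 1 1) := by
        intro h2
        have := DFunLike.congr_fun h2 1
        simp at this
      rw [MvPolynomial.coeff_sub, MvPolynomial.coeff_C_mul, MvPolynomial.coeff_C, if_neg h2,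
        MvPolynomial.coeff_zero, sub_zero] at h1
      rw [show MvPolynomial.coeff (Finsupp.single (1 : Fin 2) 1)
        (MvPolynomial.X 1 : MvPolynomial (Fin 2) ℤ_[p]) = 1 from by
          simp [MvPolynomial.coeff_X], mul_one] at h1
      exact hc i h1
    · refine (MvPolynomial.totalDegree_sub _ _).trans (max_le ?_ ?_)
      · refine (MvPolynomial.totalDegree_mul _ _).trans ?_
        rw [MvPolynomial.totalDegree_C, MvPolynomial.totalDegree_X]
      · rw [MvPolynomial.totalDegree_C]; omega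
    · intro w hw
      obtain ⟨x, rfl, rfl⟩ := hT' w hw
      refine ⟨hz x, ?_⟩
      rw [map_sub, map_mul, MvPolynomial.eval_C, MvPolynomial.eval_X, MvPolynomial.eval_C]
      have h1 := hden x
      rw [(hT x x.2).1] at h1
      rw [h1]
      simp
  have h2 : (T.card : ℝ) ≤ ((∑ i, M i : ℕ) : ℝ) := by push_cast; exact key
  exact_mod_cast h2

theorem ArcCover.count {p : ℕ} [Fact p.Prime] {V : Type*} {S : V → Set ℚ}
    (H : ArcCover p S) {ε : ℝ} (hε : 0 < ε) :
    ∃ C : ℝ, ∀ (v : V) (N : ℕ) (T : Finset ℚ), 1 ≤ N →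
      (∀ x ∈ T, |x.num| ≤ N ∧ x.den ≤ N ∧ x ∈ S v) → (T.card : ℝ) ≤ C * (N : ℝ) ^ ε := by
  classical
  have := H.inst
  choose C hC using fun j => arc_count (H.hAB j) H.hK hε
  refine ⟨∑ j, C j, fun v N T hN hT => ?_⟩
  obtain ⟨c, hc, hcov⟩ := H.cover v
  choose j z hz hR hnum hden using fun x : T => hcov x (hT x x.2).2.2
  rw [Finset.sum_mul]
  refine card_le_of_cover H.hR T j z hR _ fun i T' hT' => ?_
  refine hC i (c i) N (hc i) hN T' fun w hw => ?_
  obtain ⟨x, rfl, rfl⟩ := hT' w hw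
  refine ⟨hz x, (x : ℚ).num, ((x : ℚ).den : ℤ), (hT x x.2).1, ?_, hnum x, hden x⟩
  rw [Nat.abs_cast]
  exact_mod_cast (hT x x.2).2.1

end Pool.Agent.Lib.MP_3550b5_nt
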