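import Pool.Agent.Lib.MP_3550b5_nt.TP.Cover

/-! Points on a plane curve: elimination of the `K`-th powers. -/

namespace Pool.Agent.Lib.MP_3550b5_nt

open PowerSeries

variable {p : ℕ} [hp : Fact p.Prime]

/-- The polynomial with coefficients `r` at the monomials `X^(K α) Y^(K β)`. -/
noncomputable def expL (p : ℕ) [Fact p.Prime] (K d : ℕ) :
    (Mon d → ℤ_[p]) →ₗ[ℤ_[p]] MvPolynomial (Fin 2) ℤ_[p] :=
  ∑ μ, (MvPolynomial.monomial (K • monE d μ)) ∘ₗ (LinearMap.proj μ)

lemma expL_apply (K d : ℕ) (r : Mon d → ℤ_[p]) :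
    expL p K d r = ∑ μ, MvPolynomial.monomial (K • monE d μ) (r μ) := by
  simp [expL]

lemma eval_expL (K d : ℕ) (r : Mon d → ℤ_[p]) (x y : ℤ_[p]) :
    MvPolynomial.eval ![x, y] (expL p K d r) =
      ∑ μ : Mon d, r μ * (x ^ K) ^ (μ.1 : ℕ) * (y ^ K) ^ (μ.2 : ℕ) := by
  rw [expL_apply, map_sum]
  refine Finset.sum_congr rfl fun μ _ => ?_
  rw [MvPolynomial.eval_monomial, Finsupp.prod_fintype _ _ (by simp), Fin.prod_univ_two]
  simp only [Finsupp.smul_apply, monE_zero, monE_one, smul_eq_mul]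
  simp only [Matrix.cons_val_zero, Matrix.cons_val_one]
  rw [pow_mul, pow_mul]; ring

lemma expL_box (K d : ℕ) (r : Mon d → ℤ_[p]) (m : Fin 2 →₀ ℕ)
    (hm : MvPolynomial.coeff m (expL p K d r) ≠ 0) : m 0 ≤ d * K ∧ m 1 ≤ d * K := by
  classical
  rw [expL_apply, MvPolynomial.coeff_sum] at hm
  obtain ⟨μ, -, hμ⟩ := Finset.exists_ne_zero_of_sum_ne_zero hm
  rw [MvPolynomial.coeff_monomial] at hμ
  have h : K • monE d μ = m := by
    by_contra h
    exact hμ (if_neg h)
  rw [← h, Finsupp.smul_apply, Finsupp.smul_apply, monE_zero, monE_one, smul_eq_mul, smul_eq_mul,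
    mul_comm d K]
  exact ⟨Nat.mul_le_mul_left _ (by have := μ.1.2; omega),
    Nat.mul_le_mul_left _ (by have := μ.2.2; omega)⟩

lemma expL_inj {K d : ℕ} (hK : 1 ≤ K) {r : Mon d → ℤ_[p]} (h : expL p K d r = 0) : r = 0 := by
  classical
  funext μ
  have h1 := congrArg (MvPolynomial.coeff (K • monE d μ)) h
  rw [expL_apply, MvPolynomial.coeff_sum, Finset.sum_eq_single μ,
    MvPolynomial.coeff_monomial, if_pos rfl] at h1
  · exact h1
  · intro ν _ hν
    rw [MvPolynomial.coeff_monomial, if_neg]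
    intro h2
    apply hν
    apply monE_inj
    ext i
    have h3 := DFunLike.congr_fun h2 i
    simp only [Finsupp.smul_apply, smul_eq_mul] at h3
    exact Nat.eq_of_mul_eq_mul_left (by omega) h3
  · intro h
    exact absurd (Finset.mem_univ μ) h

/-- A nonzero polynomial in `X^K`, `Y^K` which vanishes on the curve `Q = 0`. -/
lemma exists_norm {d K : ℕ} (hK : 1 ≤ K) {Q : MvPolynomial (Fin 2) ℤ_[p]} (hQ : Q ≠ 0)
    (hd : Q.totalDegree ≤ d) :
    ∃ r : Mon (2 * d * K) → ℤ_[p], r ≠ 0 ∧ ∀ x y : ℤ_[p], MvPolynomial.eval ![x, y] Q = 0 →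
      ∑ μ : Mon (2 * d * K), r μ * (x ^ K) ^ (μ.1 : ℕ) * (y ^ K) ^ (μ.2 : ℕ) = 0 := by
  classical
  set D := 2 * d * K with hD
  set E := D * K - d with hE
  have hdD : d ≤ D * K := by
    calc d = d * 1 * 1 := by ring
      _ ≤ (2 * d * K) * K := by
        gcongr
        nlinarith
  let T : ((Mon D → ℤ_[p]) × (Mon E → ℤ_[p])) →ₗ[ℤ_[p]] MvPolynomial (Fin 2) ℤ_[p] :=
    (expL p K D) ∘ₗ (LinearMap.fst ℤ_[p] _ _) -
      (LinearMap.mulLeft ℤ_[p] Q) ∘ₗ (expL p 1 E) ∘ₗ (LinearMap.snd ℤ_[p] _ _)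
  let L : ((Mon D → ℤ_[p]) × (Mon E → ℤ_[p])) →ₗ[ℤ_[p]] (Mon (D * K) → ℤ_[p]) :=
    LinearMap.pi fun μ => (MvPolynomial.lcoeff ℤ_[p] (monE (D * K) μ)) ∘ₗ T
  have hninj : ¬ Function.Injective L := by
    intro hinj
    have h1 := LinearMap.finrank_le_finrank_of_injective hinj
    rw [Module.finrank_prod, Module.finrank_pi, Module.finrank_pi, Module.finrank_pi,
      Fintype.card_prod, Fintype.card_prod, Fintype.card_prod, Fintype.card_fin, Fintype.card_fin,
      Fintype.card_fin] at h1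
    obtain ⟨e, he⟩ : ∃ e, D * K = e + d := ⟨D * K - d, by omega⟩
    have hE' : E = e := by omega
    rw [hE', he] at h1
    have h2 : (D : ℤ) = 2 * d * K := by rw [hD]; push_cast; ring
    have h3 : (e : ℤ) = 2 * d * K * K - d := by
      have : ((D * K : ℕ) : ℤ) = ((e + d : ℕ) : ℤ) := congrArg _ he
      push_cast at this
      rw [h2] at this
      linarith
    have h4 : ((D + 1) * (D + 1) + (e + 1) * (e + 1) : ℤ) ≤ (e + d + 1) * (e + d + 1) := by
      exact_mod_cast h1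
    rw [h2, h3] at h4
    have hd0 : (0 : ℤ) ≤ d := by positivity
    have hK1 : (1 : ℤ) ≤ K := by exact_mod_cast hK
    nlinarith [mul_nonneg hd0 (by linarith : (0 : ℤ) ≤ K - 1)]
  have hex : ∃ w, w ≠ 0 ∧ L w = 0 := by
    by_contra hcon
    push Not at hcon
    apply hninj
    rw [injective_iff_map_eq_zero]
    intro w hw
    by_contra hw0
    exact hcon w hw0 hw
  obtain ⟨⟨r, q⟩, hw, hL⟩ := hex
  have hT : expL p K D r = Q * expL p 1 E q := by
    rw [← sub_eq_zero]
    ext m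
    rw [MvPolynomial.coeff_zero]
    by_cases hm : m 0 ≤ D * K ∧ m 1 ≤ D * K
    · have e : m = monE (D * K) (⟨m 0, by omega⟩, ⟨m 1, by omega⟩) := by
        ext i
        fin_cases i
        · simp [monE]
        · simp [monE]
      rw [e]
      exact congrFun hL _
    · have h1 : MvPolynomial.coeff m (expL p K D r) = 0 := by
        by_contra h
        exact hm (expL_box _ _ _ _ h)
      have h2 : MvPolynomial.coeff m (Q * expL p 1 E q) = 0 := by
        by_contra h
        apply hm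
        have h3 : ∀ i, m i ≤ D * K := by
          intro i
          have h4 : m i ≤ MvPolynomial.degreeOf i (Q * expL p 1 E q) :=
            MvPolynomial.degreeOf_le_iff.mp le_rfl m (MvPolynomial.mem_support_iff.mpr h)
          have h5 := MvPolynomial.degreeOf_mul_le i Q (expL p 1 E q)
          have h6 : MvPolynomial.degreeOf i Q ≤ d :=
            (MvPolynomial.degreeOf_le_totalDegree Q i).trans hd
          have h7 : MvPolynomial.degreeOf i (expL p 1 E q) ≤ E := by
            rw [MvPolynomial.degreeOf_le_iff]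
            intro m' hm'
            have h8 := expL_box 1 E q m' (MvPolynomial.mem_support_iff.mp hm')
            rw [mul_one] at h8
            fin_cases i
            · exact h8.1
            · exact h8.2
          omega
        exact ⟨h3 0, h3 1⟩
      rw [MvPolynomial.coeff_sub, h1, h2, sub_zero]
  refine ⟨r, ?_, fun x y hxy => ?_⟩
  · rintro rfl
    apply hw
    rw [map_zero] at hT
    have h1 := (mul_eq_zero.mp hT.symm).resolve_left hQ
    rw [expL_inj le_rfl h1]
    rfl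
  · rw [← eval_expL, hT, map_mul, hxy, zero_mul]

lemma ev_comb_monF {A B : ℤ_[p]⟦X⟧} {d : ℕ} (c : Mon d → ℤ_[p]) {z : ℤ_[p]} (hz : ‖z‖ < 1) :
    ev (comb (monF A B d) c) z =
      ∑ μ : Mon d, c μ * (ev A z ^ (μ.1 : ℕ) * ev B z ^ (μ.2 : ℕ)) := by
  have := map_sum (evHom z hz) (fun i => C (c i) * monF A B d i) Finset.univ
  refine Eq.trans this (Finset.sum_congr rfl fun μ _ => ?_)
  rw [map_mul, monF, map_mul, map_pow, map_pow]
  have h1 : evHom z hz (C (c μ)) = c μ := ev_C _ _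
  rw [h1]
  rfl

/-- Clearing denominators. -/
lemma exists_int_poly (Q : MvPolynomial (Fin 2) ℚ_[p]) :
    ∃ (n : ℕ) (Q' : MvPolynomial (Fin 2) ℤ_[p]),
      MvPolynomial.map (algebraMap ℤ_[p] ℚ_[p]) Q' = MvPolynomial.C ((p : ℚ_[p]) ^ n) * Q := by
  classical
  obtain ⟨n, c, hc⟩ := exists_int_multiple (p := p) (ι := Q.support)
    fun m => MvPolynomial.coeff (m : Fin 2 →₀ ℕ) Q
  refine ⟨n, ∑ m : Q.support, MvPolynomial.monomial (m : Fin 2 →₀ ℕ) (c m), ?_⟩
  rw [map_sum]
  conv_rhs => rw [MvPolynomial.as_sum Q, Finset.mul_sum, ← Finset.sum_coe_sort]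
  refine Finset.sum_congr rfl fun m _ => ?_
  rw [MvPolynomial.map_monomial, MvPolynomial.C_mul_monomial]
  congr 1
  exact hc m

/-- Points on a plane curve. -/
theorem ArcCover.curve_bound {V : Type*} {S : V → Set ℚ} (H : ArcCover p S) (d : ℕ) :
    ∃ C : ℕ, ∀ (v : V) (Q : MvPolynomial (Fin 2) ℚ_[p]), Q ≠ 0 → Q.totalDegree ≤ d →
      ∀ T : Finset ℚ, (∀ x ∈ T, x ∈ S v ∧
        MvPolynomial.eval ![(x.num : ℚ_[p]), (x.den : ℚ_[p])] Q = 0) → T.card ≤ C := by
  classical
  have := H.inst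
  set D := 2 * d * H.K with hD
  choose M hM using fun j => comb_zeros (monF (H.A j) (H.B j) D) (comb_mon_ne (H.hAB j) D)
  refine ⟨∑ j, M j, fun v Q hQ hQd T hT => ?_⟩
  obtain ⟨c, hc, hcov⟩ := H.cover v
  obtain ⟨n, Q', hQ'⟩ := exists_int_poly Q
  have hp0 : (p : ℚ_[p]) ^ n ≠ 0 := pow_ne_zero _ (by exact_mod_cast hp.out.ne_zero)
  have hinj : Function.Injective (algebraMap ℤ_[p] ℚ_[p]) := Subtype.coe_injective
  have hQ'0 : Q' ≠ 0 := by
    rintro rfl
    rw [map_zero] at hQ'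
    rcases mul_eq_zero.mp hQ'.symm with h | h
    · exact hp0 ((MvPolynomial.C_eq_zero).mp h)
    · exact hQ h
  have hQ'd : Q'.totalDegree ≤ d := by
    have h1 : (MvPolynomial.map (algebraMap ℤ_[p] ℚ_[p]) Q').totalDegree = Q'.totalDegree := by
      rw [MvPolynomial.totalDegree, MvPolynomial.totalDegree,
        MvPolynomial.support_map_of_injective _ hinj]
    rw [← h1, hQ']
    refine (MvPolynomial.totalDegree_mul _ _).trans ?_
    rw [MvPolynomial.totalDegree_C, zero_add]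
    exact hQd
  obtain ⟨r, hr, hr0⟩ := exists_norm H.hK hQ'0 hQ'd
  choose j z hz hR hnum hden using fun x : T => hcov x (hT x x.2).1
  have key : (T.card : ℝ) ≤ ∑ i, (M i : ℝ) := by
    refine card_le_of_cover H.hR T j z hR _ fun i T' hT' => ?_
    have h := hM i (fun μ => r μ * (c i) ^ ((μ.1 : ℕ) + (μ.2 : ℕ))) ?_ T' ?_
    · exact_mod_cast h
    · intro h0
      apply hr
      funext μ
      exact (mul_eq_zero.mp (congrFun h0 μ)).resolve_right (pow_ne_zero _ (hc i))
    · intro w hw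
      obtain ⟨x, rfl, rfl⟩ := hT' w hw
      refine ⟨hz x, ?_⟩
      rw [ev_comb_monF _ (hz x)]
      have h1 := (hT x x.2).2
      have h2 : MvPolynomial.eval ![((x : ℚ).num : ℤ_[p]), (((x : ℚ).den : ℤ) : ℤ_[p])] Q' = 0 := by
        apply hinj
        rw [map_zero, MvPolynomial.map_eval, hQ', map_mul]
        have e : (algebraMap ℤ_[p] ℚ_[p]) ∘ ![((x : ℚ).num : ℤ_[p]), (((x : ℚ).den : ℤ) : ℤ_[p])] =
            ![((x : ℚ).num : ℚ_[p]), ((x : ℚ).den : ℚ_[p])] := by
          funext i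
          fin_cases i <;> simp
        rw [e, h1, mul_zero]
      have h3 := hr0 _ _ h2
      rw [hnum x, hden x] at h3
      rw [← h3]
      refine Finset.sum_congr rfl fun μ _ => ?_
      rw [mul_pow, mul_pow, pow_add]
      ring
  have h2 : (T.card : ℝ) ≤ ((∑ i, M i : ℕ) : ℝ) := by push_cast; exact key
  exact_mod_cast h2

end Pool.Agent.Lib.MP_3550b5_nt
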