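import Pool.Agent.Lib.MP_3550b5_nt.RDet
import Pool.Agent.Lib.MP_3550b5_nt.TP.Zero

/-!
Interpolation determinants at points of a small disc.
-/

namespace Pool.Agent.Lib.MP_3550b5_nt

open Finset

variable {p : ℕ} [hp : Fact p.Prime]

lemma monomial_eval_dvd_pi {d : ℕ} {π : ℤ_[p]} (k : Fin d →₀ ℕ) (x : Fin d → ℤ_[p])
    (hx : ∀ i, π ∣ x i) : π ^ deg k ∣ ∏ i, x i ^ k i := by
  rw [deg, ← prod_pow_eq_pow_sum]
  exact prod_dvd_prod_of_dvd _ _ fun i _ => pow_dvd_pow_of_dvd (hx i) _

lemma det_poly_dvd_pi {d : ℕ} {π : ℤ_[p]} {ι : Type*} [Fintype ι] [DecidableEq ι]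
    (P : ι → MvPolynomial (Fin d) ℤ_[p]) (x : ι → Fin d → ℤ_[p])
    (hx : ∀ j i, π ∣ x j i) (h : ℕ) :
    π ^ (h * (Fintype.card ι - h ^ d)) ∣
      (Matrix.of fun i j => MvPolynomial.eval (x j) (P i)).det := by
  classical
  set K : Finset (Fin d →₀ ℕ) := univ.biUnion fun i => (P i).support with hK
  have hrow : (Matrix.of fun i j => MvPolynomial.eval (x j) (P i)) =
      fun i => ∑ k ∈ K, (fun j => (P i).coeff k * ∏ l, x j l ^ k l) := by
    funext i j
    rw [Matrix.of_apply, MvPolynomial.eval_eq', Finset.sum_apply]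
    apply sum_subset
    · exact subset_biUnion_of_mem (fun i => (P i).support) (mem_univ i)
    · intro k _ hk
      rw [MvPolynomial.notMem_support_iff.mp hk, zero_mul]
  have h1 : (Matrix.of fun i j => MvPolynomial.eval (x j) (P i)).det =
      ∑ r ∈ Fintype.piFinset fun _ : ι => K,
        Matrix.detRowAlternating fun i => (fun j => (P i).coeff (r i) * ∏ l, x j l ^ r i l) := by
    rw [hrow]
    exact Matrix.detRowAlternating.toMultilinearMap.map_sum_finset _ _
  rw [h1]
  refine dvd_sum fun r _ => ?_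
  have h2 : (Matrix.detRowAlternating fun i =>
      (fun j => (P i).coeff (r i) * ∏ l, x j l ^ r i l)) =
      (∏ i, (P i).coeff (r i)) *
        (Matrix.of fun i j => ∏ l, x j l ^ r i l : Matrix ι ι ℤ_[p]).det := by
    rw [← Matrix.det_mul_column]
    rfl
  rw [h2]
  apply Dvd.dvd.mul_left
  by_cases hr : Function.Injective r
  · refine (pow_dvd_pow _ (sum_deg_ge r hr h)).trans ?_
    have h3 : ∀ i j, ∃ c, ∏ l, x j l ^ r i l = π ^ deg (r i) * c := fun i j =>
      monomial_eval_dvd_pi (r i) (x j) (hx j)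
    choose c hc using h3
    have h4 : (Matrix.of fun i j => ∏ l, x j l ^ r i l : Matrix ι ι ℤ_[p]) =
        Matrix.of fun i j => π ^ deg (r i) * (Matrix.of c) i j := by
      ext i j
      exact hc i j
    rw [h4, Matrix.det_mul_column, prod_pow_eq_pow_sum]
    exact Dvd.intro _ rfl
  · rw [Function.Injective] at hr
    push Not at hr
    obtain ⟨i, i', hri, hne⟩ := hr
    rw [Matrix.det_zero_of_row_eq hne]
    · exact dvd_zero _
    · funext j
      simp only [Matrix.of_apply, hri]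

/-- Interpolation determinants of power series at points of a disc of radius `p ^ (-j)`. -/
theorem det_ev_dvd {ι : Type*} [Fintype ι] [DecidableEq ι] (F : ι → PowerSeries ℤ_[p])
    (z : ι → ℤ_[p]) (z0 : ℤ_[p]) (h0 : (p : ℤ_[p]) ∣ z0) {j : ℕ} (hj : 1 ≤ j)
    (hz : ∀ i, (p : ℤ_[p]) ^ j ∣ z i - z0) (h : ℕ) :
    ((p : ℤ_[p]) ^ j) ^ (h * (Fintype.card ι - h)) ∣
      (Matrix.of fun i i' => ev (F i) (z i')).det := by
  classical
  set a : ι → Fin 1 → ℤ_[p] := fun i _ => z i - z0 with ha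
  have hA : ∀ i, Appr a (fun s => ev (F i) (z0 + a s 0)) := fun i =>
    Appr.ev (F i) ((Appr.const z0).add (Appr.coord 0)) fun s =>
      dvd_add h0 ((dvd_pow_self _ (by omega)).trans (hz s))
  set M := j * (h * (Fintype.card ι - h)) with hM
  choose P hP using fun i => hA i M
  have h1 := det_poly_dvd_pi (π := (p : ℤ_[p]) ^ j) P a (fun i _ => hz i) h
  rw [pow_one] at h1
  have h2 : (p : ℤ_[p]) ^ M ∣ (Matrix.of fun i i' => ev (F i) (z0 + a i' 0)).det -
      (Matrix.of fun i i' => MvPolynomial.eval (a i') (P i)).det := by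
    rw [← Ideal.mem_span_singleton, ← Ideal.Quotient.eq, RingHom.map_det, RingHom.map_det]
    congr 1
    ext i i'
    simp only [RingHom.mapMatrix_apply, Matrix.map_apply, Matrix.of_apply]
    rw [Ideal.Quotient.eq, Ideal.mem_span_singleton]
    exact hP i i'
  rw [hM, pow_mul] at h2
  have h3 := dvd_add h2 h1
  rw [sub_add_cancel] at h3
  have e : (Matrix.of fun i i' => ev (F i) (z i')) =
      Matrix.of fun i i' => ev (F i) (z0 + a i' 0) := by
    ext i i'
    simp [ha]
  rw [e]
  exact h3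

end Pool.Agent.Lib.MP_3550b5_nt
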