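import Pool.Agent.Lib.MP_3550b5_nt.TP.Defs
import Pool.Agent.Lib.MP_3550b5_nt.RMult
import Pool.Agent.Lib.MP_3550b5_nt.UData

/-!
L3, first part: one index `k` for all points of all quadratic twists.
-/

namespace Pool.Agent.Lib.MP_3550b5_nt

open WeierstrassCurve.Affine

section loc

variable {l : ℕ} [hl : Fact l.Prime]

lemma norm_int_eq_one {n : ℤ} (h : ¬ (l : ℤ) ∣ n) : ‖(n : ℚ_[l])‖ = 1 := by
  refine le_antisymm (Padic.norm_int_le_one n) ?_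
  by_contra hlt
  exact h (norm_int_lt_one'.mp (not_le.mp hlt))

lemma le_inv_of_lt_one {x : ℚ_[l]} (h : ‖x‖ < 1) : ‖x‖ ≤ (l : ℝ)⁻¹ := by
  have := (Padic.norm_le_pow_iff_norm_lt_pow_add_one x (-1)).mpr (by simpa using h)
  simpa using this

lemma norm_exact {D : ℤ} (h1 : (l : ℤ) ∣ D) (h2 : ¬ (l : ℤ) ^ 2 ∣ D) :
    ‖(D : ℚ_[l])‖ = (l : ℝ)⁻¹ := by
  obtain ⟨E, rfl⟩ := h1
  have hE : ¬ (l : ℤ) ∣ E := by
    rintro ⟨F, rfl⟩
    exact h2 ⟨F, by ring⟩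
  push_cast
  rw [norm_mul, norm_int_eq_one hE, mul_one, Padic.norm_p]

lemma norm_lt_one_of_three {X A : ℚ_[l]} (h3 : ‖(3 : ℚ_[l])‖ = 1) (hA : ‖A‖ < 1)
    (h : ‖3 * X ^ 2 + A‖ < 1) : ‖X‖ < 1 := by
  have e : 3 * X ^ 2 = (3 * X ^ 2 + A) + -A := by ring
  have h1 : ‖3 * X ^ 2‖ < 1 := by
    rw [e]
    exact norm_add_lt h (by rwa [norm_neg])
  rw [norm_mul, h3, one_mul, norm_pow] at h1
  exact (pow_lt_one_iff_of_nonneg (norm_nonneg _) (by norm_num)).mp h1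

/-- At a prime of multiplicity one of `D`, prime to `6 Δ`, twice a point is nonsingular. -/
lemma not_sing_two {a b D : ℤ} (h6 : ¬ (l : ℤ) ∣ 6 * (4 * a ^ 3 + 27 * b ^ 2))
    (hlD : (l : ℤ) ∣ D) (hD2 : ¬ (l : ℤ) ^ 2 ∣ D)
    {P : (curve (a * D ^ 2) (b * D ^ 3)).Point} (htor : ¬ IsOfFinAddOrder P) :
    ¬ SingAt l (2 • P) := by
  have hl1 : (1 : ℝ) < l := by exact_mod_cast hl.out.one_lt
  have hl0 : (0 : ℝ) < l := by linarith
  have hP0 : P ≠ 0 := by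
    have := nsmul_ne_of_not_tor htor 1 one_pos
    rwa [one_smul] at this
  obtain ⟨hh, e⟩ := exists_eq_some P hP0
  by_cases hs : SingAt l P
  swap
  · exact (nonsing_nsmul (Or.inr hs) 2).resolve_left (nsmul_ne_of_not_tor htor 2 two_pos)
  have hinf : ∀ n : ℕ, 0 < n →
      n • (Point.some (ptX P) (ptY P) hh : (curve (a * D ^ 2) (b * D ^ 3)).Point) ≠ 0 := by
    rw [← e]; exact nsmul_ne_of_not_tor htor
  have hms := multSeq_of_point hh hinf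
  have hdbl := hms.dbl 1 le_rfl
  have hyne := hms.Yne 1 le_rfl
  simp only [mul_one, one_smul] at hdbl hyne
  rw [← e] at hdbl hyne
  have heq := curve_eq hh
  -- pass to the `l`-adic numbers
  have E := congrArg (fun z : ℚ => (z : ℚ_[l])) heq
  have F := congrArg (fun z : ℚ => (z : ℚ_[l])) hdbl
  push_cast at E F
  have hYne : ((ptY P : ℚ) : ℚ_[l]) ≠ 0 := by exact_mod_cast hyne
  obtain ⟨hs1, hs2, hs3⟩ := hs
  push_cast at hs3
  intro hsing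
  obtain ⟨ht1, -, ht3⟩ := hsing
  push_cast at ht3
  rw [F] at ht3
  set X := ((ptX P : ℚ) : ℚ_[l]) with hX
  set Y := ((ptY P : ℚ) : ℚ_[l]) with hY
  set d : ℚ_[l] := (D : ℚ_[l]) with hd
  have hdn : ‖d‖ = (l : ℝ)⁻¹ := norm_exact hlD hD2
  have hinv : (l : ℝ)⁻¹ < 1 := inv_lt_one_of_one_lt₀ hl1
  have hinv0 : 0 < (l : ℝ)⁻¹ := by positivity
  have hd0 : d ≠ 0 := by
    intro h0
    rw [h0, norm_zero] at hdn
    linarith
  have n2 : ‖(2 : ℚ_[l])‖ = 1 := by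
    have : ¬ (l : ℤ) ∣ 2 := fun h => h6 (Dvd.dvd.mul_right (h.trans (by norm_num)) _)
    exact_mod_cast norm_int_eq_one this
  have n3 : ‖(3 : ℚ_[l])‖ = 1 := by
    have : ¬ (l : ℤ) ∣ 3 := fun h => h6 (Dvd.dvd.mul_right (h.trans (by norm_num)) _)
    exact_mod_cast norm_int_eq_one this
  have n4 : ‖(4 : ℚ_[l])‖ = 1 := by
    rw [show (4 : ℚ_[l]) = 2 * 2 by norm_num, norm_mul, n2, one_mul]
  have nΔ : ‖((4 * (4 * a ^ 3 + 27 * b ^ 2) : ℤ) : ℚ_[l])‖ = 1 := by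
    apply norm_int_eq_one
    intro h
    have hlZ : Prime (l : ℤ) := Nat.prime_iff_prime_int.mp hl.out
    rcases hlZ.dvd_or_dvd h with h1 | h1
    · have h2 : (l : ℤ) ∣ 2 := hlZ.dvd_of_dvd_pow (n := 2) (by norm_num; exact h1)
      exact h6 (Dvd.dvd.mul_right (h2.trans (by norm_num)) _)
    · exact h6 (Dvd.dvd.mul_left h1 _)
  have hia : ‖(a : ℚ_[l])‖ ≤ 1 := Padic.norm_int_le_one a
  have hib : ‖(b : ℚ_[l])‖ ≤ 1 := Padic.norm_int_le_one b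
  have nA : ‖(a : ℚ_[l]) * d ^ 2‖ < 1 := by
    rw [norm_mul, norm_pow, hdn]
    calc ‖(a : ℚ_[l])‖ * ((l : ℝ)⁻¹) ^ 2 ≤ 1 * ((l : ℝ)⁻¹) ^ 2 := by gcongr
      _ < 1 := by rw [one_mul]; exact pow_lt_one₀ hinv0.le hinv two_ne_zero
  have hX1 : ‖X‖ < 1 := norm_lt_one_of_three n3 nA hs3
  have hX2 := norm_lt_one_of_three n3 nA ht3
  obtain ⟨ξ, hξ⟩ : ∃ ξ, X = d * ξ := ⟨X / d, by field_simp⟩
  have hξ1 : ‖ξ‖ ≤ 1 := by
    have h1 := le_inv_of_lt_one hX1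
    rw [hξ, norm_mul, hdn] at h1
    have h2 : (l : ℝ)⁻¹ * ‖ξ‖ ≤ (l : ℝ)⁻¹ * 1 := by rw [mul_one]; exact h1
    exact le_of_mul_le_mul_left h2 hinv0
  set f : ℚ_[l] := ξ ^ 3 + a * ξ + b with hf
  set g : ℚ_[l] := 3 * ξ ^ 2 + a with hg
  have hYf : Y ^ 2 = d ^ 3 * f := by rw [E, hξ, hf]; ring
  have hf1 : ‖f‖ ≤ 1 := by
    rw [hf]
    refine norm_add_le' (norm_add_le' ?_ ?_) hib
    · rw [norm_pow]; exact pow_le_one₀ (norm_nonneg _) hξ1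
    · rw [norm_mul]; exact mul_le_one₀ hia (norm_nonneg _) hξ1
  have hg1 : ‖g‖ ≤ 1 := by
    rw [hg]
    refine norm_add_le' ?_ hia
    rw [norm_mul, norm_pow, n3, one_mul]; exact pow_le_one₀ (norm_nonneg _) hξ1
  have hf0 : f ≠ 0 := by
    intro h0
    rw [h0, mul_zero] at hYf
    exact hYne (pow_eq_zero_iff two_ne_zero |>.mp hYf)
  -- parity
  have hflt : ‖f‖ < 1 := by
    refine lt_of_le_of_ne hf1 fun h1 => ?_
    have h2 : ‖Y‖ ^ 2 = ((l : ℝ)⁻¹) ^ 3 := by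
      rw [← norm_pow, hYf, norm_mul, norm_pow, hdn, h1, mul_one]
    rw [Padic.norm_eq_zpow_neg_valuation hYne] at h2
    have h3 : (l : ℝ) ^ (-Y.valuation * 2) = (l : ℝ) ^ (-3 : ℤ) := by
      rw [zpow_mul, show (2 : ℤ) = ((2 : ℕ) : ℤ) by norm_num, zpow_natCast, h2, inv_pow,
        zpow_neg]
      norm_cast
    have h4 := zpow_right_injective₀ hl0 hl1.ne' h3
    omega
  have hg2 : ‖g‖ = 1 := by
    refine le_antisymm hg1 ?_
    by_contra hlt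
    rw [not_le] at hlt
    have hdisc : ((4 * (4 * a ^ 3 + 27 * b ^ 2) : ℤ) : ℚ_[l]) =
        -((18 * a * ξ - 27 * b) * (4 * f)) + 4 * (6 * a * ξ ^ 2 - 9 * b * ξ + 4 * a ^ 2) * g := by
      rw [hf, hg]; push_cast; ring
    have hi : ∀ n : ℤ, ‖(n : ℚ_[l])‖ ≤ 1 := Padic.norm_int_le_one
    have hb1 : ‖18 * (a : ℚ_[l]) * ξ - 27 * b‖ ≤ 1 := by
      have e6 : 18 * (a : ℚ_[l]) * ξ - 27 * b = ((18 * a : ℤ) : ℚ_[l]) * ξ +
        ((-27 * b : ℤ) : ℚ_[l]) := by push_cast; ring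
      rw [e6]
      refine norm_add_le' ?_ (hi _)
      rw [norm_mul]; exact mul_le_one₀ (hi _) (norm_nonneg _) hξ1
    have hb2 : ‖4 * (6 * (a : ℚ_[l]) * ξ ^ 2 - 9 * b * ξ + 4 * a ^ 2)‖ ≤ 1 := by
      have e6 : 4 * (6 * (a : ℚ_[l]) * ξ ^ 2 - 9 * b * ξ + 4 * a ^ 2) =
        ((24 * a : ℤ) : ℚ_[l]) * ξ ^ 2 + ((-36 * b : ℤ) : ℚ_[l]) * ξ +
          ((16 * a ^ 2 : ℤ) : ℚ_[l]) := by push_cast; ring
      rw [e6]
      refine norm_add_le' (norm_add_le' ?_ ?_) (hi _)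
      · rw [norm_mul, norm_pow]
        exact mul_le_one₀ (hi _) (by positivity) (pow_le_one₀ (norm_nonneg _) hξ1)
      · rw [norm_mul]; exact mul_le_one₀ (hi _) (norm_nonneg _) hξ1
    have hlt1 : ‖((4 * (4 * a ^ 3 + 27 * b ^ 2) : ℤ) : ℚ_[l])‖ < 1 := by
      rw [hdisc]
      apply norm_add_lt
      · rw [norm_neg, norm_mul, norm_mul, n4, one_mul]
        calc _ ≤ 1 * ‖f‖ := by gcongr
          _ < 1 := by rw [one_mul]; exact hflt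
      · rw [norm_mul]
        calc _ ≤ 1 * ‖g‖ := by gcongr
          _ < 1 := by rw [one_mul]; exact hlt
    linarith
  -- the abscissa of the double
  have hx2 : ((3 * X ^ 2 + (a : ℚ_[l]) * d ^ 2) / (2 * Y)) ^ 2 - 2 * X =
      d * (g ^ 2 / (4 * f) - 2 * ξ) := by
    have h1 : 3 * X ^ 2 + (a : ℚ_[l]) * d ^ 2 = d ^ 2 * g := by rw [hξ, hg]; ring
    have h2 : (2 * Y) ^ 2 = 4 * (d ^ 3 * f) := by rw [mul_pow, hYf]; norm_num
    rw [h1, div_pow, h2, hξ]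
    field_simp
  have hbig : 1 < ‖g ^ 2 / (4 * f)‖ := by
    rw [norm_div, norm_pow, norm_mul, hg2, n4, one_pow, one_mul, one_div]
    exact (one_lt_inv₀ (norm_pos_iff.mpr hf0)).mpr hflt
  have hsmall : ‖2 * ξ‖ ≤ 1 := by
    rw [norm_mul, n2, one_mul]; exact hξ1
  have hnorm : ‖g ^ 2 / (4 * f) - 2 * ξ‖ = ‖g ^ 2 / (4 * f)‖ := by
    rw [sub_eq_add_neg]
    apply norm_add_eq_left
    rw [norm_neg]
    linarith
  rw [hx2, norm_mul, hnorm, norm_div, norm_pow, norm_mul, hg2, n4, one_pow, one_mul, hdn] at hX2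
  have h5 := le_inv_of_lt_one hflt
  have h6' : 0 < ‖f‖ := norm_pos_iff.mpr hf0
  have h7 : (l : ℝ)⁻¹ * (1 / ‖f‖) ≥ 1 := by
    rw [ge_iff_le, mul_one_div, le_div_iff₀ h6', one_mul]
    exact h5
  linarith

/-- Some small multiple of a point which is nonsingular modulo `l` reduces to the origin. -/
lemma exists_ker {a b : ℤ} {P : (curve a b).Point} (htor : ¬ IsOfFinAddOrder P)
    (hns : ¬ SingAt l P) :
    ∃ n, 1 ≤ n ∧ n ≤ 2 * l + 1 ∧ 1 < ‖((ptX (n • P) : ℚ) : ℚ_[l])‖ := by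
  have hP0 : P ≠ 0 := by
    have := nsmul_ne_of_not_tor htor 1 one_pos
    rwa [one_smul] at this
  obtain ⟨A, B, D, hrep, hD, hcop⟩ := exists_rep hP0
  obtain ⟨m, hm1, hm2, hm3⟩ := exists_apparition ((hrep.multSeq htor).toInt hrep.1) l
  obtain ⟨β, hrep2, hloc⟩ := hrep.mult htor m hm1
  have hDm : (l : ℤ) ∣ Dn a A B D m := Dvd.dvd.mul_left hm3 _
  have hpZ : Prime (l : ℤ) := Nat.prime_iff_prime_int.mp hl.out
  have hnsp : ¬ ((l : ℤ) ∣ 2 * B ∧ (l : ℤ) ∣ 3 * A ^ 2 + a * D ^ 4) := by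
    rintro ⟨h1, h2⟩
    apply hns
    apply rep_of_sing hrep _ h1 h2
    rintro ⟨h3, h4⟩
    exact hpZ.not_isUnit (hcop.isUnit_of_dvd' h3 h4)
  have hnsm := hloc l hpZ hnsp
  have hA : ¬ (l : ℤ) ∣ An a A B D m := by
    intro hd
    apply hnsm
    have h1 : (l : ℤ) ∣ β ^ 2 := by
      rw [hrep2.eqn]
      exact dvd_add (dvd_add (dvd_pow hd (by norm_num))
        (Dvd.dvd.mul_left (dvd_pow hDm (by norm_num)) _))
        (Dvd.dvd.mul_left (dvd_pow hDm (by norm_num)) _)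
    exact ⟨Dvd.dvd.mul_left (hpZ.dvd_of_dvd_pow h1) _,
      dvd_add (Dvd.dvd.mul_left (dvd_pow hd (by norm_num)) _)
        (Dvd.dvd.mul_left (dvd_pow hDm (by norm_num)) _)⟩
  refine ⟨m, hm1, hm2, ?_⟩
  rw [hrep2.ptX_eq]
  push_cast
  have h1 : ‖((An a A B D m : ℤ) : ℚ_[l])‖ = 1 := norm_int_eq_one hA
  have h2 : ‖((Dn a A B D m : ℤ) : ℚ_[l])‖ < 1 := norm_int_lt_one'.mpr hDm
  have h3 : 0 < ‖((Dn a A B D m : ℤ) : ℚ_[l])‖ := norm_pos_iff.mpr (by exact_mod_cast hrep2.1)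
  rw [norm_div, norm_pow, h1]
  rw [one_lt_div (by positivity)]
  exact pow_lt_one₀ h3.le h2 two_ne_zero

end loc

/-- The discriminants of the twists have bounded multiplicities. -/
lemma exists_K {a b : ℤ} (hΔ : 4 * a ^ 3 + 27 * b ^ 2 ≠ 0) :
    ∃ K : ℕ, ∀ l : ℕ, l.Prime → ∀ D : ℤ, Squarefree D →
      ¬ (l : ℤ) ^ K ∣ 4 * (4 * (a * D ^ 2) ^ 3 + 27 * (b * D ^ 3) ^ 2) := by
  set N : ℤ := 4 * (4 * a ^ 3 + 27 * b ^ 2) with hN
  have hN0 : N ≠ 0 := mul_ne_zero (by norm_num) hΔ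
  refine ⟨N.natAbs + 6, fun l hl D hD hdvd => ?_⟩
  have hlZ : Prime (l : ℤ) := Nat.prime_iff_prime_int.mp hl
  have e : 4 * (4 * (a * D ^ 2) ^ 3 + 27 * (b * D ^ 3) ^ 2) = N * D ^ 6 := by rw [hN]; ring
  rw [e] at hdvd
  have key : (l : ℤ) ^ N.natAbs ∣ N := by
    by_cases hlD : (l : ℤ) ∣ D
    · obtain ⟨E, rfl⟩ := hlD
      have hE : ¬ (l : ℤ) ∣ E := by
        rintro ⟨F, rfl⟩
        exact hlZ.not_isUnit (hD (l : ℤ) ⟨F, by ring⟩)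
      have h1 : (l : ℤ) ^ N.natAbs * (l : ℤ) ^ 6 ∣ (N * E ^ 6) * (l : ℤ) ^ 6 := by
        rw [← pow_add]
        have : N * E ^ 6 * (l : ℤ) ^ 6 = N * ((l : ℤ) * E) ^ 6 := by ring
        rw [this]; exact hdvd
      have h2 := (mul_dvd_mul_iff_right (pow_ne_zero 6 hlZ.ne_zero)).mp h1
      exact (hlZ.coprime_iff_not_dvd.mpr hE).pow.dvd_of_dvd_mul_right h2
    · have h2 : (l : ℤ) ^ N.natAbs ∣ N * D ^ 6 := (pow_dvd_pow _ (by omega)).trans hdvd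
      exact (hlZ.coprime_iff_not_dvd.mpr hlD).pow.dvd_of_dvd_mul_right h2
  have h3 := Nat.le_of_dvd (Int.natAbs_pos.mpr hN0) (Int.natAbs_dvd_natAbs.mpr key)
  rw [Int.natAbs_pow, Int.natAbs_natCast] at h3
  exact absurd h3 (not_le.mpr (Nat.lt_pow_self hl.one_lt))

/-- One index for all points of all twists. -/
theorem exists_index {p : ℕ} [hp : Fact p.Prime] (hp5 : 5 ≤ p) {a b : ℤ}
    (hgood : ¬ (p : ℤ) ∣ 4 * a ^ 3 + 27 * b ^ 2) {K : ℕ}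
    (hK : ∀ l : ℕ, l.Prime → ∀ D : ℤ, Squarefree D →
      ¬ (l : ℤ) ^ K ∣ 4 * (4 * (a * D ^ 2) ^ 3 + 27 * (b * D ^ 3) ^ 2)) :
    ∃ k : ℕ, 1 ≤ k ∧ Even k ∧ ∀ D : ℤ, Squarefree D → ¬ (p : ℤ) ∣ D →
      ∀ P : (curve (a * D ^ 2) (b * D ^ 3)).Point, ¬ IsOfFinAddOrder P →
      (∀ (l : ℕ) (_ : Fact l.Prime), ∃ n, 1 ≤ n ∧ n ∣ k ∧ ¬ SingAt l (n • P)) ∧
      ∃ n, 1 ≤ n ∧ n ∣ k ∧ 1 < ‖((ptX (n • P) : ℚ) : ℚ_[p])‖ := by
  have hpZ : Prime (p : ℤ) := Nat.prime_iff_prime_int.mp hp.out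
  have hΔ : 4 * a ^ 3 + 27 * b ^ 2 ≠ 0 := fun h => hgood (by rw [h]; exact dvd_zero _)
  set N : ℕ := (6 * (4 * a ^ 3 + 27 * b ^ 2)).natAbs with hN
  have hN0 : N ≠ 0 := Int.natAbs_ne_zero.mpr (mul_ne_zero (by norm_num) hΔ)
  set M : ℕ := N ^ (2 * K) + 1 + (2 * p + 1) with hM
  refine ⟨2 * M.factorial, Nat.mul_pos two_pos M.factorial_pos, even_two_mul _, ?_⟩
  intro D hD hpD P htor
  have hP0 : P ≠ 0 := by
    have := nsmul_ne_of_not_tor htor 1 one_pos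
    rwa [one_smul] at this
  have hdisc : ∀ (l : ℕ) (_ : Fact l.Prime), SingAt l P →
      (l : ℤ) ∣ 6 * (4 * a ^ 3 + 27 * b ^ 2) ∨ (l : ℤ) ∣ D := by
    intro l hl hs
    have hlZ : Prime (l : ℤ) := Nat.prime_iff_prime_int.mp hl.out
    have h1 := disc_of_sing hP0 hs
    have e : 4 * (4 * (a * D ^ 2) ^ 3 + 27 * (b * D ^ 3) ^ 2) =
      4 * (4 * a ^ 3 + 27 * b ^ 2) * D ^ 6 := by ring
    rw [e] at h1
    rcases hlZ.dvd_or_dvd h1 with h2 | h2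
    · left
      rcases hlZ.dvd_or_dvd h2 with h3 | h3
      · have h4 : (l : ℤ) ∣ 2 := hlZ.dvd_of_dvd_pow (n := 2) (by norm_num; exact h3)
        exact Dvd.dvd.mul_right (h4.trans (by norm_num)) _
      · exact Dvd.dvd.mul_left h3 _
    · exact Or.inr (hlZ.dvd_of_dvd_pow h2)
  refine ⟨?_, ?_⟩
  · intro l hl
    have hlZ : Prime (l : ℤ) := Nat.prime_iff_prime_int.mp hl.out
    by_cases hs : SingAt l P
    swap
    · exact ⟨1, le_rfl, one_dvd _, by rwa [one_smul]⟩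
    by_cases h6 : (l : ℤ) ∣ 6 * (4 * a ^ 3 + 27 * b ^ 2)
    · obtain ⟨n, h1, h2, h3⟩ := exists_nonsing (l := l) htor (hK l hl.out D hD)
      have hlN : l ≤ N := Nat.le_of_dvd (Nat.pos_of_ne_zero hN0) (Int.natCast_dvd.mp h6)
      have hle : n ≤ M := by
        have : l ^ (2 * K) ≤ N ^ (2 * K) := Nat.pow_le_pow_left hlN _
        omega
      exact ⟨n, h1, Dvd.dvd.mul_left (Nat.dvd_factorial h1 hle) _, h3⟩
    · have hlD := (hdisc l hl hs).resolve_left h6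
      have hD2 : ¬ (l : ℤ) ^ 2 ∣ D := by
        intro h
        exact hlZ.not_isUnit (hD (l : ℤ) (by rwa [← pow_two]))
      exact ⟨2, one_le_two, Dvd.intro _ rfl, not_sing_two h6 hlD hD2 htor⟩
  · have hnsp : ¬ SingAt p P := by
      intro hs
      rcases hdisc p hp hs with h | h
      · rcases hpZ.dvd_or_dvd h with h1 | h1
        · have h2 := Int.le_of_dvd (by norm_num) h1
          have h3 : p = 5 ∨ p = 6 := by omega
          rcases h3 with h3 | h3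
          · rw [h3] at h1; norm_num at h1
          · have := hp.out
            rw [h3] at this
            norm_num at this
        · exact hgood h1
      · exact hpD h
    obtain ⟨n, h1, h2, h3⟩ := exists_ker (l := p) htor hnsp
    exact ⟨n, h1, Dvd.dvd.mul_left (Nat.dvd_factorial h1 (by omega)) _, h3⟩

end Pool.Agent.Lib.MP_3550b5_nt
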