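import Pool.Agent.Lib.MP_3550b5_nt.TP.Defs
import Pool.Agent.Lib.MP_3550b5_nt.TP.Comp

/-! L4: the arcs. -/

namespace Pool.Agent.Lib.MP_3550b5_nt

open PowerSeries

/-- Two power series over `ℤ_[p]` are algebraically independent over `ℚ_[p]`. -/
def AlgIndep {p : ℕ} [Fact p.Prime] (A B : ℤ_[p]⟦X⟧) : Prop :=
  ∀ Q : MvPolynomial (Fin 2) ℤ_[p], Q ≠ 0 → MvPolynomial.aeval ![A, B] Q ≠ 0

namespace Arc

/-- the monomials `W ^ (K α) Y ^ (α + β)` are independent -/
theorem twoVar_ne_zero {R : Type*} [CommRing R] {K : ℕ} (hK : 1 ≤ K)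
    {Q : MvPolynomial (Fin 2) R} (hQ : Q ≠ 0) :
    MvPolynomial.aeval (![Polynomial.C (Polynomial.X ^ K) * Polynomial.X, Polynomial.X] :
      Fin 2 → Polynomial (Polynomial R)) Q ≠ 0 := by
  obtain ⟨e, he⟩ := MvPolynomial.ne_zero_iff.1 hQ
  intro h0
  apply he
  have h1 := congrArg (fun q : Polynomial (Polynomial R) => (q.coeff (e 0 + e 1)).coeff (K * e 0)) h0
  simp only [Polynomial.coeff_zero] at h1
  rw [← h1, MvPolynomial.aeval_def, MvPolynomial.eval₂_eq', Polynomial.finsetSum_coeff,
    Polynomial.finsetSum_coeff]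
  have h2 : ∀ s : Fin 2 →₀ ℕ, ((algebraMap R (Polynomial (Polynomial R)) (MvPolynomial.coeff s Q) *
      ∏ i, (![Polynomial.C (Polynomial.X ^ K) * Polynomial.X, Polynomial.X] :
        Fin 2 → Polynomial (Polynomial R)) i ^ s i).coeff (e 0 + e 1)).coeff (K * e 0) =
      if s = e then MvPolynomial.coeff s Q else 0 := by
    intro s
    have h3 : (algebraMap R (Polynomial (Polynomial R)) (MvPolynomial.coeff s Q) *
      ∏ i, (![Polynomial.C (Polynomial.X ^ K) * Polynomial.X, Polynomial.X] :
        Fin 2 → Polynomial (Polynomial R)) i ^ s i) =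
        Polynomial.C (Polynomial.C (MvPolynomial.coeff s Q) * Polynomial.X ^ (K * s 0)) *
          Polynomial.X ^ (s 0 + s 1) := by
      rw [Fin.prod_univ_two]
      simp only [Matrix.cons_val_zero, Matrix.cons_val_one]
      rw [show algebraMap R (Polynomial (Polynomial R)) (MvPolynomial.coeff s Q) =
        Polynomial.C (Polynomial.C (MvPolynomial.coeff s Q)) from rfl]
      rw [mul_pow, Polynomial.C_mul, ← Polynomial.C_pow, ← pow_mul]
      ring
    rw [h3, Polynomial.coeff_C_mul, Polynomial.coeff_X_pow]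
    by_cases hs : s = e
    · subst hs
      rw [if_pos rfl, if_pos rfl, mul_one, Polynomial.coeff_C_mul, Polynomial.coeff_X_pow,
        if_pos rfl, mul_one]
    · rw [if_neg hs]
      by_cases h4 : e 0 + e 1 = s 0 + s 1
      · rw [if_pos h4, mul_one, Polynomial.coeff_C_mul, Polynomial.coeff_X_pow, if_neg, mul_zero]
        intro h5
        have h6 : e 0 = s 0 := Nat.eq_of_mul_eq_mul_left hK h5
        apply hs
        ext i
        fin_cases i
        · exact h6.symm
        · show s 1 = e 1
          omega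
      · rw [if_neg h4, mul_zero, Polynomial.coeff_zero]
  simp_rw [h2]
  rw [Finset.sum_ite_eq' ]
  split_ifs with h3
  · rfl
  · exact (MvPolynomial.notMem_support_iff.1 h3)

/-- the algebraic part -/
theorem exists_relation {k S : Type} [CommRing k] [IsDomain k] [CommRing S] [IsDomain S]
    [Algebra k S] {t G W R : S} {φ ψ : Polynomial k}
    (hinj : Function.Injective (Polynomial.aeval t : Polynomial k → S))
    (hne : ∀ c d : k, (c ≠ 0 ∨ d ≠ 0) → Polynomial.C c * φ + Polynomial.C d * ψ ≠ 0)
    (hW : Polynomial.aeval t φ * W = 1) (hR : R = Polynomial.aeval t ψ * W) {K e : ℕ}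
    (hK : 1 ≤ K) (he : 1 ≤ e) {Q : MvPolynomial (Fin 2) k} (hQ : Q ≠ 0)
    (h : MvPolynomial.aeval ![t ^ K * (G * W) ^ e, (G * W) ^ e] Q = 0) :
    ∃ P : Polynomial (Polynomial k), P ≠ 0 ∧
      P.eval₂ (Polynomial.aeval R : Polynomial k →ₐ[k] S).toRingHom G = 0 := by
  classical
  have halg : Function.Injective (algebraMap k S) := by
    intro a b hab
    apply Polynomial.C_injective
    apply hinj
    rw [Polynomial.aeval_C, Polynomial.aeval_C, hab]
  set A0 := Algebra.adjoin k ({R} : Set S) with hA0
  have hRmem : R ∈ A0 := Algebra.subset_adjoin rfl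
  -- `t` is algebraic
  have htalg : IsAlgebraic A0 t := by
    refine ⟨ψ.map (algebraMap k A0) - Polynomial.C ⟨R, hRmem⟩ * φ.map (algebraMap k A0), ?_, ?_⟩
    · intro h0
      have h1 : ∀ j, algebraMap k S (ψ.coeff j) = R * algebraMap k S (φ.coeff j) := by
        intro j
        have h2 := congrArg (fun q : Polynomial A0 => ((q.coeff j : A0) : S)) h0
        simp only [Polynomial.coeff_sub, Polynomial.coeff_map, Polynomial.coeff_C_mul,
          Polynomial.coeff_zero] at h2
        have h3 : algebraMap k S (ψ.coeff j) - R * algebraMap k S (φ.coeff j) = 0 := h2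
        exact sub_eq_zero.1 h3
      have hφ0 : φ ≠ 0 := by
        intro h2
        apply hne 1 0 (Or.inl one_ne_zero)
        rw [h2]; simp
      obtain ⟨i, hi⟩ : ∃ i, φ.coeff i ≠ 0 := by
        by_contra h2
        push Not at h2
        exact hφ0 (Polynomial.ext fun n => by rw [h2 n, Polynomial.coeff_zero])
      apply hne (ψ.coeff i) (-φ.coeff i) (Or.inr (neg_ne_zero.2 hi))
      ext j
      rw [Polynomial.coeff_add, Polynomial.coeff_C_mul, Polynomial.coeff_C_mul,
        Polynomial.coeff_zero]
      apply halg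
      rw [map_add, map_mul, map_mul, map_neg, map_zero, h1 i, h1 j]
      ring
    · rw [map_sub, map_mul, Polynomial.aeval_C, Polynomial.aeval_map_algebraMap,
        Polynomial.aeval_map_algebraMap]
      show Polynomial.aeval t ψ - R * Polynomial.aeval t φ = 0
      rw [hR]
      linear_combination (- Polynomial.aeval t ψ) * hW
  -- constants and polynomials in `t` are algebraic
  have hpol : ∀ q : Polynomial k, IsAlgebraic A0 (Polynomial.aeval t q) := by
    intro q
    have h1 : Polynomial.aeval t q ∈ (Subalgebra.algebraicClosure A0 S).restrictScalars k := by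
      refine Subalgebra.mem_restrictScalars k |>.2 ?_
      have h2 : Polynomial.aeval t q = Polynomial.aeval t (q.map (algebraMap k A0)) := by
        rw [Polynomial.aeval_map_algebraMap]
      rw [h2]
      exact Polynomial.aeval_mem_adjoin_singleton A0 t |> fun h3 =>
        (Algebra.adjoin_le (S := Subalgebra.algebraicClosure A0 S)
          (Set.singleton_subset_iff.2 htalg)) h3
    exact h1
  -- `(G W)^e` is algebraic
  have hB : IsAlgebraic A0 ((G * W) ^ e) := by
    set Ac := Subalgebra.algebraicClosure A0 S with hAc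
    let τ : Polynomial k →+* Ac :=
      Polynomial.eval₂RingHom ((algebraMap A0 Ac).comp (algebraMap k A0)) ⟨t, htalg⟩
    have hτ : ∀ q, ((τ q : Ac) : S) = Polynomial.aeval t q := by
      intro q
      have h1 : (Ac.val.toRingHom).comp τ = (Polynomial.aeval t : Polynomial k →ₐ[k] S).toRingHom := by
        apply Polynomial.ringHom_ext
        · intro a
          simp only [τ, RingHom.coe_comp, Function.comp_apply, Polynomial.coe_eval₂RingHom,
            Polynomial.eval₂_C, AlgHom.toRingHom_eq_coe, RingHom.coe_coe, Polynomial.aeval_C]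
          rfl
        · simp only [τ, RingHom.coe_comp, Function.comp_apply, Polynomial.coe_eval₂RingHom,
            Polynomial.eval₂_X, AlgHom.toRingHom_eq_coe, RingHom.coe_coe, Polynomial.aeval_X]
          rfl
      exact congrArg (fun f => f q) h1
    have hτi : Function.Injective τ := by
      intro q q' hq
      apply hinj
      rw [← hτ, ← hτ, hq]
    have hBc : IsAlgebraic Ac ((G * W) ^ e) := by
      refine ⟨(MvPolynomial.aeval (![Polynomial.C (Polynomial.X ^ K) * Polynomial.X, Polynomial.X] :
        Fin 2 → Polynomial (Polynomial k)) Q).map τ, ?_, ?_⟩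
      · intro h0
        apply twoVar_ne_zero hK hQ
        apply Polynomial.map_injective τ hτi
        rw [h0, Polynomial.map_zero]
      · rw [Polynomial.aeval_def, Polynomial.eval₂_map]
        have h1 : ((algebraMap Ac S).comp τ) = (Polynomial.aeval t : Polynomial k →ₐ[k] S).toRingHom :=
          RingHom.ext fun q => hτ q
        rw [h1]
        have h2 : (Polynomial.eval₂RingHom (Polynomial.aeval t : Polynomial k →ₐ[k] S).toRingHom
            ((G * W) ^ e)).comp (MvPolynomial.aeval (![Polynomial.C (Polynomial.X ^ K) *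
              Polynomial.X, Polynomial.X] : Fin 2 → Polynomial (Polynomial k))).toRingHom =
            (MvPolynomial.aeval ![t ^ K * (G * W) ^ e, (G * W) ^ e] :
              MvPolynomial (Fin 2) k →ₐ[k] S).toRingHom := by
          apply MvPolynomial.ringHom_ext
          · intro a
            simp only [AlgHom.toRingHom_eq_coe, RingHom.coe_comp, RingHom.coe_coe,
              Function.comp_apply, Polynomial.coe_eval₂RingHom, MvPolynomial.aeval_C]
            rw [show algebraMap k (Polynomial (Polynomial k)) a =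
              Polynomial.C (Polynomial.C a) from rfl, Polynomial.eval₂_C]
            simp
          · intro i
            fin_cases i
            · simp only [AlgHom.toRingHom_eq_coe, RingHom.coe_comp, RingHom.coe_coe,
                Function.comp_apply, Polynomial.coe_eval₂RingHom, MvPolynomial.aeval_X]
              show Polynomial.eval₂ _ _ (Polynomial.C (Polynomial.X ^ K) * Polynomial.X) =
                t ^ K * (G * W) ^ e
              rw [Polynomial.eval₂_mul, Polynomial.eval₂_C, Polynomial.eval₂_X]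
              simp
            · simp
        have h3 := congrArg (fun f => f Q) h2
        simp only [AlgHom.toRingHom_eq_coe, RingHom.coe_comp, RingHom.coe_coe,
          Function.comp_apply, Polynomial.coe_eval₂RingHom, h] at h3
        exact h3
    exact hBc.restrictScalars A0
  -- `G` is algebraic
  have hGW : IsAlgebraic A0 (G * W) := hB.of_pow he
  have hW0 : W ≠ 0 := by
    rintro rfl
    rw [mul_zero] at hW
    exact zero_ne_one hW
  have hΦ0 : Polynomial.aeval t φ ≠ 0 := by
    intro h0
    rw [h0, zero_mul] at hW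
    exact zero_ne_one hW
  have hWalg : IsAlgebraic A0 W := by
    refine IsAlgebraic.of_mul (mem_nonZeroDivisors_of_ne_zero hΦ0) (hpol φ) ?_
    rw [hW]
    exact isAlgebraic_one
  have hG : IsAlgebraic A0 G := by
    refine IsAlgebraic.of_mul (mem_nonZeroDivisors_of_ne_zero hW0) hWalg ?_
    rwa [mul_comm]
  obtain ⟨P, hP0, hP⟩ := hG
  -- lift the coefficients
  have hran : ∀ x : A0, ∃ q : Polynomial k, Polynomial.aeval R q = (x : S) := by
    intro x
    have h1 : (x : S) ∈ (Polynomial.aeval R : Polynomial k →ₐ[k] S).range := by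
      rw [← Algebra.adjoin_singleton_eq_range_aeval]
      exact x.2
    exact h1
  let π : Polynomial k →+* A0 := Polynomial.eval₂RingHom (algebraMap k A0) ⟨R, hRmem⟩
  have hπ : ∀ q, ((π q : A0) : S) = Polynomial.aeval R q := by
    intro q
    have h1 : (A0.val.toRingHom).comp π = (Polynomial.aeval R : Polynomial k →ₐ[k] S).toRingHom := by
      apply Polynomial.ringHom_ext
      · intro a
        simp only [π, RingHom.coe_comp, Function.comp_apply, Polynomial.coe_eval₂RingHom,
          Polynomial.eval₂_C, AlgHom.toRingHom_eq_coe, RingHom.coe_coe, Polynomial.aeval_C]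
        rfl
      · simp only [π, RingHom.coe_comp, Function.comp_apply, Polynomial.coe_eval₂RingHom,
          Polynomial.eval₂_X, AlgHom.toRingHom_eq_coe, RingHom.coe_coe, Polynomial.aeval_X]
        rfl
    exact congrArg (fun f => f q) h1
  have hsurj : Function.Surjective π := by
    intro x
    obtain ⟨q, hq⟩ := hran x
    exact ⟨q, Subtype.ext (by rw [hπ, hq])⟩
  obtain ⟨P', hP'⟩ := Polynomial.map_surjective π hsurj P
  refine ⟨P', ?_, ?_⟩
  · rintro rfl
    rw [Polynomial.map_zero] at hP'
    exact hP0 hP'.symm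
  · rw [← hP', Polynomial.aeval_def, Polynomial.eval₂_map] at hP
    have h1 : ((algebraMap A0 S).comp π) = (Polynomial.aeval R : Polynomial k →ₐ[k] S).toRingHom :=
      RingHom.ext fun q => hπ q
    rwa [h1] at hP

section

variable {p : ℕ} [hp : Fact p.Prime]

/-- evaluation of a polynomial at `s + X` is injective -/
theorem aeval_shift_injective (s : ℤ_[p]) :
    Function.Injective (Polynomial.aeval (C s + X : ℤ_[p]⟦X⟧) : Polynomial ℤ_[p] → ℤ_[p]⟦X⟧) := by
  have h1 : ∀ q : Polynomial ℤ_[p], Polynomial.aeval (C s + X : ℤ_[p]⟦X⟧) q =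
      ((Polynomial.taylor s q : Polynomial ℤ_[p]) : ℤ_[p]⟦X⟧) := by
    intro q
    induction q using Polynomial.induction_on' with
    | add f g hf hg => rw [map_add, map_add, Polynomial.coe_add, hf, hg]
    | monomial n a =>
      rw [Polynomial.taylor_monomial, Polynomial.aeval_monomial]
      simp only [Polynomial.coe_mul, Polynomial.coe_C, Polynomial.coe_pow, Polynomial.coe_add,
        Polynomial.coe_X]
      rw [add_comm (C s) X]
      rfl
  intro q q' h
  rw [h1, h1] at h
  exact Polynomial.taylor_injective s (Polynomial.coe_injective _ h)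

/-- `R` takes infinitely many values -/
theorem infinite_values {R : ℤ_[p]⟦X⟧} (hR : ∀ w : ℤ_[p], R ≠ C w) :
    (Set.range fun z : {z : ℤ_[p] // ‖z‖ < 1} => ev R z).Infinite := by
  intro hfin
  have hinf : (Set.univ : Set {z : ℤ_[p] // ‖z‖ < 1}).Infinite := by
    have h1 : Function.Injective fun n : ℕ => (⟨(p : ℤ_[p]) ^ (n + 1), by
        rw [norm_pow, PadicInt.norm_p]
        exact pow_lt_one₀ (by positivity) (inv_lt_one_of_one_lt₀ (by exact_mod_cast hp.out.one_lt))
          (Nat.succ_ne_zero n)⟩ : {z : ℤ_[p] // ‖z‖ < 1}) := by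
      intro a b hab
      have h2 := congrArg (fun z : {z : ℤ_[p] // ‖z‖ < 1} => ‖(z : ℤ_[p])‖) hab
      simp only [norm_pow, PadicInt.norm_p] at h2
      have h3 : (p : ℝ) ^ (a + 1) = (p : ℝ) ^ (b + 1) := by
        rw [inv_pow, inv_pow] at h2
        exact inv_injective h2
      have h4 : p ^ (a + 1) = p ^ (b + 1) := by exact_mod_cast h3
      have h5 := Nat.pow_right_injective hp.out.two_le h4
      omega
    exact Set.infinite_univ_iff.2 (Infinite.of_injective _ h1)
  obtain ⟨w, -, hw⟩ : ∃ w ∈ Set.range fun z : {z : ℤ_[p] // ‖z‖ < 1} => ev R z,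
      {z | z ∈ (Set.univ : Set {z : ℤ_[p] // ‖z‖ < 1}) ∧ ev R z = w}.Infinite := by
    by_contra h1
    push Not at h1
    apply hinf
    have h2 := hfin.biUnion h1
    refine h2.subset fun z hz => ?_
    exact Set.mem_biUnion (Set.mem_range_self z) ⟨hz, rfl⟩
  apply hR w
  by_contra h1
  have h2 := finite_zeros (F := R - C w) (sub_ne_zero.2 h1)
  apply hw
  refine Set.Finite.of_finite_image (f := Subtype.val) (h2.subset ?_) Subtype.val_injective.injOn
  rintro _ ⟨z, ⟨-, hz⟩, rfl⟩
  refine ⟨z.2, ?_⟩
  rw [ev_sub _ _ z.2, ev_C, hz, sub_self]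

end

end Arc

section

variable {p : ℕ} [hp : Fact p.Prime]

open Arc

theorem exists_arc {U : ℤ_[p]⟦X⟧}
    (hU0 : constantCoeff U = 1)
    (hU : TransU (PowerSeries.map (algebraMap ℤ_[p] ℚ_[p]) U))
    (φ ψ : Polynomial ℤ_[p]) (hne : ∀ c d : ℤ_[p], (c ≠ 0 ∨ d ≠ 0) →
      Polynomial.C c * φ + Polynomial.C d * ψ ≠ 0)
    (s : ℤ_[p]) (hφ : IsUnit (φ.eval s)) (hψ : ‖ψ.eval s‖ < 1) (K : ℕ) (hK : 1 ≤ K) :
    ∃ B : ℤ_[p]⟦X⟧, (∀ z : ℤ_[p], ‖z‖ < 1 → ∀ u r : ℤ_[p],
        u * φ.eval (s + z) = 1 → r = ψ.eval (s + z) * u → ev B z = (ev U r * u) ^ (p - 1)) ∧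
      AlgIndep ((C s + X) ^ K * B) B := by
  set t : ℤ_[p]⟦X⟧ := C s + X with ht
  have hevt : ∀ z : ℤ_[p], ‖z‖ < 1 → ev t z = s + z := by
    intro z hz
    rw [ht, ev_add _ _ hz, ev_C, ev_X]
  have hcc : ∀ q : Polynomial ℤ_[p], constantCoeff (Polynomial.aeval t q) = q.eval s := by
    intro q
    rw [← ev_zero_right, ev_aeval 0 (by simp), hevt 0 (by simp), add_zero]
  have hunit : IsUnit (Polynomial.aeval t φ) := by
    rw [PowerSeries.isUnit_iff_constantCoeff, hcc]
    exact hφ
  obtain ⟨W, hW⟩ := hunit.exists_right_inv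
  set R : ℤ_[p]⟦X⟧ := Polynomial.aeval t ψ * W with hR
  have hRc : ‖constantCoeff R‖ < 1 := by
    rw [hR, map_mul, hcc, norm_mul]
    calc ‖ψ.eval s‖ * ‖constantCoeff W‖ ≤ ‖ψ.eval s‖ * 1 := by
          gcongr
          exact PadicInt.norm_le_one _
      _ < 1 := by rwa [mul_one]
  obtain ⟨G, hG⟩ := exists_comp U R hRc
  have hp1 : 1 ≤ p - 1 := by
    have := hp.out.two_le
    omega
  refine ⟨(G * W) ^ (p - 1), ?_, ?_⟩
  · intro z hz u r hu hr
    have h1 : ev W z = u := by
      have h2 : ev (Polynomial.aeval t φ * W) z = 1 := by rw [hW, ev_one]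
      rw [ev_mul _ _ hz, ev_aeval z hz, hevt z hz] at h2
      calc ev W z = (u * φ.eval (s + z)) * ev W z := by rw [hu, one_mul]
        _ = u * (φ.eval (s + z) * ev W z) := by ring
        _ = u := by rw [h2, mul_one]
    have h2 : ev R z = r := by
      rw [hR, ev_mul _ _ hz, ev_aeval z hz, hevt z hz, h1, hr]
    have h3 : ev ((G * W) ^ (p - 1)) z = ev (G * W) z ^ (p - 1) := map_pow (evHom z hz) _ _
    rw [h3, ev_mul _ _ hz, hG z hz, h1, h2]
  · intro Q hQ h0
    obtain ⟨P, hP0, hP⟩ := exists_relation (aeval_shift_injective s) hne hW hR hK hp1 hQ h0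
    -- the relation for `U`
    set V : ℤ_[p]⟦X⟧ := P.eval₂ Polynomial.coeToPowerSeries.ringHom U with hV
    have hzero : ∀ z : ℤ_[p], ‖z‖ < 1 → ev V (ev R z) = 0 := by
      intro z hz
      have hw := norm_ev_lt hRc hz
      have h1 : ev V (ev R z) = P.eval₂ (Polynomial.evalRingHom (ev R z)) (ev U (ev R z)) := by
        have h2 := Polynomial.hom_eval₂ P Polynomial.coeToPowerSeries.ringHom
          (evHom (ev R z) hw) U
        rw [evHom_comp_coe] at h2
        exact h2
      have h3 : ev (P.eval₂ (Polynomial.aeval R : Polynomial ℤ_[p] →ₐ[ℤ_[p]] ℤ_[p]⟦X⟧).toRingHom G) z =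
          P.eval₂ (Polynomial.evalRingHom (ev R z)) (ev G z) := by
        have h2 := Polynomial.hom_eval₂ P
          (Polynomial.aeval R : Polynomial ℤ_[p] →ₐ[ℤ_[p]] ℤ_[p]⟦X⟧).toRingHom (evHom z hz) G
        rw [evHom_comp_aeval] at h2
        exact h2
      rw [h1, ← hG z hz, ← h3, hP]
      have := map_zero (evHom z hz)
      exact this
    have hRconst : ∀ w : ℤ_[p], R ≠ C w := by
      intro w hw
      apply hne w (-1) (Or.inr (by simp))
      apply aeval_shift_injective s
      rw [map_add, map_mul, map_mul, Polynomial.aeval_C, Polynomial.aeval_C, map_zero, map_neg,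
        map_one]
      have h1 : Polynomial.aeval t ψ = C w * Polynomial.aeval t φ := by
        calc Polynomial.aeval t ψ = Polynomial.aeval t ψ * W * Polynomial.aeval t φ := by
              linear_combination (- Polynomial.aeval t ψ) * hW
          _ = C w * Polynomial.aeval t φ := by rw [← hR, hw]
      rw [show algebraMap ℤ_[p] ℤ_[p]⟦X⟧ w = C w from rfl]
      linear_combination - h1
    have hV0 : V = 0 := by
      by_contra h1
      apply infinite_values hRconst
      refine (finite_zeros h1).subset ?_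
      rintro _ ⟨z, rfl⟩
      exact ⟨norm_ev_lt hRc z.2, hzero z z.2⟩
    apply hU (P.map (Polynomial.mapRingHom (algebraMap ℤ_[p] ℚ_[p])))
    · intro h1
      apply hP0
      have h2 : Function.Injective (Polynomial.mapRingHom (algebraMap ℤ_[p] ℚ_[p])) :=
        Polynomial.map_injective _ (IsFractionRing.injective ℤ_[p] ℚ_[p])
      apply Polynomial.map_injective _ h2
      rw [h1, Polynomial.map_zero]
    · rw [Polynomial.eval₂_map]
      have h1 := Polynomial.hom_eval₂ P Polynomial.coeToPowerSeries.ringHom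
        (PowerSeries.map (algebraMap ℤ_[p] ℚ_[p])) U
      rw [← hV, hV0, map_zero] at h1
      rw [h1]
      congr 1
      apply Polynomial.ringHom_ext
      · intro a
        simp
      · simp

end

end Pool.Agent.Lib.MP_3550b5_nt
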