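import Pool.Agent.Lib.MP_3550b5_nt.TP.L4
import Pool.Agent.Lib.MP_3550b5_nt.TP.Det

/-! L5: zeros and counting on an arc (pure `p`-adic analysis). -/

namespace Pool.Agent.Lib.MP_3550b5_nt

open PowerSeries

section

variable {p : ℕ} [hp : Fact p.Prime]

/-- Monomials with both exponents at most `d`. -/
abbrev Mon (d : ℕ) := Fin (d + 1) × Fin (d + 1)

/-- The monomial `A^α B^β`. -/
noncomputable def monF (A B : ℤ_[p]⟦X⟧) (d : ℕ) (μ : Mon d) : ℤ_[p]⟦X⟧ :=
  A ^ (μ.1 : ℕ) * B ^ (μ.2 : ℕ)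

/-- The exponent vector. -/
noncomputable def monE (d : ℕ) (μ : Mon d) : Fin 2 →₀ ℕ :=
  Finsupp.single 0 (μ.1 : ℕ) + Finsupp.single 1 (μ.2 : ℕ)

lemma monE_zero (d : ℕ) (μ : Mon d) : monE d μ 0 = μ.1 := by simp [monE]

lemma monE_one (d : ℕ) (μ : Mon d) : monE d μ 1 = μ.2 := by simp [monE]

lemma monE_inj (d : ℕ) : Function.Injective (monE d) := by
  intro μ ν h
  have h0 := DFunLike.congr_fun h 0
  have h1 := DFunLike.congr_fun h 1
  rw [monE_zero, monE_zero] at h0
  rw [monE_one, monE_one] at h1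
  exact Prod.ext (Fin.ext h0) (Fin.ext h1)

/-- The polynomial with coefficients `c`. -/
noncomputable def polyOf (d : ℕ) (c : Mon d → ℤ_[p]) : MvPolynomial (Fin 2) ℤ_[p] :=
  ∑ μ, MvPolynomial.monomial (monE d μ) (c μ)

lemma coeff_polyOf (d : ℕ) (c : Mon d → ℤ_[p]) (μ : Mon d) :
    MvPolynomial.coeff (monE d μ) (polyOf d c) = c μ := by
  classical
  rw [polyOf, MvPolynomial.coeff_sum, Finset.sum_eq_single μ]
  · rw [MvPolynomial.coeff_monomial, if_pos rfl]
  · intro ν _ hν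
    rw [MvPolynomial.coeff_monomial, if_neg fun h => hν (monE_inj d h)]
  · intro h
    exact absurd (Finset.mem_univ μ) h

lemma polyOf_ne {d : ℕ} {c : Mon d → ℤ_[p]} (hc : c ≠ 0) : polyOf d c ≠ 0 := by
  intro h
  apply hc
  funext μ
  rw [← coeff_polyOf d c μ, h]
  rfl

lemma aeval_polyOf (A B : ℤ_[p]⟦X⟧) (d : ℕ) (c : Mon d → ℤ_[p]) :
    MvPolynomial.aeval ![A, B] (polyOf d c) = comb (monF A B d) c := by
  rw [polyOf, map_sum, comb]
  refine Finset.sum_congr rfl fun μ _ => ?_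
  rw [MvPolynomial.aeval_monomial, monF, monE]
  congr 1
  rw [Finsupp.prod_add_index' (by simp) (by intros; rw [pow_add]),
    Finsupp.prod_single_index (by simp), Finsupp.prod_single_index (by simp)]
  simp

lemma comb_mon_ne {A B : ℤ_[p]⟦X⟧} (hAB : AlgIndep A B) (d : ℕ) (c : Mon d → ℤ_[p]) (hc : c ≠ 0) :
    comb (monF A B d) c ≠ 0 := by
  rw [← aeval_polyOf]
  exact hAB _ (polyOf_ne hc)

lemma eq_polyOf {d : ℕ} {Q : MvPolynomial (Fin 2) ℤ_[p]} (hQ : Q.totalDegree ≤ d) :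
    Q = polyOf d fun μ => MvPolynomial.coeff (monE d μ) Q := by
  classical
  ext m
  by_cases hm : m 0 ≤ d ∧ m 1 ≤ d
  · have e : m = monE d (⟨m 0, by omega⟩, ⟨m 1, by omega⟩) := by
      ext i
      fin_cases i
      · simp [monE]
      · simp [monE]
    rw [e, coeff_polyOf]
  · have h1 : MvPolynomial.coeff m Q = 0 := by
      by_contra h
      have h2 := MvPolynomial.le_totalDegree (MvPolynomial.mem_support_iff.mpr h)
      have h3 : (m.sum fun _ e => e) = m 0 + m 1 := by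
        rw [Finsupp.sum_fintype _ _ (by simp), Fin.sum_univ_two]
      rw [h3] at h2
      exact hm ⟨by omega, by omega⟩
    rw [h1, polyOf, MvPolynomial.coeff_sum, Finset.sum_eq_zero]
    intro μ _
    rw [MvPolynomial.coeff_monomial, if_neg]
    rintro rfl
    apply hm
    rw [monE_zero, monE_one]
    exact ⟨by have := μ.1.2; omega, by have := μ.2.2; omega⟩

lemma eval_ev (A B : ℤ_[p]⟦X⟧) {z : ℤ_[p]} (hz : ‖z‖ < 1) (Q : MvPolynomial (Fin 2) ℤ_[p]) :
    MvPolynomial.eval ![ev A z, ev B z] Q = ev (MvPolynomial.aeval ![A, B] Q) z := by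
  have h : MvPolynomial.eval ![ev A z, ev B z] =
      (evHom z hz).comp (MvPolynomial.aeval ![A, B]).toRingHom := by
    apply MvPolynomial.ringHom_ext
    · intro r
      simp only [MvPolynomial.eval_C, AlgHom.toRingHom_eq_coe, RingHom.coe_comp,
        RingHom.coe_coe, Function.comp_apply, evHom_apply]
      rw [MvPolynomial.aeval_C]
      exact (ev_C r z).symm
    · intro i
      simp only [MvPolynomial.eval_X, AlgHom.toRingHom_eq_coe, RingHom.coe_comp,
        RingHom.coe_coe, Function.comp_apply, MvPolynomial.aeval_X, evHom_apply]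
      fin_cases i <;> rfl
  rw [h]
  rfl

/-- Uniform bound for the zeros of polynomials on an arc. -/
theorem arc_zeros {A B : ℤ_[p]⟦X⟧} (hAB : AlgIndep A B) (d : ℕ) :
    ∃ M : ℕ, ∀ Q : MvPolynomial (Fin 2) ℤ_[p], Q ≠ 0 → Q.totalDegree ≤ d →
      ∀ T : Finset ℤ_[p], (∀ z ∈ T, ‖z‖ < 1 ∧ MvPolynomial.eval ![ev A z, ev B z] Q = 0) →
        T.card ≤ M := by
  obtain ⟨M, hM⟩ := comb_zeros (monF A B d) (comb_mon_ne hAB d)
  refine ⟨M, fun Q hQ hd T hT => ?_⟩
  have e := eq_polyOf hd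
  refine hM (fun μ => MvPolynomial.coeff (monE d μ) Q) ?_ T fun z hz => ?_
  · intro h
    apply hQ
    rw [e]
    simp only [polyOf]
    apply Finset.sum_eq_zero
    intro μ _
    rw [show MvPolynomial.coeff (monE d μ) Q = 0 from congrFun h μ, map_zero]
  · obtain ⟨hz1, hz0⟩ := hT z hz
    refine ⟨hz1, ?_⟩
    rw [← aeval_polyOf, ← e, ← eval_ev A B hz1 Q]
    exact hz0

lemma exists_int_multiple {ι : Type*} [Fintype ι] (f : ι → ℚ_[p]) :
    ∃ (n : ℕ) (c : ι → ℤ_[p]), ∀ i, (c i : ℚ_[p]) = (p : ℚ_[p]) ^ n * f i := by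
  classical
  have h1 : ∀ i, ∃ n : ℕ, ∀ m, n ≤ m → ‖(p : ℚ_[p]) ^ m * f i‖ ≤ 1 := by
    intro i
    have hp1 : ‖(p : ℚ_[p])‖ < 1 := Padic.norm_p_lt_one
    have ht : Filter.Tendsto (fun m : ℕ => ‖(p : ℚ_[p]) ^ m * f i‖) Filter.atTop (nhds 0) := by
      have := (tendsto_pow_atTop_nhds_zero_of_lt_one (norm_nonneg _) hp1).mul_const ‖f i‖
      simpa [norm_mul, norm_pow] using this
    obtain ⟨n, hn⟩ := (ht.eventually (gt_mem_nhds one_pos)).exists_forall_of_atTop
    exact ⟨n, fun m hm => (hn m hm).le⟩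
  choose n hn using h1
  refine ⟨∑ i, n i, fun i => ⟨(p : ℚ_[p]) ^ (∑ i, n i) * f i,
    hn i _ (Finset.single_le_sum (fun _ _ => Nat.zero_le _) (Finset.mem_univ i))⟩, fun i => rfl⟩

/-- If all maximal minors vanish, there is a linear relation between the columns. -/
lemma exists_relation {ι κ : Type*} [Fintype ι] [DecidableEq ι] (M : κ → ι → ℤ_[p])
    (hdet : ∀ s : ι → κ, (Matrix.of fun i j => M (s j) i).det = 0) :
    ∃ c : ι → ℤ_[p], c ≠ 0 ∧ ∀ k, ∑ i, c i * M k i = 0 := by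
  classical
  set v : κ → ι → ℚ_[p] := fun k i => (M k i : ℚ_[p]) with hv
  rcases lt_or_eq_of_le (le_top : Submodule.span ℚ_[p] (Set.range v) ≤ ⊤) with h | h
  · obtain ⟨f, hf, hker⟩ := Submodule.exists_le_ker_of_lt_top _ h
    obtain ⟨n, c, hc⟩ := exists_int_multiple (p := p) fun i => f (Pi.single i 1)
    have hp0 : (p : ℚ_[p]) ≠ 0 := by exact_mod_cast hp.out.ne_zero
    refine ⟨c, ?_, fun k => ?_⟩
    · rintro rfl
      apply hf
      refine LinearMap.pi_ext' fun i => LinearMap.ext_ring ?_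
      have h1 := hc i
      simp only [Pi.zero_apply, PadicInt.coe_zero] at h1
      have h2 := (mul_eq_zero.mp h1.symm).resolve_left (pow_ne_zero _ hp0)
      simpa using h2
    · have h1 : f (v k) = 0 := hker (Submodule.subset_span ⟨k, rfl⟩)
      have h2 : f (v k) = ∑ i, v k i * f (Pi.single i 1) := by
        conv_lhs => rw [pi_eq_sum_univ' (v k)]
        rw [map_sum]
        refine Finset.sum_congr rfl fun i _ => ?_
        rw [map_smul, smul_eq_mul]
      have h3 : PadicInt.Coe.ringHom (p := p) (∑ i, c i * M k i) = 0 := by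
        rw [map_sum]
        calc ∑ i, PadicInt.Coe.ringHom (p := p) (c i * M k i) =
              (p : ℚ_[p]) ^ n * ∑ i, v k i * f (Pi.single i 1) := by
              rw [Finset.mul_sum]
              refine Finset.sum_congr rfl fun i _ => ?_
              rw [map_mul]
              change (c i : ℚ_[p]) * (M k i : ℚ_[p]) = _
              rw [hc i, hv]; ring
          _ = 0 := by rw [← h2, h1, mul_zero]
      have h4 : ((∑ i, c i * M k i : ℤ_[p]) : ℚ_[p]) = ((0 : ℤ_[p]) : ℚ_[p]) := h3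
      exact Subtype.ext h4
  · exfalso
    obtain ⟨κ', a, -, hspan, hli⟩ := exists_linearIndependent' ℚ_[p] v
    rw [h] at hspan
    let bas : Module.Basis κ' ℚ_[p] (ι → ℚ_[p]) := Module.Basis.mk hli hspan.ge
    have : Finite κ' := Module.Finite.finite_basis bas
    have : Fintype κ' := Fintype.ofFinite κ'
    have hcard : Fintype.card ι = Fintype.card κ' := by
      rw [← Module.finrank_eq_card_basis bas, Module.finrank_pi]
    let e : ι ≃ κ' := Fintype.equivOfCardEq hcard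
    have hli2 : LinearIndependent ℚ_[p] (fun i => v (a (e i))) :=
      hli.comp e e.injective
    have h1 : IsUnit (Matrix.of fun i j => v (a (e i)) j) :=
      Matrix.linearIndependent_rows_iff_isUnit.mp hli2
    have h2 := (Matrix.isUnit_iff_isUnit_det _).mp h1
    apply h2.ne_zero
    have h3 := hdet (fun i => a (e i))
    have h4 : ((Matrix.of fun i j => M (a (e j)) i).det : ℚ_[p]) =
        (Matrix.of fun i j => v (a (e i)) j).det := by
      rw [← Matrix.det_transpose]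
      have := RingHom.map_det (PadicInt.Coe.ringHom (p := p))
        (Matrix.of fun i j => M (a (e j)) i).transpose
      refine Eq.trans this ?_
      congr 1
    rw [← h4, h3, PadicInt.coe_zero]

/-- Points of a small disc. -/
lemma tp_class_bound {A B : ℤ_[p]⟦X⟧} {K d M : ℕ}
    (hM : ∀ c : Mon d → ℤ_[p], c ≠ 0 → ∀ T : Finset ℤ_[p],
      (∀ z ∈ T, ‖z‖ < 1 ∧ ev (comb (monF A B d) c) z = 0) → T.card ≤ M)
    {N j h : ℕ} (hN : 1 ≤ N) (hj : 1 ≤ j) {c : ℤ_[p]} (hc : c ≠ 0)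
    (hbig : (Fintype.card (Mon d)).factorial * (N ^ (2 * d * K)) ^ Fintype.card (Mon d) <
      p ^ (j * (h * (Fintype.card (Mon d) - h))))
    (T : Finset ℤ_[p])
    (hT : ∀ z ∈ T, ‖z‖ < 1 ∧ ∃ m n : ℤ, |m| ≤ N ∧ |n| ≤ N ∧
      (m : ℤ_[p]) ^ K = c * ev A z ∧ (n : ℤ_[p]) ^ K = c * ev B z)
    (hcong : ∀ z ∈ T, ∀ z' ∈ T, (p : ℤ_[p]) ^ j ∣ z - z') : T.card ≤ M := by
  classical
  rcases T.eq_empty_or_nonempty with h0 | ⟨z0, hz0⟩
  · simp [h0]
  have hT' : ∀ z : T, ∃ m n : ℤ, |m| ≤ N ∧ |n| ≤ N ∧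
      (m : ℤ_[p]) ^ K = c * ev A z ∧ (n : ℤ_[p]) ^ K = c * ev B z := fun z => (hT z z.2).2
  choose m n hm hn hmA hnB using hT'
  obtain ⟨γ, hγ, hrel⟩ := exists_relation (p := p) (ι := Mon d) (κ := T)
    (fun z μ => ev (monF A B d μ) z) (by
      intro s
      by_contra hD
      set D := (Matrix.of fun (i : Mon d) (j : Mon d) => ev (monF A B d i) (s j : ℤ_[p])).det
        with hDdef
      set Z : Matrix (Mon d) (Mon d) ℤ := Matrix.of fun i j =>
        m (s j) ^ (K * (i.1 : ℕ)) * n (s j) ^ (K * (i.2 : ℕ)) with hZ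
      have hdvd : ((p : ℤ_[p]) ^ j) ^ (h * (Fintype.card (Mon d) - h)) ∣ D :=
        det_ev_dvd (monF A B d) (fun i => (s i : ℤ_[p])) z0
          ((PadicInt.norm_lt_one_iff_dvd z0).mp (hT z0 hz0).1) hj
          (fun i => hcong _ (s i).2 _ hz0) h
      have hZD : ((Z.det : ℤ) : ℤ_[p]) = (∏ i : Mon d, c ^ ((i.1 : ℕ) + (i.2 : ℕ))) * D := by
        have h1 := RingHom.map_det (Int.castRingHom ℤ_[p]) Z
        have h2 : (Int.castRingHom ℤ_[p]).mapMatrix Z = Matrix.of fun (i : Mon d) (j : Mon d) =>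
            c ^ ((i.1 : ℕ) + (i.2 : ℕ)) *
              (Matrix.of fun (i : Mon d) (j : Mon d) => ev (monF A B d i) (s j : ℤ_[p])) i j := by
          ext i j
          have hz1 : ‖(s j : ℤ_[p])‖ < 1 := (hT _ (s j).2).1
          have e1 : ev (monF A B d i) (s j : ℤ_[p]) =
              ev A (s j) ^ (i.1 : ℕ) * ev B (s j) ^ (i.2 : ℕ) := by
            have := map_mul (evHom (s j : ℤ_[p]) hz1) (A ^ (i.1 : ℕ)) (B ^ (i.2 : ℕ))
            rw [map_pow, map_pow] at this
            exact this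
          simp only [RingHom.mapMatrix_apply, Matrix.map_apply, Matrix.of_apply, hZ, e1]
          change ((m (s j) ^ (K * (i.1 : ℕ)) * n (s j) ^ (K * (i.2 : ℕ)) : ℤ) : ℤ_[p]) = _
          push_cast
          rw [pow_mul, pow_mul, hmA, hnB, mul_pow, mul_pow, pow_add]
          ring
        rw [h2, Matrix.det_mul_column] at h1
        simpa using h1
      have hne : Z.det ≠ 0 := by
        intro h1
        rw [h1] at hZD
        push_cast at hZD
        rcases mul_eq_zero.mp hZD.symm with h2 | h2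
        · exact (Finset.prod_ne_zero_iff.mpr fun i _ => pow_ne_zero _ hc) h2
        · exact hD h2
      have hdvd2 : (p : ℤ_[p]) ^ (j * (h * (Fintype.card (Mon d) - h))) ∣ ((Z.det : ℤ) : ℤ_[p]) := by
        rw [hZD, pow_mul]
        exact Dvd.dvd.mul_left hdvd _
      rw [PadicInt.pow_p_dvd_int_iff] at hdvd2
      have hle := Int.le_of_dvd (abs_pos.mpr hne) ((dvd_abs _ _).mpr hdvd2)
      have hub : |Z.det| ≤ (Fintype.card (Mon d)).factorial •
          (((N : ℤ) ^ (2 * d * K)) ^ Fintype.card (Mon d)) := by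
        refine Matrix.det_le (abv := AbsoluteValue.abs) fun i j => ?_
        simp only [hZ, Matrix.of_apply, AbsoluteValue.abs_apply, abs_mul, abs_pow]
        have hN' : (1 : ℤ) ≤ N := by exact_mod_cast hN
        calc |m (s j)| ^ (K * (i.1 : ℕ)) * |n (s j)| ^ (K * (i.2 : ℕ)) ≤
              (N : ℤ) ^ (K * (i.1 : ℕ)) * (N : ℤ) ^ (K * (i.2 : ℕ)) := by
              gcongr
              · exact hm _
              · exact hn _
          _ = (N : ℤ) ^ (K * ((i.1 : ℕ) + (i.2 : ℕ))) := by rw [← pow_add, mul_add]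
          _ ≤ (N : ℤ) ^ (2 * d * K) := by
              apply pow_le_pow_right₀ hN'
              have h1 : (i.1 : ℕ) ≤ d := by have := i.1.2; omega
              have h2 : (i.2 : ℕ) ≤ d := by have := i.2.2; omega
              calc K * ((i.1 : ℕ) + (i.2 : ℕ)) ≤ K * (d + d) := by gcongr
                _ = 2 * d * K := by ring
      have h5 := hle.trans hub
      rw [nsmul_eq_mul] at h5
      have h6 : p ^ (j * (h * (Fintype.card (Mon d) - h))) ≤
          (Fintype.card (Mon d)).factorial * (N ^ (2 * d * K)) ^ Fintype.card (Mon d) := by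
        exact_mod_cast h5
      omega)
  refine hM γ hγ T fun z hz => ⟨(hT z hz).1, ?_⟩
  have h1 := hrel ⟨z, hz⟩
  have hz1 := (hT z hz).1
  have h2 : ev (comb (monF A B d) γ) z = ∑ i, γ i * ev (monF A B d i) z := by
    have := map_sum (evHom z hz1) (fun i => C (γ i) * monF A B d i) Finset.univ
    refine Eq.trans this (Finset.sum_congr rfl fun i _ => ?_)
    rw [map_mul, evHom_apply, evHom_apply, ev_C]
  rw [h2]
  exact h1

/-- Integral points on an arc. -/
theorem arc_count {A B : ℤ_[p]⟦X⟧} (hAB : AlgIndep A B) {K : ℕ}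
    (hK : 1 ≤ K) {ε : ℝ} (hε : 0 < ε) :
    ∃ C : ℝ, ∀ (c : ℤ_[p]) (N : ℕ), c ≠ 0 → 1 ≤ N →
      ∀ T : Finset ℤ_[p], (∀ z ∈ T, ‖z‖ < 1 ∧ ∃ m n : ℤ, |m| ≤ N ∧ |n| ≤ N ∧
        (m : ℤ_[p]) ^ K = c * ev A z ∧ (n : ℤ_[p]) ^ K = c * ev B z) →
        (T.card : ℝ) ≤ C * (N : ℝ) ^ ε := by
  classical
  obtain ⟨d0, hd0⟩ := exists_nat_gt (16 * K / ε)
  set d := d0 + 1 with hd
  have hdε : 16 * (K : ℝ) ≤ ε * (d + 1) := by
    have h1 : 16 * K / ε ≤ (d : ℝ) + 1 := by rw [hd]; push_cast; linarith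
    rw [div_le_iff₀ hε] at h1
    linarith
  set L := Fintype.card (Mon d) with hL
  have hLd : L = (d + 1) ^ 2 := by
    rw [hL, Fintype.card_prod, Fintype.card_fin]; ring
  set h := L / 2 with hh
  set H := h * (L - h) with hH
  obtain ⟨M, hM⟩ := comb_zeros (monF A B d) (comb_mon_ne hAB d)
  have hL4 : 4 ≤ L := by rw [hLd, hd]; nlinarith [Nat.zero_le d0]
  have hHL : L ^ 2 ≤ 8 * H := by
    have h1 : L ≤ 2 * h + 1 := by omega
    have h2 : 2 * h ≤ L := by omega
    obtain ⟨g, hg⟩ : ∃ g, L = h + g := ⟨L - h, by omega⟩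
    rw [hH, show L - h = g by omega, hg]
    have h3 : h ≤ g := by omega
    have h4 : g ≤ h + 1 := by omega
    have h5 : 2 ≤ h := by omega
    nlinarith
  have hH1 : 1 ≤ H := by nlinarith
  have hp1 : 1 < p := hp.out.one_lt
  refine ⟨p * L.factorial * M, fun c N hc hN T hT => ?_⟩
  set W := L.factorial * (N ^ (2 * d * K)) ^ L with hW
  have hex : ∃ j, W < p ^ (j * H) := by
    obtain ⟨j, hj⟩ := exists_nat_gt (Nat.succ W)
    refine ⟨W, ?_⟩
    calc W < 2 ^ W := Nat.lt_two_pow_self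
      _ ≤ p ^ W := Nat.pow_le_pow_left hp1 _
      _ ≤ p ^ (W * H) := Nat.pow_le_pow_right hp1.le (Nat.le_mul_of_pos_right _ hH1)
  set j := Nat.find hex with hjdef
  have hj1 : W < p ^ (j * H) := Nat.find_spec hex
  have hW1 : 1 ≤ W := Nat.mul_pos (Nat.factorial_pos _) (pow_pos (pow_pos hN _) _)
  have hj0 : 1 ≤ j := by
    rcases Nat.eq_zero_or_pos j with h0 | h0
    · rw [h0, zero_mul, pow_zero] at hj1; omega
    · exact h0
  have hjm : p ^ ((j - 1) * H) ≤ W := by
    have := Nat.find_min hex (m := j - 1) (by omega)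
    push Not at this
    exact this
  -- classes
  have hcard : T.card ≤ M * p ^ j := by
    have h1 := Finset.card_le_mul_card_image (f := fun z : ℤ_[p] => PadicInt.toZModPow j z) T M (by
      intro r _
      refine tp_class_bound hM (N := N) (j := j) (h := h) hN hj0 hc hj1 _ ?_ ?_
      · intro z hz
        exact hT z (Finset.mem_filter.mp hz).1
      · intro z hz z' hz'
        have e1 := (Finset.mem_filter.mp hz).2
        have e2 := (Finset.mem_filter.mp hz').2
        have e3 : PadicInt.toZModPow j (z - z') = 0 := by rw [map_sub, e1, e2, sub_self]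
        rw [← RingHom.mem_ker, PadicInt.ker_toZModPow, Ideal.mem_span_singleton] at e3
        exact e3)
    refine h1.trans (Nat.mul_le_mul_left _ ?_)
    have : NeZero (p ^ j) := ⟨(pow_pos hp.out.pos _).ne'⟩
    calc _ ≤ Fintype.card (ZMod (p ^ j)) := Finset.card_le_univ _
      _ = p ^ j := ZMod.card _
  -- the estimate for p ^ (j - 1)
  have hx : ((p : ℝ) ^ (j - 1)) ≤ L.factorial * (N : ℝ) ^ ε := by
    have hF1 : (1 : ℝ) ≤ L.factorial := by exact_mod_cast Nat.factorial_pos _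
    have hN1 : (1 : ℝ) ≤ N := by exact_mod_cast hN
    apply le_of_pow_le_pow_left₀ (n := H) (by omega) (by positivity)
    have h1 : ((p : ℝ) ^ (j - 1)) ^ H ≤ L.factorial * (N : ℝ) ^ (2 * d * K * L) := by
      have e1 : (p ^ (j - 1)) ^ H = p ^ ((j - 1) * H) := (pow_mul _ _ _).symm
      have e2 : N ^ (2 * d * K * L) = (N ^ (2 * d * K)) ^ L := pow_mul _ _ _
      have h2 : (p ^ (j - 1)) ^ H ≤ L.factorial * N ^ (2 * d * K * L) := by
        rw [e1, e2]; exact hjm
      exact_mod_cast h2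
    refine h1.trans ?_
    rw [mul_pow]
    have h2 : (L.factorial : ℝ) ≤ (L.factorial : ℝ) ^ H := le_self_pow₀ hF1 (by omega)
    have h3 : (N : ℝ) ^ (2 * d * K * L) ≤ ((N : ℝ) ^ ε) ^ H := by
      rw [← Real.rpow_natCast, ← Real.rpow_natCast, ← Real.rpow_mul (by positivity)]
      apply Real.rpow_le_rpow_of_exponent_le hN1
      push_cast
      have h4 : (L : ℝ) ^ 2 ≤ 8 * H := by exact_mod_cast hHL
      have h5 : (L : ℝ) = (d + 1) ^ 2 := by rw [hLd]; push_cast; ring
      have h6 : (0 : ℝ) ≤ L := by positivity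
      have h7 : 16 * (K : ℝ) * d ≤ ε * L := by
        rw [h5]
        have : 16 * (K : ℝ) * d ≤ 16 * K * (d + 1) := by nlinarith [Nat.cast_nonneg (α := ℝ) K]
        nlinarith [hdε]
      nlinarith
    gcongr
  have hM0 : (0 : ℝ) ≤ M := by positivity
  calc (T.card : ℝ) ≤ M * (p : ℝ) ^ j := by exact_mod_cast hcard
    _ = M * p * (p : ℝ) ^ (j - 1) := by
        rw [mul_assoc, ← pow_succ', Nat.sub_add_cancel hj0]
    _ ≤ M * p * (L.factorial * (N : ℝ) ^ ε) := by gcongr
    _ = _ := by ring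

end

end Pool.Agent.Lib.MP_3550b5_nt
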