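import Pool.Agent.Lib.MP_3550b5_nt.TP.Curve

/-! Near zeros: quantitative versions of the zero bounds. -/

namespace Pool.Agent.Lib.MP_3550b5_nt

open PowerSeries

variable {p : ℕ} [hp : Fact p.Prime]

lemma pow_dvd_of_mul {w : ℤ_[p]} {ρ l : ℕ} {y : ℤ_[p]} (hw : w ∣ (p : ℤ_[p]) ^ ρ)
    (h : (p : ℤ_[p]) ^ l ∣ w * y) (hl : ρ ≤ l) : (p : ℤ_[p]) ^ (l - ρ) ∣ y := by
  obtain ⟨w', hw'⟩ := hw
  have h1 : (p : ℤ_[p]) ^ l ∣ (p : ℤ_[p]) ^ ρ * y := by
    rw [hw', mul_comm w w', mul_assoc]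
    exact Dvd.dvd.mul_left h _
  rw [show l = ρ + (l - ρ) by omega, pow_add] at h1
  exact (mul_dvd_mul_iff_left (pow_ne_zero _ p_ne)).mp h1

/-- Separated near zeros. -/
theorem near_zeros_le (ρ : ℕ) (M : ℕ) : ∀ (F : ℤ_[p]⟦X⟧) (l : ℕ), ‖coeff M F‖ = 1 → ρ * M < l →
    ∀ T : Finset ℤ_[p], (∀ z ∈ T, ‖z‖ < 1 ∧ (p : ℤ_[p]) ^ l ∣ ev F z) →
    (∀ z ∈ T, ∀ z' ∈ T, z ≠ z' → z - z' ∣ (p : ℤ_[p]) ^ ρ) → T.card ≤ M := by
  induction M with
  | zero =>
    intro F l hF hl T hT _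
    rcases T.eq_empty_or_nonempty with h | ⟨z, hz⟩
    · simp [h]
    · exfalso
      obtain ⟨hz1, hz0⟩ := hT z hz
      have h := shift_tsum F hz1 0
      simp only [zero_add] at h
      have h0 : ev F z = coeff 0 F + z * ∑' j, coeff (1 + j) F * z ^ j := h
      have h3 := norm_eq_one_of_sub (b := -(z * ∑' j, coeff (1 + j) F * z ^ j)) hF (by
        rw [norm_neg]; exact norm_mul_lt_one hz1)
      rw [sub_neg_eq_add, ← h0] at h3
      have h4 : (p : ℤ_[p]) ∣ ev F z := (dvd_pow_self _ (by omega)).trans hz0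
      have h5 := (PadicInt.norm_lt_one_iff_dvd _).mpr h4
      linarith
  | succ M ih =>
    intro F l hF hl T hT hsep
    classical
    rcases T.eq_empty_or_nonempty with h | ⟨z, hz⟩
    · simp [h]
    · obtain ⟨hz1, hz0⟩ := hT z hz
      have e := eq_quo F hz1
      have hc : coeff (M + 1) F = coeff M (quo F z) - z * coeff (M + 1) (quo F z) := by
        conv_lhs => rw [e]
        rw [sub_mul, map_add, map_sub, coeff_C_mul, coeff_succ_X_mul, coeff_C,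
          if_neg (Nat.succ_ne_zero M), add_zero]
      have hG : ‖coeff M (quo F z)‖ = 1 := by
        have : coeff M (quo F z) = coeff (M + 1) F - -(z * coeff (M + 1) (quo F z)) := by
          rw [hc]; ring
        rw [this]
        exact norm_eq_one_of_sub hF (by rw [norm_neg]; exact norm_mul_lt_one hz1)
      have hl' : ρ * M < l - ρ := by
        have : ρ * (M + 1) = ρ * M + ρ := by ring
        omega
      have hl2 : ρ ≤ l := by
        have : ρ * (M + 1) = ρ * M + ρ := by ring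
        omega
      have h1 := ih (quo F z) (l - ρ) hG hl' (T.erase z) (by
        intro w hw
        obtain ⟨hwz, hwT⟩ := Finset.mem_erase.mp hw
        obtain ⟨hw1, hw0⟩ := hT w hwT
        refine ⟨hw1, ?_⟩
        have e2 : ev F w - ev F z = (w - z) * ev (quo F z) w := by
          conv_lhs => rw [e]
          rw [ev_add _ _ hw1, ev_mul _ _ hw1, ev_sub _ _ hw1, ev_X, ev_C, ev_C, ← e]
          ring
        have e3 : (p : ℤ_[p]) ^ l ∣ (w - z) * ev (quo F z) w := by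
          rw [← e2]; exact dvd_sub hw0 hz0
        exact pow_dvd_of_mul (hsep w hwT z hz hwz) e3 hl2) (by
        intro w hw w' hw' hne
        exact hsep w (Finset.mem_erase.mp hw).2 w' (Finset.mem_erase.mp hw').2 hne)
      rw [Finset.card_erase_of_mem hz] at h1
      omega

/-- Near zeros, from the content. -/
lemma near_zeros_of_content {F : ℤ_[p]⟦X⟧} {e M ρ l : ℕ}
    (h1 : ∀ n, (p : ℤ_[p]) ^ e ∣ coeff n F)
    (h2 : ¬ (p : ℤ_[p]) ^ (e + 1) ∣ coeff M F) (hl : e + ρ * M < l) (T : Finset ℤ_[p])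
    (hT : ∀ z ∈ T, ‖z‖ < 1 ∧ (p : ℤ_[p]) ^ l ∣ ev F z)
    (hsep : ∀ z ∈ T, ∀ z' ∈ T, z ≠ z' → z - z' ∣ (p : ℤ_[p]) ^ ρ) : T.card ≤ M := by
  choose g hg using h1
  have hF : F = C ((p : ℤ_[p]) ^ e) * PowerSeries.mk g := by
    ext n
    rw [coeff_C_mul, coeff_mk]
    exact hg n
  refine near_zeros_le ρ M (PowerSeries.mk g) (l - e) ?_ (by omega) T (fun z hz => ?_) hsep
  · rw [coeff_mk]
    apply norm_eq_one_of_not_dvd
    intro h
    apply h2
    rw [hg M, pow_succ]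
    exact mul_dvd_mul_left _ h
  · obtain ⟨hz1, hz0⟩ := hT z hz
    refine ⟨hz1, ?_⟩
    rw [hF, ev_mul _ _ hz1, ev_C] at hz0
    exact pow_dvd_of_mul dvd_rfl hz0 (by omega)

/-- Uniform content for the primitive members of a finite-dimensional space. -/
theorem comb_content {ι : Type*} [Fintype ι] (F : ι → ℤ_[p]⟦X⟧)
    (hF : ∀ c : ι → ℤ_[p], c ≠ 0 → comb F c ≠ 0) :
    ∃ M e0 : ℕ, ∀ c : ι → ℤ_[p], (∃ i, ‖c i‖ = 1) → ∃ e ≤ e0, ∃ m ≤ M,
      (∀ n, (p : ℤ_[p]) ^ e ∣ coeff n (comb F c)) ∧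
      ¬ (p : ℤ_[p]) ^ (e + 1) ∣ coeff m (comb F c) := by
  classical
  set S : Set (ι → ℤ_[p]) := {c | ∃ i, ‖c i‖ = 1} with hS
  have hSc : IsCompact S := by
    apply IsClosed.isCompact
    have : S = ⋃ i, {c : ι → ℤ_[p] | ‖c i‖ = 1} := by ext c; simp [hS]
    rw [this]
    refine isClosed_iUnion_of_finite fun i => ?_
    exact isClosed_eq (continuous_norm.comp (continuous_apply i)) continuous_const
  suffices key : ∃ M e0 : ℕ, ∀ c ∈ S, ∃ e ≤ e0, ∃ m ≤ M,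
      (∀ n, (p : ℤ_[p]) ^ e ∣ coeff n (comb F c)) ∧
      ¬ (p : ℤ_[p]) ^ (e + 1) ∣ coeff m (comb F c) from key
  refine hSc.induction_on (p := fun s : Set (ι → ℤ_[p]) => ∃ M e0 : ℕ, ∀ c ∈ s, ∃ e ≤ e0, ∃ m ≤ M,
      (∀ n, (p : ℤ_[p]) ^ e ∣ coeff n (comb F c)) ∧
      ¬ (p : ℤ_[p]) ^ (e + 1) ∣ coeff m (comb F c)) ?_ ?_ ?_ ?_
  · exact ⟨0, 0, fun c hc => absurd hc (Set.notMem_empty c)⟩
  · rintro s t hst ⟨M, e0, hM⟩
    exact ⟨M, e0, fun c hc => hM c (hst hc)⟩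
  · rintro s t ⟨M1, e1, h1⟩ ⟨M2, e2, h2⟩
    refine ⟨max M1 M2, max e1 e2, fun c hc => ?_⟩
    rcases hc with hc | hc
    · obtain ⟨e, he, m, hm, h⟩ := h1 c hc
      exact ⟨e, he.trans (le_max_left _ _), m, hm.trans (le_max_left _ _), h⟩
    · obtain ⟨e, he, m, hm, h⟩ := h2 c hc
      exact ⟨e, he.trans (le_max_right _ _), m, hm.trans (le_max_right _ _), h⟩
  · intro c0 hc0
    have hne : c0 ≠ 0 := by
      rintro rfl
      obtain ⟨i, hi⟩ := hc0
      simp at hi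
    have hex : ∃ n, coeff n (comb F c0) ≠ 0 := by
      by_contra h
      push Not at h
      exact hF c0 hne (PowerSeries.ext fun n => by rw [h n, map_zero])
    obtain ⟨e, M, he, hM⟩ := exists_content hex
    refine ⟨{c | ∀ i, ‖c i - c0 i‖ < (p : ℝ) ^ (-(e : ℤ))}, ?_, M, e, ?_⟩
    · apply mem_nhdsWithin_of_mem_nhds
      have hopen : IsOpen {c : ι → ℤ_[p] | ∀ i, ‖c i - c0 i‖ < (p : ℝ) ^ (-(e : ℤ))} := by
        have : {c : ι → ℤ_[p] | ∀ i, ‖c i - c0 i‖ < (p : ℝ) ^ (-(e : ℤ))} =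
            ⋂ i, {c : ι → ℤ_[p] | ‖c i - c0 i‖ < (p : ℝ) ^ (-(e : ℤ))} := by ext c; simp
        rw [this]
        refine isOpen_iInter_of_finite fun i => ?_
        exact isOpen_lt (continuous_norm.comp ((continuous_apply i).sub continuous_const))
          continuous_const
      refine hopen.mem_nhds fun i => ?_
      rw [sub_self, norm_zero]
      exact zpow_pos (by exact_mod_cast hp.out.pos) _
    · intro c hc
      have hd : ∀ i, (p : ℤ_[p]) ^ (e + 1) ∣ c i - c0 i := by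
        intro i
        have h1 := hc i
        have h2 := (PadicInt.norm_le_pow_iff_norm_lt_pow_add_one (c i - c0 i)
          (-((e : ℤ) + 1))).mpr (by
            rw [show -((e : ℤ) + 1) + 1 = -(e : ℤ) by ring]; exact h1)
        have h3 := (PadicInt.norm_le_pow_iff_mem_span_pow (c i - c0 i) (e + 1)).mp (by
          push_cast; exact h2)
        exact Ideal.mem_span_singleton.mp h3
      have hdn : ∀ n, (p : ℤ_[p]) ^ (e + 1) ∣ coeff n (comb F c) - coeff n (comb F c0) := by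
        intro n
        rw [coeff_comb, coeff_comb, ← Finset.sum_sub_distrib]
        refine Finset.dvd_sum fun i _ => ?_
        rw [← sub_mul]
        exact Dvd.dvd.mul_right (hd i) _
      refine ⟨e, le_rfl, M, le_rfl, ?_, ?_⟩
      · intro n
        have h1 := (pow_dvd_pow (p : ℤ_[p]) (Nat.le_succ e)).trans (hdn n)
        have := dvd_add h1 (he n)
        simpa using this
      · intro h
        apply hM
        have := dvd_sub h (hdn M)
        simpa using this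

/-- A nonzero vector is a power of `p` times a primitive vector. -/
lemma exists_primitive {ι : Type*} [Fintype ι] {c : ι → ℤ_[p]} {κ : ℕ}
    (hc : ∃ i, ¬ (p : ℤ_[p]) ^ (κ + 1) ∣ c i) :
    ∃ (k : ℕ) (c1 : ι → ℤ_[p]), k ≤ κ ∧ (∃ i, ‖c1 i‖ = 1) ∧ ∀ i, c i = (p : ℤ_[p]) ^ k * c1 i := by
  classical
  have hex : ∃ n : ℕ, ∃ i, ¬ (p : ℤ_[p]) ^ (n + 1) ∣ c i := ⟨κ, hc⟩
  obtain ⟨i, hi⟩ := Nat.find_spec hex
  have hall : ∀ j, (p : ℤ_[p]) ^ Nat.find hex ∣ c j := by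
    intro j
    rcases Nat.eq_zero_or_pos (Nat.find hex) with h | h
    · rw [h, pow_zero]; exact one_dvd _
    · have := Nat.find_min hex (m := Nat.find hex - 1) (by omega)
      push Not at this
      have h2 := this j
      rwa [Nat.sub_add_cancel h] at h2
  choose c1 hc1 using hall
  refine ⟨Nat.find hex, c1, Nat.find_le hc, ⟨i, norm_eq_one_of_not_dvd fun h => hi ?_⟩, hc1⟩
  rw [hc1 i, pow_succ]
  exact mul_dvd_mul_left _ h

/-- Uniform bound for separated near zeros. -/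
theorem comb_near {ι : Type*} [Fintype ι] (F : ι → ℤ_[p]⟦X⟧)
    (hF : ∀ c : ι → ℤ_[p], c ≠ 0 → comb F c ≠ 0) :
    ∃ M e0 : ℕ, ∀ (c : ι → ℤ_[p]) (κ ρ l : ℕ), (∃ i, ¬ (p : ℤ_[p]) ^ (κ + 1) ∣ c i) →
      κ + e0 + ρ * M < l → ∀ T : Finset ℤ_[p],
      (∀ z ∈ T, ‖z‖ < 1 ∧ (p : ℤ_[p]) ^ l ∣ ev (comb F c) z) →
      (∀ z ∈ T, ∀ z' ∈ T, z ≠ z' → z - z' ∣ (p : ℤ_[p]) ^ ρ) → T.card ≤ M := by
  obtain ⟨M, e0, hM⟩ := comb_content F hF
  refine ⟨M, e0, fun c κ ρ l hc hl T hT hsep => ?_⟩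
  obtain ⟨k, c1, hk, hc1, hcc⟩ := exists_primitive hc
  obtain ⟨e, he, m, hm, h1, h2⟩ := hM c1 hc1
  have hρ : ρ * m ≤ ρ * M := Nat.mul_le_mul_left _ hm
  refine (near_zeros_of_content h1 h2 (l := l - k) (ρ := ρ) (by omega) T
    (fun z hz => ?_) hsep).trans hm
  obtain ⟨hz1, hz0⟩ := hT z hz
  refine ⟨hz1, ?_⟩
  have e1 : comb F c = C ((p : ℤ_[p]) ^ k) * comb F c1 := by
    rw [comb, comb, Finset.mul_sum]
    refine Finset.sum_congr rfl fun i _ => ?_
    rw [hcc i, map_mul, mul_assoc]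
  rw [e1, ev_mul _ _ hz1, ev_C] at hz0
  exact pow_dvd_of_mul dvd_rfl hz0 (by omega)

end Pool.Agent.Lib.MP_3550b5_nt
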