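import Pool.Agent.Lib.MP_3550b5_nt.TP.Near

/-! Approximate points on an arc: counting. -/

namespace Pool.Agent.Lib.MP_3550b5_nt

open PowerSeries

variable {p : ℕ} [hp : Fact p.Prime]

lemma dvd_iff_zmod {l : ℕ} {x y : ℤ_[p]} :
    (p : ℤ_[p]) ^ l ∣ x - y ↔ PadicInt.toZModPow l x = PadicInt.toZModPow l y := by
  rw [← sub_eq_zero, ← map_sub, ← RingHom.mem_ker, PadicInt.ker_toZModPow,
    Ideal.mem_span_singleton]

lemma dvd_det_sub {ι : Type*} [Fintype ι] [DecidableEq ι] {l : ℕ} {P Q : Matrix ι ι ℤ_[p]}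
    (h : ∀ i j, (p : ℤ_[p]) ^ l ∣ P i j - Q i j) : (p : ℤ_[p]) ^ l ∣ P.det - Q.det := by
  rw [dvd_iff_zmod, RingHom.map_det, RingHom.map_det]
  congr 1
  ext i j
  exact dvd_iff_zmod.mp (h i j)

/-- Relations between the values of the monomials, approximate version: the coefficients. -/
lemma comb_approx {A B : ℤ_[p]⟦X⟧} {d l : ℕ} {γ : Mon d → ℤ_[p]} {c x y z : ℤ_[p]}
    (hz : ‖z‖ < 1) (hx : (p : ℤ_[p]) ^ l ∣ x - c * ev A z) (hy : (p : ℤ_[p]) ^ l ∣ y - c * ev B z)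
    (hrel : ∑ μ : Mon d, γ μ * (x ^ (μ.1 : ℕ) * y ^ (μ.2 : ℕ)) = 0) :
    (p : ℤ_[p]) ^ l ∣
      ev (comb (monF A B d) fun μ => γ μ * c ^ ((μ.1 : ℕ) + (μ.2 : ℕ))) z := by
  have h1 : (p : ℤ_[p]) ^ l ∣
      ev (comb (monF A B d) fun μ => γ μ * c ^ ((μ.1 : ℕ) + (μ.2 : ℕ))) z - 0 := by
    rw [← hrel, ev_comb_monF _ hz, dvd_iff_zmod, map_sum, map_sum]
    refine Finset.sum_congr rfl fun μ _ => ?_
    have e1 := dvd_iff_zmod.mp hx
    have e2 := dvd_iff_zmod.mp hy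
    have e3 : γ μ * c ^ ((μ.1 : ℕ) + (μ.2 : ℕ)) * (ev A z ^ (μ.1 : ℕ) * ev B z ^ (μ.2 : ℕ)) =
        γ μ * ((c * ev A z) ^ (μ.1 : ℕ) * (c * ev B z) ^ (μ.2 : ℕ)) := by
      rw [mul_pow, mul_pow, pow_add]; ring
    rw [e3, map_mul, map_mul, map_mul, map_mul, map_pow, map_pow, map_pow, map_pow, e1, e2]
  rwa [sub_zero] at h1

lemma coeff_not_dvd {d κ : ℕ} {γ : Mon d → ℤ_[p]} {c : ℤ_[p]} (hc : c ∣ (p : ℤ_[p]) ^ κ)
    (hγ : ∃ i, ‖γ i‖ = 1) :
    ∃ i : Mon d, ¬ (p : ℤ_[p]) ^ (2 * d * κ + 1) ∣ γ i * c ^ ((i.1 : ℕ) + (i.2 : ℕ)) := by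
  obtain ⟨i, hi⟩ := hγ
  refine ⟨i, fun h => ?_⟩
  have h1 : c ^ ((i.1 : ℕ) + (i.2 : ℕ)) ∣ (p : ℤ_[p]) ^ (2 * d * κ) := by
    refine (pow_dvd_pow_of_dvd hc _).trans ?_
    rw [← pow_mul]
    apply pow_dvd_pow
    rw [mul_comm]
    apply Nat.mul_le_mul_right
    have h1 := i.1.2
    have h2 := i.2.2
    omega
  rw [mul_comm (γ i)] at h
  have h2 := pow_dvd_of_mul h1 h (by omega)
  rw [show 2 * d * κ + 1 - 2 * d * κ = 1 by omega, pow_one] at h2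
  have h3 := (PadicInt.norm_lt_one_iff_dvd _).mpr h2
  linarith

/-- Points of a small disc, approximate version. -/
lemma near_class_bound {A B : ℤ_[p]⟦X⟧} {K d M e0 : ℕ}
    (hM : ∀ (c : Mon d → ℤ_[p]) (κ ρ l : ℕ), (∃ i, ¬ (p : ℤ_[p]) ^ (κ + 1) ∣ c i) →
      κ + e0 + ρ * M < l → ∀ T : Finset ℤ_[p],
      (∀ z ∈ T, ‖z‖ < 1 ∧ (p : ℤ_[p]) ^ l ∣ ev (comb (monF A B d) c) z) →
      (∀ z ∈ T, ∀ z' ∈ T, z ≠ z' → z - z' ∣ (p : ℤ_[p]) ^ ρ) → T.card ≤ M)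
    {N j h κ ρ l : ℕ} (hN : 1 ≤ N) (hj : 1 ≤ j) {c : ℤ_[p]} (hc : c ∣ (p : ℤ_[p]) ^ κ)
    (hbig : (Fintype.card (Mon d)).factorial * (N ^ (2 * d * K)) ^ Fintype.card (Mon d) <
      p ^ (j * (h * (Fintype.card (Mon d) - h))))
    (hjl : j * (h * (Fintype.card (Mon d) - h)) ≤ l) (hl : 2 * d * κ + e0 + ρ * M < l)
    (T : Finset ℤ_[p])
    (hT : ∀ z ∈ T, ‖z‖ < 1 ∧ ∃ m n : ℤ, |m| ≤ N ∧ |n| ≤ N ∧
      (p : ℤ_[p]) ^ l ∣ (m : ℤ_[p]) ^ K - c * ev A z ∧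
      (p : ℤ_[p]) ^ l ∣ (n : ℤ_[p]) ^ K - c * ev B z)
    (hcong : ∀ z ∈ T, ∀ z' ∈ T, (p : ℤ_[p]) ^ j ∣ z - z')
    (hsep : ∀ z ∈ T, ∀ z' ∈ T, z ≠ z' → z - z' ∣ (p : ℤ_[p]) ^ ρ) : T.card ≤ M := by
  classical
  rcases T.eq_empty_or_nonempty with h0 | ⟨z0, hz0⟩
  · simp [h0]
  have hT' : ∀ z : T, ∃ m n : ℤ, |m| ≤ N ∧ |n| ≤ N ∧
      (p : ℤ_[p]) ^ l ∣ (m : ℤ_[p]) ^ K - c * ev A z ∧
      (p : ℤ_[p]) ^ l ∣ (n : ℤ_[p]) ^ K - c * ev B z := fun z => (hT z z.2).2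
  choose m n hm hn hmA hnB using hT'
  obtain ⟨γ, hγ, hrel⟩ := exists_relation (p := p) (ι := Mon d) (κ := T)
    (fun z μ => ((m z : ℤ_[p]) ^ K) ^ (μ.1 : ℕ) * ((n z : ℤ_[p]) ^ K) ^ (μ.2 : ℕ)) (by
      intro s
      set D := (Matrix.of fun (i : Mon d) (j : Mon d) => ev (monF A B d i) (s j : ℤ_[p])).det
        with hDdef
      set Z : Matrix (Mon d) (Mon d) ℤ := Matrix.of fun i j =>
        m (s j) ^ (K * (i.1 : ℕ)) * n (s j) ^ (K * (i.2 : ℕ)) with hZ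
      have hZ' : (Matrix.of fun (i : Mon d) (j : Mon d) =>
          ((m (s j) : ℤ_[p]) ^ K) ^ (i.1 : ℕ) * ((n (s j) : ℤ_[p]) ^ K) ^ (i.2 : ℕ)).det =
          ((Z.det : ℤ) : ℤ_[p]) := by
        have h1 := RingHom.map_det (Int.castRingHom ℤ_[p]) Z
        rw [eq_comm]
        refine Eq.trans h1 ?_
        congr 1
        ext i j
        simp [hZ, pow_mul]
      suffices hz : Z.det = 0 by
        rw [hZ', hz, Int.cast_zero]
      by_contra hne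
      have hdvd : ((p : ℤ_[p]) ^ j) ^ (h * (Fintype.card (Mon d) - h)) ∣ D :=
        det_ev_dvd (monF A B d) (fun i => (s i : ℤ_[p])) z0
          ((PadicInt.norm_lt_one_iff_dvd z0).mp (hT z0 hz0).1) hj
          (fun i => hcong _ (s i).2 _ hz0) h
      have hdvd2 : (p : ℤ_[p]) ^ (j * (h * (Fintype.card (Mon d) - h))) ∣
          ((Z.det : ℤ) : ℤ_[p]) := by
        have h1 : (p : ℤ_[p]) ^ l ∣ ((Z.det : ℤ) : ℤ_[p]) -
            (∏ i : Mon d, c ^ ((i.1 : ℕ) + (i.2 : ℕ))) * D := by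
          rw [hDdef, ← Matrix.det_mul_column, ← hZ']
          refine dvd_det_sub fun i j => ?_
          have hz1 : ‖(s j : ℤ_[p])‖ < 1 := (hT _ (s j).2).1
          have e1 : ev (monF A B d i) (s j : ℤ_[p]) =
              ev A (s j) ^ (i.1 : ℕ) * ev B (s j) ^ (i.2 : ℕ) := by
            have := map_mul (evHom (s j : ℤ_[p]) hz1) (A ^ (i.1 : ℕ)) (B ^ (i.2 : ℕ))
            rw [map_pow, map_pow] at this
            exact this
          simp only [Matrix.of_apply, e1]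
          rw [dvd_iff_zmod]
          have e2 := dvd_iff_zmod.mp (hmA (s j))
          have e3 := dvd_iff_zmod.mp (hnB (s j))
          have e4 : c ^ ((i.1 : ℕ) + (i.2 : ℕ)) *
              (ev A (s j) ^ (i.1 : ℕ) * ev B (s j) ^ (i.2 : ℕ)) =
              (c * ev A (s j)) ^ (i.1 : ℕ) * (c * ev B (s j)) ^ (i.2 : ℕ) := by
            rw [mul_pow, mul_pow, pow_add]; ring
          rw [e4]
          rw [map_mul, map_mul (PadicInt.toZModPow l) ((c * ev A (s j)) ^ (i.1 : ℕ)),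
            map_pow _ ((m (s j) : ℤ_[p]) ^ K), map_pow _ ((n (s j) : ℤ_[p]) ^ K),
            map_pow _ (c * ev A (s j)), map_pow _ (c * ev B (s j)), e2, e3]
        have h2 : (p : ℤ_[p]) ^ (j * (h * (Fintype.card (Mon d) - h))) ∣
            (∏ i : Mon d, c ^ ((i.1 : ℕ) + (i.2 : ℕ))) * D := by
          rw [pow_mul]
          exact Dvd.dvd.mul_left hdvd _
        have h3 := dvd_add ((pow_dvd_pow _ hjl).trans h1) h2
        simpa using h3
      rw [PadicInt.pow_p_dvd_int_iff] at hdvd2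
      have hle := Int.le_of_dvd (abs_pos.mpr hne) ((dvd_abs _ _).mpr hdvd2)
      have hub : |Z.det| ≤ (Fintype.card (Mon d)).factorial •
          (((N : ℤ) ^ (2 * d * K)) ^ Fintype.card (Mon d)) := by
        refine Matrix.det_le (abv := AbsoluteValue.abs) fun i j => ?_
        simp only [hZ, Matrix.of_apply, AbsoluteValue.abs_apply, abs_mul, abs_pow]
        have hN' : (1 : ℤ) ≤ N := by exact_mod_cast hN
        calc |m (s j)| ^ (K * (i.1 : ℕ)) * |n (s j)| ^ (K * (i.2 : ℕ)) ≤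
              (N : ℤ) ^ (K * (i.1 : ℕ)) * (N : ℤ) ^ (K * (i.2 : ℕ)) := by
              gcongr
              · exact hm _
              · exact hn _
          _ = (N : ℤ) ^ (K * ((i.1 : ℕ) + (i.2 : ℕ))) := by rw [← pow_add, mul_add]
          _ ≤ (N : ℤ) ^ (2 * d * K) := by
              apply pow_le_pow_right₀ hN'
              have h1 : (i.1 : ℕ) ≤ d := by have := i.1.2; omega
              have h2 : (i.2 : ℕ) ≤ d := by have := i.2.2; omega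
              calc K * ((i.1 : ℕ) + (i.2 : ℕ)) ≤ K * (d + d) := by gcongr
                _ = 2 * d * K := by ring
      have h5 := hle.trans hub
      rw [nsmul_eq_mul] at h5
      have h6 : p ^ (j * (h * (Fintype.card (Mon d) - h))) ≤
          (Fintype.card (Mon d)).factorial * (N ^ (2 * d * K)) ^ Fintype.card (Mon d) := by
        exact_mod_cast h5
      omega)
  -- a primitive relation
  obtain ⟨κ0, hκ0⟩ : ∃ κ0, ∃ i, ¬ (p : ℤ_[p]) ^ (κ0 + 1) ∣ γ i := by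
    obtain ⟨i, hi⟩ : ∃ i, γ i ≠ 0 := by
      by_contra h
      push Not at h
      exact hγ (funext h)
    obtain ⟨e, _, -, h⟩ := exists_content (f := fun _ => γ i) ⟨0, hi⟩
    exact ⟨e, i, h⟩
  obtain ⟨k, γ1, -, hγ1, hγe⟩ := exists_primitive hκ0
  have hrel1 : ∀ z : T, ∑ μ : Mon d, γ1 μ *
      (((m z : ℤ_[p]) ^ K) ^ (μ.1 : ℕ) * ((n z : ℤ_[p]) ^ K) ^ (μ.2 : ℕ)) = 0 := by
    intro z
    have h1 := hrel z
    have h2 : (p : ℤ_[p]) ^ k * ∑ μ : Mon d, γ1 μ *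
      (((m z : ℤ_[p]) ^ K) ^ (μ.1 : ℕ) * ((n z : ℤ_[p]) ^ K) ^ (μ.2 : ℕ)) = 0 := by
      rw [Finset.mul_sum, ← h1]
      refine Finset.sum_congr rfl fun μ _ => ?_
      rw [hγe μ, mul_assoc]
    exact (mul_eq_zero.mp h2).resolve_left (pow_ne_zero _ p_ne)
  refine hM _ (2 * d * κ) ρ l (coeff_not_dvd hc hγ1) hl T (fun z hz => ?_) hsep
  exact ⟨(hT z hz).1, comb_approx (hT z hz).1 (hmA ⟨z, hz⟩) (hnB ⟨z, hz⟩) (hrel1 ⟨z, hz⟩)⟩

lemma int_dvd_pow {t : ℤ} {ρ : ℕ} (ht : t ≠ 0) (h : |t| < (p : ℤ) ^ ρ) :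
    (t : ℤ_[p]) ∣ (p : ℤ_[p]) ^ ρ := by
  rcases ValuationRing.dvd_total (t : ℤ_[p]) ((p : ℤ_[p]) ^ ρ) with h1 | h1
  · exact h1
  · exfalso
    rw [PadicInt.pow_p_dvd_int_iff] at h1
    have h2 := Int.le_of_dvd (abs_pos.mpr ht) ((dvd_abs _ _).mpr h1)
    linarith

/-- The least power of `p` above a bound. -/
lemma exists_pow_gt (x : ℕ) (hx : 1 ≤ x) {H : ℕ} (hH : 1 ≤ H) :
    ∃ j, 1 ≤ j ∧ x < p ^ (j * H) ∧ p ^ ((j - 1) * H) ≤ x := by
  classical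
  have hp1 : 1 < p := hp.out.one_lt
  have hex : ∃ j, x < p ^ (j * H) := by
    refine ⟨x, ?_⟩
    calc x < 2 ^ x := Nat.lt_two_pow_self
      _ ≤ p ^ x := Nat.pow_le_pow_left hp1 _
      _ ≤ p ^ (x * H) := Nat.pow_le_pow_right hp1.le (Nat.le_mul_of_pos_right _ hH)
  refine ⟨Nat.find hex, ?_, Nat.find_spec hex, ?_⟩
  · rcases Nat.eq_zero_or_pos (Nat.find hex) with h0 | h0
    · have := Nat.find_spec hex
      rw [h0, zero_mul, pow_zero] at this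
      omega
    · exact h0
  · rcases Nat.eq_zero_or_pos (Nat.find hex) with h0 | h0
    · rw [h0]; simpa using hx
    · have := Nat.find_min hex (m := Nat.find hex - 1) (by omega)
      push Not at this
      exact this

/-- Approximate integral points on an arc. -/
theorem near_arc_count {A B : ℤ_[p]⟦X⟧} (hAB : AlgIndep A B) (K κ : ℕ) {ε : ℝ} (hε : 0 < ε) :
    ∃ (C : ℝ) (C1 a1 : ℕ), ∀ (c : ℤ_[p]) (N l : ℕ), c ∣ (p : ℤ_[p]) ^ κ → 1 ≤ N →
      C1 * N ^ a1 ≤ p ^ l →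
      ∀ T : Finset ℤ_[p], (∀ z ∈ T, ‖z‖ < 1 ∧ ∃ m n : ℤ, |m| ≤ N ∧ |n| ≤ N ∧
        (p : ℤ_[p]) ^ l ∣ (m : ℤ_[p]) ^ K - c * ev A z ∧
        (p : ℤ_[p]) ^ l ∣ (n : ℤ_[p]) ^ K - c * ev B z) →
      (∀ z ∈ T, ∀ z' ∈ T, z ≠ z' → ∃ t : ℤ, t ≠ 0 ∧ |t| ≤ 2 * (N : ℤ) ^ 2 ∧
        z - z' ∣ (t : ℤ_[p])) →
        (T.card : ℝ) ≤ C * (N : ℝ) ^ ε := by
  classical
  obtain ⟨d0, hd0⟩ := exists_nat_gt (16 * K / ε)
  set d := d0 + 1 with hd
  have hdε : 16 * (K : ℝ) ≤ ε * (d + 1) := by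
    have h1 : 16 * K / ε ≤ (d : ℝ) + 1 := by rw [hd]; push_cast; linarith
    rw [div_le_iff₀ hε] at h1
    linarith
  set L := Fintype.card (Mon d) with hL
  have hLd : L = (d + 1) ^ 2 := by
    rw [hL, Fintype.card_prod, Fintype.card_fin]; ring
  set h := L / 2 with hh
  set H := h * (L - h) with hH
  obtain ⟨M, e0, hM⟩ := comb_near (monF A B d) (comb_mon_ne hAB d)
  have hL4 : 4 ≤ L := by rw [hLd, hd]; nlinarith [Nat.zero_le d0]
  have hHL : L ^ 2 ≤ 8 * H := by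
    have h1 : L ≤ 2 * h + 1 := by omega
    have h2 : 2 * h ≤ L := by omega
    obtain ⟨g, hg⟩ : ∃ g, L = h + g := ⟨L - h, by omega⟩
    rw [hH, show L - h = g by omega, hg]
    have h3 : h ≤ g := by omega
    have h4 : g ≤ h + 1 := by omega
    have h5 : 2 ≤ h := by omega
    nlinarith
  have hH1 : 1 ≤ H := by nlinarith
  have hp1 : 1 < p := hp.out.one_lt
  refine ⟨p * L.factorial * M, p ^ H * L.factorial * (p ^ (2 * d * κ + e0 + 1) * (2 * p) ^ M),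
    2 * d * K * L + 2 * M, fun c N l hc hN hl T hT hsep => ?_⟩
  set W := L.factorial * (N ^ (2 * d * K)) ^ L with hW
  have hW1 : 1 ≤ W := Nat.mul_pos (Nat.factorial_pos _) (pow_pos (pow_pos hN _) _)
  obtain ⟨j, hj0, hj1, hjm⟩ := exists_pow_gt (p := p) W hW1 hH1
  obtain ⟨ρ, hρ0, hρ1, hρm⟩ := exists_pow_gt (p := p) (2 * N ^ 2) (by
    have h1 : 0 < N := hN
    have h2 : 0 < N ^ 2 := by positivity
    omega) le_rfl
  rw [mul_one] at hρ1 hρm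
  -- the two lower bounds for `l`
  have hpow : N ^ (2 * d * K * L + 2 * M) = (N ^ (2 * d * K)) ^ L * (N ^ 2) ^ M := by
    rw [pow_add, pow_mul N (2 * d * K) L, pow_mul N 2 M]
  have hA1 : 1 ≤ p ^ (2 * d * κ + e0 + 1) * (2 * p) ^ M * (N ^ 2) ^ M := by
    have h0 : 0 < p := hp.out.pos
    have h1 : 0 < N := hN
    exact Nat.succ_le_of_lt (by positivity)
  have hA2 : 1 ≤ p ^ H * W := Nat.mul_pos (pow_pos hp.out.pos _) hW1
  have hprod : p ^ H * L.factorial * (p ^ (2 * d * κ + e0 + 1) * (2 * p) ^ M) *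
      N ^ (2 * d * K * L + 2 * M) =
      (p ^ H * W) * (p ^ (2 * d * κ + e0 + 1) * (2 * p) ^ M * (N ^ 2) ^ M) := by
    rw [hpow, hW]; ring
  rw [hprod] at hl
  have hjl : j * H ≤ l := by
    have h1 : p ^ (j * H) ≤ p ^ l := by
      calc p ^ (j * H) = p ^ H * p ^ ((j - 1) * H) := by
            rw [← pow_add]
            congr 1
            obtain ⟨j', rfl⟩ : ∃ j', j = j' + 1 := ⟨j - 1, by omega⟩
            rw [Nat.add_sub_cancel]; ring
        _ ≤ p ^ H * W := Nat.mul_le_mul_left _ hjm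
        _ ≤ (p ^ H * W) * (p ^ (2 * d * κ + e0 + 1) * (2 * p) ^ M * (N ^ 2) ^ M) :=
            Nat.le_mul_of_pos_right _ hA1
        _ ≤ p ^ l := hl
    exact (Nat.pow_le_pow_iff_right hp1).mp h1
  have hl2 : 2 * d * κ + e0 + ρ * M < l := by
    have h1 : p ^ (2 * d * κ + e0 + ρ * M + 1) ≤ p ^ l := by
      calc p ^ (2 * d * κ + e0 + ρ * M + 1) = p ^ (2 * d * κ + e0 + 1) * (p ^ ρ) ^ M := by
            rw [← pow_mul, ← pow_add]; congr 1; ring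
        _ ≤ p ^ (2 * d * κ + e0 + 1) * (2 * p * N ^ 2) ^ M := by
            gcongr
            calc p ^ ρ = p * p ^ (ρ - 1) := by rw [← pow_succ', Nat.sub_add_cancel hρ0]
              _ ≤ p * (2 * N ^ 2) := Nat.mul_le_mul_left _ hρm
              _ = 2 * p * N ^ 2 := by ring
        _ = p ^ (2 * d * κ + e0 + 1) * (2 * p) ^ M * (N ^ 2) ^ M := by rw [mul_pow]; ring
        _ ≤ (p ^ H * W) * (p ^ (2 * d * κ + e0 + 1) * (2 * p) ^ M * (N ^ 2) ^ M) :=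
            Nat.le_mul_of_pos_left _ hA2
        _ ≤ p ^ l := hl
    exact (Nat.pow_le_pow_iff_right hp1).mp h1
  have hsep' : ∀ z ∈ T, ∀ z' ∈ T, z ≠ z' → z - z' ∣ (p : ℤ_[p]) ^ ρ := by
    intro z hz z' hz' hne
    obtain ⟨t, ht0, ht, hdvd⟩ := hsep z hz z' hz' hne
    refine hdvd.trans (int_dvd_pow ht0 (lt_of_le_of_lt ht ?_))
    exact_mod_cast hρ1
  -- classes
  have hcard : T.card ≤ M * p ^ j := by
    have h1 := Finset.card_le_mul_card_image (f := fun z : ℤ_[p] => PadicInt.toZModPow j z) T M (by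
      intro r _
      refine near_class_bound hM (N := N) (j := j) (h := h) hN hj0 hc hj1 hjl hl2 _ ?_ ?_ ?_
      · intro z hz
        exact hT z (Finset.mem_filter.mp hz).1
      · intro z hz z' hz'
        have e1 := (Finset.mem_filter.mp hz).2
        have e2 := (Finset.mem_filter.mp hz').2
        rw [dvd_iff_zmod, e1, e2]
      · intro z hz z' hz'
        exact hsep' z (Finset.mem_filter.mp hz).1 z' (Finset.mem_filter.mp hz').1)
    refine h1.trans (Nat.mul_le_mul_left _ ?_)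
    have : NeZero (p ^ j) := ⟨(pow_pos hp.out.pos _).ne'⟩
    calc _ ≤ Fintype.card (ZMod (p ^ j)) := Finset.card_le_univ _
      _ = p ^ j := ZMod.card _
  -- the estimate for p ^ (j - 1)
  have hx : ((p : ℝ) ^ (j - 1)) ≤ L.factorial * (N : ℝ) ^ ε := by
    have hF1 : (1 : ℝ) ≤ L.factorial := by exact_mod_cast Nat.factorial_pos _
    have hN1 : (1 : ℝ) ≤ N := by exact_mod_cast hN
    apply le_of_pow_le_pow_left₀ (n := H) (by omega) (by positivity)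
    have h1 : ((p : ℝ) ^ (j - 1)) ^ H ≤ L.factorial * (N : ℝ) ^ (2 * d * K * L) := by
      have e1 : (p ^ (j - 1)) ^ H = p ^ ((j - 1) * H) := (pow_mul _ _ _).symm
      have e2 : N ^ (2 * d * K * L) = (N ^ (2 * d * K)) ^ L := pow_mul _ _ _
      have h2 : (p ^ (j - 1)) ^ H ≤ L.factorial * N ^ (2 * d * K * L) := by
        rw [e1, e2]; exact hjm
      exact_mod_cast h2
    refine h1.trans ?_
    rw [mul_pow]
    have h2 : (L.factorial : ℝ) ≤ (L.factorial : ℝ) ^ H := le_self_pow₀ hF1 (by omega)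
    have h3 : (N : ℝ) ^ (2 * d * K * L) ≤ ((N : ℝ) ^ ε) ^ H := by
      rw [← Real.rpow_natCast, ← Real.rpow_natCast, ← Real.rpow_mul (by positivity)]
      apply Real.rpow_le_rpow_of_exponent_le hN1
      push_cast
      have h4 : (L : ℝ) ^ 2 ≤ 8 * H := by exact_mod_cast hHL
      have h5 : (L : ℝ) = (d + 1) ^ 2 := by rw [hLd]; push_cast; ring
      have h6 : (0 : ℝ) ≤ L := by positivity
      have h7 : 16 * (K : ℝ) * d ≤ ε * L := by
        rw [h5]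
        have : 16 * (K : ℝ) * d ≤ 16 * K * (d + 1) := by nlinarith [Nat.cast_nonneg (α := ℝ) K]
        nlinarith [hdε]
      nlinarith
    gcongr
  have hM0 : (0 : ℝ) ≤ M := by positivity
  calc (T.card : ℝ) ≤ M * (p : ℝ) ^ j := by exact_mod_cast hcard
    _ = M * p * (p : ℝ) ^ (j - 1) := by
        rw [mul_assoc, ← pow_succ', Nat.sub_add_cancel hj0]
    _ ≤ M * p * (L.factorial * (N : ℝ) ^ ε) := by gcongr
    _ = _ := by ring

end Pool.Agent.Lib.MP_3550b5_nt
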